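import Mathlib

/-! The separator theorem of Alon, Seymour and Thomas for graphs without a `K₅` minor. -/

namespace Pool.Agent.P.MP_8a730c_lc

open Set

variable {U : Type} (Γ : SimpleGraph U)

def Reach (S : Set U) : U → U → Prop :=
  Relation.ReflTransGen (fun x y => Γ.Adj x y ∧ x ∈ S ∧ y ∈ S)

def Conn (S : Set U) : Prop := ∀ a ∈ S, ∀ b ∈ S, Reach Γ S a b

def comp (S : Set U) (a : U) : Set U := {b | a ∈ S ∧ Reach Γ S a b}

def Touch (A B : Set U) : Prop := ∃ a ∈ A, ∃ b ∈ B, Γ.Adj a b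

def nbr (B : Set U) : Set U := {v | v ∉ B ∧ ∃ b ∈ B, Γ.Adj b v}

def NoK5 : Prop := ∀ 𝒟 : Finset (Set U), (∀ C ∈ 𝒟, C.Nonempty ∧ Conn Γ C) →
  (∀ C ∈ 𝒟, ∀ C' ∈ 𝒟, C ≠ C' → Disjoint C C' ∧ Touch Γ C C') → 𝒟.card ≤ 4

variable {Γ}

theorem Reach.refl (S : Set U) (a : U) : Reach Γ S a a := Relation.ReflTransGen.refl

theorem Reach.trans {S : Set U} {a b c : U} (h : Reach Γ S a b) (h' : Reach Γ S b c) :
    Reach Γ S a c := Relation.ReflTransGen.trans h h'

theorem Reach.single {S : Set U} {a b : U} (h : Γ.Adj a b) (ha : a ∈ S) (hb : b ∈ S) :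
    Reach Γ S a b := Relation.ReflTransGen.single ⟨h, ha, hb⟩

theorem Reach.symm {S : Set U} {a b : U} (h : Reach Γ S a b) : Reach Γ S b a := by
  induction h with
  | refl => exact Reach.refl _ _
  | tail _ h2 ih => exact (Reach.single h2.1.symm h2.2.2 h2.2.1).trans ih

theorem Reach.mono {S T : Set U} {a b : U} (h : Reach Γ S a b) (hST : S ⊆ T) :
    Reach Γ T a b := by
  induction h with
  | refl => exact Reach.refl _ _
  | tail _ h2 ih => exact ih.trans (Reach.single h2.1 (hST h2.2.1) (hST h2.2.2))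

/-- Induction along a walk inside `S`. -/
theorem Reach.closed {S T : Set U} {a b : U} (h : Reach Γ S a b) (ha : a ∈ T)
    (hT : ∀ x y, Γ.Adj x y → x ∈ S → y ∈ S → x ∈ T → y ∈ T) : b ∈ T := by
  induction h with
  | refl => exact ha
  | tail _ h2 ih => exact hT _ _ h2.1 h2.2.1 h2.2.2 ih

theorem comp_subset (S : Set U) (a : U) : comp Γ S a ⊆ S := fun _ hb =>
  hb.2.closed hb.1 fun _ _ _ _ h _ => h

theorem comp_closed {S : Set U} {a b c : U} (hb : b ∈ comp Γ S a) (h : Γ.Adj b c) (hc : c ∈ S) :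
    c ∈ comp Γ S a := ⟨hb.1, hb.2.trans (Reach.single h (comp_subset S a hb) hc)⟩

theorem comp_conn (S : Set U) (a : U) : Conn Γ (comp Γ S a) := by
  have key : ∀ b, a ∈ S → Reach Γ S a b → Reach Γ (comp Γ S a) a b := by
    intro b ha h
    induction h with
    | refl => exact Reach.refl _ _
    | tail h1 h2 ih =>
      exact ih.trans (Reach.single h2.1 ⟨ha, h1⟩ (comp_closed ⟨ha, h1⟩ h2.1 h2.2.2))
  intro b hb c hc
  exact (key b hb.1 hb.2).symm.trans (key c hc.1 hc.2)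

theorem Conn.subset_comp {K S : Set U} (hK : Conn Γ K) (hKS : K ⊆ S) {a : U} (ha : a ∈ K) :
    K ⊆ comp Γ S a := fun b hb => ⟨hKS ha, (hK a ha b hb).mono hKS⟩

theorem conn_singleton (a : U) : Conn Γ {a} := by
  rintro b rfl c rfl; exact Reach.refl _ _

theorem Conn.insert {S : Set U} (hS : Conn Γ S) {v w : U} (hv : v ∈ S) (h : Γ.Adj v w) :
    Conn Γ (insert w S) := by
  have key : ∀ b ∈ Insert.insert w S, Reach Γ (Insert.insert w S) v b := by
    rintro b (rfl | hb)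
    · exact Reach.single h (Or.inr hv) (Or.inl rfl)
    · exact (hS v hv b hb).mono (subset_insert _ _)
  intro a ha b hb
  exact (key a ha).symm.trans (key b hb)

theorem Touch.symm {A B : Set U} (h : Touch Γ A B) : Touch Γ B A := by
  obtain ⟨a, ha, b, hb, h⟩ := h
  exact ⟨b, hb, a, ha, h.symm⟩

theorem Touch.mono {A B A' B' : Set U} (h : Touch Γ A B) (hA : A ⊆ A') (hB : B ⊆ B') :
    Touch Γ A' B' := by
  obtain ⟨a, ha, b, hb, h⟩ := h
  exact ⟨a, hA ha, b, hB hb, h⟩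

theorem Conn.union {A B : Set U} (hA : Conn Γ A) (hB : Conn Γ B) (h : Touch Γ A B) :
    Conn Γ (A ∪ B) := by
  obtain ⟨a, ha, b, hb, h⟩ := h
  have key : ∀ x ∈ A ∪ B, Reach Γ (A ∪ B) a x := by
    rintro x (hx | hx)
    · exact (hA a ha x hx).mono subset_union_left
    · exact (Reach.single h (Or.inl ha) (Or.inr hb)).trans ((hB b hb x hx).mono subset_union_right)
  intro x hx y hy
  exact (key x hx).symm.trans (key y hy)

variable [Finite U]

theorem hit (B : Set U) {k : ℕ} (A : Fin k → Set U) (r : ℕ) (hr : 1 ≤ r) :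
    (∃ S ⊆ B, S.Nonempty ∧ Conn Γ S ∧ S.ncard ≤ r ∧ ∀ i, (S ∩ A i).Nonempty) ∨
    ∃ Z ⊆ B, Z.ncard * r ≤ k * B.ncard ∧
      ∀ K ⊆ B \ Z, K.Nonempty → Conn Γ K → ∃ i, Disjoint K (A i) := by
  classical
  let W : ℕ → ℕ → Set U := fun j t => {v | ∃ S ⊆ B, Conn Γ S ∧ v ∈ S ∧ S.ncard ≤ t ∧
    ∀ i : Fin k, i.val < j → (S ∩ A i).Nonempty}
  have hWB : ∀ j t, W j t ⊆ B := by
    rintro j t v ⟨S, h1, -, h2, -⟩; exact h1 h2
  have hWm : ∀ j t, W j t ⊆ W j (t + 1) := by
    rintro j t v ⟨S, h1, h2, h3, h4, h5⟩; exact ⟨S, h1, h2, h3, by omega, h5⟩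
  let Z : ℕ → Set U := fun t => ⋃ i : Fin k, (W (i + 1) (t + 2) \ W (i + 1) (t + 1))
  have htel : ∀ j n, ∑ t ∈ Finset.range n, (W j (t + 2) \ W j (t + 1)).ncard ≤
      (W j (n + 1)).ncard := by
    intro j n
    induction n with
    | zero => simp
    | succ n ih =>
      rw [Finset.sum_range_succ]
      have := ncard_sdiff_add_ncard_of_subset (hWm j (n + 1))
      have e : n + 1 + 1 = n + 2 := rfl
      rw [e] at this ⊢
      omega
  have hsum : ∑ t ∈ Finset.range r, (Z t).ncard ≤ k * B.ncard := by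
    calc ∑ t ∈ Finset.range r, (Z t).ncard
        ≤ ∑ t ∈ Finset.range r, ∑ i : Fin k, (W (i + 1) (t + 2) \ W (i + 1) (t + 1)).ncard :=
          Finset.sum_le_sum fun t _ => by
            simpa [finsum_eq_sum_of_fintype] using
              ncard_iUnion_le_of_finite (fun i : Fin k => W (i + 1) (t + 2) \ W (i + 1) (t + 1))
      _ = ∑ i : Fin k, ∑ t ∈ Finset.range r, (W (i + 1) (t + 2) \ W (i + 1) (t + 1)).ncard :=
          Finset.sum_comm
      _ ≤ ∑ _i : Fin k, B.ncard := Finset.sum_le_sum fun i _ =>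
          (htel _ _).trans (ncard_le_ncard (hWB _ _))
      _ = k * B.ncard := by simp
  obtain ⟨t, ht, hZ⟩ : ∃ t ∈ Finset.range r, (Z t).ncard * r ≤ k * B.ncard := by
    by_contra hc
    push Not at hc
    have h1 : ∑ t ∈ Finset.range r, k * B.ncard < ∑ t ∈ Finset.range r, (Z t).ncard * r :=
      Finset.sum_lt_sum_of_nonempty ⟨0, by simp; omega⟩ hc
    rw [Finset.sum_const, Finset.card_range, smul_eq_mul, ← Finset.sum_mul] at h1
    nlinarith
  by_contra hc
  rw [not_or] at hc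
  refine hc.2 ⟨Z t, ?_, hZ, fun K hK hne hconn => ?_⟩
  · intro v hv
    obtain ⟨i, hi⟩ := mem_iUnion.1 hv
    exact hWB _ _ hi.1
  by_contra hall
  push Not at hall
  have key : ∀ j ≤ k, K ⊆ W j (t + 1) := by
    intro j hj
    induction j with
    | zero =>
      intro v hv
      exact ⟨{v}, by simpa using (hK hv).1, conn_singleton v, rfl, by simp, by simp⟩
    | succ j ih =>
      obtain ⟨a, ha1, ha2⟩ := not_disjoint_iff.1 (hall ⟨j, hj⟩)
      have h0 : a ∈ W (j + 1) (t + 1) := by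
        obtain ⟨S, h1, h2, h3, h4, h5⟩ := ih (by omega) ha1
        refine ⟨S, h1, h2, h3, h4, fun i hi => ?_⟩
        rcases Nat.lt_succ_iff_lt_or_eq.1 hi with h | h
        · exact h5 i h
        · have : i = ⟨j, hj⟩ := Fin.ext h
          exact this ▸ ⟨a, h3, ha2⟩
      intro v hv
      refine (hconn a ha1 v hv).closed h0 fun x y hxy _ hy hx => ?_
      by_contra hy'
      refine (hK hy).2 (mem_iUnion.2 ⟨⟨j, hj⟩, ?_, hy'⟩)
      obtain ⟨S, h1, h2, h3, h4, h5⟩ := hx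
      refine ⟨insert y S, insert_subset (hK hy).1 h1, h2.insert h3 hxy, Or.inl rfl,
        (ncard_insert_le _ _).trans (by omega), fun i hi => (h5 i hi).mono ?_⟩
      exact inter_subset_inter_left _ (subset_insert _ _)
  obtain ⟨v, hv⟩ := hne
  obtain ⟨S, h1, h2, h3, h4, h5⟩ := key k le_rfl hv
  have := Finset.mem_range.1 ht
  exact hc.1 ⟨S, h1, ⟨v, h3⟩, h2, by omega, fun i => h5 i i.2⟩

theorem separator (hΓ : NoK5 Γ) (P : Set U) (r : ℕ) (hr : 1 ≤ r) (hn : 3 * Nat.card U ≤ r * r) :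
    ∃ Z : Set U, Z.ncard ≤ 4 * r ∧ ∀ a, 2 * (comp Γ Zᶜ a ∩ P).ncard ≤ P.ncard := by
  classical
  by_contra hbig
  push Not at hbig
  have hmeet : ∀ B B' : Set U, P.ncard < 2 * (B ∩ P).ncard → P.ncard < 2 * (B' ∩ P).ncard →
      (B ∩ B').Nonempty := by
    intro B B' h1 h2
    by_contra hc
    have hd : Disjoint (B ∩ P) (B' ∩ P) :=
      (disjoint_iff_inter_eq_empty.2 (not_nonempty_iff_eq_empty.1 hc)).mono
        inter_subset_left inter_subset_left
    have h3 := ncard_union_eq hd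
    have h4 : (B ∩ P ∪ B' ∩ P).ncard ≤ P.ncard :=
      ncard_le_ncard (union_subset inter_subset_right inter_subset_right)
    omega
  have hnext : ∀ B X : Set U, P.ncard < 2 * (B ∩ P).ncard → nbr Γ B ⊆ X → X.ncard ≤ 4 * r →
      ∃ B' ⊆ B \ X, B'.Nonempty ∧ Conn Γ B' ∧ P.ncard < 2 * (B' ∩ P).ncard ∧ nbr Γ B' ⊆ X := by
    intro B X hB hX hc
    obtain ⟨a, ha⟩ := hbig X hc
    obtain ⟨b, hb1, hb2⟩ := hmeet B _ hB ha
    refine ⟨comp Γ Xᶜ a, fun v hv => ⟨?_, comp_subset _ _ hv⟩, ⟨b, hb2⟩, comp_conn _ _, ha, ?_⟩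
    · refine (comp_conn _ _ b hb2 v hv).closed hb1 fun x y hxy _ hy hx => ?_
      by_contra hy'
      exact comp_subset _ _ hy (hX ⟨hy', x, hx, hxy⟩)
    · rintro v ⟨h1, x, hx, hxv⟩
      by_contra hv
      exact h1 (comp_closed hx hxv hv)
  have main : ∀ (n : ℕ) (B : Set U) (𝒞 : Finset (Set U)), B.ncard = n →
      (∀ C ∈ 𝒞, C.Nonempty ∧ Conn Γ C ∧ Disjoint C B) →
      (∀ C ∈ 𝒞, ∀ C' ∈ 𝒞, C ≠ C' → Disjoint C C' ∧ Touch Γ C C') →
      B.Nonempty → Conn Γ B → P.ncard < 2 * (B ∩ P).ncard →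
      (∀ v ∈ nbr Γ B, ∃ C ∈ 𝒞, v ∈ C) → (∀ C ∈ 𝒞, (nbr Γ B ∩ C).ncard ≤ r) → False := by
    intro n
    induction n using Nat.strong_induction_on with
    | _ n ih =>
    intro B 𝒞₀ hBn g1 g2 hne hconn hB g4 g5
    obtain ⟨𝒞, h1, h2, h4, h5, h6⟩ : ∃ 𝒞 : Finset (Set U),
        (∀ C ∈ 𝒞, C.Nonempty ∧ Conn Γ C ∧ Disjoint C B) ∧
        (∀ C ∈ 𝒞, ∀ C' ∈ 𝒞, C ≠ C' → Disjoint C C' ∧ Touch Γ C C') ∧
        (∀ v ∈ nbr Γ B, ∃ C ∈ 𝒞, v ∈ C) ∧ (∀ C ∈ 𝒞, (nbr Γ B ∩ C).ncard ≤ r) ∧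
        ∀ C ∈ 𝒞, Touch Γ C B := by
      refine ⟨𝒞₀.filter fun C => Touch Γ C B, fun C h => g1 C (Finset.mem_filter.1 h).1,
        fun C h C' h' => g2 C (Finset.mem_filter.1 h).1 C' (Finset.mem_filter.1 h').1,
        fun v hv => ?_, fun C h => g5 C (Finset.mem_filter.1 h).1,
        fun C h => (Finset.mem_filter.1 h).2⟩
      obtain ⟨C, hC, hvC⟩ := g4 v hv
      obtain ⟨-, b, hb, hbv⟩ := hv
      exact ⟨C, Finset.mem_filter.2 ⟨hC, v, hvC, b, hb, hbv.symm⟩, hvC⟩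
    have hB𝒞 : B ∉ 𝒞 := fun h => by
      obtain ⟨b, hb⟩ := hne
      exact disjoint_left.1 (h1 B h).2.2 hb hb
    have hk : 𝒞.card ≤ 3 := by
      have := hΓ (insert B 𝒞) (by
        intro C hC
        rcases Finset.mem_insert.1 hC with rfl | hC
        · exact ⟨hne, hconn⟩
        · exact ⟨(h1 C hC).1, (h1 C hC).2.1⟩) (by
        intro C hC C' hC' hCC
        rcases Finset.mem_insert.1 hC with rfl | hE <;>
          rcases Finset.mem_insert.1 hC' with rfl | hE'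
        · exact absurd rfl hCC
        · exact ⟨(h1 C' hE').2.2.symm, (h6 C' hE').symm⟩
        · exact ⟨(h1 C hE).2.2, h6 C hE⟩
        · exact h2 C hE C' hE' hCC)
      rw [Finset.card_insert_of_notMem hB𝒞] at this
      omega
    have hN : (nbr Γ B).ncard ≤ 3 * r := by
      have e : nbr Γ B ⊆ ⋃ C : 𝒞, (nbr Γ B ∩ C.1) := by
        intro v hv
        obtain ⟨C, hC, hvC⟩ := h4 v hv
        exact mem_iUnion.2 ⟨⟨C, hC⟩, hv, hvC⟩
      refine (ncard_le_ncard e).trans ((ncard_iUnion_le_of_finite _).trans ?_)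
      rw [finsum_eq_sum_of_fintype]
      refine (Finset.sum_le_sum (g := fun _ => r) fun (C : 𝒞) _ => h5 C.1 C.2).trans ?_
      simp only [Finset.sum_const, Finset.card_univ, Fintype.card_coe, smul_eq_mul]
      exact Nat.mul_le_mul_right _ hk
    let e := 𝒞.equivFin.symm
    let A : Fin 𝒞.card → Set U := fun i => {b | ∃ c ∈ (e i : Set U), Γ.Adj c b}
    rcases hit (Γ := Γ) B A r hr with ⟨S, s1, s2, s3, s4, s5⟩ | ⟨Z, z1, z2, z3⟩
    · obtain ⟨B', b1, b2, b3, b4, b5⟩ := hnext B (nbr Γ B ∪ S) hB subset_union_left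
        ((ncard_union_le _ _).trans (by omega))
      have hsub : B' ⊆ B := fun v hv => (b1 hv).1
      have hT : ∀ C ∈ 𝒞, Disjoint C S ∧ Touch Γ C S := by
        intro C hC
        refine ⟨(h1 C hC).2.2.mono_right s1, ?_⟩
        obtain ⟨a, ha, c, hc, hca⟩ := s5 (e.symm ⟨C, hC⟩)
        rw [Equiv.apply_symm_apply] at hc
        exact ⟨c, hc, a, ha, hca⟩
      refine ih B'.ncard ?_ B' (insert S 𝒞) rfl ?_ ?_ b2 b3 b4 ?_ ?_
      · rw [← hBn]
        obtain ⟨s, hs⟩ := s2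
        exact ncard_lt_ncard ⟨hsub, fun h => (b1 (h (s1 hs))).2 (Or.inr hs)⟩
      · intro C hC
        rcases Finset.mem_insert.1 hC with rfl | hC
        · exact ⟨s2, s3, disjoint_left.2 fun v hv hv' => (b1 hv').2 (Or.inr hv)⟩
        · exact ⟨(h1 C hC).1, (h1 C hC).2.1, (h1 C hC).2.2.mono_right hsub⟩
      · intro C hC C' hC' hCC
        rcases Finset.mem_insert.1 hC with rfl | hE <;>
          rcases Finset.mem_insert.1 hC' with rfl | hE'
        · exact absurd rfl hCC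
        · exact ⟨(hT C' hE').1.symm, (hT C' hE').2.symm⟩
        · exact hT C hE
        · exact h2 C hE C' hE' hCC
      · intro v hv
        rcases b5 hv with h | h
        · obtain ⟨C, hC, hvC⟩ := h4 v h
          exact ⟨C, Finset.mem_insert_of_mem hC, hvC⟩
        · exact ⟨S, Finset.mem_insert_self _ _, h⟩
      · intro C hC
        rcases Finset.mem_insert.1 hC with rfl | hC
        · exact (ncard_le_ncard inter_subset_right).trans s4
        · refine (ncard_le_ncard ?_).trans (h5 C hC)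
          rintro v ⟨⟨-, b, hb, hbv⟩, hvC⟩
          exact ⟨⟨disjoint_left.1 (h1 C hC).2.2 hvC, b, hsub hb, hbv⟩, hvC⟩
    · have hZ : Z.ncard ≤ r := by
        have a1 : B.ncard ≤ Nat.card U := by
          rw [← ncard_univ]; exact ncard_le_ncard (subset_univ _)
        have a2 : 𝒞.card * B.ncard ≤ 3 * Nat.card U := Nat.mul_le_mul hk a1
        exact Nat.le_of_mul_le_mul_right (z2.trans (a2.trans hn)) hr
      obtain ⟨B', b1, b2, b3, b4, b5⟩ := hnext B (nbr Γ B ∪ Z) hB subset_union_left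
        ((ncard_union_le _ _).trans (by omega))
      have hsub : B' ⊆ B := fun v hv => (b1 hv).1
      obtain ⟨i, hi⟩ := z3 B' (fun v hv => ⟨(b1 hv).1, fun h => (b1 hv).2 (Or.inr h)⟩) b2 b3
      obtain ⟨C, hC, hiC⟩ : ∃ C ∈ 𝒞, ∀ b ∈ B', ∀ c ∈ C, ¬ Γ.Adj c b :=
        ⟨e i, (e i).2, fun b hb c hc h =>
          disjoint_left.1 hi hb (show ∃ c ∈ (e i : Set U), Γ.Adj c b from ⟨c, hc, h⟩)⟩
      obtain ⟨c0, hc0⟩ := (h1 C hC).1
      obtain ⟨b0, hb0⟩ := b2
      have hCB := disjoint_left.1 (h1 C hC).2.2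
      set C' := comp Γ (C ∪ (B \ B')) c0 with hC'
      have c1 : C ⊆ C' := (h1 C hC).2.1.subset_comp subset_union_left hc0
      have c2 : C' ⊆ C ∪ (B \ B') := comp_subset _ _
      set B'' := comp Γ (B \ C') b0 with hB''
      have d1 : B' ⊆ B'' := b3.subset_comp (S := B \ C') (fun v hv => ⟨hsub hv, fun h => by
        rcases c2 h with h | h
        · exact hCB h (hsub hv)
        · exact h.2 hv⟩) hb0
      have d2 : B'' ⊆ B \ C' := comp_subset _ _
      have hT : ∀ D ∈ 𝒞.erase C, Disjoint D C' ∧ Touch Γ D C' := by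
        intro D hD
        obtain ⟨hD1, hD2⟩ := Finset.mem_erase.1 hD
        refine ⟨disjoint_left.2 fun v hv hv' => ?_, (h2 D hD2 C hC hD1).2.mono subset_rfl c1⟩
        rcases c2 hv' with h | h
        · exact disjoint_left.1 (h2 D hD2 C hC hD1).1 hv h
        · exact disjoint_left.1 (h1 D hD2).2.2 hv h.1
      refine ih B''.ncard ?_ B'' (insert C' (𝒞.erase C)) rfl ?_ ?_ ⟨b0, d1 hb0⟩ (comp_conn _ _)
        (b4.trans_le (Nat.mul_le_mul_left _ (ncard_le_ncard (inter_subset_inter_left _ d1)))) ?_ ?_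
      · rw [← hBn]
        obtain ⟨c, hc, a, ha, hca⟩ := h6 C hC
        refine ncard_lt_ncard ⟨fun v hv => (d2 hv).1, fun h => (d2 (h ha)).2 ?_⟩
        exact comp_closed (c1 hc) hca (Or.inr ⟨ha, fun h' => hiC a h' c hc hca⟩)
      · intro D hD
        rcases Finset.mem_insert.1 hD with rfl | hD
        · exact ⟨⟨c0, c1 hc0⟩, comp_conn _ _, disjoint_left.2 fun v hv hv' => (d2 hv').2 hv⟩
        · have hD2 := (Finset.mem_erase.1 hD).2
          exact ⟨(h1 D hD2).1, (h1 D hD2).2.1,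
            (h1 D hD2).2.2.mono_right fun v hv => (d2 hv).1⟩
      · intro D hD D' hD' hDD
        rcases Finset.mem_insert.1 hD with rfl | hE <;>
          rcases Finset.mem_insert.1 hD' with rfl | hE'
        · exact absurd rfl hDD
        · exact ⟨(hT D' hE').1.symm, (hT D' hE').2.symm⟩
        · exact hT D hE
        · exact h2 D (Finset.mem_erase.1 hE).2 D' (Finset.mem_erase.1 hE').2 hDD
      · rintro v ⟨hv, b, hb, hbv⟩
        by_cases hvC : v ∈ C'
        · exact ⟨C', Finset.mem_insert_self _ _, hvC⟩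
        have hvB : v ∉ B := fun h => hv (comp_closed hb hbv ⟨h, hvC⟩)
        obtain ⟨D, hD, hvD⟩ := h4 v ⟨hvB, b, (d2 hb).1, hbv⟩
        refine ⟨D, Finset.mem_insert_of_mem (Finset.mem_erase.2 ⟨?_, hD⟩), hvD⟩
        rintro rfl
        exact hvC (c1 hvD)
      · intro D hD
        rcases Finset.mem_insert.1 hD with rfl | hD
        · refine (ncard_le_ncard ?_).trans hZ
          rintro v ⟨⟨hv, b, hb, hbv⟩, hvC⟩
          have hb' : b ∈ B' := by
            by_contra h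
            exact (d2 hb).2 (comp_closed hvC hbv.symm (Or.inr ⟨(d2 hb).1, h⟩))
          rcases b5 ⟨fun h => hv (d1 h), b, hb', hbv⟩ with h | h
          · rcases c2 hvC with h' | h'
            · exact absurd hbv.symm (hiC b hb' v h')
            · exact absurd h'.1 h.1
          · exact h
        · have hD2 := (Finset.mem_erase.1 hD).2
          refine (ncard_le_ncard ?_).trans (h5 D hD2)
          rintro v ⟨⟨-, b, hb, hbv⟩, hvD⟩
          exact ⟨⟨disjoint_left.1 (h1 D hD2).2.2 hvD, b, (d2 hb).1, hbv⟩, hvD⟩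
  obtain ⟨a, ha⟩ := hbig ∅ (by simp)
  obtain ⟨B, b1, b2, b3, b4, b5⟩ := hnext _ ∅ ha (by
    rintro v ⟨h1, x, hx, hxv⟩
    exact absurd (comp_closed hx hxv (by simp)) h1) (by simp)
  exact main _ B ∅ rfl (by simp) (by simp) b2 b3 b4 (fun v hv => absurd (b5 hv) (by simp)) (by simp)

end Pool.Agent.P.MP_8a730c_lc
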