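import Mathlib

/-! Tensor powers of kernels on a finite product space and the Efron-Stein decomposition. -/

set_option linter.unusedSectionVars false

namespace Pool.Agent.P.MP_8a730c_lc

open Matrix Finset

section DS
variable {X : Type} [Fintype X]

/-- Symmetric stochastic matrices. -/
structure DS (M : Matrix X X ℝ) : Prop where
  nonneg : ∀ a b, 0 ≤ M a b
  symm : ∀ a b, M a b = M b a
  row : ∀ a, ∑ b, M a b = 1

variable {M : Matrix X X ℝ}

theorem DS.sum_mulVec (h : DS M) (g : X → ℝ) : ∑ a, (M *ᵥ g) a = ∑ a, g a := by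
  simp only [mulVec, dotProduct]
  rw [Finset.sum_comm]
  refine Finset.sum_congr rfl fun b _ => ?_
  rw [← Finset.sum_mul, Finset.sum_congr rfl fun a _ => h.symm a b, h.row, one_mul]

theorem DS.le_of_le (h : DS M) {g : X → ℝ} {c : ℝ} (hg : ∀ a, g a ≤ c) (a : X) :
    (M *ᵥ g) a ≤ c := by
  calc (M *ᵥ g) a ≤ ∑ b, M a b * c :=
        Finset.sum_le_sum fun b _ => mul_le_mul_of_nonneg_left (hg b) (h.nonneg a b)
    _ = c := by rw [← Finset.sum_mul, h.row, one_mul]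

theorem DS.ge_of_ge (h : DS M) {g : X → ℝ} {c : ℝ} (hg : ∀ a, c ≤ g a) (a : X) :
    c ≤ (M *ᵥ g) a := by
  calc c = ∑ b, M a b * c := by rw [← Finset.sum_mul, h.row, one_mul]
    _ ≤ (M *ᵥ g) a :=
        Finset.sum_le_sum fun b _ => mul_le_mul_of_nonneg_left (hg b) (h.nonneg a b)

theorem DS.abs_le (h : DS M) {g : X → ℝ} {c : ℝ} (hg : ∀ a, |g a| ≤ c) (a : X) :
    |(M *ᵥ g) a| ≤ c :=
  _root_.abs_le.2 ⟨h.ge_of_ge (fun a => (_root_.abs_le.1 (hg a)).1) a,
    h.le_of_le (fun a => (_root_.abs_le.1 (hg a)).2) a⟩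

theorem DS.sq_le (h : DS M) (g : X → ℝ) (a : X) :
    (M *ᵥ g) a ^ 2 ≤ (M *ᵥ fun b => g b ^ 2) a := by
  set m := (M *ᵥ g) a with hm
  have h1 : 0 ≤ ∑ b, M a b * (g b - m) ^ 2 :=
    Finset.sum_nonneg fun b _ => mul_nonneg (h.nonneg a b) (sq_nonneg _)
  have h2 : ∑ b, M a b * (g b - m) ^ 2 =
      ∑ b, M a b * g b ^ 2 - 2 * m * ∑ b, M a b * g b + m ^ 2 * ∑ b, M a b := by
    rw [Finset.mul_sum, Finset.mul_sum, ← Finset.sum_sub_distrib, ← Finset.sum_add_distrib]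
    exact Finset.sum_congr rfl fun b _ => by ring
  have h3 : ∑ b, M a b * g b = m := rfl
  have h4 : (M *ᵥ fun b => g b ^ 2) a = ∑ b, M a b * g b ^ 2 := rfl
  rw [h2, h3, h.row] at h1
  rw [h4]; nlinarith

theorem DS.sum_sq_le (h : DS M) (g : X → ℝ) : ∑ a, (M *ᵥ g) a ^ 2 ≤ ∑ a, g a ^ 2 :=
  (Finset.sum_le_sum fun a _ => h.sq_le g a).trans (h.sum_mulVec _).le

theorem DS.dot_le (h : DS M) (g : X → ℝ) : g ⬝ᵥ M *ᵥ g ≤ ∑ a, g a ^ 2 := by
  have h1 := h.sum_sq_le g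
  have h2 : 2 * (g ⬝ᵥ M *ᵥ g) ≤ ∑ a, g a ^ 2 + ∑ a, (M *ᵥ g) a ^ 2 := by
    rw [dotProduct, Finset.mul_sum, ← Finset.sum_add_distrib]
    exact Finset.sum_le_sum fun a _ => by nlinarith [sq_nonneg (g a - (M *ᵥ g) a)]
  linarith

theorem DS.transpose (h : DS M) : Mᵀ = M := by
  ext a b; exact h.symm b a

theorem ds_one [DecidableEq X] : DS (1 : Matrix X X ℝ) :=
  ⟨fun a b => by rw [one_apply]; split_ifs <;> norm_num,
    fun a b => by simp only [one_apply, eq_comm], fun a => by simp [one_apply]⟩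

theorem DS.convex {N : Matrix X X ℝ} (h : DS M) (h' : DS N) {ρ : ℝ} (h0 : 0 ≤ ρ) (h1 : ρ ≤ 1) :
    DS (ρ • M + (1 - ρ) • N) :=
  ⟨fun a b => add_nonneg (mul_nonneg h0 (h.nonneg a b)) (mul_nonneg (by linarith) (h'.nonneg a b)),
    fun a b => by simp only [Matrix.add_apply, Matrix.smul_apply, h.symm a b, h'.symm a b],
    fun a => by
      simp only [Matrix.add_apply, Matrix.smul_apply, smul_eq_mul, Finset.sum_add_distrib, ← Finset.mul_sum,
        h.row, h'.row]; ring⟩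

theorem sum_sq_mulVec (M : Matrix X X ℝ) (g : X → ℝ) :
    ∑ a, (M *ᵥ g) a ^ 2 = g ⬝ᵥ (Mᵀ * M) *ᵥ g := by
  rw [← mulVec_mulVec, dotProduct_mulVec, vecMul_transpose]
  exact Finset.sum_congr rfl fun a _ => sq _

/-- The averaging kernel. -/
noncomputable def JJ (X : Type) [Fintype X] : Matrix X X ℝ := fun _ _ => (Fintype.card X : ℝ)⁻¹

theorem ds_JJ [Nonempty X] : DS (JJ X) :=
  ⟨fun _ _ => by unfold JJ; positivity, fun _ _ => rfl, fun a => by simp [JJ]⟩

theorem DS.mul_JJ (h : DS M) : M * JJ X = JJ X := by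
  ext a b
  simp only [mul_apply, JJ]
  rw [← Finset.sum_mul, h.row, one_mul]

theorem DS.JJ_mul (h : DS M) : JJ X * M = JJ X := by
  ext a b
  simp only [mul_apply, JJ]
  rw [← Finset.mul_sum, Finset.sum_congr rfl fun a _ => h.symm a b, h.row, mul_one]

variable [DecidableEq X]

/-- The projection onto functions of mean zero. -/
noncomputable def LL (X : Type) [Fintype X] [DecidableEq X] : Matrix X X ℝ := 1 - JJ X

theorem LL_transpose : (LL X)ᵀ = LL X := by
  ext a b; simp [LL, JJ, one_apply, eq_comm]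

theorem DS.LL_comm (h : DS M) : LL X * M = M * LL X := by
  simp only [LL, Matrix.sub_mul, Matrix.mul_sub, h.mul_JJ, h.JJ_mul, Matrix.one_mul, Matrix.mul_one]

variable [Nonempty X]

theorem JJ_JJ : JJ X * JJ X = JJ X := ds_JJ.mul_JJ
theorem LL_JJ : LL X * JJ X = 0 := by simp [LL, Matrix.sub_mul, JJ_JJ]
theorem JJ_LL : JJ X * LL X = 0 := by simp [LL, Matrix.mul_sub, JJ_JJ]
theorem LL_LL : LL X * LL X = LL X := by
  nth_rewrite 2 [LL]; rw [Matrix.mul_sub, LL_JJ]; simp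

theorem comb_mul (a b c d : ℝ) :
    (a • LL X + b • JJ X) * (c • LL X + d • JJ X) = (a * c) • LL X + (b * d) • JJ X := by
  simp only [Matrix.add_mul, Matrix.mul_add, Matrix.smul_mul, Matrix.mul_smul, LL_LL, LL_JJ, JJ_LL,
    JJ_JJ, smul_zero, add_zero, zero_add, smul_smul, mul_comm]

end DS

variable {ι Ξ : Type} [Fintype ι] [DecidableEq ι] [Fintype Ξ]

/-- Tensor product of kernels. -/
def ten (K : ι → Matrix Ξ Ξ ℝ) : Matrix (ι → Ξ) (ι → Ξ) ℝ := fun u v => ∏ i, K i (u i) (v i)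

theorem ten_mul (K K' : ι → Matrix Ξ Ξ ℝ) : ten K * ten K' = ten fun i => K i * K' i := by
  ext u w
  simp only [ten, mul_apply, ← Finset.prod_mul_distrib]
  rw [Finset.prod_univ_sum, Fintype.piFinset_univ]

theorem ten_transpose (K : ι → Matrix Ξ Ξ ℝ) : (ten K)ᵀ = ten fun i => (K i)ᵀ := rfl

theorem ds_ten {K : ι → Matrix Ξ Ξ ℝ} (h : ∀ i, DS (K i)) : DS (ten K) :=
  ⟨fun _ _ => Finset.prod_nonneg fun i _ => (h i).nonneg _ _,
    fun _ _ => Finset.prod_congr rfl fun i _ => (h i).symm _ _,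
    fun u => by
      simp only [ten]
      rw [← Fintype.piFinset_univ, ← Finset.prod_univ_sum (fun _ => Finset.univ)
        (fun i b => K i (u i) b)]
      simp [(h _).row]⟩

variable [DecidableEq Ξ]

theorem ten_one : ten (fun _ : ι => (1 : Matrix Ξ Ξ ℝ)) = 1 := by
  ext u v
  simp only [ten, one_apply, Finset.prod_ite_zero, Finset.prod_const_one, Finset.mem_univ,
    forall_true_left, funext_iff]

theorem ten_single (i : ι) (M : Matrix Ξ Ξ ℝ) (g : (ι → Ξ) → ℝ) (u : ι → Ξ) :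
    (ten (fun k => if k = i then M else 1) *ᵥ g) u =
      ∑ ξ, M (u i) ξ * g (Function.update u i ξ) := by
  simp only [mulVec, dotProduct]
  symm
  refine Finset.sum_of_injOn (fun ξ => Function.update u i ξ) ?_ (by simp) ?_ ?_
  · intro a _ b _ h
    simpa using congrFun h i
  · intro v _ hv
    have : ∃ k, k ≠ i ∧ u k ≠ v k := by
      by_contra hc
      push Not at hc
      refine hv ⟨v i, by simp, funext fun k => ?_⟩
      by_cases hk : k = i
      · subst hk; simp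
      · simp [hk, hc k hk]
    obtain ⟨k, hk, hk'⟩ := this
    rw [ten, Finset.prod_eq_zero (Finset.mem_univ k) (by simp [hk, hk']), zero_mul]
  · intro ξ _
    rw [ten, Finset.prod_eq_single i (fun k _ hk => by
      rw [if_neg hk, Function.update_of_ne hk, one_apply_eq]) (by simp)]
    simp

/-- Kernels that are diagonal for the Efron-Stein decomposition. -/
noncomputable def dg (a b : ι → ℝ) : Matrix (ι → Ξ) (ι → Ξ) ℝ :=
  ten fun i => a i • LL Ξ + b i • JJ Ξ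

/-- The Efron-Stein projections. -/
noncomputable def pr (Ξ : Type) [Fintype Ξ] [DecidableEq Ξ] (S : Finset ι) :
    Matrix (ι → Ξ) (ι → Ξ) ℝ := ten fun i => if i ∈ S then LL Ξ else JJ Ξ

theorem dg_eq (a b : ι → ℝ) :
    dg a b = ∑ S : Finset ι, (∏ i, if i ∈ S then a i else b i) • pr Ξ S := by
  ext u v
  simp only [dg, ten, pr, Matrix.add_apply, Matrix.smul_apply, smul_eq_mul, Matrix.sum_apply]
  rw [Fintype.prod_add]
  refine Finset.sum_congr rfl fun S _ => ?_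
  rw [← Finset.prod_mul_distrib, ← Finset.prod_mul_prod_compl S]
  congr 1
  · exact Finset.prod_congr rfl fun i hi => by simp [hi]
  · exact Finset.prod_congr rfl fun i hi => by simp [Finset.mem_compl.1 hi]

theorem dg_transpose (a b : ι → ℝ) : (dg (Ξ := Ξ) a b)ᵀ = dg a b := by
  rw [dg, ten_transpose]
  congr 1; funext i
  rw [transpose_add, transpose_smul, transpose_smul, LL_transpose]; rfl

theorem pr_transpose (S : Finset ι) : (pr Ξ S)ᵀ = pr Ξ S := by
  rw [pr, ten_transpose]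
  congr 1; funext i
  split_ifs
  · exact LL_transpose
  · rfl

variable [Nonempty Ξ]

theorem dg_mul (a b c d : ι → ℝ) :
    dg (Ξ := Ξ) a b * dg c d = dg (fun i => a i * c i) fun i => b i * d i := by
  simp only [dg, ten_mul, comb_mul]

theorem pr_pr (S : Finset ι) : pr Ξ S * pr Ξ S = pr Ξ S := by
  rw [pr, ten_mul]
  congr 1; funext i
  split_ifs
  · exact LL_LL
  · exact JJ_JJ

theorem pr_comm {K : ι → Matrix Ξ Ξ ℝ} (h : ∀ i, DS (K i)) (S : Finset ι) :
    pr Ξ S * ten K = ten K * pr Ξ S := by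
  rw [pr, ten_mul, ten_mul]
  congr 1; funext i
  split_ifs
  · exact (h i).LL_comm
  · rw [(h i).mul_JJ, (h i).JJ_mul]

/-- The Efron-Stein weights. -/
noncomputable def wt (S : Finset ι) (g : (ι → Ξ) → ℝ) : ℝ := g ⬝ᵥ pr Ξ S *ᵥ g

theorem wt_eq (S : Finset ι) (g : (ι → Ξ) → ℝ) : wt S g = ∑ u, (pr Ξ S *ᵥ g) u ^ 2 := by
  rw [sum_sq_mulVec, pr_transpose, pr_pr, wt]

theorem wt_nonneg (S : Finset ι) (g : (ι → Ξ) → ℝ) : 0 ≤ wt S g := by
  rw [wt_eq]; positivity

theorem dot_dg (a b : ι → ℝ) (g : (ι → Ξ) → ℝ) :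
    g ⬝ᵥ dg a b *ᵥ g = ∑ S : Finset ι, (∏ i, if i ∈ S then a i else b i) * wt S g := by
  rw [dg_eq, sum_mulVec, dotProduct_sum]
  exact Finset.sum_congr rfl fun S _ => by rw [smul_mulVec, dotProduct_smul, smul_eq_mul, wt]

theorem wt_ten_le {K : ι → Matrix Ξ Ξ ℝ} (h : ∀ i, DS (K i)) (S : Finset ι) (g : (ι → Ξ) → ℝ) :
    wt S (ten K *ᵥ g) ≤ wt S g := by
  rw [wt_eq, wt_eq, mulVec_mulVec, pr_comm h, ← mulVec_mulVec]
  exact (ds_ten h).sum_sq_le _

theorem dot_pr_ten_le {K : ι → Matrix Ξ Ξ ℝ} (h : ∀ i, DS (K i)) (S : Finset ι)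
    (g : (ι → Ξ) → ℝ) : g ⬝ᵥ (pr Ξ S * ten K) *ᵥ g ≤ wt S g := by
  have e : pr Ξ S * ten K = (pr Ξ S)ᵀ * (ten K * pr Ξ S) := by
    rw [pr_transpose, ← pr_comm h, ← Matrix.mul_assoc, pr_pr]
  rw [e, ← mulVec_mulVec, dotProduct_mulVec, vecMul_transpose, ← mulVec_mulVec, wt_eq]
  exact (ds_ten h).dot_le _

theorem dg_one : dg (Ξ := Ξ) (fun _ : ι => 1) (fun _ => 1) = 1 := by
  rw [← ten_one, dg]; congr 1; funext i; simp [LL]

theorem sum_wt (g : (ι → Ξ) → ℝ) : ∑ S : Finset ι, wt S g = ∑ u, g u ^ 2 := by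
  have := dot_dg (Ξ := Ξ) (fun _ : ι => 1) (fun _ => 1) g
  simp only [dg_one, one_mulVec, ite_self, Finset.prod_const_one, one_mul] at this
  rw [← this]
  exact Finset.sum_congr rfl fun u _ => (sq _).symm

theorem wt_empty (g : (ι → Ξ) → ℝ) :
    wt ∅ g = (∑ u, g u) ^ 2 / Fintype.card (ι → Ξ) := by
  simp only [wt, pr, Finset.notMem_empty, if_false, dotProduct, mulVec, ten, JJ,
    Finset.prod_const, Finset.card_univ, ← Finset.mul_sum, ← Finset.sum_mul, Fintype.card_fun]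
  push_cast
  rw [inv_pow]; ring

theorem coef_T (ρ : ℝ) (S : Finset ι) : (∏ i, if i ∈ S then ρ else 1) = ρ ^ S.card := by
  rw [Finset.prod_ite_mem]; simp

theorem coef_L (ρ : ℝ) (i : ι) (S : Finset ι) :
    (∏ k, if k ∈ S then ρ else if k = i then 0 else 1) = if i ∈ S then ρ ^ S.card else 0 := by
  split_ifs with h
  · rw [← coef_T]
    refine Finset.prod_congr rfl fun k _ => ?_
    by_cases hk : k ∈ S
    · simp [hk]
    · have : k ≠ i := fun e => hk (e ▸ h)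
      simp [hk, this]
  · exact Finset.prod_eq_zero (Finset.mem_univ i) (by simp [h])

/-- The noise operator. -/
noncomputable def TT (ρ : ℝ) : Matrix (ι → Ξ) (ι → Ξ) ℝ := dg (fun _ => ρ) fun _ => 1

/-- The noise operator composed with the derivative in direction `i`. -/
noncomputable def LT (ρ : ℝ) (i : ι) : Matrix (ι → Ξ) (ι → Ξ) ℝ :=
  dg (fun _ => ρ) fun k => if k = i then 0 else 1

theorem LT_mul (ρ σ : ℝ) (i : ι) : LT (Ξ := Ξ) ρ i * LT σ i = LT (ρ * σ) i := by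
  simp only [LT, dg_mul]; congr 1; funext k; split_ifs <;> simp

theorem LT_TT (ρ σ : ℝ) (i : ι) : LT (Ξ := Ξ) ρ i * TT σ = LT (ρ * σ) i := by
  simp only [LT, TT, dg_mul, mul_one]

theorem LT_transpose (ρ : ℝ) (i : ι) : (LT (Ξ := Ξ) ρ i)ᵀ = LT ρ i := dg_transpose _ _

theorem sum_dot_LT (ρ : ℝ) (g : (ι → Ξ) → ℝ) :
    ∑ i, g ⬝ᵥ LT ρ i *ᵥ g = ∑ S : Finset ι, S.card * ρ ^ S.card * wt S g := by
  simp only [LT, dot_dg, coef_L]
  rw [Finset.sum_comm]
  refine Finset.sum_congr rfl fun S _ => ?_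
  rw [← Finset.sum_mul, Finset.sum_ite_mem]
  simp

theorem LT_one (i : ι) : LT (Ξ := Ξ) 1 i = ten fun k => if k = i then LL Ξ else 1 := by
  rw [LT, dg]; congr 1; funext k; split_ifs <;> simp [LL]

theorem LT_one_apply (i : ι) (g : (ι → Ξ) → ℝ) (u : ι → Ξ) :
    (LT 1 i *ᵥ g) u = g u - (∑ ξ, g (Function.update u i ξ)) / Fintype.card Ξ := by
  rw [LT_one, ten_single]
  simp only [LL, JJ, Matrix.sub_apply, sub_mul, Finset.sum_sub_distrib, one_apply, ite_mul, one_mul,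
    zero_mul, Finset.sum_ite_eq, Finset.mem_univ, if_true, Function.update_eq_self,
    ← Finset.mul_sum]
  ring

theorem sum_update (i : ι) (g : (ι → Ξ) → ℝ) :
    ∑ u, ∑ ξ, g (Function.update u i ξ) = Fintype.card Ξ * ∑ u, g u := by
  have h : DS (ten fun k : ι => if k = i then JJ Ξ else 1) :=
    ds_ten fun k => by split_ifs; exacts [ds_JJ, ds_one]
  rw [← h.sum_mulVec g, Finset.mul_sum]
  refine Finset.sum_congr rfl fun u _ => ?_
  rw [ten_single]
  simp only [JJ, ← Finset.mul_sum]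
  have : (Fintype.card Ξ : ℝ) ≠ 0 := by simp
  field_simp

end Pool.Agent.P.MP_8a730c_lc
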