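import Pool.Agent.P.MP_8a730c_lc.Gadget
import Pool.Agent.P.MP_8a730c_lc.Tensor

/-! From integer edge weights to a sparse multigraph, through a product with a rook graph. -/

set_option linter.unusedSectionVars false

namespace Pool.Agent.P.MP_8a730c_lc

open Matrix

variable {X : Type} {W L n : ℕ}

def rotL (q : (X × Fin L × Fin L) × (X × Fin W × Fin 2 × Fin L)) :
    (X × Fin L × Fin L) × (X × Fin W × Fin 2 × Fin L) :=
  if q.2.2.2.1 = 0 then ((q.2.1, q.1.2.1, q.2.2.2.2), (q.1.1, q.2.2.1, q.2.2.2.1, q.1.2.2))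
  else ((q.2.1, q.2.2.2.2, q.1.2.2), (q.1.1, q.2.2.1, q.2.2.2.1, q.1.2.1))

theorem rotL_inv (q : (X × Fin L × Fin L) × (X × Fin W × Fin 2 × Fin L)) : rotL (rotL q) = q := by
  obtain ⟨⟨x, y1, y2⟩, x', μ, b, z⟩ := q
  by_cases h : b = 0 <;> simp [rotL, h]

def rook (w : X → X → ℕ) (hw : ∀ x y, w x y = w y x) (lab : Fin n ≃ X × Fin W × Fin 2 × Fin L) :
    Rot (X × Fin L × Fin L) n where
  rot p := ((rotL (p.1, lab p.2)).1, lab.symm (rotL (p.1, lab p.2)).2)
  valid p := (lab p.2).2.1.val < w p.1.1 (lab p.2).1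
  inv p := by simp [rotL_inv]
  valid_rot p h := by
    simp only [Equiv.apply_symm_apply, rotL]
    split_ifs <;> simpa [hw] using h

variable [Fintype X] {w : X → X → ℕ} (hw : ∀ x y, w x y = w y x)
  (lab : Fin n ≃ X × Fin W × Fin 2 × Fin L)

theorem rook_count (hW : ∀ x y, w x y ≤ W) (Q : X × Fin L × Fin L → X × Fin L × Fin L → Prop)
    (q : X × Fin L × Fin L → X × Fin L × Fin L → ℝ) (h1 : ∀ u v, Q u v → q u v = 1)
    (h0 : ∀ u v, ¬ Q u v → q u v = 0) :
    (({p | (rook w hw lab).valid p ∧ Q p.1 ((rook w hw lab).rot p).1}.ncard : ℕ) : ℝ) =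
      ∑ x, ∑ x', (w x x' : ℝ) *
        ((∑ a, ∑ b, ∑ z, q (x, a, b) (x', a, z)) + ∑ a, ∑ b, ∑ z, q (x, a, b) (x', z, b)) := by
  classical
  obtain rfl : q = fun u v => if Q u v then 1 else 0 := by
    funext u v
    split_ifs with h
    exacts [h1 u v h, h0 u v h]
  have hμ : ∀ (x x' : X) (t : ℝ), ∑ μ : Fin W, (if μ.val < w x x' then t else 0) = w x x' * t := by
    intro x x' t
    rw [← Finset.sum_filter, Finset.sum_const, Fin.card_filter_val_lt, min_eq_right (hW x x'),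
      nsmul_eq_mul]
  rw [Set.ncard_eq_toFinset_card', Set.toFinset_ofPred, Finset.card_filter]
  push_cast
  rw [← Equiv.sum_comp (Equiv.prodCongr (Equiv.refl (X × Fin L × Fin L)) lab.symm)]
  simp only [Fintype.sum_prod_type, Equiv.prodCongr_apply, Prod.map_apply, Equiv.coe_refl, id,
    rook, Equiv.apply_symm_apply, Fin.sum_univ_two, rotL, if_true, one_ne_zero, if_false, ite_and,
    Finset.sum_ite_irrel, Finset.sum_const_zero, hμ]
  refine Finset.sum_congr rfl fun x _ => ?_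
  calc _ = ∑ a, ∑ x', ∑ b, (w x x' : ℝ) * ((∑ z, if Q (x, a, b) (x', a, z) then (1 : ℝ) else 0) +
          ∑ z, if Q (x, a, b) (x', z, b) then (1 : ℝ) else 0) :=
        Finset.sum_congr rfl fun _ _ => Finset.sum_comm
    _ = ∑ x', ∑ a, ∑ b, (w x x' : ℝ) * ((∑ z, if Q (x, a, b) (x', a, z) then (1 : ℝ) else 0) +
          ∑ z, if Q (x, a, b) (x', z, b) then (1 : ℝ) else 0) := Finset.sum_comm
    _ = _ := by simp only [← Finset.mul_sum, Finset.sum_add_distrib]

theorem ncard_cast {α : Type} [Fintype α] (P : α → Prop) [DecidablePred P] :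
    (({a | P a}.ncard : ℕ) : ℝ) = ∑ a, if P a then (1 : ℝ) else 0 := by
  rw [Set.ncard_eq_toFinset_card', Set.toFinset_ofPred, Finset.card_filter]
  push_cast; rfl

variable {M : Matrix X X ℝ} (hM : DS M) (hwM : ∀ x y, (w x y : ℝ) = W * M x y)

include hM hwM in
theorem w_le (x y : X) : w x y ≤ W := by
  have h1 : M x y ≤ 1 := hM.row x ▸ Finset.single_le_sum (f := M x) (fun b _ => hM.nonneg x b)
    (Finset.mem_univ y)
  have : (w x y : ℝ) ≤ W := by rw [hwM]; exact mul_le_of_le_one_right (by positivity) h1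
  exact_mod_cast this

include hM hwM in
theorem rook_src (Q : X × Fin L × Fin L → Prop) (q : X × Fin L × Fin L → ℝ)
    (h1 : ∀ u, Q u → q u = 1) (h0 : ∀ u, ¬ Q u → q u = 0) :
    (({p | (rook w hw lab).valid p ∧ Q p.1}.ncard : ℕ) : ℝ) =
      2 * L * W * ∑ x, ∑ a, ∑ b, q (x, a, b) := by
  rw [rook_count hw lab (w_le hM hwM) (fun u _ => Q u) (fun u _ => q u) (fun u _ => h1 u)
    (fun u _ => h0 u), Finset.mul_sum]
  refine Finset.sum_congr rfl fun x _ => ?_
  simp only [hwM, ← Finset.sum_mul, ← Finset.mul_sum, hM.row, Finset.sum_const, Finset.card_univ,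
    Fintype.card_fin, nsmul_eq_mul]
  ring

include hM hwM in
theorem rook_valid : (({p | (rook w hw lab).valid p}.ncard : ℕ) : ℝ) =
    2 * L ^ 3 * W * Fintype.card X := by
  have := rook_src hw lab hM hwM (fun _ => True) (fun _ => 1) (by simp) (by simp)
  simp only [and_true, Finset.sum_const, Finset.card_univ, Fintype.card_fin,
    nsmul_eq_mul] at this
  rw [this]; ring

variable [NeZero n]

include hM hwM in
theorem rook_yes {V : Type} (e : V ≃ (X × Fin L × Fin L) × Fin n × Fin n) (c : X → ℕ) {ε1 ε2 : ℝ}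
    (h1 : ∑ x, ∑ y, M x y * (if c x = c y then 0 else 1) ≤ ε1 * Fintype.card X)
    (h2 : ∀ t, (({x | c x = t}.ncard : ℕ) : ℝ) ≤ ε2 * Fintype.card X) :
    (cr ((rook w hw lab).graph.comap e) : ℝ) ≤ 32 * (Fintype.card X * L ^ 2 * n ^ 3) +
      (2 * ε2 + ε1 ^ 2) * (2 * L ^ 3 * W * Fintype.card X) ^ 2 := by
  classical
  set Y : ℝ := 2 * L ^ 3 * W * Fintype.card X with hY
  have hY0 : 0 ≤ Y := by positivity
  have hm : ∀ t, (({p | (rook w hw lab).valid p ∧ c p.1.1 = t}.ncard : ℕ) : ℝ) ≤ ε2 * Y := by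
    intro t
    obtain ⟨q, hq⟩ : ∃ q : X → ℝ, ∀ x, (if c x = t then 1 else 0) = q x := ⟨_, fun _ => rfl⟩
    rw [rook_src hw lab hM hwM (fun u => c u.1 = t) (fun u => q u.1)
      (by simp +contextual [← hq]) (by simp +contextual [← hq])]
    have := h2 t
    rw [ncard_cast] at this
    simp only [hq] at this
    simp only [Finset.sum_const, Finset.card_univ, Fintype.card_fin, nsmul_eq_mul,
      ← Finset.mul_sum]
    calc _ = 2 * (L : ℝ) ^ 3 * W * ∑ x, q x := by ring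
      _ ≤ 2 * L ^ 3 * W * (ε2 * Fintype.card X) := by gcongr
      _ = _ := by rw [hY]; ring
  have hε2 : 0 ≤ ε2 * Y := le_trans (by positivity) (hm 0)
  have hcut : (({p | (rook w hw lab).valid p ∧ c p.1.1 ≠ c ((rook w hw lab).rot p).1.1}.ncard : ℕ)
      : ℝ) ≤ ε1 * Y := by
    obtain ⟨q, hq⟩ : ∃ q : X → X → ℝ, ∀ x y, (if c x = c y then 0 else 1) = q x y :=
      ⟨_, fun _ _ => rfl⟩
    rw [rook_count hw lab (w_le hM hwM) (fun u v => c u.1 ≠ c v.1)
      (fun u v => q u.1 v.1) (by simp +contextual [← hq]) (by simp +contextual [← hq])]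
    simp only [hq] at h1
    simp only [Finset.sum_const, Finset.card_univ, Fintype.card_fin, nsmul_eq_mul, hwM]
    calc _ = 2 * (L : ℝ) ^ 3 * W * ∑ x, ∑ y, M x y * q x y := by
          simp only [Finset.mul_sum]
          refine Finset.sum_congr rfl fun x _ => Finset.sum_congr rfl fun y _ => ?_
          ring
      _ ≤ 2 * L ^ 3 * W * (ε1 * Fintype.card X) := by gcongr
      _ = _ := by rw [hY]; ring
  have main := (rook w hw lab).cr_le e (fun z => c z.1) ⌊ε2 * Y⌋₊ fun t => Nat.le_floor (hm t)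
  have main' : (cr ((rook w hw lab).graph.comap e) : ℝ) ≤ _ := Nat.cast_le.2 main
  push_cast at main'
  rw [rook_valid hw lab hM hwM, ← hY] at main'
  have a1 := Nat.floor_le hε2
  have a2 := pow_le_pow_left₀ (by positivity) hcut 2
  have a3 : (Nat.card (X × Fin L × Fin L) : ℝ) = Fintype.card X * L ^ 2 := by simp [sq]
  rw [a3] at main'
  have a4 := mul_le_mul_of_nonneg_left a1 hY0
  nlinarith

theorem bool_tri (a b c d : Bool) : (if a ≠ d then (1 : ℝ) else 0) ≤
    (if a ≠ b then 1 else 0) + (if b ≠ c then 1 else 0) + if c ≠ d then 1 else 0 := by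
  cases a <;> cases b <;> cases c <;> cases d <;> norm_num

theorem rook_tri (g g' : Fin L → Fin L → Bool) :
    (L : ℝ) * ∑ a, ∑ b, ∑ a', ∑ b', (if g a b ≠ g' a' b' then (1 : ℝ) else 0) ≤
      L ^ 2 * (2 * (∑ a, ∑ b, ∑ z, if g a b ≠ g' a z then (1 : ℝ) else 0) +
        ∑ a, ∑ b, ∑ z, if g' a b ≠ g z b then (1 : ℝ) else 0) := by
  have h : ∑ a, ∑ b, ∑ a', ∑ b', ∑ _z : Fin L, (if g a b ≠ g' a' b' then (1 : ℝ) else 0) ≤
      ∑ a, ∑ b, ∑ a', ∑ b', ∑ z, ((if g a b ≠ g' a z then (1 : ℝ) else 0) +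
        (if g' a z ≠ g a' z then 1 else 0) + if g a' z ≠ g' a' b' then 1 else 0) := by
    gcongr with a _ b _ a' _ b' _ z _
    exact bool_tri _ _ _ _
  simp only [Finset.sum_add_distrib, Finset.sum_const, Finset.card_univ, Fintype.card_fin,
    nsmul_eq_mul, ← Finset.mul_sum] at h
  have e1 : ∑ a, ∑ a', ∑ z, (if g' a z ≠ g a' z then (1 : ℝ) else 0) =
      ∑ a, ∑ b, ∑ z, if g' a b ≠ g z b then (1 : ℝ) else 0 :=
    Finset.sum_congr rfl fun _ _ => Finset.sum_comm
  have e2 : ∑ a', ∑ b', ∑ z, (if g a' z ≠ g' a' b' then (1 : ℝ) else 0) =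
      ∑ a, ∑ b, ∑ z, if g a b ≠ g' a z then (1 : ℝ) else 0 :=
    Finset.sum_congr rfl fun _ _ => Finset.sum_comm
  rw [e1, e2] at h
  linarith

include hM hwM in
theorem rook_no {V : Type} (e : V ≃ (X × Fin L × Fin L) × Fin n × Fin n) (hL : 0 < L) (hW : 0 < W)
    (r : ℕ) (hr : 1 ≤ r)
    (hn : 3 * (Fintype.card X * L ^ 2 * n ^ 2 + cr ((rook w hw lab).graph.comap e)) ≤ r * r)
    (hrY : (320 * r : ℝ) ≤ 2 * L ^ 3 * W * Fintype.card X) :
    ∃ f : X → ℝ, (∀ x, 0 ≤ f x) ∧ (∀ x, f x ≤ 1) ∧ (Fintype.card X : ℝ) ≤ 5 * ∑ x, f x ∧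
      5 * ∑ x, f x ≤ 4 * Fintype.card X ∧
      L ^ 3 * W * (2 * (∑ x, f x - f ⬝ᵥ M *ᵥ f)) ≤ 64 * r := by
  classical
  obtain ⟨g, g1, g2⟩ := (rook w hw lab).exists_cut e r hr (by simpa [sq] using hn)
  have hL' : (0 : ℝ) < L := by exact_mod_cast hL
  have hW' : (0 : ℝ) < W := by exact_mod_cast hW
  let s : Bool → X → ℝ := fun t x => ∑ a, ∑ b, if g (x, a, b) = t then 1 else 0
  have s0 : ∀ t x, 0 ≤ s t x := fun t x =>
    Finset.sum_nonneg fun _ _ => Finset.sum_nonneg fun _ _ => by split_ifs <;> norm_num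
  have s1 : ∀ x, s true x + s false x = L ^ 2 := by
    intro x
    have : ∀ a b, ((if g (x, a, b) = true then (1 : ℝ) else 0) +
        if g (x, a, b) = false then 1 else 0) = 1 := fun a b => by cases g (x, a, b) <;> simp
    simp only [s, ← Finset.sum_add_distrib, this]
    simp [sq]
  have s2 : ∀ t, 5 * ∑ x, s t x ≤ 4 * (L ^ 2 * Fintype.card X) := by
    intro t
    have a1 : (4 * ({p | (rook w hw lab).valid p ∧ g p.1 = t}.ncard : ℕ) : ℝ) ≤
      3 * ({p | (rook w hw lab).valid p}.ncard : ℕ) + 64 * r := by exact_mod_cast g2 t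
    rw [rook_valid hw lab hM hwM, rook_src hw lab hM hwM (fun u => g u = t)
      (fun u => if g u = t then 1 else 0) (by simp +contextual) (by simp +contextual)] at a1
    refine le_of_mul_le_mul_left ?_ (show (0 : ℝ) < L * W by positivity)
    have : ∑ x, s t x = ∑ x, ∑ a, ∑ b, if g (x, a, b) = t then (1 : ℝ) else 0 := rfl
    rw [this]
    linarith
  have s3 : ∑ x, s true x + ∑ x, s false x = L ^ 2 * Fintype.card X := by
    rw [← Finset.sum_add_distrib]; simp [s1, mul_comm]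
  have hL2 : (0 : ℝ) < L ^ 2 := by positivity
  refine ⟨fun x => s true x / L ^ 2, fun x => div_nonneg (s0 _ _) hL2.le,
    fun x => (div_le_one hL2).2 (by linarith [s1 x, s0 false x]), ?_, ?_, ?_⟩
  · rw [← Finset.sum_div, ← mul_div_assoc, le_div_iff₀ hL2]; linarith [s2 false]
  · rw [← Finset.sum_div, ← mul_div_assoc, div_le_iff₀ hL2]; linarith [s2 true]
  have c1 : (({p | (rook w hw lab).valid p ∧ g p.1 ≠ g ((rook w hw lab).rot p).1}.ncard : ℕ) : ℝ)
      ≤ 32 * r := by exact_mod_cast g1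
  rw [rook_count hw lab (w_le hM hwM) (fun u v => g u ≠ g v)
    (fun u v => if g u ≠ g v then 1 else 0) (by simp +contextual) (by simp +contextual)] at c1
  set Row : X → X → ℝ := fun x x' => ∑ a, ∑ b, ∑ z,
    if g (x, a, b) ≠ g (x', a, z) then (1 : ℝ) else 0 with hRow
  set Col : X → X → ℝ := fun x x' => ∑ a, ∑ b, ∑ z,
    if g (x, a, b) ≠ g (x', z, b) then (1 : ℝ) else 0 with hCol
  have c2 : ∀ x x', L ^ 3 * (s true x / L ^ 2 + s true x' / L ^ 2 -
      2 * (s true x / L ^ 2 * (s true x' / L ^ 2))) ≤ 2 * Row x x' + Col x' x := by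
    intro x x'
    have a1 := rook_tri (fun a b => g (x, a, b)) fun a b => g (x', a, b)
    have a2 : ∑ a, ∑ b, ∑ a', ∑ b', (if g (x, a, b) ≠ g (x', a', b') then (1 : ℝ) else 0) =
        L ^ 2 * s true x + L ^ 2 * s true x' - 2 * (s true x * s true x') := by
      have : ∀ u v, (if g u ≠ g v then (1 : ℝ) else 0) = (if g u = true then 1 else 0) +
          (if g v = true then 1 else 0) -
          2 * ((if g u = true then 1 else 0) * if g v = true then 1 else 0) := fun u v => by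
        cases g u <;> cases g v <;> norm_num
      simp only [this, Finset.sum_sub_distrib, Finset.sum_add_distrib, Finset.sum_const,
        Finset.card_univ, Fintype.card_fin, nsmul_eq_mul, ← Finset.mul_sum, ← Finset.sum_mul, s]
      ring
    rw [a2] at a1
    refine le_of_mul_le_mul_left (le_trans (le_of_eq ?_) a1) hL2
    field_simp
  have c3 : ∑ x, ∑ x', (w x x' : ℝ) * Col x' x = ∑ x, ∑ x', (w x x' : ℝ) * Col x x' := by
    rw [Finset.sum_comm]; simp only [fun a b => hw a b]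
  have c4 : 0 ≤ ∑ x, ∑ x', (w x x' : ℝ) * Col x x' :=
    Finset.sum_nonneg fun _ _ => Finset.sum_nonneg fun _ _ => mul_nonneg (by positivity)
      (Finset.sum_nonneg fun _ _ => Finset.sum_nonneg fun _ _ => Finset.sum_nonneg fun _ _ => by
        split_ifs <;> norm_num)
  have c5 : ∑ x, ∑ x', (w x x' : ℝ) * (L ^ 3 * (s true x / L ^ 2 + s true x' / L ^ 2 -
      2 * (s true x / L ^ 2 * (s true x' / L ^ 2)))) ≤
      ∑ x, ∑ x', (w x x' : ℝ) * (2 * Row x x' + Col x' x) := by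
    gcongr with x _ x' _
    exact c2 x x'
  have c6 : ∑ x, ∑ x', (w x x' : ℝ) * (2 * Row x x' + Col x' x) =
      2 * ∑ x, ∑ x', (w x x' : ℝ) * Row x x' + ∑ x, ∑ x', (w x x' : ℝ) * Col x' x := by
    simp only [mul_add, Finset.sum_add_distrib, Finset.mul_sum, mul_left_comm]
  have c7 : ∑ x, ∑ x', (w x x' : ℝ) * (Row x x' + Col x x') =
      ∑ x, ∑ x', (w x x' : ℝ) * Row x x' + ∑ x, ∑ x', (w x x' : ℝ) * Col x x' := by
    simp only [mul_add, Finset.sum_add_distrib]
  have c8 : ∑ x, ∑ x', (w x x' : ℝ) * (Row x x' + Col x x') ≤ 32 * r := c1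
  refine le_trans (le_of_eq ?_) (c5.trans (by linarith))
  have key : ∀ f : X → ℝ, L ^ 3 * W * (2 * (∑ x, f x - f ⬝ᵥ M *ᵥ f)) =
      ∑ x, ∑ x', (w x x' : ℝ) * (L ^ 3 * (f x + f x' - 2 * (f x * f x'))) := by
    intro f
    have a1 : ∑ x, ∑ x', M x x' * f x' = ∑ x, f x := hM.sum_mulVec f
    have a2 : ∑ x, ∑ x', M x x' * f x = ∑ x, f x := by simp only [← Finset.sum_mul, hM.row, one_mul]
    have a3 : f ⬝ᵥ M *ᵥ f = ∑ x, ∑ x', f x * (M x x' * f x') := by
      simp only [dotProduct, mulVec, Finset.mul_sum]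
    have a4 : 2 * (∑ x, f x - f ⬝ᵥ M *ᵥ f) =
        ∑ x, ∑ x', (M x x' * f x' + M x x' * f x - 2 * (f x * (M x x' * f x'))) := by
      simp only [Finset.sum_sub_distrib, Finset.sum_add_distrib, a1, a2, a3]
      simp only [← Finset.mul_sum]; ring
    rw [a4]
    simp only [Finset.mul_sum, hwM]
    exact Finset.sum_congr rfl fun _ _ => Finset.sum_congr rfl fun _ _ => by ring
  exact key _

end Pool.Agent.P.MP_8a730c_lc
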