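import Pool.Agent.P.MP_8a730c_lc.Base
import Pool.Agent.P.MP_8a730c_lc.Rook

/-! Integer weights and the two estimates for the crossing number of the output graph. -/

set_option linter.unusedSectionVars false

namespace Pool.Agent.P.MP_8a730c_lc

open Matrix Finset Classical

variable {n d k r T m q : ℕ} {G : SimpleGraph (Fin n)}

/-- Integer weights proportional to the folded kernel. -/
noncomputable def iw (G : SimpleGraph (Fin n)) (d m q : ℕ) (x y : Fin r → Fin n × Fin T) : ℕ :=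
  ∑ π : Equiv.Perm (Fin r), ∑ σ : Equiv.Perm (Fin r), ∏ i : Fin r,
    if i.val < m then q * d else (q - 1) * (n * T) *
      (if G.Adj (x (π i)).1 (y (σ i)).1 ∧ (x (π i)).2 = (y (σ i)).2 then 1 else 0) + d

theorem iw_symm (x y : Fin r → Fin n × Fin T) : iw G d m q x y = iw G d m q y x := by
  rw [iw, Finset.sum_comm]
  simp only [iw, G.adj_comm, eq_comm]

def BB (r m : ℕ) : Finset (Fin r) := univ.filter fun i => i.val < m

theorem card_BB (h : m ≤ r) : (BB r m).card = m := by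
  rw [BB, Fin.card_filter_val_lt, min_eq_right h]

theorem iw_eq (hq : 0 < q) (hd0 : 0 < d) [Nonempty (Fin n × Fin T)]
    (x y : Fin r → Fin n × Fin T) : (iw G d m q x y : ℝ) =
      ((r.factorial ^ 2 * (q * d * (n * T)) ^ r : ℕ) : ℝ) *
        fold (prodK (BB r m) (1 / q) (walk G d T)) x y := by
  have hn : (0 : ℝ) < n * T := by
    have : 0 < Fintype.card (Fin n × Fin T) := Fintype.card_pos
    simp only [Fintype.card_prod, Fintype.card_fin] at this
    exact_mod_cast this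
  have h1 : (q : ℝ) ≠ 0 := by positivity
  have h2 : (d : ℝ) ≠ 0 := by positivity
  have h3 : (r.factorial : ℝ) ≠ 0 := by positivity
  have key : ∀ (i : Fin r) (a b : Fin n × Fin T), ((if i.val < m then q * d else (q - 1) * (n * T) *
      (if G.Adj a.1 b.1 ∧ a.2 = b.2 then 1 else 0) + d : ℕ) : ℝ) =
      q * d * (n * T) * (if i ∈ BB r m then JJ _ else noisy (1 / q) (walk G d T)) a b := by
    intro i a b
    have e : i ∈ BB r m ↔ i.val < m := by simp [BB]
    have hn' := hn.ne'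
    have hn1 : (n : ℝ) ≠ 0 := left_ne_zero_of_mul hn'
    have hn2 : (T : ℝ) ≠ 0 := right_ne_zero_of_mul hn'
    by_cases hi : i.val < m
    · rw [if_pos hi, if_pos (e.2 hi)]
      simp only [JJ, Fintype.card_prod, Fintype.card_fin]
      push_cast
      field_simp
    · rw [if_neg hi, if_neg (mt e.1 hi)]
      simp only [noisy, JJ, walk, Matrix.add_apply, Matrix.smul_apply, smul_eq_mul,
        Fintype.card_prod, Fintype.card_fin]
      by_cases h : G.Adj a.1 b.1 ∧ a.2 = b.2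
      · rw [if_pos h, if_pos h]
        push_cast [Nat.cast_sub hq]
        field_simp
        ring
      · rw [if_neg h, if_neg h]
        push_cast
        field_simp
        ring
  rw [fold, Fintype.card_perm, Fintype.card_fin, iw]
  simp only [Nat.cast_sum, Nat.cast_prod, key, Finset.prod_mul_distrib, Finset.prod_const,
    Finset.card_univ, Fintype.card_fin, ← Finset.mul_sum, prodK, ten, Function.comp_apply]
  push_cast
  field_simp
  simp only [mul_pow, mul_comm]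

theorem ds_ker (hd : ∀ v, (G.neighborSet v).ncard = d) (hd0 : 0 < d) [Nonempty (Fin n × Fin T)]
    {ε : ℝ} (h0 : 0 ≤ ε) (h1 : ε ≤ 1) (B : Finset (Fin r)) :
    DS (fold (prodK B ε (walk G d T))) := by
  refine ds_fold (ds_ten fun i => ?_)
  by_cases hi : i ∈ B
  · rw [if_pos hi]; exact ds_JJ
  · rw [if_neg hi]; exact (ds_walk hd hd0).convex ds_JJ (by linarith) (by linarith)

theorem pow_small {δ a : ℝ} (ha : 0 < a) (h1 : δ ≤ 1) (hr : a ≤ r * δ) :
    (1 - δ) ^ r ≤ 720 / a ^ 6 := by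
  have a1 : (1 - δ) ^ r ≤ Real.exp (-δ) ^ r :=
    pow_le_pow_left₀ (by linarith) (Real.one_sub_le_exp_neg δ) r
  have a2 : Real.exp (-δ) ^ r ≤ Real.exp (-a) := by
    rw [← Real.exp_nat_mul]; exact Real.exp_le_exp.2 (by linarith)
  have a3 := Real.pow_div_factorial_le_exp a ha.le 6
  rw [Real.exp_neg a] at a2
  refine a1.trans (a2.trans ?_)
  rw [← inv_div]
  exact inv_anti₀ (by positivity) (by simpa [Nat.factorial] using a3)

variable {a N W L D Z : ℕ} [NeZero D] {V : Type} {δ η : ℝ}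
  (lab : Fin D ≃ (Fin r → Fin n × Fin (a ^ 7)) × Fin W × Fin 2 × Fin L)
  (e : V ≃ ((Fin r → Fin n × Fin (a ^ 7)) × Fin L × Fin L) × Fin D × Fin D)
  (hd : ∀ v, (G.neighborSet v).ncard = d) (hd0 : 0 < d) (hn : 0 < n) (ha : 0 < a)
  (hr1 : a ≤ r * δ) (hr2 : r * δ ≤ 2 * a) (hN : N = (n * a ^ 7) ^ r)
  (hW : W = r.factorial ^ 2 * (a ^ 4 * d * (n * a ^ 7)) ^ r)
  (hL : L = a ^ 6 * (64 * N ^ 2 * W)) (hD : D = N * (W * (2 * L)))
  (hZ : 2 * L ^ 3 * W * N = a ^ 3 * Z)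

include hd hd0 hn ha hr1 hr2 hN hW hL hD hZ in
theorem asm_yes (hδ : δ ≤ 1) (hη0 : 0 ≤ η) (hη : η ≤ 1 / a ^ 4) (S : Finset (Fin n))
    (hk : (S.card : ℝ) = δ * n) (hS : ee G S Sᶜ ≤ η * (d * S.card)) :
    cr ((rook (iw G d (r / a ^ 4) (a ^ 4)) iw_symm lab).graph.comap e) ≤ 1585 * Z ^ 2 := by
  have : Nonempty (Fin n × Fin (a ^ 7)) := ⟨(⟨0, hn⟩, ⟨0, by positivity⟩)⟩
  have ha' : (1 : ℝ) ≤ a := by exact_mod_cast ha
  have hr0 : 0 < r := by
    rcases Nat.eq_zero_or_pos r with h | h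
    · subst h; simp at hr1; omega
    · exact h
  have : Nonempty (Fin r) := ⟨⟨0, hr0⟩⟩
  have hδ0 : 0 ≤ δ := by
    have : (0 : ℝ) < r := by exact_mod_cast hr0
    nlinarith
  have e0 : (0 : ℝ) ≤ 1 / (a ^ 4 : ℕ) := by positivity
  have e1 : (1 : ℝ) / (a ^ 4 : ℕ) ≤ 1 := by
    rw [div_le_one (by positivity)]; exact_mod_cast Nat.one_le_pow _ _ ha
  have hc : (Fintype.card (Fin r → Fin n × Fin (a ^ 7)) : ℝ) = N := by simp [hN]
  have h1 := part_cut (T := a ^ 7) hd hd0 hη0 e0 e1 S hk hS (BB r (r / a ^ 4))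
  have h2 := part_size (ι := Fin r) (T := a ^ 7) (ε := 720 / a ^ 6) S hk
    (by
      rw [Fintype.card_fin]
      push_cast
      have : (720 / a ^ 6 * a ^ 7 : ℝ) = 720 * a := by field_simp
      linarith)
    (by rw [Fintype.card_fin]; exact pow_small (by linarith) hδ hr1)
  have main := rook_yes iw_symm lab (ds_ker hd hd0 e0 e1 (BB r (r / a ^ 4)))
    (fun x y => hW ▸ iw_eq (by positivity) hd0 x y) e (part S) (ε1 := 12 / a ^ 3)
    (ε2 := 720 / a ^ 6) (h1.trans (by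
      refine mul_le_mul_of_nonneg_right ?_ (by positivity)
      rw [card_BB (Nat.div_le_self _ _), Fintype.card_fin]
      have b1 : ((r / a ^ 4 : ℕ) : ℝ) ≤ r / (a ^ 4 : ℕ) := Nat.cast_div_le
      push_cast at b1 ⊢
      calc _ ≤ 2 * δ * (r * (1 / a ^ 4 + 1 / a ^ 4) + r / a ^ 4) := by gcongr
        _ = 6 * (r * δ) / a ^ 4 := by ring
        _ ≤ 6 * (2 * a) / a ^ 4 := by gcongr
        _ = _ := by field_simp; norm_num))
    fun t => by rw [ncard_cast]; exact h2 t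
  rw [hc] at main
  have hZ' : (2 * L ^ 3 * W * N : ℝ) = a ^ 3 * Z := by exact_mod_cast hZ
  have b1 : a ^ 6 * (32 * (N * L ^ 2 * D ^ 3)) = a ^ 6 * Z ^ 2 := by
    calc _ = (a ^ 6 * (64 * N ^ 2 * W)) * (L ^ 3 * (N * (W * (2 * L))) ^ 2) := by rw [hD]; ring
      _ = (2 * L ^ 3 * W * N) ^ 2 := by rw [← hL]; ring
      _ = _ := by rw [hZ]; ring
  have b2 : (32 * (N * L ^ 2 * D ^ 3) : ℝ) = Z ^ 2 := by
    exact_mod_cast Nat.eq_of_mul_eq_mul_left (by positivity) b1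
  rw [hZ', b2] at main
  have b3 : ((2 * (720 / a ^ 6) + (12 / a ^ 3) ^ 2) * (a ^ 3 * Z) ^ 2 : ℝ) = 1584 * Z ^ 2 := by
    field_simp; ring
  rw [b3] at main
  have : (cr ((rook (iw G d (r / a ^ 4) (a ^ 4)) iw_symm lab).graph.comap e) : ℝ) ≤
    1585 * Z ^ 2 := by linarith
  exact_mod_cast this

include hd hd0 hn ha hr1 hr2 hN hW hL hD hZ in
theorem asm_no {C j : ℕ} (hC : 1 ≤ C) (haC : 4000000 * (128 * C) ^ 3 ≤ a)
    (hj : 3072 * a ^ 10 * (2048 * (16000000 * (128 * C * a)) * a ^ 4) ≤ j) (hη0 : 0 ≤ η)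
    (hη : 64000000 * (128 * C * a) * a * j ^ 2 * η ≤ 1) (hk2 : 2 ≤ k) (hkn : k ≤ n)
    (hk : (k : ℝ) = δ * n)
    (hno : ∀ S : Finset (Fin n), S.card = k → (1 - η) * (d * k) ≤ ee G S Sᶜ) :
    C ^ 2 * Z ^ 2 <
      3 * (Z ^ 2 + cr ((rook (iw G d (r / a ^ 4) (a ^ 4)) iw_symm lab).graph.comap e)) := by
  by_contra hcon
  push Not at hcon
  have : Nonempty (Fin n × Fin (a ^ 7)) := ⟨(⟨0, hn⟩, ⟨0, by positivity⟩)⟩
  have ha' : (1 : ℝ) ≤ a := by exact_mod_cast ha
  have hC' : (1 : ℝ) ≤ C := by exact_mod_cast hC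
  have hr0 : 0 < r := by
    rcases Nat.eq_zero_or_pos r with h | h
    · subst h; simp at hr1; omega
    · exact h
  have hr' : (0 : ℝ) < r := by exact_mod_cast hr0
  have hδ0 : 0 ≤ δ := by nlinarith
  have e0 : (0 : ℝ) < 1 / (a ^ 4 : ℕ) := by positivity
  have e1 : (1 : ℝ) / (a ^ 4 : ℕ) ≤ 1 := by
    rw [div_le_one (by positivity)]; exact_mod_cast Nat.one_le_pow _ _ ha
  have hc : Fintype.card (Fin r → Fin n × Fin (a ^ 7)) = N := by simp [hN]
  have hN0 : 0 < N := by rw [hN]; positivity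
  have hW0 : 0 < W := by rw [hW]; positivity
  have hL0 : 0 < L := by rw [hL]; positivity
  have hZ0 : 0 < Z := by
    have : 0 < a ^ 3 * Z := by rw [← hZ]; positivity
    exact Nat.pos_of_mul_pos_left this
  have hZ' : (2 * L ^ 3 * W * N : ℝ) = a ^ 3 * Z := by exact_mod_cast hZ
  have b1 : N * L ^ 2 * D ^ 2 ≤ Z ^ 2 := by
    refine Nat.le_of_mul_le_mul_left (c := a ^ 6) ?_ (by positivity)
    have b0 : a ^ 6 * N ≤ L ^ 2 := by
      refine le_trans ?_ (Nat.le_self_pow two_ne_zero L)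
      rw [hL]
      refine Nat.mul_le_mul_left _ ?_
      calc N ≤ 1 * N ^ 2 * 1 := by simpa using Nat.le_self_pow two_ne_zero N
        _ ≤ _ := by gcongr <;> omega
    calc _ = (a ^ 6 * N) * (L ^ 2 * D ^ 2) := by ring
      _ ≤ L ^ 2 * (L ^ 2 * D ^ 2) := by gcongr
      _ = (2 * L ^ 3 * W * N) ^ 2 := by rw [hD]; ring
      _ = _ := by rw [hZ]; ring
  have haC' : (4000000 * (128 * C) ^ 3 : ℝ) ≤ a := by exact_mod_cast haC
  have b2 : (320 * C : ℝ) ≤ a ^ 3 := by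
    have c1 : (128 * C : ℝ) ≤ (128 * C) ^ 3 := le_self_pow₀ (by linarith) three_ne_zero
    have c2 : (a : ℝ) ≤ a ^ 3 := le_self_pow₀ ha' three_ne_zero
    linarith
  obtain ⟨f, f0, f1, m0, m1, hf⟩ := rook_no iw_symm lab (ds_ker hd hd0 e0.le e1 (BB r (r / a ^ 4)))
    (fun x y => hW ▸ iw_eq (by positivity) hd0 x y) e hL0 hW0 (C * Z) (Nat.mul_pos hC hZ0)
    (by rw [hc]; nlinarith) (by
      rw [hc, hZ']; push_cast
      have := mul_le_mul_of_nonneg_right b2 (Nat.cast_nonneg (α := ℝ) Z)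
      linarith)
  set K : ℝ := 128 * C * a with hK
  have hK1 : 1 ≤ K := by nlinarith
  set Θ : ℝ := 2048 * (16000000 * K) * a ^ 4 with hΘ
  have ha4 : (1 : ℝ) ≤ a ^ 4 := one_le_pow₀ ha'
  have hΘ1 : 1 ≤ Θ := by nlinarith
  set γ : ℝ := 1 / ((BB r (r / a ^ 4)).card + 1) with hγ
  have hγ0 : 0 < γ := by positivity
  have hγ1 : r * γ ≤ a ^ 4 := by
    rw [hγ, card_BB (Nat.div_le_self _ _), mul_one_div, div_le_iff₀ (by positivity)]
    have := (Nat.lt_mul_div_succ r (show 0 < a ^ 4 by positivity)).le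
    exact_mod_cast this
  have hγ2 : γ ≤ a ^ 3 * δ := by
    refine le_of_mul_le_mul_left (hγ1.trans ?_) hr'
    calc (a : ℝ) ^ 4 = a ^ 3 * a := by ring
      _ ≤ a ^ 3 * (r * δ) := by gcongr
      _ = _ := by ring
  have hj' : (3072 * a ^ 10 * Θ : ℝ) ≤ j := by rw [hΘ, hK]; exact_mod_cast hj
  have hS := smallSet_walk (T := a ^ 7) (s := 1024 * γ * Θ) hd hd0 hk2 hkn hk hno j (by
    push_cast
    calc (3 * (1024 * γ * Θ) * a ^ 7 : ℝ) ≤ 3 * (1024 * (a ^ 3 * δ) * Θ) * a ^ 7 := by gcongr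
      _ = 3072 * a ^ 10 * Θ * δ := by ring
      _ ≤ _ := by gcongr)
  have := fold_sound (K := K) (θ := 1 / Θ) (ds_walk hd hd0) (BB r (r / a ^ 4)) hK1 e0 (by
      push_cast
      rw [mul_one_div, div_le_one (by positivity), hK]
      calc _ = 4000000 * (128 * C) ^ 3 * (a : ℝ) ^ 3 := by ring
        _ ≤ a * a ^ 3 := by gcongr
        _ = _ := by ring) hS (by positivity) ((div_le_one (by positivity)).2 hΘ1)
    (le_of_eq (by rw [← hγ]; field_simp)) (by
      rw [← hγ, Fintype.card_fin]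
      have c1 : 16000000 * K * (1024 * (1 / Θ) * (r * γ)) ≤ 1 / 2 :=
        calc _ ≤ 16000000 * K * (1024 * (1 / Θ) * a ^ 4) := by gcongr
          _ = _ := by rw [hΘ]; field_simp; norm_num
      have c2 : 16000000 * K * (j ^ 2 * η * (r * δ)) ≤ 1 / 2 :=
        calc _ ≤ 16000000 * K * (j ^ 2 * η * (2 * a)) := by gcongr
          _ ≤ _ := by linarith
      linarith) f f0 f1 m0 m1
  rw [hc] at this
  have c3 := (mul_lt_mul_of_pos_left this (show (0 : ℝ) < L ^ 3 * W by positivity)).trans_le hf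
  have c4 : (L ^ 3 * W * (K * (1 / (a ^ 4 : ℕ)) * N) : ℝ) =
      (2 * L ^ 3 * W * N) * (64 * C / a ^ 3) := by
    rw [hK]; push_cast; field_simp; norm_num
  rw [c4, hZ'] at c3
  refine absurd c3 (not_lt.2 (le_of_eq ?_))
  push_cast
  field_simp

end Pool.Agent.P.MP_8a730c_lc
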