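import Pool.Agent.P.MP_8a730c_lc.Sound

/-! Folding over permutations of the coordinates. -/

set_option linter.unusedSectionVars false

namespace Pool.Agent.P.MP_8a730c_lc

open Matrix Finset

variable {ι Ξ : Type} [Fintype ι] [DecidableEq ι] [Fintype Ξ] [DecidableEq Ξ] [Nonempty Ξ]

/-- Precomposition with a permutation of the coordinates. -/
def pre (Ξ : Type) (π : Equiv.Perm ι) : (ι → Ξ) ≃ (ι → Ξ) where
  toFun x := x ∘ π
  invFun x := x ∘ π.symm
  left_inv x := by ext; simp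
  right_inv x := by ext; simp

/-- The folded kernel. -/
noncomputable def fold (M : Matrix (ι → Ξ) (ι → Ξ) ℝ) : Matrix (ι → Ξ) (ι → Ξ) ℝ := fun x y =>
  (∑ π : Equiv.Perm ι, ∑ σ : Equiv.Perm ι, M (x ∘ π) (y ∘ σ)) / (Fintype.card (Equiv.Perm ι)) ^ 2

/-- Symmetrisation. -/
noncomputable def sy (g : (ι → Ξ) → ℝ) (u : ι → Ξ) : ℝ :=
  (∑ π : Equiv.Perm ι, g (u ∘ π.symm)) / Fintype.card (Equiv.Perm ι)

theorem fold_sum (M : Matrix (ι → Ξ) (ι → Ξ) ℝ) (G : (ι → Ξ) → (ι → Ξ) → ℝ) :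
    ∑ x, ∑ y, fold M x y * G x y = (∑ π : Equiv.Perm ι, ∑ σ : Equiv.Perm ι,
      ∑ u, ∑ v, M u v * G (u ∘ π.symm) (v ∘ σ.symm)) / (Fintype.card (Equiv.Perm ι)) ^ 2 := by
  have key : ∀ π σ : Equiv.Perm ι, ∑ u, ∑ v, M u v * G (u ∘ π.symm) (v ∘ σ.symm) =
      ∑ x, ∑ y, M (x ∘ π) (y ∘ σ) * G x y := by
    intro π σ
    rw [← (pre Ξ π).sum_comp]
    refine Finset.sum_congr rfl fun x _ => ?_
    rw [← (pre Ξ σ).sum_comp]
    refine Finset.sum_congr rfl fun y _ => ?_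
    simp [pre, Function.comp_assoc]
  simp only [key, fold, div_mul_eq_mul_div, ← Finset.sum_div, Finset.sum_mul]
  congr 1
  calc ∑ x, ∑ y, ∑ π : Equiv.Perm ι, ∑ σ : Equiv.Perm ι, M (x ∘ π) (y ∘ σ) * G x y
      = ∑ x, ∑ π : Equiv.Perm ι, ∑ y, ∑ σ : Equiv.Perm ι, M (x ∘ π) (y ∘ σ) * G x y :=
        Finset.sum_congr rfl fun _ _ => Finset.sum_comm
    _ = ∑ x, ∑ π : Equiv.Perm ι, ∑ σ : Equiv.Perm ι, ∑ y, M (x ∘ π) (y ∘ σ) * G x y :=
        Finset.sum_congr rfl fun _ _ => Finset.sum_congr rfl fun _ _ => Finset.sum_comm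
    _ = ∑ π : Equiv.Perm ι, ∑ x, ∑ σ : Equiv.Perm ι, ∑ y, M (x ∘ π) (y ∘ σ) * G x y :=
        Finset.sum_comm
    _ = _ := Finset.sum_congr rfl fun _ _ => Finset.sum_comm

theorem card_perm_pos : (0 : ℝ) < Fintype.card (Equiv.Perm ι) := by
  exact_mod_cast Fintype.card_pos

theorem ds_fold {M : Matrix (ι → Ξ) (ι → Ξ) ℝ} (h : DS M) : DS (fold M) := by
  refine ⟨fun x y => div_nonneg (Finset.sum_nonneg fun _ _ => Finset.sum_nonneg fun _ _ =>
    h.nonneg _ _) (by positivity), fun x y => ?_, fun x => ?_⟩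
  · simp only [fold]
    rw [Finset.sum_comm]
    simp only [fun a b => h.symm a b]
  · simp only [fold, ← Finset.sum_div]
    rw [Finset.sum_comm]
    have : ∀ π : Equiv.Perm ι, ∑ y, ∑ σ : Equiv.Perm ι, M (x ∘ π) (y ∘ σ) =
        Fintype.card (Equiv.Perm ι) := by
      intro π
      rw [Finset.sum_comm]
      have : ∀ σ : Equiv.Perm ι, ∑ y : ι → Ξ, M (x ∘ π) (y ∘ σ) = 1 := fun σ =>
        ((pre Ξ σ).sum_comp (M (x ∘ π))).trans (h.row _)
      simp [this]
    simp only [this, Finset.sum_const, Finset.card_univ, nsmul_eq_mul]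
    have := card_perm_pos (ι := ι)
    field_simp

theorem dot_fold (M : Matrix (ι → Ξ) (ι → Ξ) ℝ) (g : (ι → Ξ) → ℝ) :
    g ⬝ᵥ fold M *ᵥ g = sy g ⬝ᵥ M *ᵥ sy g := by
  have := fold_sum M fun x y => g x * g y
  simp only [dotProduct, mulVec, Finset.mul_sum]
  calc _ = ∑ x, ∑ y, fold M x y * (g x * g y) :=
        Finset.sum_congr rfl fun _ _ => Finset.sum_congr rfl fun _ _ => by ring
    _ = (∑ u, ∑ v, ∑ π : Equiv.Perm ι, ∑ σ : Equiv.Perm ι,
          M u v * (g (u ∘ π.symm) * g (v ∘ σ.symm))) / (Fintype.card (Equiv.Perm ι)) ^ 2 := by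
        rw [this]
        congr 1
        calc _ = ∑ π : Equiv.Perm ι, ∑ u, ∑ σ : Equiv.Perm ι, ∑ v,
              M u v * (g (u ∘ π.symm) * g (v ∘ σ.symm)) :=
              Finset.sum_congr rfl fun _ _ => Finset.sum_comm
          _ = ∑ π : Equiv.Perm ι, ∑ u, ∑ v, ∑ σ : Equiv.Perm ι,
              M u v * (g (u ∘ π.symm) * g (v ∘ σ.symm)) :=
              Finset.sum_congr rfl fun _ _ => Finset.sum_congr rfl fun _ _ => Finset.sum_comm
          _ = ∑ u, ∑ π : Equiv.Perm ι, ∑ v, ∑ σ : Equiv.Perm ι,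
              M u v * (g (u ∘ π.symm) * g (v ∘ σ.symm)) := Finset.sum_comm
          _ = _ := Finset.sum_congr rfl fun _ _ => Finset.sum_comm
    _ = _ := by
        simp only [Finset.sum_div]
        refine Finset.sum_congr rfl fun u _ => Finset.sum_congr rfl fun v _ => ?_
        simp only [sy, ← Finset.sum_div, ← Finset.mul_sum, ← Finset.sum_mul]
        ring

theorem sy_comp (g : (ι → Ξ) → ℝ) (u : ι → Ξ) (τ : Equiv.Perm ι) : sy g (u ∘ τ) = sy g u := by
  unfold sy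
  congr 1
  rw [← Equiv.sum_comp (Equiv.mulRight τ⁻¹) fun π : Equiv.Perm ι => g (u ∘ π.symm)]
  refine Finset.sum_congr rfl fun π _ => ?_
  congr 1

theorem sum_sy (g : (ι → Ξ) → ℝ) : ∑ u, sy g u = ∑ u, g u := by
  simp only [sy, ← Finset.sum_div]
  rw [Finset.sum_comm]
  have : ∀ π : Equiv.Perm ι, ∑ u : ι → Ξ, g (u ∘ π.symm) = ∑ u, g u := fun π =>
    (pre Ξ π.symm).sum_comp g
  simp only [this, Finset.sum_const, Finset.card_univ, nsmul_eq_mul]
  have := card_perm_pos (ι := ι)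
  field_simp

theorem sy_nonneg {g : (ι → Ξ) → ℝ} (h : ∀ u, 0 ≤ g u) (u : ι → Ξ) : 0 ≤ sy g u :=
  div_nonneg (Finset.sum_nonneg fun _ _ => h _) card_perm_pos.le

theorem sy_le_one {g : (ι → Ξ) → ℝ} (h : ∀ u, g u ≤ 1) (u : ι → Ξ) : sy g u ≤ 1 := by
  rw [sy, div_le_one card_perm_pos]
  simpa using Finset.sum_le_sum (s := Finset.univ) fun (π : Equiv.Perm ι) _ => h (u ∘ π.symm)

/-- Averaging over the coordinates in `A`. -/
noncomputable def EE (Ξ : Type) [Fintype Ξ] [DecidableEq Ξ] (A : Finset ι) :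
    Matrix (ι → Ξ) (ι → Ξ) ℝ := ten fun k => if k ∈ A then JJ Ξ else 1

theorem ds_EE (A : Finset ι) : DS (EE Ξ A) :=
  ds_ten fun k => by split_ifs; exacts [ds_JJ, ds_one]

theorem EE_apply (A : Finset ι) (g : (ι → Ξ) → ℝ) (u : ι → Ξ) :
    Fintype.card (ι → Ξ) * (EE Ξ A *ᵥ g) u = ∑ x, g (A.piecewise x u) := by
  have e1 : ∀ x : ι → Ξ, g (A.piecewise x u) =
      ∑ v, (∏ k, if (if k ∈ A then x k else u k) = v k then (1 : ℝ) else 0) * g v := by
    intro x
    rw [Finset.sum_eq_single (A.piecewise x u)]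
    · simp [Finset.piecewise]
    · intro v _ hv
      obtain ⟨k, hk⟩ := Function.ne_iff.1 hv
      rw [Finset.prod_eq_zero (Finset.mem_univ k) (if_neg fun h => hk h.symm), zero_mul]
    · simp
  simp only [e1]
  rw [Finset.sum_comm, mulVec, dotProduct, Finset.mul_sum]
  refine Finset.sum_congr rfl fun v _ => ?_
  rw [← Finset.sum_mul, ← mul_assoc]
  congr 1
  rw [← Fintype.piFinset_univ, ← Finset.prod_univ_sum (fun _ => Finset.univ)
    (fun k ξ => if (if k ∈ A then ξ else u k) = v k then (1 : ℝ) else 0)]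
  rw [EE, ten, Fintype.card_fun, ← Finset.card_univ (α := ι), Nat.cast_pow, ← Finset.prod_const,
    ← Finset.prod_mul_distrib]
  refine Finset.prod_congr rfl fun k _ => ?_
  by_cases hk : k ∈ A
  · simp [hk, JJ]
  · simp [hk, one_apply]

theorem fibre_sym (B : Finset ι) (g : (ι → Ξ) → ℝ) (hg : ∀ u, |g u| ≤ 1)
    (hsym : ∀ (τ : Equiv.Perm ι) u, g (u ∘ τ) = g u) (i : ι) (u : ι → Ξ) :
    ∑ ξ, (LT 1 i *ᵥ (EE Ξ B *ᵥ g)) (Function.update u i ξ) ^ 2 ≤
      1 / (B.card + 1) * Fintype.card Ξ := by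
  have hN : (0 : ℝ) < Fintype.card (ι → Ξ) := by exact_mod_cast Fintype.card_pos
  have hn : (0 : ℝ) < Fintype.card Ξ := by exact_mod_cast Fintype.card_pos
  by_cases hi : i ∈ B
  · have : LT 1 i * EE Ξ B = 0 := by
      rw [LT_one, EE, ten_mul]
      ext a b
      exact Finset.prod_eq_zero (Finset.mem_univ i) (by simp [hi, LL_JJ])
    rw [mulVec_mulVec, this]
    simp only [zero_mulVec, Pi.zero_apply]
    simp only [ne_eq, OfNat.ofNat_ne_zero, not_false_eq_true, zero_pow, Finset.sum_const_zero]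
    positivity
  set f := EE Ξ B *ᵥ g with hf
  set ψ : Ξ → ℝ := fun ξ => (LT 1 i *ᵥ f) (Function.update u i ξ) with hψ
  have hψ' : ∀ ξ, ψ ξ = f (Function.update u i ξ) -
      (∑ ξ, f (Function.update u i ξ)) / Fintype.card Ξ := fun ξ => by
    simp only [hψ, LT_one_apply, Function.update_idem]
  have h0 : ∑ ξ, ψ ξ = 0 := by
    simp only [hψ', Finset.sum_sub_distrib, Finset.sum_const, Finset.card_univ, nsmul_eq_mul]
    field_simp; ring
  have h1 : ∑ ξ, ψ ξ ^ 2 = ∑ ξ, ψ ξ * f (Function.update u i ξ) := by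
    have : ∀ ξ, ψ ξ ^ 2 = ψ ξ * f (Function.update u i ξ) -
        ψ ξ * ((∑ ξ, f (Function.update u i ξ)) / Fintype.card Ξ) := fun ξ => by
      rw [sq]; nth_rewrite 2 [hψ']; ring
    simp only [this, Finset.sum_sub_distrib, ← Finset.sum_mul, h0, zero_mul, sub_zero]
  have s1 : Fintype.card Ξ * ∑ x : ι → Ξ, ψ (x i) * g ((insert i B).piecewise x u) =
      Fintype.card (ι → Ξ) * ∑ ξ, ψ ξ ^ 2 := by
    rw [← sum_update i, h1, Finset.sum_comm, Finset.mul_sum]
    refine Finset.sum_congr rfl fun ξ _ => ?_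
    rw [mul_left_comm, hf, EE_apply, Finset.mul_sum]
    refine Finset.sum_congr rfl fun x _ => ?_
    rw [Function.update_self]
    congr 2
    ext k
    by_cases hk : k = i
    · subst hk; simp [Finset.piecewise, hi]
    · simp [Finset.piecewise, hk]
  have s2 : ∀ j ∈ insert i B, ∑ x : ι → Ξ, ψ (x j) * g ((insert i B).piecewise x u) =
      ∑ x : ι → Ξ, ψ (x i) * g ((insert i B).piecewise x u) := by
    intro j hj
    rw [← (pre Ξ (Equiv.swap i j)).sum_comp]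
    refine Finset.sum_congr rfl fun x _ => ?_
    rw [← hsym (Equiv.swap i j) ((insert i B).piecewise x u)]
    congr 2
    · simp [pre]
    · ext k
      have hi' : i ∈ insert i B := Finset.mem_insert_self _ _
      by_cases h1 : k = i
      · subst h1; simp only [pre, Equiv.coe_fn_mk, Finset.piecewise, hi', hj, if_true,
          Function.comp_apply, Equiv.swap_apply_left]
      by_cases h2 : k = j
      · subst h2; simp only [pre, Equiv.coe_fn_mk, Finset.piecewise, hi', hj, if_true,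
          Function.comp_apply, Equiv.swap_apply_right]
      · simp only [pre, Equiv.coe_fn_mk, Finset.piecewise, Function.comp_apply,
          Equiv.swap_apply_of_ne_of_ne h1 h2]
  have s3 := second_moment (ι := ι) (fun _ : Ξ => (Fintype.card Ξ : ℝ)⁻¹) ψ (by simp)
    (by rw [← Finset.mul_sum, h0, mul_zero]) (fun j => if j ∈ insert i B then 1 else 0)
  simp only [Finset.prod_const, Finset.card_univ, ← Finset.mul_sum, ite_mul, one_mul, zero_mul,
    Finset.sum_ite_mem, Finset.univ_inter, ite_pow, one_pow, ne_eq, OfNat.ofNat_ne_zero,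
    not_false_eq_true, zero_pow, Finset.sum_const, nsmul_eq_mul, mul_one] at s3
  have s4 : ((insert i B).card : ℝ) * ∑ x : ι → Ξ, ψ (x i) * g ((insert i B).piecewise x u) ≤
      (∑ x : ι → Ξ, (∑ j ∈ insert i B, ψ (x j)) ^ 2 + Fintype.card (ι → Ξ)) / 2 := by
    rw [← nsmul_eq_mul, ← Finset.sum_const, ← Finset.sum_congr rfl s2, Finset.sum_comm]
    have : (Fintype.card (ι → Ξ) : ℝ) = ∑ _x : ι → Ξ, (1 : ℝ) := by simp
    rw [this, ← Finset.sum_add_distrib, Finset.sum_div]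
    refine Finset.sum_le_sum fun x _ => ?_
    rw [← Finset.sum_mul]
    have a1 := hg ((insert i B).piecewise x u)
    generalize g ((insert i B).piecewise x u) = v at a1
    have a2 : v ^ 2 ≤ 1 := by rw [← sq_abs]; nlinarith [abs_nonneg v]
    nlinarith [sq_nonneg (∑ j ∈ insert i B, ψ (x j) - v)]
  rw [Finset.card_insert_of_notMem hi] at s3 s4
  have e : (Fintype.card (ι → Ξ) : ℝ) = Fintype.card Ξ ^ Fintype.card ι := by simp
  have s5 : Fintype.card Ξ * ∑ x : ι → Ξ, (∑ j ∈ insert i B, ψ (x j)) ^ 2 =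
      Fintype.card (ι → Ξ) * ((B.card + 1) * ∑ ξ, ψ ξ ^ 2) := by
    rw [inv_pow, ← e, inv_mul_eq_iff_eq_mul₀ hN.ne'] at s3
    rw [s3]; push_cast; field_simp
  push_cast at s4
  have s6 : (B.card + 1) * ∑ ξ, ψ ξ ^ 2 ≤ Fintype.card Ξ := by
    have a1 := mul_le_mul_of_nonneg_left s4 hn.le
    refine le_of_mul_le_mul_left ?_ hN
    have a2 : (Fintype.card Ξ : ℝ) * ((B.card + 1) *
        ∑ x : ι → Ξ, ψ (x i) * g ((insert i B).piecewise x u)) =
        (B.card + 1) * (Fintype.card (ι → Ξ) * ∑ ξ, ψ ξ ^ 2) := by rw [← s1]; ring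
    linarith
  rw [one_div, inv_mul_eq_div, le_div_iff₀ (by positivity)]
  linarith

/-- The product kernel: fresh samples on `B`, noisy steps elsewhere. -/
noncomputable def prodK (B : Finset ι) (ε : ℝ) (P : Matrix Ξ Ξ ℝ) : Matrix (ι → Ξ) (ι → Ξ) ℝ :=
  ten fun k => if k ∈ B then JJ Ξ else noisy ε P

theorem fold_sound {P : Matrix Ξ Ξ ℝ} (hP : DS P) {K ε s β θ : ℝ} (B : Finset ι) (hK : 1 ≤ K)
    (hε : 0 < ε) (hε2 : 4000000 * K ^ 3 * ε ≤ 1) (hS : SmallSet P s β) (hθ0 : 0 < θ) (hθ1 : θ ≤ 1)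
    (hs : 1024 * (1 / (B.card + 1)) ≤ s * θ)
    (hκ : 16000000 * K * (Fintype.card ι * (1024 * θ * (1 / (B.card + 1)) + β)) ≤ 1)
    (f : (ι → Ξ) → ℝ) (f0 : ∀ u, 0 ≤ f u) (f1 : ∀ u, f u ≤ 1)
    (m0 : (Fintype.card (ι → Ξ) : ℝ) ≤ 5 * ∑ u, f u)
    (m1 : 5 * ∑ u, f u ≤ 4 * Fintype.card (ι → Ξ)) :
    K * ε * Fintype.card (ι → Ξ) < 2 * (∑ u, f u - f ⬝ᵥ fold (prodK B ε P) *ᵥ f) := by
  have hK3 : 1 ≤ K ^ 3 := one_le_pow₀ hK
  have hnP : DS (noisy ε P) := hP.convex ds_JJ (by nlinarith) (by linarith)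
  have e : prodK B ε P = (EE Ξ B)ᵀ * (ten (fun _ : ι => noisy ε P) * EE Ξ B) := by
    rw [(ds_EE B).transpose, EE, ten_mul, ten_mul, prodK]
    congr 1; funext k
    split_ifs
    · rw [hnP.mul_JJ, JJ_JJ]
    · simp
  have hsum : ∑ u, (EE Ξ B *ᵥ sy f) u = ∑ u, f u := by rw [(ds_EE B).sum_mulVec, sum_sy]
  have := sound hP hK hε hε2 hS hθ0 hθ1 hs hκ (EE Ξ B *ᵥ sy f)
    ((ds_EE B).ge_of_ge (sy_nonneg f0)) ((ds_EE B).le_of_le (sy_le_one f1))
    (fibre_sym B _ (fun u => abs_le.2 ⟨by linarith [sy_nonneg f0 u], sy_le_one f1 u⟩)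
      fun τ u => sy_comp f u τ) (hsum ▸ m0) (hsum ▸ m1)
  rw [dot_fold, e, ← mulVec_mulVec, dotProduct_mulVec, vecMul_transpose, ← mulVec_mulVec, ← hsum]
  exact this

theorem sum_coord (i : ι) (H : Ξ → ℝ) :
    Fintype.card Ξ * ∑ u : ι → Ξ, H (u i) = Fintype.card (ι → Ξ) * ∑ ξ, H ξ := by
  rw [← sum_update i]; simp

theorem ten_coord {K : ι → Matrix Ξ Ξ ℝ} (h : ∀ i, DS (K i)) (i : ι) (G : Ξ → Ξ → ℝ) :
    Fintype.card Ξ * ∑ u, ∑ v, ten K u v * G (u i) (v i) =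
      Fintype.card (ι → Ξ) * ∑ a, ∑ b, K i a b * G a b := by
  rw [← sum_coord i]
  congr 1
  refine Finset.sum_congr rfl fun u _ => ?_
  have e : ∀ v : ι → Ξ, ten K u v * G (u i) (v i) =
      ∏ k, (K k (u k) (v k) * if k = i then G (u k) (v k) else 1) := by
    intro v
    simp only [ten, Finset.prod_mul_distrib, Finset.prod_ite_eq', Finset.mem_univ, if_true]
  simp only [e]
  rw [← Fintype.piFinset_univ, ← Finset.prod_univ_sum (fun _ => Finset.univ)
    (fun k b => K k (u k) b * if k = i then G (u k) b else 1),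
    Finset.prod_eq_single i (fun k _ hk => by simp [hk, (h k).row]) (by simp)]
  simp

theorem fold_complete {K : ι → Matrix Ξ Ξ ℝ} (h : ∀ i, DS (K i)) (val : Ξ → ℕ)
    (c : (ι → Ξ) → ℕ) (hc : ∀ (τ : Equiv.Perm ι) u, c (u ∘ τ) = c u)
    (hv : ∀ u v, (∀ i, val (u i) = val (v i)) → c u = c v) :
    Fintype.card Ξ * ∑ x, ∑ y, fold (ten K) x y * (if c x = c y then 0 else 1) ≤
      Fintype.card (ι → Ξ) * ∑ i, ∑ a, ∑ b, K i a b * (if val a = val b then 0 else 1) := by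
  have hn : (0 : ℝ) < Fintype.card Ξ := by exact_mod_cast Fintype.card_pos
  have e : ∑ x, ∑ y, fold (ten K) x y * (if c x = c y then (0 : ℝ) else 1) =
      ∑ u, ∑ v, ten K u v * (if c u = c v then 0 else 1) := by
    rw [fold_sum]
    simp only [hc, Finset.sum_const, Finset.card_univ, nsmul_eq_mul]
    have := card_perm_pos (ι := ι)
    field_simp
  rw [e, Finset.mul_sum (f := fun i => ∑ a, ∑ b, K i a b * (if val a = val b then (0 : ℝ) else 1)),
    ← Finset.sum_congr rfl fun i _ => ten_coord h i fun a b => if val a = val b then 0 else 1,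
    ← Finset.mul_sum]
  refine mul_le_mul_of_nonneg_left ?_ hn.le
  rw [Finset.sum_comm (f := fun i u => ∑ v, ten K u v *
    (if val (u i) = val (v i) then (0 : ℝ) else 1))]
  refine Finset.sum_le_sum fun u _ => ?_
  rw [Finset.sum_comm]
  refine Finset.sum_le_sum fun v _ => ?_
  rw [← Finset.mul_sum]
  refine mul_le_mul_of_nonneg_left ?_ ((ds_ten h).nonneg u v)
  split_ifs with h1
  · exact Finset.sum_nonneg fun i _ => by split_ifs <;> norm_num
  · obtain ⟨i, hi⟩ := not_forall.1 fun h => h1 (hv u v h)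
    refine le_trans ?_ (Finset.single_le_sum (f := fun i =>
      if val (u i) = val (v i) then (0 : ℝ) else 1) (fun i _ => by split_ifs <;> norm_num)
      (Finset.mem_univ i))
    simp [hi]

end Pool.Agent.P.MP_8a730c_lc
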