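import Pool.Agent.P.MP_8a730c_lc.Defs
import Pool.Agent.P.MP_8a730c_lc.Fold

/-! The kernel attached to a regular graph: small-set property and completeness estimates. -/

set_option linter.unusedSectionVars false

namespace Pool.Agent.P.MP_8a730c_lc

open Matrix Finset Classical

variable {n T d k : ℕ} (G : SimpleGraph (Fin n))

noncomputable def ee (A B : Finset (Fin n)) : ℝ :=
  ∑ a ∈ A, ∑ b ∈ B, if G.Adj a b then 1 else 0

theorem card_interedges (A B : Finset (Fin n)) : ((G.interedges A B).card : ℝ) = ee G A B := by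
  rw [SimpleGraph.interedges_def, Finset.card_filter, Finset.sum_product]
  push_cast; rfl

theorem ee_comm (A B : Finset (Fin n)) : ee G A B = ee G B A := by
  rw [ee, Finset.sum_comm]; simp only [ee, G.adj_comm]

theorem ee_mono {A B A' B' : Finset (Fin n)} (h : A ⊆ A') (h' : B ⊆ B') :
    ee G A B ≤ ee G A' B' :=
  (Finset.sum_le_sum fun _ _ => Finset.sum_le_sum_of_subset_of_nonneg h' fun _ _ _ => by
    split_ifs <;> norm_num).trans (Finset.sum_le_sum_of_subset_of_nonneg h fun _ _ _ =>
      Finset.sum_nonneg fun _ _ => by split_ifs <;> norm_num)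

variable {G}

theorem deg_sum (hd : ∀ v, (G.neighborSet v).ncard = d) (a : Fin n) :
    ∑ b, (if G.Adj a b then (1 : ℝ) else 0) = d := by
  rw [← hd a, Set.ncard_eq_toFinset_card', Finset.sum_boole]
  congr 2; ext b; simp

theorem ee_add (hd : ∀ v, (G.neighborSet v).ncard = d) (S : Finset (Fin n)) :
    ee G S S + ee G S Sᶜ = d * S.card := by
  simp only [ee, ← Finset.sum_add_distrib, Finset.sum_add_sum_compl, deg_sum hd]
  simp [mul_comm]

theorem pieces {α : Type} (g : α → ℝ) (h : ℕ) (c : ℝ) (hc : ∀ A : Finset α, A.card ≤ h → ∑ a ∈ A, g a ≤ c)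
    (j : ℕ) : ∀ A : Finset α, A.card ≤ j * h → ∑ a ∈ A, g a ≤ j * c := by
  induction j with
  | zero => intro A hA; simp [Finset.card_eq_zero.1 (Nat.le_zero.1 (by simpa using hA))]
  | succ j ih =>
    intro A hA
    obtain ⟨B, h1, h2⟩ := Finset.exists_subset_card_eq (s := A) (n := min h A.card) (min_le_right _ _)
    rw [← Finset.sum_sdiff h1]
    have a1 := hc B (h2 ▸ min_le_left _ _)
    have a2 := ih (A \ B) (by
      rw [Finset.card_sdiff_of_subset h1, h2, Nat.add_mul] at *; omega)
    push_cast; linarith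

theorem ee_small (hd : ∀ v, (G.neighborSet v).ncard = d) {η : ℝ} (hkn : k ≤ n)
    (hno : ∀ S : Finset (Fin n), S.card = k → (1 - η) * (d * k) ≤ ee G S Sᶜ) (j : ℕ)
    (A B : Finset (Fin n)) (hA : A.card ≤ j * (k / 2)) (hB : B.card ≤ j * (k / 2)) :
    ee G A B ≤ j * (j * (η * (d * k))) := by
  refine pieces _ (k / 2) _ (fun A hA => ?_) j A hA
  refine (ee_comm G A B).trans_le (pieces _ (k / 2) _ (fun B hB => ?_) j B hB)
  obtain ⟨S, h1, -, h2⟩ := Finset.exists_subsuperset_card_eq (n := k) (Finset.subset_univ (A ∪ B))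
    ((Finset.card_union_le _ _).trans (by omega)) (by simpa using hkn)
  have a1 := ee_mono G (Finset.subset_union_right.trans h1) (Finset.subset_union_left.trans h1)
  have a2 := ee_add hd S
  have a3 := hno S h2
  rw [h2] at a2
  exact a1.trans (by linarith)

/-- The random walk of the graph, times the identity on the labels. -/
noncomputable def walk (G : SimpleGraph (Fin n)) (d T : ℕ) :
    Matrix (Fin n × Fin T) (Fin n × Fin T) ℝ :=
  fun a b => if G.Adj a.1 b.1 ∧ a.2 = b.2 then (d : ℝ)⁻¹ else 0

theorem walk_row (a : Fin n) (s : Fin T) (b : Fin n) : ∑ t : Fin T, walk G d T (a, s) (b, t) =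
    (d : ℝ)⁻¹ * if G.Adj a b then 1 else 0 := by
  by_cases h : G.Adj a b <;> simp [walk, h]

theorem walk_sum (A B : Finset (Fin n)) :
    ∑ a ∈ A ×ˢ univ, ∑ b ∈ B ×ˢ univ, walk G d T a b = T * (d : ℝ)⁻¹ * ee G A B := by
  have : ∀ (a : Fin n) (s : Fin T), ∑ b ∈ B ×ˢ univ, walk G d T (a, s) b =
      (d : ℝ)⁻¹ * ∑ b ∈ B, if G.Adj a b then 1 else 0 := fun a s => by
    rw [Finset.sum_product, Finset.mul_sum]
    exact Finset.sum_congr rfl fun b _ => walk_row a s b
  rw [Finset.sum_product, ee, Finset.mul_sum]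
  refine Finset.sum_congr rfl fun a _ => ?_
  rw [Finset.sum_congr rfl fun s _ => this a s, Finset.sum_const, Finset.card_univ,
    Fintype.card_fin, nsmul_eq_mul, mul_assoc]

theorem ds_walk (hd : ∀ v, (G.neighborSet v).ncard = d) (hd0 : 0 < d) : DS (walk G d T) := by
  refine ⟨fun a b => by unfold walk; split_ifs <;> positivity,
    fun a b => by simp only [walk, G.adj_comm, eq_comm], fun ⟨a, s⟩ => ?_⟩
  rw [Fintype.sum_prod_type]
  simp only [walk_row, ← Finset.mul_sum, deg_sum hd]
  have : (d : ℝ) ≠ 0 := by positivity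
  field_simp

theorem smallSet_walk (hd : ∀ v, (G.neighborSet v).ncard = d) (hd0 : 0 < d) {η δ s : ℝ}
    (hk2 : 2 ≤ k) (hkn : k ≤ n) (hk : (k : ℝ) = δ * n)
    (hno : ∀ S : Finset (Fin n), S.card = k → (1 - η) * (d * k) ≤ ee G S Sᶜ) (j : ℕ)
    (hj : 3 * s * T ≤ j * δ) : SmallSet (walk G d T) s (j ^ 2 * η * δ) := by
  intro A B hA hB
  have hn : (0 : ℝ) ≤ n := by positivity
  have key : ∀ A : Finset (Fin n × Fin T), (A.card : ℝ) ≤ s * Fintype.card (Fin n × Fin T) →
      (A.image Prod.fst).card ≤ j * (k / 2) := by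
    intro A hA
    refine Finset.card_image_le.trans ?_
    have a1 : (3 * A.card : ℝ) ≤ j * k := by
      simp only [Fintype.card_prod, Fintype.card_fin, Nat.cast_mul] at hA
      have := mul_le_mul_of_nonneg_right hj hn
      rw [hk]; linarith
    have a2 : 3 * A.card ≤ j * k := by exact_mod_cast a1
    have a3 : j * k ≤ j * (3 * (k / 2)) := Nat.mul_le_mul_left _ (by omega)
    rw [Nat.mul_left_comm] at a3; omega
  have sub : ∀ A : Finset (Fin n × Fin T), A ⊆ A.image Prod.fst ×ˢ univ := fun A a ha =>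
    Finset.mem_product.2 ⟨Finset.mem_image_of_mem _ ha, Finset.mem_univ _⟩
  have h0 := (ds_walk (T := T) hd hd0).nonneg
  calc _ ≤ ∑ b ∈ B.image Prod.fst ×ˢ univ, ∑ a ∈ A.image Prod.fst ×ˢ univ, walk G d T b a :=
        (Finset.sum_le_sum fun _ _ => Finset.sum_le_sum_of_subset_of_nonneg (sub A)
          fun _ _ _ => h0 _ _).trans (Finset.sum_le_sum_of_subset_of_nonneg (sub B)
          fun _ _ _ => Finset.sum_nonneg fun _ _ => h0 _ _)
    _ ≤ T * (d : ℝ)⁻¹ * (j * (j * (η * (d * k)))) := by
        rw [walk_sum]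
        exact mul_le_mul_of_nonneg_left (ee_small hd hkn hno j _ _ (key B hB) (key A hA))
          (by positivity)
    _ = _ := by
        have : (d : ℝ) ≠ 0 := by positivity
        simp only [Fintype.card_prod, Fintype.card_fin, Nat.cast_mul, hk]
        field_simp

/-- The value of a labelled vertex. -/
def valS (S : Finset (Fin n)) (a : Fin n × Fin T) : ℕ := if a.1 ∈ S then a.2 else T

theorem sum_in (S : Finset (Fin n)) :
    ∑ a : Fin n × Fin T, (if a.1 ∈ S then (1 : ℝ) else 0) = S.card * T := by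
  have : ∀ a : Fin n, ∑ t : Fin T, (if (a, t).1 ∈ S then (1 : ℝ) else 0) =
      if a ∈ S then (T : ℝ) else 0 := fun a => by by_cases h : a ∈ S <;> simp [h]
  rw [Fintype.sum_prod_type]; simp [this]

theorem cut_any {K : Matrix (Fin n × Fin T) (Fin n × Fin T) ℝ} (hK : DS K) (S : Finset (Fin n)) :
    ∑ a, ∑ b, K a b * (if valS S a = valS S b then 0 else 1) ≤ 2 * (S.card * T) := by
  calc _ ≤ ∑ a, ∑ b, (K a b * (if a.1 ∈ S then 1 else 0) + K a b * (if b.1 ∈ S then 1 else 0)) := by
        refine Finset.sum_le_sum fun a _ => Finset.sum_le_sum fun b _ => ?_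
        rw [← mul_add]
        refine mul_le_mul_of_nonneg_left ?_ (hK.nonneg a b)
        by_cases h1 : a.1 ∈ S <;> by_cases h2 : b.1 ∈ S <;> simp only [valS, h1, h2, if_true,
          if_false] <;> (try split_ifs) <;> norm_num
    _ = _ := by
        have a1 : ∑ a, ∑ b, K a b * (if b.1 ∈ S then 1 else 0) = S.card * T :=
          (hK.sum_mulVec fun b => if b.1 ∈ S then 1 else 0).trans (sum_in S)
        simp only [Finset.sum_add_distrib, ← Finset.sum_mul, hK.row, one_mul, sum_in, a1]
        ring

theorem cut_walk (S : Finset (Fin n)) :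
    ∑ a, ∑ b, walk G d T a b * (if valS S a = valS S b then 0 else 1) ≤
      2 * (T * (d : ℝ)⁻¹ * ee G S Sᶜ) := by
  have e : ∀ A B : Finset (Fin n), ∑ a : Fin n × Fin T, ∑ b : Fin n × Fin T,
      (if a ∈ A ×ˢ univ then if b ∈ B ×ˢ univ then walk G d T a b else 0 else 0) =
      T * (d : ℝ)⁻¹ * ee G A B := fun A B => by
    rw [← walk_sum]
    simp only [Finset.sum_ite_irrel, Finset.sum_const_zero, Finset.sum_ite_mem, Finset.univ_inter]
  rw [two_mul]
  nth_rewrite 2 [ee_comm]
  rw [← e, ← e, ← Finset.sum_add_distrib]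
  refine Finset.sum_le_sum fun a _ => ?_
  rw [← Finset.sum_add_distrib]
  refine Finset.sum_le_sum fun b _ => ?_
  have : (0 : ℝ) ≤ (d : ℝ)⁻¹ := by positivity
  by_cases h : G.Adj a.1 b.1 ∧ a.2 = b.2
  · by_cases h1 : a.1 ∈ S <;> by_cases h2 : b.1 ∈ S <;>
      simp [walk, valS, h, h1, h2] <;> split_ifs <;> simp
  · simp [walk, h]

variable [Nonempty (Fin n × Fin T)]

theorem cut_noisy (hd0 : 0 < d) {η ε : ℝ} (hη : 0 ≤ η) (h0 : 0 ≤ ε) (h1 : ε ≤ 1)
    (S : Finset (Fin n)) (hS : ee G S Sᶜ ≤ η * (d * S.card)) :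
    ∑ a, ∑ b, noisy ε (walk G d T) a b * (if valS S a = valS S b then 0 else 1) ≤
      2 * (η + ε) * (S.card * T) := by
  have a1 := cut_walk (G := G) (d := d) (T := T) S
  have a2 := cut_any (ds_JJ (X := Fin n × Fin T)) S
  have a3 : T * (d : ℝ)⁻¹ * ee G S Sᶜ ≤ η * (S.card * T) := by
    refine (mul_le_mul_of_nonneg_left hS (by positivity)).trans (le_of_eq ?_)
    have : (d : ℝ) ≠ 0 := by positivity
    field_simp
  simp only [noisy, Matrix.add_apply, Matrix.smul_apply, smul_eq_mul, add_mul, mul_assoc,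
    Finset.sum_add_distrib, ← Finset.mul_sum, sub_sub_cancel]
  have a4 := mul_le_mul_of_nonneg_left a2 h0
  have a5 := mul_le_mul_of_nonneg_left (a1.trans (mul_le_mul_of_nonneg_left a3 zero_le_two))
    (sub_nonneg.2 h1)
  have a6 : 0 ≤ ε * (η * (S.card * T)) := by positivity
  linarith

variable {ι : Type} [Fintype ι] [DecidableEq ι] [Nonempty ι]

/-- The part of a tuple: the least value of a coordinate. -/
noncomputable def part (S : Finset (Fin n)) (x : ι → Fin n × Fin T) : ℕ := ⨅ i, valS S (x i)

theorem part_cut (hd : ∀ v, (G.neighborSet v).ncard = d) (hd0 : 0 < d) {η ε δ : ℝ} (hη : 0 ≤ η)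
    (h0 : 0 ≤ ε) (h1 : ε ≤ 1) (S : Finset (Fin n)) (hk : (S.card : ℝ) = δ * n)
    (hS : ee G S Sᶜ ≤ η * (d * S.card)) (B : Finset ι) :
    ∑ x, ∑ y, fold (prodK B ε (walk G d T)) x y * (if part S x = part S y then 0 else 1) ≤
      2 * δ * (Fintype.card ι * (η + ε) + B.card) * Fintype.card (ι → Fin n × Fin T) := by
  have hn : (0 : ℝ) < Fintype.card (Fin n × Fin T) := by exact_mod_cast Fintype.card_pos
  have hnP : DS (noisy ε (walk G d T)) := (ds_walk hd hd0).convex ds_JJ (by linarith) (by linarith)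
  have := fold_complete (K := fun k => if k ∈ B then JJ _ else noisy ε (walk G d T))
    (fun k => by
      by_cases hk : k ∈ B
      · rw [if_pos hk]; exact ds_JJ
      · rw [if_neg hk]; exact hnP) (valS S) (part S)
    (fun τ u => τ.iInf_comp (g := fun i => valS S (u i))) fun u v h => congrArg iInf (funext h)
  refine le_of_mul_le_mul_left (this.trans ?_) hn
  have a1 : ∀ i, ∑ a, ∑ b, (if i ∈ B then JJ _ else noisy ε (walk G d T)) a b *
      (if valS S a = valS S b then (0 : ℝ) else 1) ≤
      2 * (η + ε) * (S.card * T) + if i ∈ B then 2 * (S.card * T : ℝ) else 0 := by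
    intro i
    by_cases hi : i ∈ B
    · rw [if_pos hi, if_pos hi]
      exact (cut_any ds_JJ S).trans (le_add_of_nonneg_left
        (mul_nonneg (mul_nonneg zero_le_two (add_nonneg hη h0))
          (mul_nonneg (Nat.cast_nonneg _) (Nat.cast_nonneg _))))
    · rw [if_neg hi, if_neg hi, add_zero]; exact cut_noisy hd0 hη h0 h1 S hS
  refine (mul_le_mul_of_nonneg_left (Finset.sum_le_sum fun i _ => a1 i) (by positivity)).trans
    (le_of_eq ?_)
  rw [Finset.sum_add_distrib, Finset.sum_ite_mem, Finset.univ_inter, Finset.sum_const,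
    Finset.sum_const, Finset.card_univ, nsmul_eq_mul, nsmul_eq_mul, hk, Fintype.card_prod,
    Fintype.card_fin, Fintype.card_fin, Nat.cast_mul]
  ring

theorem part_size {δ ε : ℝ} (S : Finset (Fin n)) (hk : (S.card : ℝ) = δ * n)
    (h1 : Fintype.card ι * δ ≤ ε * T) (h2 : (1 - δ) ^ Fintype.card ι ≤ ε) (t : ℕ) :
    ∑ x : ι → Fin n × Fin T, (if part S x = t then (1 : ℝ) else 0) ≤
      ε * Fintype.card (ι → Fin n × Fin T) := by
  have hn : (0 : ℝ) < Fintype.card (Fin n × Fin T) := by exact_mod_cast Fintype.card_pos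
  by_cases ht : t < T
  · have a1 : ∑ a : Fin n × Fin T, (if valS S a = t then (1 : ℝ) else 0) ≤ S.card := by
      rw [Fintype.sum_prod_type]
      refine (Finset.sum_le_sum (g := fun a => if a ∈ S then 1 else 0) fun a _ => ?_).trans
        (by simp)
      by_cases ha : a ∈ S
      · have : ∀ s : Fin T, (valS S (a, s) = t) = (s = ⟨t, ht⟩) := fun s => by
          simp [valS, ha, Fin.ext_iff]
        simp [this, ha]
      · simp [valS, ha, ht.ne']
    calc _ ≤ ∑ x : ι → Fin n × Fin T, ∑ i, (if valS S (x i) = t then (1 : ℝ) else 0) := by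
          refine Finset.sum_le_sum fun x _ => ?_
          by_cases h : part S x = t
          · rw [if_pos h]
            obtain ⟨i, hi⟩ : ∃ i, valS S (x i) = part S x :=
              Nat.sInf_mem (Set.range_nonempty fun i => valS S (x i))
            refine le_trans ?_ (Finset.single_le_sum (f := fun i =>
              if valS S (x i) = t then (1 : ℝ) else 0) (fun i _ => by split_ifs <;> norm_num)
              (Finset.mem_univ i))
            simp [hi, h]
          · rw [if_neg h]
            exact Finset.sum_nonneg fun i _ => by split_ifs <;> norm_num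
      _ ≤ _ := by
          refine le_of_mul_le_mul_left ?_ hn
          rw [Finset.sum_comm, Finset.mul_sum]
          refine (Finset.sum_le_sum fun i _ => (sum_coord i fun a =>
            if valS S a = t then (1 : ℝ) else 0).trans_le
            (mul_le_mul_of_nonneg_left a1 (by positivity))).trans ?_
          simp only [Finset.sum_const, Finset.card_univ, nsmul_eq_mul, hk, Fintype.card_prod,
            Fintype.card_fin, Nat.cast_mul]
          have := mul_le_mul_of_nonneg_right h1
            (show (0 : ℝ) ≤ n * Fintype.card (ι → Fin n × Fin T) by positivity)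
          linarith
  · calc _ ≤ ∑ x : ι → Fin n × Fin T, ∏ i, (1 - if (x i).1 ∈ S then (1 : ℝ) else 0) := by
          refine Finset.sum_le_sum fun x _ => ?_
          by_cases h : part S x = t
          · rw [if_pos h]
            refine le_of_eq (Finset.prod_eq_one fun i _ => ?_).symm
            have : part S x ≤ valS S (x i) := Nat.sInf_le (Set.mem_range_self i)
            have a1 : (x i).1 ∉ S := fun hi => by
              have := (x i).2.2
              simp only [valS, hi, if_true] at *; omega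
            simp [a1]
          · rw [if_neg h]
            exact Finset.prod_nonneg fun i _ => by split_ifs <;> norm_num
      _ = (1 - δ) ^ Fintype.card ι * Fintype.card (ι → Fin n × Fin T) := by
          rw [← Fintype.piFinset_univ, ← Finset.prod_univ_sum (fun _ => Finset.univ)
            (fun (_ : ι) (a : Fin n × Fin T) => 1 - if a.1 ∈ S then (1 : ℝ) else 0)]
          simp only [Finset.sum_sub_distrib, sum_in, hk, Finset.sum_const, Finset.card_univ,
            nsmul_eq_mul, Finset.prod_const, Fintype.card_fun, Fintype.card_prod, Fintype.card_fin]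
          push_cast
          rw [← mul_pow]; congr 1; ring
      _ ≤ _ := by gcongr

end Pool.Agent.P.MP_8a730c_lc
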