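import Pool.Agent.P.MP_8a730c_lc.Tensor

/-! Second moments of sums of independent terms, gradient bounds, small sets. -/

set_option linter.unusedSectionVars false

namespace Pool.Agent.P.MP_8a730c_lc

open Matrix Finset

variable {ι Ξ : Type} [Fintype ι] [DecidableEq ι] [Fintype Ξ]

theorem sum_prod_one {B : Type} [Fintype B] (α : B → ℝ) (h1 : ∑ b, α b = 1) :
    ∑ A : ι → B, ∏ k, α (A k) = 1 := by
  rw [← Fintype.piFinset_univ, ← Finset.prod_univ_sum (fun _ => Finset.univ)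
    (fun (_ : ι) b => α b)]
  simp [h1]

theorem second_moment {B : Type} [Fintype B] (α r : B → ℝ) (h1 : ∑ b, α b = 1)
    (h0 : ∑ b, α b * r b = 0) (c : ι → ℝ) :
    ∑ A : ι → B, (∏ k, α (A k)) * (∑ i, c i * r (A i)) ^ 2 =
      (∑ i, c i ^ 2) * ∑ b, α b * r b ^ 2 := by
  have key : ∀ i j : ι, ∑ A : ι → B, (∏ k, α (A k)) * (r (A i) * r (A j)) =
      if i = j then ∑ b, α b * r b ^ 2 else 0 := by
    intro i j
    have e : ∀ A : ι → B, (∏ k, α (A k)) * (r (A i) * r (A j)) =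
        ∏ k, (α (A k) * ((if k = i then r (A k) else 1) * (if k = j then r (A k) else 1))) := by
      intro A
      simp only [Finset.prod_mul_distrib, Finset.prod_ite_eq', Finset.mem_univ, if_true]
    simp only [e]
    rw [← Fintype.piFinset_univ, ← Finset.prod_univ_sum (fun _ => Finset.univ)
      (fun (k : ι) b => α b * ((if k = i then r b else 1) * (if k = j then r b else 1)))]
    split_ifs with h
    · subst h
      rw [Finset.prod_eq_single i (fun k _ hk => by simp [hk, h1]) (by simp)]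
      simp [sq]
    · exact Finset.prod_eq_zero (Finset.mem_univ i) (by simp [h, h0])
  calc ∑ A : ι → B, (∏ k, α (A k)) * (∑ i, c i * r (A i)) ^ 2
      = ∑ A : ι → B, ∑ i, ∑ j, c i * c j * ((∏ k, α (A k)) * (r (A i) * r (A j))) := by
        refine Finset.sum_congr rfl fun A _ => ?_
        rw [sq, Finset.sum_mul_sum, Finset.mul_sum]
        refine Finset.sum_congr rfl fun i _ => ?_
        rw [Finset.mul_sum]
        exact Finset.sum_congr rfl fun j _ => by ring
    _ = ∑ i, ∑ j, c i * c j * ∑ A : ι → B, (∏ k, α (A k)) * (r (A i) * r (A j)) := by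
        rw [Finset.sum_comm]
        refine Finset.sum_congr rfl fun i _ => ?_
        rw [Finset.sum_comm]
        exact Finset.sum_congr rfl fun j _ => by rw [Finset.mul_sum]
    _ = _ := by
        simp only [key, mul_ite, mul_zero, Finset.sum_ite_eq, Finset.mem_univ, if_true,
          Finset.sum_mul, sq]

theorem ten_sum {B : Type} [Fintype B] (c : ι → B → ℝ) (K : B → Matrix Ξ Ξ ℝ) :
    ten (fun k => ∑ b, c k b • K b) =
      ∑ A : ι → B, (∏ k, c k (A k)) • ten fun k => K (A k) := by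
  ext u v
  simp only [ten, Matrix.sum_apply, Matrix.smul_apply, smul_eq_mul, ← Finset.prod_mul_distrib]
  rw [Finset.prod_univ_sum, Fintype.piFinset_univ]

variable [DecidableEq Ξ] [Nonempty Ξ]

theorem bessel {ρ k θ : ℝ} (h0 : 0 ≤ ρ) (h1 : ρ < 1) (hk : ρ / (1 - ρ) ≤ k) (hθ : 0 < θ)
    (F : (ι → Ξ) → ℝ) (hF : ∀ u, |F u| ≤ 1) (c : ι → ℝ) (u : ι → Ξ) :
    ∑ i, c i * (LT ρ i *ᵥ F) u ≤ (k * (∑ i, c i ^ 2) / θ + θ) / 2 := by
  have h2 : 1 - ρ ≠ 0 := by linarith
  let α : Bool → ℝ := fun b => bif b then ρ else 1 - ρ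
  let r : Bool → ℝ := fun b => bif b then 1 else -ρ / (1 - ρ)
  let K : Bool → Matrix Ξ Ξ ℝ := fun b => bif b then 1 else JJ Ξ
  have hα : ∑ b, α b = 1 := by simp [α]
  have hα0 : ∀ b, 0 ≤ α b := by rintro (_ | _) <;> simp [α] <;> linarith
  have hr : ∑ b, α b * r b = 0 := by simp [α, r]; field_simp; ring
  have hr2 : ∑ b, α b * r b ^ 2 = ρ / (1 - ρ) := by simp [α, r]; field_simp; ring
  have hK : ∀ b, DS (K b) := by rintro (_ | _); exacts [ds_JJ, ds_one]
  have e : ∀ i : ι, LT (Ξ := Ξ) ρ i =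
      ∑ A : ι → Bool, ((∏ k, α (A k)) * r (A i)) • ten fun k => K (A k) := by
    intro i
    have := ten_sum (ι := ι) (fun k b => α b * if k = i then r b else 1) K
    simp only [Finset.prod_mul_distrib, Finset.prod_ite_eq', Finset.mem_univ, if_true] at this
    rw [← this, LT, dg]
    congr 1; funext k
    ext a b
    by_cases hk : k = i
    · simp [hk, α, r, K, LL]; field_simp; ring
    · simp [hk, α, K, LL]; ring
  have e2 : ∑ i, c i * (LT ρ i *ᵥ F) u = ∑ A : ι → Bool, (∏ k, α (A k)) *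
      ((∑ i, c i * r (A i)) * (ten (fun k => K (A k)) *ᵥ F) u) := by
    simp only [e, sum_mulVec, smul_mulVec, Finset.sum_apply, Pi.smul_apply, smul_eq_mul,
      Finset.mul_sum, Finset.sum_mul]
    rw [Finset.sum_comm]
    exact Finset.sum_congr rfl fun A _ => Finset.sum_congr rfl fun i _ => by ring
  have e3 : ∀ A : ι → Bool, (∑ i, c i * r (A i)) * (ten (fun k => K (A k)) *ᵥ F) u ≤
      ((∑ i, c i * r (A i)) ^ 2 / θ + θ) / 2 := by
    intro A
    have a1 := (ds_ten fun k => hK (A k)).abs_le hF u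
    generalize (ten (fun k => K (A k)) *ᵥ F) u = v at a1
    generalize ∑ i, c i * r (A i) = x
    have a2 : v ^ 2 ≤ 1 := by rw [← sq_abs]; nlinarith [abs_nonneg v]
    have a3 : x ^ 2 / θ + θ - 2 * (x * v) = (x - θ * v) ^ 2 / θ + θ * (1 - v ^ 2) := by
      field_simp; ring
    have a4 : 0 ≤ (x - θ * v) ^ 2 / θ := by positivity
    nlinarith
  rw [e2]
  refine (Finset.sum_le_sum fun A _ => mul_le_mul_of_nonneg_left (e3 A)
    (Finset.prod_nonneg fun k _ => hα0 _)).trans ?_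
  have e4 : ∑ A : ι → Bool, (∏ k, α (A k)) * (((∑ i, c i * r (A i)) ^ 2 / θ + θ) / 2) =
      ((∑ A : ι → Bool, (∏ k, α (A k)) * (∑ i, c i * r (A i)) ^ 2) / θ +
        θ * ∑ A : ι → Bool, ∏ k, α (A k)) / 2 := by
    rw [Finset.sum_div, Finset.mul_sum, ← Finset.sum_add_distrib, Finset.sum_div]
    exact Finset.sum_congr rfl fun A _ => by ring
  rw [e4, second_moment α r hα hr, sum_prod_one α hα, hr2, mul_one, mul_comm k]
  gcongr

theorem lip_sum (i : ι) (F g : (ι → Ξ) → ℝ) (C : ℝ) (M : Finset (ι → Ξ))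
    (h : ∀ u ∈ M, ∀ ξ, |F u - F (Function.update u i ξ)| ≤
      C * |g u - g (Function.update u i ξ)|) :
    ∑ u ∈ M, (LT 1 i *ᵥ F) u ^ 2 ≤ 4 * C ^ 2 * ∑ u, g u ^ 2 := by
  have hn : (0 : ℝ) < Fintype.card Ξ := by exact_mod_cast Fintype.card_pos
  have key : ∀ u ∈ M, (LT 1 i *ᵥ F) u ^ 2 ≤
      2 * C ^ 2 * (g u ^ 2 + (∑ ξ, g (Function.update u i ξ) ^ 2) / Fintype.card Ξ) := by
    intro u hu
    have e : (LT 1 i *ᵥ F) u = (∑ ξ, (F u - F (Function.update u i ξ))) / Fintype.card Ξ := by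
      rw [LT_one_apply, Finset.sum_sub_distrib]; simp; field_simp
    have a1 := sq_sum_le_card_mul_sum_sq (s := Finset.univ)
      (f := fun ξ => F u - F (Function.update u i ξ))
    have a2 : ∑ ξ, (F u - F (Function.update u i ξ)) ^ 2 ≤
        ∑ ξ, 2 * C ^ 2 * (g u ^ 2 + g (Function.update u i ξ) ^ 2) := by
      refine Finset.sum_le_sum fun ξ _ => ?_
      have b1 := pow_le_pow_left₀ (abs_nonneg _) (h u hu ξ) 2
      rw [mul_pow, sq_abs, sq_abs] at b1
      nlinarith [mul_nonneg (sq_nonneg C) (sq_nonneg (g u + g (Function.update u i ξ)))]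
    rw [← Finset.mul_sum, Finset.sum_add_distrib] at a2
    simp only [Finset.sum_const, Finset.card_univ, nsmul_eq_mul] at a1 a2
    rw [e, div_pow, div_le_iff₀ (by positivity)]
    calc _ ≤ _ := a1
      _ ≤ _ := mul_le_mul_of_nonneg_left a2 hn.le
      _ = _ := by field_simp
  calc ∑ u ∈ M, (LT 1 i *ᵥ F) u ^ 2
      ≤ ∑ u ∈ M, 2 * C ^ 2 * (g u ^ 2 + (∑ ξ, g (Function.update u i ξ) ^ 2) / Fintype.card Ξ) :=
        Finset.sum_le_sum key
    _ ≤ ∑ u, 2 * C ^ 2 * (g u ^ 2 + (∑ ξ, g (Function.update u i ξ) ^ 2) / Fintype.card Ξ) :=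
        Finset.sum_le_sum_of_subset_of_nonneg (Finset.subset_univ _) fun u _ _ => by positivity
    _ = _ := by
        rw [← Finset.mul_sum, Finset.sum_add_distrib, ← Finset.sum_div,
          sum_update i fun u => g u ^ 2]
        field_simp; ring

/-- The small-set property of a kernel. -/
def SmallSet (P : Matrix Ξ Ξ ℝ) (s β : ℝ) : Prop :=
  ∀ A B : Finset Ξ, (A.card : ℝ) ≤ s * Fintype.card Ξ → (B.card : ℝ) ≤ s * Fintype.card Ξ →
    ∑ b ∈ B, ∑ a ∈ A, P b a ≤ β * Fintype.card Ξ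

/-- The large part of a number. -/
noncomputable def big (x : ℝ) : ℝ := if 1 / 32 < |x| then x else 0

theorem abs_sub_big (x : ℝ) : |x - big x| ≤ 1 / 32 := by
  unfold big; split_ifs with h
  · simp
  · simpa using h

theorem fibre_small {P : Matrix Ξ Ξ ℝ} (hP : DS P) {s β γ θ : ℝ} (hS : SmallSet P s β)
    (hθ0 : 0 < θ) (hθ1 : θ ≤ 1) (hs : 1024 * γ ≤ s * θ) (a : Ξ → ℝ) (ha : ∀ ξ, |a ξ| ≤ 1)
    (hγ : ∑ ξ, a ξ ^ 2 ≤ γ * Fintype.card Ξ) :
    ∑ ξ, (∑ ξ', P ξ ξ' * big (a ξ')) ^ 2 ≤ (1024 * θ * γ + β) * Fintype.card Ξ := by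
  classical
  have hn : (0 : ℝ) < Fintype.card Ξ := by exact_mod_cast Fintype.card_pos
  set A := Finset.univ.filter fun ξ => 1 / 32 < |a ξ| with hA
  set p : Ξ → ℝ := fun ξ => ∑ ξ' ∈ A, P ξ ξ' with hp
  set B := Finset.univ.filter fun ξ => θ ≤ p ξ with hB
  have a1 : (A.card : ℝ) ≤ 1024 * γ * Fintype.card Ξ := by
    have : ∑ ξ ∈ A, (1 / 1024 : ℝ) ≤ ∑ ξ, a ξ ^ 2 := by
      refine le_trans (Finset.sum_le_sum fun ξ h => ?_)
        (Finset.sum_le_sum_of_subset_of_nonneg (Finset.subset_univ A) fun _ _ _ => sq_nonneg _)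
      have := (Finset.mem_filter.1 h).2
      rw [← sq_abs]; nlinarith
    simp only [Finset.sum_const, nsmul_eq_mul] at this
    linarith
  have p0 : ∀ ξ, 0 ≤ p ξ := fun ξ => Finset.sum_nonneg fun _ _ => hP.nonneg _ _
  have p1 : ∀ ξ, p ξ ≤ 1 := fun ξ => (hP.row ξ) ▸
    Finset.sum_le_sum_of_subset_of_nonneg (Finset.subset_univ A) fun _ _ _ => hP.nonneg _ _
  have p2 : ∑ ξ, p ξ = A.card := by
    rw [hp, Finset.sum_comm]
    simp only [fun a b => hP.symm a b, hP.row]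
    simp
  have a2 : (B.card : ℝ) * θ ≤ A.card := by
    rw [← p2]
    refine le_trans ?_
      (Finset.sum_le_sum_of_subset_of_nonneg (Finset.subset_univ B) fun _ _ _ => p0 _)
    rw [← nsmul_eq_mul, ← Finset.sum_const]
    exact Finset.sum_le_sum fun ξ h => (Finset.mem_filter.1 h).2
  have hγ0 : 0 ≤ γ := by
    by_contra h
    have : 0 ≤ ∑ ξ, a ξ ^ 2 := by positivity
    nlinarith
  have hs0 : 0 ≤ s := by
    by_contra h
    nlinarith
  have a3 : (A.card : ℝ) ≤ s * θ * Fintype.card Ξ :=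
    a1.trans (mul_le_mul_of_nonneg_right hs hn.le)
  have a4 := hS A B (a3.trans (by gcongr; nlinarith)) (by
    refine le_of_mul_le_mul_right (a2.trans (a3.trans_eq (by ring))) hθ0)
  have a5 : ∀ ξ, (∑ ξ', P ξ ξ' * big (a ξ')) ^ 2 ≤ θ * p ξ + if ξ ∈ B then p ξ else 0 := by
    intro ξ
    have b1 : |∑ ξ', P ξ ξ' * big (a ξ')| ≤ p ξ := by
      refine (Finset.abs_sum_le_sum_abs _ _).trans ?_
      rw [hp, hA]
      simp only [Finset.sum_filter]
      refine Finset.sum_le_sum fun ξ' _ => ?_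
      rw [abs_mul, abs_of_nonneg (hP.nonneg _ _), big]
      split_ifs
      · exact mul_le_of_le_one_right (hP.nonneg _ _) (ha _)
      · simp
    have b2 := pow_le_pow_left₀ (abs_nonneg _) b1 2
    rw [sq_abs] at b2
    have b3 := p0 ξ
    have b4 := p1 ξ
    split_ifs with h
    · nlinarith
    · have : p ξ < θ := by simpa [hB] using h
      nlinarith
  refine (Finset.sum_le_sum fun ξ _ => a5 ξ).trans ?_
  rw [Finset.sum_add_distrib, ← Finset.mul_sum, p2, Finset.sum_ite_mem, Finset.univ_inter]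
  have a6 := mul_le_mul_of_nonneg_left a1 hθ0.le
  have a7 : ∑ ξ ∈ B, p ξ ≤ β * Fintype.card Ξ := a4
  nlinarith

end Pool.Agent.P.MP_8a730c_lc
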