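import Pool.Agent.P.MP_8a730c_lc.Convex

/-! Two-page drawings. -/

namespace Pool.Agent.P.MP_8a730c_lc

open Set

def sg (b : Bool) : ℝ := if b then 1 else -1

theorem sg_sq (b : Bool) : sg b * sg b = 1 := by cases b <;> simp [sg]

noncomputable def shear (b : Bool) (z : ℂ) : ℂ := ⟨z.re, z.re ^ 2 + sg b * z.im⟩

theorem shear_inj (b : Bool) : Function.Injective (shear b) := by
  intro z w h
  have h1 : z.re = w.re := (congrArg Complex.re h :)
  have h2 : z.re ^ 2 + sg b * z.im = w.re ^ 2 + sg b * w.im := congrArg Complex.im h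
  rw [h1] at h2
  exact Complex.ext h1 (by linear_combination sg b * h2 - (z.im - w.im) * sg_sq b)

theorem shear_real (b : Bool) (a : ℝ) : shear b a = ppt a := by simp [shear, ppt]

theorem arc_path (s : Bool) {a b : ℝ} (h : a < b) : ∃ γ : Path (a : ℂ) (b : ℂ),
    Function.Injective γ ∧ range γ = shear s ⁻¹' chord a b := by
  obtain ⟨γ, h1, h2⟩ := chord_path h
  let Φ : ℂ → ℂ := fun z => (z.re : ℂ) + ((sg s * (z.im - z.re ^ 2) : ℝ) : ℂ) * Complex.I
  have hΦ : ∀ z, shear s (Φ z) = z := fun z => Complex.ext (by simp [Φ, shear, -Complex.ofReal_mul])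
    (by simp [Φ, shear, -Complex.ofReal_mul]; linear_combination (z.im - z.re ^ 2) * sg_sq s)
  have hc : Continuous Φ := by fun_prop
  have e : ∀ x : ℝ, (x : ℂ) = Φ (ppt x) := fun x => shear_inj s (by rw [hΦ, shear_real])
  refine ⟨(γ.map hc).cast (e a) (e b), fun x y hxy => h1 ?_, ?_⟩
  · rw [← hΦ (γ x), ← hΦ (γ y)]; exact congrArg _ hxy
  · ext z
    rw [mem_preimage, ← h2]
    constructor
    · rintro ⟨t, rfl⟩; exact ⟨t, (hΦ _).symm⟩
    · rintro ⟨t, ht⟩; exact ⟨t, shear_inj s ((hΦ _).trans ht)⟩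

variable {V : Type} (G : SimpleGraph V)

/-- Interleaved pairs of edges on the same page. -/
def inter2 {α : Type} [LinearOrder α] (pos : V → α) (pg : V → V → Bool) : Set (V × V × V × V) :=
  {q | G.Adj q.1 q.2.1 ∧ G.Adj q.2.2.1 q.2.2.2 ∧ pos q.1 < pos q.2.2.1 ∧ pos q.2.2.1 < pos q.2.1 ∧
    pos q.2.1 < pos q.2.2.2 ∧ pg q.1 q.2.1 = pg q.2.2.1 q.2.2.2}

theorem cr_le_inter2_nat [Finite V] (pos : V → ℕ) (hpos : Function.Injective pos)
    (pg : V → V → Bool) : cr G ≤ (inter2 G pos pg).ncard := by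
  have h0 : ∀ e : G.edgeSet, ∃ u v, e.1 = s(u, v) ∧ pos u < pos v ∧ G.Adj u v := by
    rintro ⟨e, he⟩
    induction e using Sym2.ind with
    | _ u v =>
    have he' : G.Adj u v := he
    rcases lt_or_gt_of_ne (fun h => he'.ne (hpos h)) with h | h
    · exact ⟨u, v, rfl, h, he'⟩
    · exact ⟨v, u, Sym2.eq_swap, h, he'.symm⟩
  choose lo hi he hlt hadj using h0
  let τ : V → ℝ := fun v => tt (pos v)
  let A : G.edgeSet → Set ℂ := fun e => shear (pg (lo e) (hi e)) ⁻¹' chord (τ (lo e)) (τ (hi e))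
  have hτ : ∀ u v, τ u < τ v ↔ pos u < pos v := fun u v => by
    simp only [τ, Nat.cast_lt, tt_strictMono.lt_iff_lt]
  have hτi : Function.Injective τ := fun u v h =>
    hpos (tt_strictMono.injective (Nat.cast_injective (R := ℝ) h))
  have hne : ∀ e f, e ≠ f → ¬ (τ (lo e) = τ (lo f) ∧ τ (hi e) = τ (hi f)) := by
    rintro e f h ⟨h1, h2⟩
    exact h (Subtype.ext (by rw [he, he, hτi h1, hτi h2]))
  have hint : ∀ e z, z ∈ A e → z ∉ range (fun v => (τ v : ℂ)) →
      τ (lo e) < z.re ∧ z.re < τ (hi e) := fun e z h hz =>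
    chord_interior (z := shear _ z) h (fun h => hz ⟨_, shear_inj _ ((shear_real _ _).trans h.symm)⟩)
      (fun h => hz ⟨_, shear_inj _ ((shear_real _ _).trans h.symm)⟩)
  have hpg : ∀ e f z, z ∈ A e → z ∈ A f → z ∉ range (fun v => (τ v : ℂ)) →
      pg (lo e) (hi e) = pg (lo f) (hi f) := by
    intro e f z h1 h2 hz
    have a1 := mul_pos (sub_pos.2 (hint e z h1 hz).1) (sub_pos.2 (hint e z h1 hz).2)
    have a2 := mul_pos (sub_pos.2 (hint f z h2 hz).1) (sub_pos.2 (hint f z h2 hz).2)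
    have b1 := h1.2.2
    have b2 := h2.2.2
    simp only [shear] at b1 b2
    by_contra hh
    have : sg (pg (lo e) (hi e)) = -sg (pg (lo f) (hi f)) := by
      revert hh; cases pg (lo e) (hi e) <;> cases pg (lo f) (hi f) <;> simp [sg]
    rw [this] at b1
    nlinarith
  have heq : ∀ e f z, z ∈ A e → z ∈ A f → z ∉ range (fun v => (τ v : ℂ)) →
      (τ (lo e) + τ (hi e)) * z.re - τ (lo e) * τ (hi e) =
        (τ (lo f) + τ (hi f)) * z.re - τ (lo f) * τ (hi f) := by
    intro e f z h1 h2 hz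
    have b1 := h1.2.2
    have b2 := h2.2.2
    rw [hpg e f z h1 h2 hz] at b1
    exact b1.symm.trans b2
  have hil : ∀ e f z, e ≠ f → z ∈ A e → z ∈ A f → z ∉ range (fun v => (τ v : ℂ)) →
      (pos (lo e) < pos (lo f) ∧ pos (hi e) < pos (hi f)) ∨
        (pos (lo f) < pos (lo e) ∧ pos (hi f) < pos (hi e)) := by
    intro e f z h h1 h2 hz
    simp only [← hτ]
    exact chord_interleave (hint e z h1 hz).1 (hint e z h1 hz).2 (hint f z h2 hz).1
      (heq e f z h1 h2 hz) (hne e f h)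
  have hthree : ∀ e f g z, z ∈ A e → z ∈ A f → z ∈ A g → z ∉ range (fun v => (τ v : ℂ)) →
      pos (lo e) < pos (lo f) → pos (hi e) < pos (hi f) → pos (hi f) < pos (hi g) → False := by
    intro e f g z h1 h2 h3 hz a1 a2 a3
    obtain ⟨n, hn⟩ : ∃ n, pos (hi g) = n + 1 := ⟨pos (hi g) - 1, by omega⟩
    have b1 := hlt e
    have b2 := hlt f
    refine no_concurrent (tt (pos (lo e))) (tt (pos (hi e))) (tt (pos (lo f))) (tt (pos (hi f)))
      (tt (pos (lo g))) (tt n) z.re
      (tt_strictMono.monotone (by omega)) (tt_strictMono.monotone (by omega))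
      (tt_strictMono.monotone (by omega)) (tt_pos n) (hint e z h1 hz).1 (hint e z h1 hz).2
      (hint g z h3 hz).1 (tt_strictMono a1) (tt_strictMono a2) (heq e f z h1 h2 hz) ?_
    have := heq e g z h1 h3 hz
    simp only [τ, hn, tt] at this
    exact this
  have hsub : ∀ e f, e ≠ f → ((A e ∩ A f) \ range (fun v => (τ v : ℂ))).Subsingleton := by
    rintro e f h z ⟨⟨z1, z2⟩, z3⟩ w ⟨⟨w1, w2⟩, -⟩
    have k := hpg e f z z1 z2 z3
    simp only [A, k] at z1 w1
    exact shear_inj _ (chord_subsingleton ((hτ _ _).2 (hlt e)) ((hτ _ _).2 (hlt f)) (hne e f h)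
      ⟨z1, z2⟩ ⟨w1, w2⟩)
  refine (Nat.sInf_le (mem_range_self (⟨fun v => (τ v : ℂ), A, ?_, ?_, ?_, ?_, ?_⟩ :
    Drawing G))).trans ?_
  · intro u v h
    exact hτi (Complex.ofReal_injective h)
  · intro u v h
    obtain ⟨γ, h1, h2⟩ := arc_path (pg (lo ⟨s(u, v), h⟩) (hi ⟨s(u, v), h⟩))
      ((hτ _ _).2 (hlt ⟨s(u, v), h⟩))
    have := he ⟨s(u, v), h⟩
    simp only [Sym2.eq_iff] at this
    rcases this with ⟨a1, a2⟩ | ⟨a1, a2⟩
    · exact ⟨γ.cast (by rw [← a1]) (by rw [← a2]), h1, h2⟩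
    · refine ⟨γ.symm.cast (by rw [← a1]) (by rw [← a2]), ?_, ?_⟩
      · exact h1.comp unitInterval.symm_bijective.1
      · refine Eq.trans ?_ h2
        rw [← γ.symm_range]; rfl
  · intro e w h
    rw [he]
    simp only [A, mem_preimage, shear_real] at h
    rcases ppt_mem_chord h with h | h <;> rw [hτi h] <;> simp
  · intro e f h
    exact ((hsub e f h).finite.union (finite_range _)).subset (subset_sdiff_union _ _)
  · intro e f g h1 h2 h3 z z1 z2 z3
    by_contra hz
    rcases hil e f z h1 z1 z2 hz with a | a <;> rcases hil e g z h2 z1 z3 hz with b | b <;>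
      rcases hil f g z h3 z2 z3 hz with c | c
    · exact hthree e f g z z1 z2 z3 hz a.1 a.2 c.2
    · exact hthree e g f z z1 z3 z2 hz b.1 b.2 c.2
    · omega
    · exact hthree g e f z z3 z1 z2 hz b.1 b.2 a.2
    · exact hthree f e g z z2 z1 z3 hz a.1 a.2 b.2
    · omega
    · exact hthree f g e z z2 z3 z1 hz c.1 c.2 b.2
    · exact hthree g f e z z3 z2 z1 hz c.1 c.2 a.2
  · refine ncard_le_of_rel (toFinite _)
      (fun x q => ∃ e f, x.2 = s(e, f) ∧ q = (lo e, hi e, lo f, hi f)) ?_ ?_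
    · rintro ⟨z, p⟩ ⟨a1, a2, a3⟩
      induction p using Sym2.ind with
      | _ e f =>
      have hef : e ≠ f := by simpa using a1
      have z1 := a2 e (by simp)
      have z2 := a2 f (by simp)
      rcases hil e f z hef z1 z2 a3 with h | h
      · exact ⟨_, ⟨hadj e, hadj f, h.1, (hτ _ _).1 ((hint f z z2 a3).1.trans (hint e z z1 a3).2),
          h.2, hpg e f z z1 z2 a3⟩, e, f, rfl, rfl⟩
      · exact ⟨_, ⟨hadj f, hadj e, h.1, (hτ _ _).1 ((hint e z z1 a3).1.trans (hint f z z2 a3).2),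
          h.2, hpg f e z z2 z1 a3⟩, f, e, Sym2.eq_swap, rfl⟩
    · rintro ⟨z, p⟩ ⟨a1, a2, a3⟩ ⟨z', p'⟩ ⟨-, b2, b3⟩ q ⟨e, f, rfl, rfl⟩ ⟨e', f', rfl, h⟩
      simp only [Prod.mk.injEq] at h
      obtain rfl : e = e' := Subtype.ext (by rw [he, he, h.1, h.2.1])
      obtain rfl : f = f' := Subtype.ext (by rw [he, he, h.2.2.1, h.2.2.2])
      have hef : e ≠ f := by simpa using a1
      exact Prod.ext (hsub e f hef ⟨⟨a2 e (by simp), a2 f (by simp)⟩, a3⟩
        ⟨⟨b2 e (by simp), b2 f (by simp)⟩, b3⟩) rfl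

theorem cr_le_inter2 [Finite V] {α : Type} [LinearOrder α] (pos : V → α)
    (hpos : Function.Injective pos) (pg : V → V → Bool) : cr G ≤ (inter2 G pos pg).ncard := by
  have mono : ∀ u v, pos u < pos v → {w | pos w < pos u}.ncard < {w | pos w < pos v}.ncard :=
    fun u v h => ncard_lt_ncard ⟨fun w hw => lt_trans hw h, fun hh => lt_irrefl _ (hh h)⟩
  have key : ∀ u v, {w | pos w < pos u}.ncard < {w | pos w < pos v}.ncard ↔ pos u < pos v := by
    refine fun u v => ⟨fun h => ?_, mono u v⟩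
    rcases lt_trichotomy (pos u) (pos v) with a | a | a
    · exact a
    · rw [a] at h; omega
    · have := mono v u a; omega
  have := cr_le_inter2_nat G (fun v => {w | pos w < pos v}.ncard) (fun u v h => hpos (by
    rcases lt_trichotomy (pos u) (pos v) with a | a | a
    · exact absurd h (mono u v a).ne
    · exact a
    · exact absurd h (mono v u a).ne')) pg
  simpa only [inter2, key] using this

end Pool.Agent.P.MP_8a730c_lc
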