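import Pool.Agent.P.MP_8a730c_lc.Assemble
import Pool.Agent.Lib.NP.Dec

/-! The output graph on numbered vertices, and its adjacency test on numbers. -/

namespace Pool.Agent.P.MP_8a730c_lc

open Pool.Agent.Lib.NP

section
variable {X : Type} {N : ℕ} (xe : Fin N ≃ X) (W L D : ℕ)

def labE : Fin (N * (W * (2 * L))) ≃ X × Fin W × Fin 2 × Fin L :=
  finProdFinEquiv.symm.trans (xe.prodCongr
    (finProdFinEquiv.symm.trans ((Equiv.refl _).prodCongr finProdFinEquiv.symm)))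

def verE : Fin (N * (L * L) * (D * D)) ≃ (X × Fin L × Fin L) × Fin D × Fin D :=
  finProdFinEquiv.symm.trans
    ((finProdFinEquiv.symm.trans (xe.prodCongr finProdFinEquiv.symm)).prodCongr
      finProdFinEquiv.symm)

def dz (u : ℕ) : (ℕ × ℕ × ℕ) × ℕ × ℕ :=
  ((u / (D * D) / (L * L), u / (D * D) % (L * L) / L, u / (D * D) % (L * L) % L),
    u % (D * D) / D, u % (D * D) % D)

def dl (t : ℕ) : ℕ × ℕ × ℕ × ℕ :=
  (t / (W * (2 * L)), t % (W * (2 * L)) / (2 * L), t % (W * (2 * L)) % (2 * L) / L,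
    t % (W * (2 * L)) % (2 * L) % L)

def rotN (q : (ℕ × ℕ × ℕ) × (ℕ × ℕ × ℕ × ℕ)) : (ℕ × ℕ × ℕ) × (ℕ × ℕ × ℕ × ℕ) :=
  if q.2.2.2.1 = 0 then ((q.2.1, q.1.2.1, q.2.2.2.2), (q.1.1, q.2.2.1, q.2.2.2.1, q.1.2.2))
  else ((q.2.1, q.2.2.2.2, q.1.2.2), (q.1.1, q.2.2.1, q.2.2.2.1, q.1.2.1))

def adjB (v : ℕ) (a b : (ℕ × ℕ × ℕ) × ℕ × ℕ) : Bool :=
  (decide (a.1 = b.1) && ((decide (a.2.1 = b.2.1) &&
      (decide (a.2.2 + 1 = b.2.2) || decide (b.2.2 + 1 = a.2.2))) ||
    (decide (a.2.2 = b.2.2) && (decide (a.2.1 + 1 = b.2.1) || decide (b.2.1 + 1 = a.2.1))))) ||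
  (decide (a.2.1 = 0) && decide (b.2.1 = 0) && decide ((dl W L a.2.2).2.1 < v) &&
    decide (a ≠ b) && decide (rotN (a.1, dl W L a.2.2) = (b.1, dl W L b.2.2)))

variable {W L D}

def zN (z : X × Fin L × Fin L) : ℕ × ℕ × ℕ := ((xe.symm z.1).val, z.2.1.val, z.2.2.val)

def lN (z : X × Fin W × Fin 2 × Fin L) : ℕ × ℕ × ℕ × ℕ :=
  ((xe.symm z.1).val, z.2.1.val, z.2.2.1.val, z.2.2.2.val)

theorem zN_inj {z z' : X × Fin L × Fin L} : zN xe z = zN xe z' ↔ z = z' := by
  simp [zN, Prod.ext_iff, Fin.val_inj]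

theorem lN_inj {z z' : X × Fin W × Fin 2 × Fin L} : lN xe z = lN xe z' ↔ z = z' := by
  simp [lN, Prod.ext_iff, Fin.val_inj]

theorem dz_eq (u : Fin (N * (L * L) * (D * D))) : dz L D u =
    (zN xe (verE xe L D u).1, (verE xe L D u).2.1.val, (verE xe L D u).2.2.val) := by
  simp [dz, zN, verE, Fin.divNat, Fin.modNat]

theorem dl_eq (t : Fin (N * (W * (2 * L)))) : dl W L t = lN xe (labE xe W L t) := by
  simp [dl, lN, labE, Fin.divNat, Fin.modNat]

theorem rotN_eq (z : X × Fin L × Fin L) (l : X × Fin W × Fin 2 × Fin L) :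
    rotN (zN xe z, lN xe l) = (zN xe (rotL (z, l)).1, lN xe (rotL (z, l)).2) := by
  by_cases h : l.2.2.1 = 0 <;> simp [rotN, rotL, zN, lN, h]

theorem adjB_iff [NeZero (N * (W * (2 * L)))] {w : X → X → ℕ} (hw : ∀ x y, w x y = w y x)
    (a b : (X × Fin L × Fin L) × Fin (N * (W * (2 * L))) × Fin (N * (W * (2 * L)))) :
    (rook w hw (labE xe W L)).graph.Adj a b ↔ adjB W L (w a.1.1 (labE xe W L a.2.2).1)
      (zN xe a.1, a.2.1.val, a.2.2.val) (zN xe b.1, b.2.1.val, b.2.2.val) = true := by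
  obtain ⟨a1, a2, a3⟩ := a
  obtain ⟨b1, b2, b3⟩ := b
  simp only [adjB, Bool.or_eq_true, Bool.and_eq_true, decide_eq_true_eq, dl_eq xe, rotN_eq,
    Prod.mk.injEq, zN_inj, lN_inj, Fin.val_inj, ne_eq, Fin.val_eq_zero_iff]
  refine or_congr Iff.rfl ⟨?_, ?_⟩
  · rintro ⟨⟨p1, p2⟩, h1, h2, h3, h4⟩
    simp only [port, Prod.mk.injEq] at h3 h4
    obtain ⟨rfl, rfl, rfl⟩ := h3
    obtain ⟨rfl, rfl, rfl⟩ := h4
    exact ⟨⟨⟨⟨rfl, rfl⟩, h1⟩, fun h => h2 (Prod.ext h.1.symm h.2.2.symm)⟩, rfl,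
      (Equiv.apply_symm_apply _ _).symm⟩
  · rintro ⟨⟨⟨⟨rfl, rfl⟩, h1⟩, h2⟩, h3, h4⟩
    have e : (rook w hw (labE xe W L)).rot (a1, a3) = (b1, b3) :=
      Prod.ext h3 ((Equiv.symm_apply_eq _).2 h4)
    refine ⟨(a1, a3), h1, fun h => h2 ?_, rfl, by rw [e]; rfl⟩
    rw [e, Prod.mk.injEq] at h
    exact ⟨h.1.symm, rfl, h.2.symm⟩

end

theorem adjMatrix_eq {N : ℕ} (H : SimpleGraph (Fin N)) (g : ℕ → ℕ → Bool)
    (h : ∀ i j, H.Adj i j ↔ g i j = true) :
    adjMatrix H = (List.range N).map fun u => (List.range N).map fun v => g u v := by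
  unfold adjMatrix
  apply List.ext_getElem (by simp)
  intro i h1 h2
  apply List.ext_getElem (by simp)
  intro j h3 h4
  simp [h]

theorem adjMatrix_get {N : ℕ} (H : SimpleGraph (Fin N)) (i j : Fin N) :
    ((adjMatrix H).getD i []).getD j false = true ↔ H.Adj i j := by
  simp [adjMatrix]

theorem adjMatrix_length {N : ℕ} (H : SimpleGraph (Fin N)) : (adjMatrix H).length = N := by
  simp [adjMatrix]

/-- The degree of the first vertex. -/
def deg0 (A : List (List Bool)) : ℕ :=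
  (List.range A.length).countP fun j => (A.getD 0 []).getD j false

theorem deg0_eq {N d : ℕ} (H : SimpleGraph (Fin N)) (hN : 0 < N)
    (hd : ∀ v, (H.neighborSet v).ncard = d) : deg0 (adjMatrix H) = d := by
  rw [deg0, adjMatrix_length, ← hd ⟨0, hN⟩]
  exact (ncard_fin_eq_countP _ _ fun i => (adjMatrix_get H ⟨0, hN⟩ i).symm).symm

def xE (n T r : ℕ) : Fin ((n * T) ^ r) ≃ (Fin r → Fin n × Fin T) :=
  finFunctionFinEquiv.symm.trans (Equiv.piCongrRight fun _ => finProdFinEquiv.symm)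

/-- The weights, on numbers. -/
def wN (T m q r : ℕ) (A : List (List Bool)) (i j : ℕ) : ℕ :=
  ∑ π : Equiv.Perm (Fin r), ∑ σ : Equiv.Perm (Fin r), ∏ k : Fin r,
    if k.val < m then q * deg0 A else (q - 1) * (A.length * T) *
      (bif (A.getD (i / (A.length * T) ^ (π k).val % (A.length * T) / T) []).getD
          (j / (A.length * T) ^ (σ k).val % (A.length * T) / T) false &&
        decide (i / (A.length * T) ^ (π k).val % (A.length * T) % T =
          j / (A.length * T) ^ (σ k).val % (A.length * T) % T) then 1 else 0) + deg0 A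

open Classical in
theorem wN_eq {n d T m q r : ℕ} (G : SimpleGraph (Fin n)) (hn : 0 < n)
    (hd : ∀ v, (G.neighborSet v).ncard = d) (i j : Fin ((n * T) ^ r)) :
    wN T m q r (adjMatrix G) i j = iw G d m q (xE n T r i) (xE n T r j) := by
  rw [wN, iw, deg0_eq G hn hd, adjMatrix_length]
  refine Finset.sum_congr rfl fun π _ => Finset.sum_congr rfl fun σ _ =>
    Finset.prod_congr rfl fun k _ => ?_
  have key : ∀ a b : Fin n × Fin T, (bif ((adjMatrix G).getD a.1 []).getD b.1 false &&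
      decide (a.2.val = b.2.val) then 1 else 0) = if G.Adj a.1 b.1 ∧ a.2 = b.2 then 1 else 0 := by
    intro a b
    rw [Bool.cond_eq_ite]
    refine if_congr ?_ rfl rfl
    rw [Bool.and_eq_true, decide_eq_true_eq]
    exact and_congr (adjMatrix_get G a.1 b.1) Fin.val_inj
  rw [← key]
  rfl

theorem pt_sum {α ι : Type} [Enc α] (s : Finset ι) {f : ι → α → ℕ} (h : ∀ i, PT (f i)) :
    PT fun a => ∑ i ∈ s, f i a := by
  classical
  induction s using Finset.induction_on with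
  | empty => exact (PT.const 0).congr fun a => by simp
  | insert i s hi ih => exact ((h i).add ih).congr fun a => by rw [Finset.sum_insert hi]

theorem pt_prod {α ι : Type} [Enc α] (s : Finset ι) {f : ι → α → ℕ} (h : ∀ i, PT (f i)) :
    PT fun a => ∏ i ∈ s, f i a := by
  classical
  induction s using Finset.induction_on with
  | empty => exact (PT.const 1).congr fun a => by simp
  | insert i s hi ih => exact ((h i).mul ih).congr fun a => by rw [Finset.prod_insert hi]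

@[fun_prop] theorem pt_deg0 : PT deg0 := by unfold deg0; fun_prop

theorem pt_wN (T m q r : ℕ) :
    PT fun p : List (List Bool) × ℕ × ℕ => wN T m q r p.1 p.2.1 p.2.2 := by
  refine pt_sum _ fun π => pt_sum _ fun σ => pt_prod _ fun k => ?_
  by_cases h : k.val < m
  · simp only [if_pos h]; fun_prop
  · simp only [if_neg h]; fun_prop

theorem pt_dz : PT fun p : ℕ × ℕ × ℕ => dz p.1 p.2.1 p.2.2 := by unfold dz; fun_prop

theorem pt_dl : PT fun p : ℕ × ℕ × ℕ => dl p.1 p.2.1 p.2.2 := by unfold dl; fun_prop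

@[fun_prop] theorem pt_rotN : PT rotN := by unfold rotN; fun_prop

section
variable {α : Type} [Enc α]

@[fun_prop] theorem pt_wN' (T m q r : ℕ) {A : α → List (List Bool)} {i j : α → ℕ} (hA : PT A)
    (hi : PT i) (hj : PT j) : PT fun a => wN T m q r (A a) (i a) (j a) := by
  have := (pt_wN T m q r).comp (hA.mk (hi.mk hj))
  exact this

@[fun_prop] theorem pt_dz' {f g h : α → ℕ} (hf : PT f) (hg : PT g) (hh : PT h) :
    PT fun a => dz (f a) (g a) (h a) := by
  have := pt_dz.comp (hf.mk (hg.mk hh))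
  exact this

@[fun_prop] theorem pt_dl' {f g h : α → ℕ} (hf : PT f) (hg : PT g) (hh : PT h) :
    PT fun a => dl (f a) (g a) (h a) := by
  have := pt_dl.comp (hf.mk (hg.mk hh))
  exact this

@[fun_prop] theorem pt_adjB {f g h : α → ℕ} {u v : α → (ℕ × ℕ × ℕ) × ℕ × ℕ} (hf : PT f) (hg : PT g)
    (hh : PT h) (hu : PT u) (hv : PT v) : PT fun a => adjB (f a) (g a) (h a) (u a) (v a) := by
  unfold adjB; fun_prop

end

end Pool.Agent.P.MP_8a730c_lc
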