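import Pool.Agent.P.MP_8a730c_lc.Defs

/-! Straight-line drawings with the vertices on a parabola. -/

namespace Pool.Agent.P.MP_8a730c_lc

open Set

theorem ncard_le_of_rel {α β : Type*} {A : Set α} {B : Set β} (hB : B.Finite) (R : α → β → Prop)
    (h1 : ∀ a ∈ A, ∃ b ∈ B, R a b) (h2 : ∀ a ∈ A, ∀ a' ∈ A, ∀ b, R a b → R a' b → a = a') :
    A.ncard ≤ B.ncard := by
  choose f hf using h1
  have : Finite B := hB
  have := Nat.card_le_card_of_injective (α := A) (β := B)
    (fun a => ⟨f a.1 a.2, (hf a.1 a.2).1⟩) (fun a a' h => Subtype.ext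
      (h2 _ a.2 _ a'.2 _ (hf a.1 a.2).2 (by
        have e : f a.1 a.2 = f a'.1 a'.2 := congrArg Subtype.val h
        exact e ▸ (hf a'.1 a'.2).2)))
  simpa [Nat.card_coe_set_eq] using this

def tt : ℕ → ℕ
  | 0 => 1
  | n + 1 => 3 * tt n ^ 3 + 1

theorem tt_pos (n : ℕ) : 1 ≤ tt n := by cases n <;> simp [tt]

theorem tt_strictMono : StrictMono tt := strictMono_nat_of_lt_succ fun n => by
  have := Nat.le_self_pow (n := 3) (by norm_num) (tt n)
  simp only [tt]; omega

def ppt (a : ℝ) : ℂ := ⟨a, a ^ 2⟩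

def chord (a b : ℝ) : Set ℂ := {z | a ≤ z.re ∧ z.re ≤ b ∧ z.im = (a + b) * z.re - a * b}

theorem chord_path {a b : ℝ} (h : a < b) : ∃ γ : Path (ppt a) (ppt b),
    Function.Injective γ ∧ range γ = chord a b := by
  refine ⟨⟨⟨fun s => ((a + s * (b - a) : ℝ) : ℂ) +
    (((a + b) * (a + s * (b - a)) - a * b : ℝ) : ℂ) * Complex.I, by fun_prop⟩, ?_, ?_⟩, ?_, ?_⟩
  · apply Complex.ext <;> simp [ppt]; ring
  · apply Complex.ext <;> simp [ppt]; ring
  · intro s t e
    have := congrArg Complex.re e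
    simp only [Path.coe_mk', ContinuousMap.coe_mk, Complex.add_re, Complex.ofReal_re,
      Complex.mul_re, Complex.I_re, mul_zero, Complex.ofReal_im, Complex.I_im, mul_one, sub_self,
      add_zero, add_right_inj, mul_eq_mul_right_iff] at this
    rcases this with h1 | h1
    · exact Subtype.ext h1
    · linarith
  · ext z
    constructor
    · rintro ⟨s, rfl⟩
      have h0 := s.2.1
      have h1 := s.2.2
      simp only [chord, Path.coe_mk', ContinuousMap.coe_mk, mem_ofPred_eq, Complex.add_re,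
        Complex.ofReal_re, Complex.mul_re, Complex.I_re, mul_zero, Complex.ofReal_im, Complex.I_im,
        mul_one, sub_self, add_zero, Complex.add_im, Complex.mul_im, zero_add]
      exact ⟨by nlinarith, by nlinarith, trivial⟩
    · rintro ⟨h1, h2, h3⟩
      have hb : 0 < b - a := by linarith
      refine ⟨⟨(z.re - a) / (b - a), div_nonneg (by linarith) hb.le,
        (div_le_one hb).2 (by linarith)⟩, ?_⟩
      have e : a + (z.re - a) / (b - a) * (b - a) = z.re := by field_simp; ring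
      simp only [Path.coe_mk', ContinuousMap.coe_mk, e]
      rw [← h3]; exact Complex.re_add_im z

theorem ppt_mem_chord {a b c : ℝ} (h : ppt c ∈ chord a b) : c = a ∨ c = b := by
  have h3 : c ^ 2 = (a + b) * c - a * b := h.2.2
  have : (c - a) * (c - b) = 0 := by linear_combination h3
  rcases mul_eq_zero.1 this with h | h
  · left; linarith
  · right; linarith

theorem chord_interior {a b : ℝ} {z : ℂ} (h : z ∈ chord a b) (ha : z ≠ ppt a) (hb : z ≠ ppt b) :
    a < z.re ∧ z.re < b := by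
  obtain ⟨h1, h2, h3⟩ := h
  refine ⟨lt_of_le_of_ne h1 fun e => ha ?_, lt_of_le_of_ne h2 fun e => hb ?_⟩
  · apply Complex.ext
    · exact e.symm
    · rw [h3, ← e]; simp [ppt]; ring
  · apply Complex.ext
    · exact e
    · rw [h3, e]; simp [ppt]; ring

theorem chord_subsingleton {a b c d : ℝ} (hab : a < b) (hcd : c < d) (h : ¬ (a = c ∧ b = d)) :
    (chord a b ∩ chord c d).Subsingleton := by
  rintro z ⟨⟨-, -, a3⟩, -, -, b3⟩ w ⟨⟨-, -, c3⟩, -, -, d3⟩
  have : z.re = w.re := by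
    by_contra hne
    have e1 : (a + b - c - d) * (z.re - w.re) = 0 := by linear_combination b3 - a3 + c3 - d3
    have e2 : a + b - c - d = 0 := (mul_eq_zero.1 e1).resolve_right (sub_ne_zero.2 hne)
    have e3 : a * b = c * d := by linear_combination a3 - b3 + z.re * e2
    have e4 : (a - c) * (a - d) = 0 := by linear_combination a * e2 - e3
    rcases mul_eq_zero.1 e4 with h1 | h1
    · exact h ⟨by linarith, by linarith⟩
    · linarith
  exact Complex.ext this (by rw [a3, c3, this])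

theorem chord_interleave {a b c d x : ℝ} (h1 : a < x) (h2 : x < b) (h3 : c < x)
    (e : (a + b) * x - a * b = (c + d) * x - c * d) (h : ¬ (a = c ∧ b = d)) :
    (a < c ∧ b < d) ∨ (c < a ∧ d < b) := by
  rcases lt_trichotomy a c with hac | hac | hac
  · left; refine ⟨hac, ?_⟩; by_contra hh; nlinarith
  · subst hac
    exact absurd ⟨rfl, by nlinarith⟩ h
  · right; refine ⟨hac, ?_⟩; by_contra hh; nlinarith

theorem no_concurrent (a b c d e s : ℕ) (x : ℝ) (hb : b ≤ s) (hc : c ≤ s) (hd : d ≤ s)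
    (hs : 1 ≤ s) (h1 : a < x) (h2 : x < b) (h5 : e < x) (hac : a < c) (hbd : b < d)
    (e1 : ((a : ℝ) + b) * x - a * b = (c + d) * x - c * d)
    (e2 : ((a : ℝ) + b) * x - a * b = (e + (3 * s ^ 3 + 1 : ℕ)) * x - e * (3 * s ^ 3 + 1 : ℕ)) :
    False := by
  set m : ℤ := c + d - a - b with hm
  have hm1 : (0 : ℝ) < m := by exact_mod_cast (by omega : (0 : ℤ) < m)
  have hm2 : (m : ℝ) ≤ 2 * s := by exact_mod_cast (by omega : m ≤ 2 * (s : ℤ))
  have hN : (x - e) * m = ((c * d - a * b - e * m : ℤ) : ℝ) := by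
    rw [hm]; push_cast; linear_combination -e1
  have hN1 : (1 : ℝ) ≤ (x - e) * m := by
    have : (0 : ℝ) < (x - e) * m := mul_pos (by linarith) hm1
    rw [hN] at this ⊢
    exact_mod_cast this
  have hs' : (1 : ℝ) ≤ s := by exact_mod_cast hs
  have hb' : (b : ℝ) ≤ s := by exact_mod_cast hb
  have ha' : (0 : ℝ) ≤ a := by positivity
  push_cast at e2
  have k1 : (x - a) * (b - x) = (x - e) * (3 * s ^ 3 + 1 - x) := by linear_combination e2
  have k2 : (x - a) * (b - x) ≤ s * s := mul_le_mul (by linarith) (by linarith) (by linarith)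
    (by linarith)
  have k3 : (s : ℝ) ≤ s ^ 3 := le_self_pow₀ hs' (by norm_num)
  have k4 : 3 * (s : ℝ) ^ 3 + 1 - x ≤ (x - e) * m * (3 * s ^ 3 + 1 - x) :=
    le_mul_of_one_le_left (by linarith) hN1
  have k5 : (x - a) * (b - x) * m ≤ s * s * (2 * s) :=
    mul_le_mul k2 hm2 hm1.le (by positivity)
  have k6 : (x - e) * m * (3 * s ^ 3 + 1 - x) = (x - a) * (b - x) * m := by rw [k1]; ring
  nlinarith

variable {V : Type} (G : SimpleGraph V)

/-- Interleaved pairs of edges for a linear order of the vertices. -/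
def inter (pos : V → ℕ) : Set (V × V × V × V) :=
  {q | G.Adj q.1 q.2.1 ∧ G.Adj q.2.2.1 q.2.2.2 ∧ pos q.1 < pos q.2.2.1 ∧ pos q.2.2.1 < pos q.2.1 ∧
    pos q.2.1 < pos q.2.2.2}

theorem exists_drawing [Finite V] (pos : V → ℕ) (hpos : Function.Injective pos) :
    ∃ D : Drawing G, D.crossings ≤ (inter G pos).ncard := by
  have h0 : ∀ e : G.edgeSet, ∃ u v, e.1 = s(u, v) ∧ pos u < pos v ∧ G.Adj u v := by
    rintro ⟨e, he⟩
    induction e using Sym2.ind with
    | _ u v =>
    have he' : G.Adj u v := he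
    rcases lt_or_gt_of_ne (fun h => he'.ne (hpos h)) with h | h
    · exact ⟨u, v, rfl, h, he'⟩
    · exact ⟨v, u, Sym2.eq_swap, h, he'.symm⟩
  choose lo hi he hlt hadj using h0
  let τ : V → ℝ := fun v => tt (pos v)
  have hτ : ∀ u v, τ u < τ v ↔ pos u < pos v := fun u v => by
    simp only [τ, Nat.cast_lt, tt_strictMono.lt_iff_lt]
  have hτi : Function.Injective τ := fun u v h =>
    hpos (tt_strictMono.injective (Nat.cast_injective (R := ℝ) h))
  have hne : ∀ e f, e ≠ f → ¬ (τ (lo e) = τ (lo f) ∧ τ (hi e) = τ (hi f)) := by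
    rintro e f h ⟨h1, h2⟩
    exact h (Subtype.ext (by rw [he, he, hτi h1, hτi h2]))
  have hint : ∀ e z, z ∈ chord (τ (lo e)) (τ (hi e)) → z ∉ range (fun v => ppt (τ v)) →
      τ (lo e) < z.re ∧ z.re < τ (hi e) := fun e z h hz =>
    chord_interior h (fun h => hz ⟨_, h.symm⟩) (fun h => hz ⟨_, h.symm⟩)
  have hil : ∀ e f z, e ≠ f → z ∈ chord (τ (lo e)) (τ (hi e)) → z ∈ chord (τ (lo f)) (τ (hi f)) →
      z ∉ range (fun v => ppt (τ v)) →
      (pos (lo e) < pos (lo f) ∧ pos (hi e) < pos (hi f)) ∨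
        (pos (lo f) < pos (lo e) ∧ pos (hi f) < pos (hi e)) := by
    intro e f z h h1 h2 hz
    simp only [← hτ]
    exact chord_interleave (hint e z h1 hz).1 (hint e z h1 hz).2 (hint f z h2 hz).1
      (h1.2.2.symm.trans h2.2.2) (hne e f h)
  have hthree : ∀ e f g z, z ∈ chord (τ (lo e)) (τ (hi e)) → z ∈ chord (τ (lo f)) (τ (hi f)) →
      z ∈ chord (τ (lo g)) (τ (hi g)) → z ∉ range (fun v => ppt (τ v)) →
      pos (lo e) < pos (lo f) → pos (hi e) < pos (hi f) → pos (hi f) < pos (hi g) → False := by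
    intro e f g z h1 h2 h3 hz a1 a2 a3
    obtain ⟨n, hn⟩ : ∃ n, pos (hi g) = n + 1 := ⟨pos (hi g) - 1, by omega⟩
    have b1 := hlt e
    have b2 := hlt f
    refine no_concurrent (tt (pos (lo e))) (tt (pos (hi e))) (tt (pos (lo f))) (tt (pos (hi f)))
      (tt (pos (lo g))) (tt n) z.re
      (tt_strictMono.monotone (by omega)) (tt_strictMono.monotone (by omega))
      (tt_strictMono.monotone (by omega)) (tt_pos n) (hint e z h1 hz).1 (hint e z h1 hz).2
      (hint g z h3 hz).1 (tt_strictMono a1) (tt_strictMono a2) (h1.2.2.symm.trans h2.2.2) ?_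
    have := h1.2.2.symm.trans h3.2.2
    simp only [τ, hn, tt] at this
    exact this
  refine ⟨⟨fun v => ppt (τ v), fun e => chord (τ (lo e)) (τ (hi e)), ?_, ?_, ?_, ?_, ?_⟩, ?_⟩
  · intro u v h
    exact hτi (congrArg Complex.re h)
  · intro u v h
    obtain ⟨γ, h1, h2⟩ := chord_path ((hτ _ _).2 (hlt ⟨s(u, v), h⟩))
    have := he ⟨s(u, v), h⟩
    simp only [Sym2.eq_iff] at this
    rcases this with ⟨a1, a2⟩ | ⟨a1, a2⟩
    · exact ⟨γ.cast (by rw [← a1]) (by rw [← a2]), h1, h2⟩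
    · refine ⟨γ.symm.cast (by rw [← a1]) (by rw [← a2]), ?_, ?_⟩
      · exact h1.comp unitInterval.symm_bijective.1
      · rw [← h2, ← γ.symm_range]; rfl
  · intro e w h
    rw [he]
    rcases ppt_mem_chord h with h | h <;> rw [hτi h] <;> simp
  · intro e f h
    exact (chord_subsingleton ((hτ _ _).2 (hlt e)) ((hτ _ _).2 (hlt f)) (hne e f h)).finite
  · intro e f g h1 h2 h3 z z1 z2 z3
    by_contra hz
    rcases hil e f z h1 z1 z2 hz with a | a <;> rcases hil e g z h2 z1 z3 hz with b | b <;>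
      rcases hil f g z h3 z2 z3 hz with c | c
    · exact hthree e f g z z1 z2 z3 hz a.1 a.2 c.2
    · exact hthree e g f z z1 z3 z2 hz b.1 b.2 c.2
    · omega
    · exact hthree g e f z z3 z1 z2 hz b.1 b.2 a.2
    · exact hthree f e g z z2 z1 z3 hz a.1 a.2 b.2
    · omega
    · exact hthree f g e z z2 z3 z1 hz c.1 c.2 b.2
    · exact hthree g f e z z3 z2 z1 hz c.1 c.2 a.2
  · refine ncard_le_of_rel (toFinite _)
      (fun x q => ∃ e f, x.2 = s(e, f) ∧ q = (lo e, hi e, lo f, hi f)) ?_ ?_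
    · rintro ⟨z, p⟩ ⟨a1, a2, a3⟩
      induction p using Sym2.ind with
      | _ e f =>
      have hef : e ≠ f := by simpa using a1
      have z1 := a2 e (by simp)
      have z2 := a2 f (by simp)
      rcases hil e f z hef z1 z2 a3 with h | h
      · exact ⟨_, ⟨hadj e, hadj f, h.1,
          (hτ _ _).1 ((hint f z z2 a3).1.trans (hint e z z1 a3).2), h.2⟩, e, f, rfl, rfl⟩
      · exact ⟨_, ⟨hadj f, hadj e, h.1,
          (hτ _ _).1 ((hint e z z1 a3).1.trans (hint f z z2 a3).2), h.2⟩, f, e, Sym2.eq_swap, rfl⟩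
    · rintro ⟨z, p⟩ ⟨a1, a2, -⟩ ⟨z', p'⟩ ⟨-, b2, -⟩ q ⟨e, f, rfl, rfl⟩ ⟨e', f', rfl, h⟩
      simp only [Prod.mk.injEq] at h
      obtain rfl : e = e' := Subtype.ext (by rw [he, he, h.1, h.2.1])
      obtain rfl : f = f' := Subtype.ext (by rw [he, he, h.2.2.1, h.2.2.2])
      have hef : e ≠ f := by simpa using a1
      exact Prod.ext (chord_subsingleton ((hτ _ _).2 (hlt e)) ((hτ _ _).2 (hlt f)) (hne e f hef)
        ⟨a2 e (by simp), a2 f (by simp)⟩ ⟨b2 e (by simp), b2 f (by simp)⟩) rfl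

theorem cr_le_inter [Finite V] (pos : V → ℕ) (hpos : Function.Injective pos) :
    cr G ≤ (inter G pos).ncard := by
  obtain ⟨D, hD⟩ := exists_drawing G pos hpos
  exact (Nat.sInf_le (mem_range_self D)).trans hD

theorem exists_optimal [Finite V] : ∃ D : Drawing G, D.crossings = cr G := by
  obtain ⟨n, ⟨e⟩⟩ := Finite.exists_equiv_fin V
  obtain ⟨D, -⟩ := exists_drawing G (fun v => e v) (Fin.val_injective.comp e.injective)
  exact Nat.sInf_mem (s := Set.range fun D : Drawing G => D.crossings) ⟨_, D, rfl⟩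

end Pool.Agent.P.MP_8a730c_lc
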