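import Pool.Prelude.Def_H_3587d628

/-! Drawings, crossing number, promise problems and the small-set expansion hypothesis. -/

namespace Pool.Agent.P.MP_8a730c_lc

open Classical

/-- A drawing of a graph in the plane `ℂ`: distinct points for the vertices, a simple arc for
every edge joining the points of its ends and passing through no other vertex point; two arcs meet
in finitely many points, and three arcs have no common point other than a vertex point. -/
structure Drawing {V : Type} (G : SimpleGraph V) where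
  pt : V → ℂ
  arc : G.edgeSet → Set ℂ
  pt_inj : Function.Injective pt
  simple : ∀ (u v : V) (h : G.Adj u v), ∃ γ : Path (pt u) (pt v),
    Function.Injective γ ∧ Set.range γ = arc ⟨s(u, v), h⟩
  avoid : ∀ (e : G.edgeSet) (w : V), pt w ∈ arc e → w ∈ e.1
  finite_meet : ∀ e f : G.edgeSet, e ≠ f → (arc e ∩ arc f).Finite
  no_three : ∀ e f g : G.edgeSet, e ≠ f → e ≠ g → f ≠ g →
    ∀ z, z ∈ arc e → z ∈ arc f → z ∈ arc g → z ∈ Set.range pt

/-- The number of pairs (point, unordered pair of distinct edges) such that both arcs contain the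
point and the point is not a vertex point (that is, not a shared end). -/
noncomputable def Drawing.crossings {V : Type} {G : SimpleGraph V} (D : Drawing G) : ℕ :=
  Set.ncard {x : ℂ × Sym2 G.edgeSet |
    ¬ x.2.IsDiag ∧ (∀ e ∈ x.2, x.1 ∈ D.arc e) ∧ x.1 ∉ Set.range D.pt}

/-- The crossing number. -/
noncomputable def cr {V : Type} (G : SimpleGraph V) : ℕ :=
  sInf (Set.range fun D : Drawing G => D.crossings)

/-- The adjacency matrix, as a list of rows. -/
noncomputable def adjMatrix {n : ℕ} (G : SimpleGraph (Fin n)) : List (List Bool) :=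
  List.ofFn fun i => List.ofFn fun j => decide (G.Adj i j)

/-- Deterministic polynomial-time many-one reductions between promise problems. -/
def Reduces (Y N Y' N' : Set (List Bool)) : Prop :=
  ∃ f : List Bool → List Bool, N68a2faeb.IsPolyTime f ∧ (∀ x ∈ Y, f x ∈ Y') ∧ ∀ x ∈ N, f x ∈ N'

/-- NP-hardness of a promise problem. -/
def NPHard (Y N : Set (List Bool)) : Prop :=
  ∀ L ∈ N68a2faeb.NP, Reduces {x | L x = true} {x | L x = false} Y N

/-- The expansion of a vertex set in a `d`-regular graph. -/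
noncomputable def expansion {n : ℕ} (G : SimpleGraph (Fin n)) (d : ℕ) (S : Finset (Fin n)) : ℚ :=
  ((G.interedges S Sᶜ).card : ℚ) / (d * S.card)

/-- Yes instances of small-set expansion. -/
def SSEyes (η δ : ℚ) : Set (List Bool) :=
  {x | ∃ (n : ℕ) (G : SimpleGraph (Fin n)) (d k : ℕ), x = N487b59b3.bitEncode (adjMatrix G) ∧
    0 < d ∧ (∀ v, (G.neighborSet v).ncard = d) ∧ 0 < k ∧ (k : ℚ) = δ * n ∧
    ∃ S : Finset (Fin n), S.card = k ∧ expansion G d S ≤ η}

/-- No instances of small-set expansion. -/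
def SSEno (η δ : ℚ) : Set (List Bool) :=
  {x | ∃ (n : ℕ) (G : SimpleGraph (Fin n)) (d k : ℕ), x = N487b59b3.bitEncode (adjMatrix G) ∧
    0 < d ∧ (∀ v, (G.neighborSet v).ncard = d) ∧ 0 < k ∧ (k : ℚ) = δ * n ∧
    ∀ S : Finset (Fin n), S.card = k → 1 - η ≤ expansion G d S}

/-- The small-set expansion hypothesis of Raghavendra and Steurer. -/
def SSEH : Prop :=
  ∀ η : ℚ, 0 < η → η < 1 / 2 → ∃ δ : ℚ, 0 < δ ∧ δ ≤ 1 / 2 ∧ NPHard (SSEyes η δ) (SSEno η δ)

/-- Pairs (graph of maximum degree at most `Δ`, number `k`) with crossing number at most `k`. -/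
def CrYes (Δ : ℕ) : Set (List Bool) :=
  {x | ∃ (n : ℕ) (G : SimpleGraph (Fin n)) (k : ℕ), x = N487b59b3.bitEncode (adjMatrix G, k) ∧
    (∀ v, (G.neighborSet v).ncard ≤ Δ) ∧ cr G ≤ k}

/-- Pairs (graph of maximum degree at most `Δ`, number `k`) with crossing number above `c k`. -/
def CrNo (Δ : ℕ) (c : ℝ) : Set (List Bool) :=
  {x | ∃ (n : ℕ) (G : SimpleGraph (Fin n)) (k : ℕ), x = N487b59b3.bitEncode (adjMatrix G, k) ∧
    (∀ v, (G.neighborSet v).ncard ≤ Δ) ∧ c * k < cr G}

end Pool.Agent.P.MP_8a730c_lc
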