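import Pool.Agent.P.MP_8a730c_lc.Book

/-! A graph made of flip gadgets along a thick cycle, and its two-page drawings. -/

namespace Pool.Agent.P.MP_8a730c_lc

open Set

def gMid (b : ℕ) : Bool :=
  [false, true, false, true, true, false, true, false, true, true, false, true].getD b false

def gLo (b : ℕ) : ℕ := [0, 0, 0, 2, 0, 0, 5, 0, 7, 5, 0, 10].getD b 0

def gHi (b : ℕ) : ℕ := [0, 2, 0, 10, 5, 0, 7, 0, 12, 10, 0, 12].getD b 0

def lit (l : ℕ) : ℕ := 12 * (l / 2) + 2 + 5 * (l % 2)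

section
variable (n W P : ℕ) (L : List (ℕ × ℕ))

def isMid (β i : ℕ) : Bool :=
  if β < 12 * n then gMid (β % 12) else
    (decide (β = 12 * n + 1) && decide (i < L.length)) || (decide (β = 12 * n + 2) && decide (i < W))

def eLo (β i : ℕ) : ℕ :=
  if β < 12 * n then 12 * (β / 12) + gLo (β % 12) else
    if β = 12 * n + 1 then lit (L.getD i (0, 0)).1 else 12 * n

def eHi (β i : ℕ) : ℕ :=
  if β < 12 * n then 12 * (β / 12) + gHi (β % 12) else
    if β = 12 * n + 1 then lit (L.getD i (0, 0)).2 else 0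

def arcB (u v : ℕ) : Bool :=
  isMid n W L (u / P) (u % P) && decide (v % P = 0) &&
    (decide (v / P = eLo n L (u / P) (u % P)) || decide (v / P = eHi n L (u / P) (u % P)))

def flipG : SimpleGraph (Fin ((12 * n + 3) * P)) :=
  SimpleGraph.fromRel fun u v => arcB n W P L u v = true

end

def side (σ : ℕ → Bool) (l : ℕ) : Bool := xor (σ (l / 2)) (decide (l % 2 = 1))

/-- The positions of the constraints violated by an assignment. -/
def viol (L : List (ℕ × ℕ)) (σ : ℕ → Bool) : Finset ℕ :=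
  (Finset.range L.length).filter fun j => side σ (L.getD j (0, 0)).1 ≠ side σ (L.getD j (0, 0)).2

def fb (b : ℕ) (s : Bool) : ℕ := if s then b else gLo b

def sb (b : ℕ) (s : Bool) : ℕ := if s then gHi b else b

def base (b : ℕ) (s : Bool) : Bool := xor s (decide (b = 8 ∨ b = 9))

theorem tab1 : ∀ b < 12, gMid b = true → gLo b < b ∧ b < gHi b ∧ gHi b ≤ 12 ∧
    gMid (gLo b) = false ∧ gMid (gHi b) = false ∧ gMid (gHi b % 12) = false := by decide

set_option synthInstance.maxSize 2000 in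
theorem tab2 : ∀ b < 12, ∀ b' < 12, ∀ s s', gMid b = true → gMid b' = true →
    base b s = base b' s' → (fb b s < fb b' s' ∨ fb b s = fb b' s' ∧ gMid (fb b' s') = true) →
    (fb b' s' < sb b s ∨ fb b' s' = sb b s ∧ gMid (sb b s) = true) →
    ¬ (sb b s < sb b' s' ∨ sb b s = sb b' s' ∧ gMid (sb b' s') = true) := by decide

set_option synthInstance.maxSize 2000 in
theorem tab3 : ∀ b < 12, ∀ s, gMid b = true → (fb b s ≤ 11 ∧ 1 ≤ sb b s ∧ sb b s ≤ 12 ∧
    (sb b s = 12 → gMid (sb b s) = false)) ∧ ∀ c < 2, fb b s ≤ 2 + 5 * c →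
      (2 + 5 * c < sb b s ∨ 2 + 5 * c = sb b s ∧ gMid (sb b s) = true) →
      (fb b s = 2 + 5 * c ∨ base b s = decide (c = 1)) := by decide

variable {n W P : ℕ} {L : List (ℕ × ℕ)}

theorem getD_lt (hL : ∀ p ∈ L, p.1 < 2 * n ∧ p.2 < 2 * n) {j : ℕ} (hj : j < L.length) :
    (L.getD j (0, 0)).1 < 2 * n ∧ (L.getD j (0, 0)).2 < 2 * n := by
  rw [List.getD_eq_getElem _ _ hj]; exact hL _ (List.getElem_mem hj)

theorem arc_cases (hL : ∀ p ∈ L, p.1 < 2 * n ∧ p.2 < 2 * n) {u v : ℕ}
    (h : arcB n W P L u v = true) : isMid n W L (u / P) (u % P) = true ∧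
    isMid n W L (v / P) (v % P) = false ∧ v % P = 0 ∧
    ((∃ g < n, ∃ b < 12, gMid b = true ∧ u / P = 12 * g + b ∧
        (v / P = 12 * g + gLo b ∨ v / P = 12 * g + gHi b)) ∨
      (u / P = 12 * n + 1 ∧ u % P < L.length ∧ ∃ l < 2 * n, v / P = lit l ∧
        (l = (L.getD (u % P) (0, 0)).1 ∨ l = (L.getD (u % P) (0, 0)).2)) ∨
      (u / P = 12 * n + 2 ∧ u % P < W ∧ (v / P = 12 * n ∨ v / P = 0))) := by
  simp only [arcB, Bool.and_eq_true, Bool.or_eq_true, decide_eq_true_eq] at h
  obtain ⟨⟨h1, h2⟩, h3⟩ := h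
  generalize u / P = β at *
  generalize u % P = i at *
  generalize v / P = γ at *
  refine ⟨h1, ?_⟩
  rw [h2]
  simp only [isMid, eLo, eHi] at h1 h3 ⊢
  by_cases c1 : β < 12 * n
  · simp only [if_pos c1] at h1 h3
    have t := tab1 _ (Nat.mod_lt β (by norm_num)) h1
    refine ⟨?_, trivial, Or.inl ⟨β / 12, by omega, β % 12, by omega, h1, by omega, h3⟩⟩
    rcases h3 with rfl | rfl
    · rw [if_pos (by omega), Nat.mul_add_mod, Nat.mod_eq_of_lt (by omega)]; exact t.2.2.2.1
    · split_ifs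
      · rw [Nat.mul_add_mod]; exact t.2.2.2.2.2
      · simp; omega
  simp only [if_neg c1, Bool.and_eq_true, Bool.or_eq_true, decide_eq_true_eq] at h1 h3
  have hl : ∀ l < 2 * n, (if lit l < 12 * n then gMid (lit l % 12) else
      decide (lit l = 12 * n + 1) && decide (0 < L.length) ||
        decide (lit l = 12 * n + 2) && decide (0 < W)) = false := by
    intro l hl
    rw [if_pos (by rw [lit]; omega)]
    have : lit l % 12 = 2 ∨ lit l % 12 = 7 := by
      rw [lit]; rcases Nat.mod_two_eq_zero_or_one l with h | h <;> rw [h] <;> omega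
    rcases this with h | h <;> rw [h] <;> rfl
  rcases h1 with ⟨rfl, h1⟩ | ⟨rfl, h1⟩
  · have t := getD_lt hL h1
    simp only [if_true] at h3
    rcases h3 with rfl | rfl
    · exact ⟨hl _ t.1, trivial, Or.inr (Or.inl ⟨rfl, h1, _, t.1, rfl, Or.inl rfl⟩)⟩
    · exact ⟨hl _ t.2, trivial, Or.inr (Or.inl ⟨rfl, h1, _, t.2, rfl, Or.inr rfl⟩)⟩
  · simp only [if_neg (show 12 * n + 2 ≠ 12 * n + 1 by omega)] at h3
    refine ⟨?_, trivial, Or.inr (Or.inr ⟨rfl, h1, h3⟩)⟩
    rcases h3 with rfl | rfl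
    · simp
    · split_ifs
      · rfl
      · simp

section
variable (n W P L) (σ : ℕ → Bool)

def blk (u : ℕ) : ℕ :=
  if u / P = 12 * n + 1 ∧ ¬ (side σ (L.getD (u % P) (0, 0)).1 = true ∧
    side σ (L.getD (u % P) (0, 0)).2 = true) then 12 * n + 3 else u / P

def pgm (t w : ℕ) : Bool :=
  if t / P < 12 * n then base (t / P % 12) (decide (t / P < w / P)) == σ (t / P / 12) else
    if t / P = 12 * n + 1 then xor (σ (w / P / 12)) (decide (w / P % 12 = 7)) else
      decide (w / P = 0)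

def pgf (u v : ℕ) : Bool := if isMid n W L (u / P) (u % P) then pgm n P σ u v else pgm n P σ v u

end

variable {σ : ℕ → Bool}

theorem edge_cases (hL : ∀ p ∈ L, p.1 < 2 * n ∧ p.2 < 2 * n) (hn : 0 < n)
    {u v : Fin ((12 * n + 3) * P)} (h : (flipG n W P L).Adj u v)
    (hlt : blk n P L σ u ≤ blk n P L σ v) :
    (∃ g < n, ∃ b < 12, ∃ s, gMid b = true ∧ blk n P L σ u = 12 * g + fb b s ∧
      blk n P L σ v = 12 * g + sb b s ∧ (gMid (fb b s) = false → u % P = 0) ∧
      (gMid (sb b s) = false → v % P = 0) ∧ pgf n W P L σ u v = (base b s == σ g)) ∨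
    (v / P = 12 * n + 1 ∧ v % P < L.length ∧ u % P = 0 ∧ ∃ l < 2 * n, u / P = lit l ∧
      (l = (L.getD (v % P) (0, 0)).1 ∨ l = (L.getD (v % P) (0, 0)).2) ∧
      blk n P L σ u = lit l ∧ pgf n W P L σ u v = side σ l) ∨
    (v / P = 12 * n + 2 ∧ blk n P L σ v = 12 * n + 2 ∧ v % P < W ∧ u % P = 0 ∧
      blk n P L σ u = u / P ∧ ((u / P = 0 ∧ pgf n W P L σ u v = true) ∨
        (u / P = 12 * n ∧ pgf n W P L σ u v = false))) := by
  have hb : ∀ w : ℕ, w / P ≠ 12 * n + 1 → blk n P L σ w = w / P := fun w hw =>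
    if_neg fun h => hw h.1
  have hb' : ∀ w : ℕ, w / P ≤ 12 * n + 3 → w / P ≤ blk n P L σ w := fun w hw => by
    rw [blk]; split_ifs <;> omega
  rcases ((SimpleGraph.fromRel_adj _ _ _).1 h).2 with h | h
  · obtain ⟨m1, -, m3, ⟨g, g1, b, b1, b2, b3, b4⟩ | ⟨a1, -, l, l1, l2, -⟩ | ⟨a1, -, a3⟩⟩ :=
      arc_cases hL h
    · have t := tab1 b b1 b2
      rw [hb u (by omega), hb v (by omega)] at hlt ⊢
      have b5 : v / P = 12 * g + gHi b := by omega
      refine Or.inl ⟨g, g1, b, b1, true, b2, b3, b5, fun h => ?_, fun _ => m3, ?_⟩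
      · rw [fb, if_pos rfl, b2] at h; cases h
      · rw [pgf, if_pos m1, pgm, if_pos (by omega), decide_eq_true (by omega),
          show u / P % 12 = b by omega, show u / P / 12 = g by omega]
    · rw [lit] at l2
      have := hb' u (by omega)
      rw [hb v (by omega)] at hlt; omega
    · rw [hb u (by omega), hb v (by omega)] at hlt; omega
  · obtain ⟨-, m1, m3, ⟨g, g1, b, b1, b2, b3, b4⟩ | ⟨a1, a2, l, l1, l2, l3⟩ | ⟨a1, a2, a3⟩⟩ :=
      arc_cases hL h
    · have t := tab1 b b1 b2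
      rw [hb u (by omega), hb v (by omega)] at hlt ⊢
      have b5 : u / P = 12 * g + gLo b := by omega
      refine Or.inl ⟨g, g1, b, b1, false, b2, b5, b3, fun _ => m3, fun h => ?_, ?_⟩
      · rw [sb, if_neg (by simp), b2] at h; cases h
      · rw [pgf, if_neg (by simp [m1]), pgm, if_pos (by omega), decide_eq_false (by omega),
          show v / P % 12 = b by omega, show v / P / 12 = g by omega]
    · refine Or.inr (Or.inl ⟨a1, a2, m3, l, l1, l2, l3, ?_, ?_⟩)
      · rw [hb u (by rw [l2, lit]; omega), l2]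
      · rw [pgf, if_neg (by simp [m1]), pgm, if_neg (by omega), if_pos a1, l2, side,
          show lit l / 12 = l / 2 by rw [lit]; omega]
        congr 1
        exact decide_eq_decide.2 (by rw [lit]; omega)
    · refine Or.inr (Or.inr ⟨a1, by rw [hb v (by omega), a1], a2, m3, hb u (by omega), ?_⟩)
      rw [pgf, if_neg (by simp [m1]), pgm, if_neg (by omega), if_neg (by omega)]
      rcases a3 with a3 | a3
      · exact Or.inr ⟨a3, decide_eq_false (by omega)⟩
      · exact Or.inl ⟨a3, decide_eq_true a3⟩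

theorem fin_ext_dm {N P : ℕ} {u v : Fin N} (h1 : u.val / P = v.val / P) (h2 : u.val % P = v.val % P) :
    u = v := Fin.ext (by rw [← Nat.div_add_mod u P, h1, h2, Nat.div_add_mod])

theorem flip_upper (hL : ∀ p ∈ L, p.1 < 2 * n ∧ p.2 < 2 * n) (hn : 0 < n) (σ : ℕ → Bool) :
    cr (flipG n W P L) ≤ W * (viol L σ).card + (2 * L.length) ^ 2 := by
  refine (cr_le_inter2 _ (fun u : Fin _ => toLex (blk n P L σ u.val, u.val % P)) ?_
    fun u v => pgf n W P L σ u.val v.val).trans ?_
  · intro u v h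
    have h1 : blk n P L σ u = blk n P L σ v := congrArg (fun x => (ofLex x).1) h
    refine fin_ext_dm ?_ (congrArg (fun x => (ofLex x).2) h)
    have a1 := Nat.div_lt_of_lt_mul (u.2.trans_eq (Nat.mul_comm _ P))
    have a2 := Nat.div_lt_of_lt_mul (v.2.trans_eq (Nat.mul_comm _ P))
    simp only [blk] at h1
    split_ifs at h1 <;> omega
  let R1 : Fin ((12 * n + 3) * P) → Fin ((12 * n + 3) * P) → ℕ × Bool → Prop := fun u v x =>
    v / P = 12 * n + 1 ∧ v % P = x.1 ∧ u % P = 0 ∧
      u / P = lit (if x.2 then (L.getD x.1 (0, 0)).1 else (L.getD x.1 (0, 0)).2)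
  have hR : ∀ u v x u' v', R1 u v x → R1 u' v' x → u = u' ∧ v = v' := fun u v x u' v' h h' =>
    ⟨fin_ext_dm (h.2.2.2.trans h'.2.2.2.symm) (h.2.2.1.trans h'.2.2.1.symm),
      fin_ext_dm (h.1.trans h'.1.symm) (h.2.1.trans h'.2.1.symm)⟩
  let T : Finset (ℕ × Bool) := Finset.range L.length ×ˢ Finset.univ
  refine (ncard_le_of_rel (Finset.finite_toSet ((Finset.range W ×ˢ viol L σ).disjSum (T ×ˢ T)))
    (fun q y => match y with
      | .inl y => q.1 / P = 0 ∧ q.1 % P = 0 ∧ q.2.1 / P = 12 * n + 2 ∧ q.2.1 % P = y.1 ∧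
          R1 q.2.2.1 q.2.2.2 (y.2, side σ (L.getD y.2 (0, 0)).1)
      | .inr y => R1 q.1 q.2.1 y.1 ∧ R1 q.2.2.1 q.2.2.2 y.2) ?_ ?_).trans ?_
  · rintro ⟨u, v, u', v'⟩ ⟨h1, h2, o1, o2, o3, hp⟩
    simp only [Prod.Lex.toLex_lt_toLex] at o1 o2 o3 hp h1 h2
    have hb : ∀ w : ℕ, w / P = 12 * n + 1 → blk n P L σ w = 12 * n + 3 ∨
        (blk n P L σ w = 12 * n + 1 ∧ side σ (L.getD (w % P) (0, 0)).1 = true ∧
          side σ (L.getD (w % P) (0, 0)).2 = true) := fun w hw => by
      rw [blk]; split_ifs with c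
      · exact Or.inl rfl
      · exact Or.inr ⟨hw, by tauto⟩
    have thin : ∀ (u v : Fin ((12 * n + 3) * P)) l, v / P = 12 * n + 1 → v % P < L.length →
        u % P = 0 → u / P = lit l →
        (l = (L.getD (v % P) (0, 0)).1 ∨ l = (L.getD (v % P) (0, 0)).2) → ∃ x ∈ T, R1 u v x := by
      rintro u v l a1 a2 a3 a4 (rfl | rfl)
      · exact ⟨(v % P, true), by simpa [T] using a2, a1, rfl, a3, a4⟩
      · exact ⟨(v % P, false), by simpa [T] using a2, a1, rfl, a3, a4⟩
    rcases edge_cases (σ := σ) hL hn h1 (by omega) with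
      ⟨g, g1, b, b1, s, b2, b3, b4, b5, b6, b7⟩ | ⟨a1, a2, a3, l, l1, l2, l3, l4, l5⟩ |
        ⟨a1, a2, a3, a4, a5, a6⟩ <;>
      rcases edge_cases (σ := σ) hL hn h2 (by omega) with
        ⟨g', g1', b', b1', s', b2', b3', b4', b5', b6', b7'⟩ |
          ⟨a1', a2', a3', l', l1', l2', l3', l4', l5'⟩ | ⟨a1', a2', a3', a4', a5', a6'⟩
    · have t := (tab3 b b1 s b2).1
      have t' := (tab3 b' b1' s' b2').1
      have k1 : gMid (fb b' s') = true ∨ u' % P = 0 := by cases h : gMid (fb b' s') <;> simp [b5', h]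
      have k2 : gMid (sb b s) = true ∨ v % P = 0 := by cases h : gMid (sb b s) <;> simp [b6, h]
      have k3 : gMid (sb b' s') = true ∨ v' % P = 0 := by cases h : gMid (sb b' s') <;> simp [b6', h]
      obtain rfl : g = g' := by
        by_cases c : sb b s = 12
        · have := b6 (t.2.2.2 c); omega
        · omega
      rw [b7, b7'] at hp
      refine absurd ?_ (tab2 b b1 b' b1' s s' b2 b2' ?_ ?_ ?_)
      · rcases k3 with k | k
        · simp only [k, and_true]; omega
        · omega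
      · revert hp; cases base b s <;> cases base b' s' <;> cases σ g <;> simp
      · rcases k1 with k | k
        · simp only [k, and_true]; omega
        · omega
      · rcases k2 with k | k
        · simp only [k, and_true]; omega
        · omega
    · have t := tab3 b b1 s b2
      have k2 : gMid (sb b s) = true ∨ v % P = 0 := by cases h : gMid (sb b s) <;> simp [b6, h]
      rw [lit] at l4'
      obtain rfl : g = l' / 2 := by omega
      rw [b7, l5', side] at hp
      rcases t.2 (l' % 2) (by omega) (by omega) (by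
        rcases k2 with k | k
        · simp only [k, and_true]; omega
        · omega) with k | k
      · omega
      · rw [k] at hp
        revert hp; cases σ (l' / 2) <;> cases decide (l' % 2 = 1) <;> simp
    · have t := (tab3 b b1 s b2).1
      by_cases c : sb b s = 12
      · have := b6 (t.2.2.2 c); omega
      · omega
    · have t' := (tab3 b' b1' s' b2').1
      have := hb v a1; omega
    · obtain ⟨x, x1, x2⟩ := thin u v l a1 a2 a3 l2 l3
      obtain ⟨y, y1, y2⟩ := thin u' v' l' a1' a2' a3' l2' l3'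
      exact ⟨.inr (x, y), by simp [x1, y1], x2, y2⟩
    · rcases hb v a1 with k | ⟨-, k1, k2⟩
      · omega
      rcases a6' with c | c
      · omega
      rw [l5, c.2] at hp
      rcases l3 with rfl | rfl <;> simp_all
    · have t' := (tab3 b' b1' s' b2').1
      omega
    · rw [lit] at l4'
      rcases a6 with c | c
      swap; · omega
      rw [l5', c.2] at hp
      have k : ¬ (side σ (L.getD (v' % P) (0, 0)).1 = true ∧
          side σ (L.getD (v' % P) (0, 0)).2 = true) := by
        intro k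
        have : blk n P L σ v' = v' / P := if_neg fun h => h.2 k
        omega
      refine ⟨.inl (v % P, v' % P), ?_, c.1, a4, a1, rfl, a1', rfl, a3', ?_⟩
      · simp only [Finset.mem_coe, Finset.inl_mem_disjSum, Finset.mem_product, Finset.mem_range,
          viol, Finset.mem_filter]
        refine ⟨a3, a2', fun e => k ?_⟩
        rcases l3' with rfl | rfl
        · exact ⟨hp.symm, e ▸ hp.symm⟩
        · exact ⟨e ▸ hp.symm, hp.symm⟩
      · rw [l2']
        rcases l3' with rfl | rfl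
        · rw [← hp, if_pos rfl]
        · rw [if_neg fun e => k ⟨e, hp.symm⟩]
    · rcases a6 with c | c <;> rcases a6' with c' | c'
      · omega
      · rw [c.2, c'.2] at hp; cases hp
      · omega
      · omega
  · rintro ⟨u, v, u', v'⟩ - ⟨x, y, x', y'⟩ - (z | z) h h'
    · obtain ⟨rfl, rfl⟩ := hR _ _ _ _ _ h.2.2.2.2 h'.2.2.2.2
      exact Prod.ext (fin_ext_dm (h.1.trans h'.1.symm) (h.2.1.trans h'.2.1.symm)) (Prod.ext
        (fin_ext_dm (h.2.2.1.trans h'.2.2.1.symm) (h.2.2.2.1.trans h'.2.2.2.1.symm)) rfl)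
    · obtain ⟨rfl, rfl⟩ := hR _ _ _ _ _ h.1 h'.1
      obtain ⟨rfl, rfl⟩ := hR _ _ _ _ _ h.2 h'.2
      rfl
  · rw [ncard_coe_finset]
    simp only [Finset.card_disjSum, Finset.card_product, Finset.card_range, T, Finset.card_univ,
      Fintype.card_bool]
    exact le_of_eq (by ring)

end Pool.Agent.P.MP_8a730c_lc
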