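import Mathlib

/-! The van Kampen obstruction for five points in the plane. -/

namespace Pool.Agent.P.MP_8a730c_lc

open Complex Set

theorem log_exists {X : Type} [TopologicalSpace X] [SimplyConnectedSpace X]
    [LocallyPathConnectedSpace X] (g : X → ℂ) (hg : Continuous g) (h0 : ∀ x, g x ≠ 0) :
    ∃ f : X → ℂ, Continuous f ∧ ∀ x, exp (f x) = g x := by
  obtain ⟨x₀⟩ : Nonempty X := inferInstance
  rcases isCoveringMapOn_exp.existsUnique_continuousMap_lifts (⟨g, hg⟩ : C(X, ℂ))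
    (a₀ := x₀) (e₀ := log (g x₀)) (exp_log (h0 x₀)) (fun x => h0 x) with ⟨f, ⟨-, hf⟩, -⟩
  exact ⟨f, f.continuous, fun x => congrFun hf x⟩

theorem log_unique (f₁ f₂ : ℝ → ℂ) (h₁ : Continuous f₁) (h₂ : Continuous f₂) (c : ℂ)
    (h : ∀ t, exp (f₁ t) = c * exp (f₂ t)) : f₁ 1 - f₁ 0 = f₂ 1 - f₂ 0 := by
  have key : ∀ t, exp (f₁ t - f₂ t) = c := by
    intro t
    rw [exp_sub, h t]
    field_simp [exp_ne_zero (f₂ t)]
  have hc : (fun t => f₁ t - f₂ t) 1 = (fun t => f₁ t - f₂ t) 0 := by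
    apply isCoveringMap_exp.const_of_comp (g := fun t => f₁ t - f₂ t) (h₁.sub h₂)
    intro a a'
    apply Subtype.ext
    simp only [key]
  simp only at hc
  linear_combination hc

theorem exists_k {V : Type} [LinearOrder V] (p : V → ℂ) (γ : V → V → ℝ → ℂ)
    (hp : Function.Injective p)
    (hγ : ∀ u v, u ≠ v → Continuous (γ u v) ∧ γ u v 0 = p u ∧ γ u v 1 = p v)
    (hΓv : ∀ u v, u ≠ v → ∀ w, w ≠ u → w ≠ v → ∀ t, γ u v t ≠ p w)
    (hx : ∀ a b c d, a ≠ b → c ≠ d → a ≠ c → a ≠ d → b ≠ c → b ≠ d →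
      ∀ s t : ℝ, γ a b s ≠ γ c d t) :
    ∃ k : V → V → V → ℤ, ∀ a b c d, a ≠ b → c ≠ d → a ≠ c → a ≠ d → b ≠ c → b ≠ d →
      (if c < b then 1 else 0) + (if b < d then 1 else 0) + (if a < c then 1 else 0)
        + (if d < a then 1 else 0) - 2 + k c a b + k b c d - k a c d - k d a b = 0 := by
  classical
  let lam : V → V → ℂ := fun x y =>
    if x < y then log (p y - p x) else log (p x - p y) - Real.pi * I
  have hlam : ∀ x y, x ≠ y → exp (lam x y) = p y - p x := by
    intro x y hxy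
    have hne : p y - p x ≠ 0 := sub_ne_zero.2 fun e => hxy (hp e).symm
    have hne' : p x - p y ≠ 0 := sub_ne_zero.2 fun e => hxy (hp e)
    by_cases h : x < y
    · simp only [lam, if_pos h]; exact exp_log hne
    · simp only [lam, if_neg h]; rw [exp_sub, exp_log hne', exp_pi_mul_I]; ring
  have hlam2 : ∀ x y, x ≠ y →
      lam x y - lam y x = (2 * ((if x < y then 1 else 0 : ℤ) : ℂ) - 1) * (Real.pi * I) := by
    intro x y hxy
    rcases lt_or_gt_of_ne hxy with h | h
    · simp only [lam, if_pos h, if_neg (not_lt.2 h.le)]; push_cast; ring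
    · simp only [lam, if_pos h, if_neg (not_lt.2 h.le)]; push_cast; ring
  have hL : ∀ v a b, ∃ L : ℝ → ℂ, ∃ n : ℤ, a ≠ b → v ≠ a → v ≠ b →
      Continuous L ∧ (∀ t, exp (L t) = γ a b t - p v) ∧
      L 1 - L 0 = lam v b - lam v a + n * (2 * Real.pi * I) := by
    intro v a b
    by_cases hh : a ≠ b ∧ v ≠ a ∧ v ≠ b
    · obtain ⟨h, ha, hb⟩ := hh
      obtain ⟨L, hLc, hLe⟩ := log_exists (fun t : ℝ => γ a b t - p v)
        ((hγ a b h).1.sub continuous_const) (fun t => sub_ne_zero.2 (hΓv a b h v ha hb t))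
      have e : exp (L 1 - L 0) = exp (lam v b - lam v a) := by
        rw [exp_sub, exp_sub, hLe, hLe, hlam v b hb, hlam v a ha,
          (hγ a b h).2.1, (hγ a b h).2.2]
      obtain ⟨n, hn⟩ := exp_eq_exp_iff_exists_int.1 e
      exact ⟨L, n, fun _ _ _ => ⟨hLc, hLe, hn⟩⟩
    · exact ⟨fun _ => 0, 0, fun h ha hb => absurd ⟨h, ha, hb⟩ hh⟩
  choose L k hL using hL
  refine ⟨k, fun a b c d hab hcd hac had hbc hbd => ?_⟩
  have hF0 : ∀ q : ℝ × ℝ, γ a b q.1 - γ c d q.2 ≠ 0 := fun q =>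
    sub_ne_zero.2 (hx a b c d hab hcd hac had hbc hbd _ _)
  obtain ⟨Θ, hΘc, hΘ⟩ := log_exists (fun q : ℝ × ℝ => γ a b q.1 - γ c d q.2)
    (((hγ a b hab).1.comp continuous_fst).sub ((hγ c d hcd).1.comp continuous_snd)) hF0
  obtain ⟨c1, e1, n1⟩ := hL c a b hab hac.symm hbc.symm
  obtain ⟨c2, e2, n2⟩ := hL d a b hab had.symm hbd.symm
  obtain ⟨c3, e3, n3⟩ := hL a c d hcd hac had
  obtain ⟨c4, e4, n4⟩ := hL b c d hcd hbc hbd
  have u1 := log_unique (fun s => Θ (s, 0)) (L c a b) (by fun_prop) c1 1 (by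
    intro t; rw [hΘ, e1]; simp only [(hγ c d hcd).2.1, one_mul])
  have u2 := log_unique (fun s => Θ (s, 1)) (L d a b) (by fun_prop) c2 1 (by
    intro t; rw [hΘ, e2]; simp only [(hγ c d hcd).2.2, one_mul])
  have u3 := log_unique (fun s => Θ (0, s)) (L a c d) (by fun_prop) c3 (-1) (by
    intro t; rw [hΘ, e3]; simp only [(hγ a b hab).2.1]; ring)
  have u4 := log_unique (fun s => Θ (1, s)) (L b c d) (by fun_prop) c4 (-1) (by
    intro t; rw [hΘ, e4]; simp only [(hγ a b hab).2.2]; ring)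
  have l1 := hlam2 c b hbc.symm
  have l2 := hlam2 b d hbd
  have l3 := hlam2 a c hac
  have l4 := hlam2 d a had.symm
  have hpi : (2 * Real.pi * I : ℂ) ≠ 0 := two_pi_I_ne_zero
  have fin : ((((if c < b then 1 else 0) + (if b < d then 1 else 0) + (if a < c then 1 else 0)
        + (if d < a then 1 else 0) - 2 + k c a b + k b c d - k a c d - k d a b : ℤ) : ℂ))
        * (2 * Real.pi * I) = 0 := by
    generalize (if c < b then 1 else 0 : ℤ) = i1 at *
    generalize (if b < d then 1 else 0 : ℤ) = i2 at *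
    generalize (if a < c then 1 else 0 : ℤ) = i3 at *
    generalize (if d < a then 1 else 0 : ℤ) = i4 at *
    push_cast
    linear_combination (-1 : ℂ) * (u1 + u4 - u3 - u2) - (n1 + n4 - n3 - n2) - (l1 + l2 + l3 + l4)
  exact_mod_cast (mul_eq_zero.1 fin).resolve_right hpi

/-- Five points of the plane cannot be joined pairwise inside sets that are disjoint for
disjoint pairs. -/
theorem no_K5 (p : Fin 5 → ℂ) (A : Fin 5 → Fin 5 → Set ℂ)
    (hA : ∀ a b, a ≠ b → JoinedIn (A a b) (p a) (p b))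
    (hd : ∀ a b c d, a ≠ b → c ≠ d → a ≠ c → a ≠ d → b ≠ c → b ≠ d → Disjoint (A a b) (A c d)) :
    False := by
  have h1 : ∀ a b, ∃ γ : ℝ → ℂ, a ≠ b →
      Continuous γ ∧ γ 0 = p a ∧ γ 1 = p b ∧ ∀ t, γ t ∈ A a b := by
    intro a b
    by_cases h : a = b
    · exact ⟨fun _ => 0, fun h' => absurd h h'⟩
    · obtain ⟨γ, hγ⟩ := hA a b h
      refine ⟨γ.extend, fun _ => ⟨γ.continuous_extend, γ.extend_zero, γ.extend_one, fun t => ?_⟩⟩
      have : γ.extend t ∈ range γ := by rw [← γ.extend_range]; exact mem_range_self t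
      obtain ⟨s, hs⟩ := this
      exact hs ▸ hγ s
  choose γ hγ using h1
  have hx : ∀ a b c d, a ≠ b → c ≠ d → a ≠ c → a ≠ d → b ≠ c → b ≠ d →
      ∀ s t : ℝ, γ a b s ≠ γ c d t := by
    intro a b c d h1 h2 h3 h4 h5 h6 s t e
    exact disjoint_left.1 (hd a b c d h1 h2 h3 h4 h5 h6) ((hγ a b h1).2.2.2 s)
      (e ▸ (hγ c d h2).2.2.2 t)
  have hv : ∀ u v, u ≠ v → ∀ w, w ≠ u → w ≠ v → ∀ t, γ u v t ≠ p w := by
    intro u v huv w hu hv t
    obtain ⟨y, h1, h2, h3⟩ : ∃ y, y ≠ u ∧ y ≠ v ∧ y ≠ w := by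
      revert u v w; decide
    rw [← (hγ w y h3.symm).2.1]
    exact hx u v w y huv h3.symm hu.symm h1.symm hv.symm h2.symm _ _
  have hp : Function.Injective p := by
    intro u w e
    by_contra hne
    obtain ⟨v, h1, h2⟩ : ∃ v, v ≠ u ∧ v ≠ w := by
      clear e; revert u w; decide
    exact hv u v h1.symm w (Ne.symm hne) h2.symm 0 (by rw [(hγ u v h1.symm).2.1, e])
  obtain ⟨k, hk⟩ := exists_k p γ hp (fun u v h => ⟨(hγ u v h).1, (hγ u v h).2.1, (hγ u v h).2.2.1⟩)
    hv hx
  have e1 := hk 0 1 2 3 (by decide) (by decide) (by decide) (by decide) (by decide) (by decide)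
  have e2 := hk 0 1 2 4 (by decide) (by decide) (by decide) (by decide) (by decide) (by decide)
  have e3 := hk 0 1 3 4 (by decide) (by decide) (by decide) (by decide) (by decide) (by decide)
  have e4 := hk 0 2 1 3 (by decide) (by decide) (by decide) (by decide) (by decide) (by decide)
  have e5 := hk 0 2 1 4 (by decide) (by decide) (by decide) (by decide) (by decide) (by decide)
  have e6 := hk 0 2 3 4 (by decide) (by decide) (by decide) (by decide) (by decide) (by decide)
  have e7 := hk 0 3 1 2 (by decide) (by decide) (by decide) (by decide) (by decide) (by decide)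
  have e8 := hk 0 3 1 4 (by decide) (by decide) (by decide) (by decide) (by decide) (by decide)
  have e9 := hk 0 3 2 4 (by decide) (by decide) (by decide) (by decide) (by decide) (by decide)
  have e10 := hk 0 4 1 2 (by decide) (by decide) (by decide) (by decide) (by decide) (by decide)
  have e11 := hk 0 4 1 3 (by decide) (by decide) (by decide) (by decide) (by decide) (by decide)
  have e12 := hk 0 4 2 3 (by decide) (by decide) (by decide) (by decide) (by decide) (by decide)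
  have e13 := hk 1 2 3 4 (by decide) (by decide) (by decide) (by decide) (by decide) (by decide)
  have e14 := hk 1 3 2 4 (by decide) (by decide) (by decide) (by decide) (by decide) (by decide)
  have e15 := hk 1 4 2 3 (by decide) (by decide) (by decide) (by decide) (by decide) (by decide)
  simp only [Fin.isValue, Fin.reduceLT, if_true, if_false] at e1 e2 e3 e4 e5 e6 e7 e8 e9 e10 e11 e12 e13 e14 e15
  omega

end Pool.Agent.P.MP_8a730c_lc
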