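import Pool.Agent.P.MP_8a730c_lc.Defs
import Pool.Agent.P.MP_8a730c_lc.VK
import Pool.Agent.P.MP_8a730c_lc.AST

/-! Balanced separators from drawings with few crossings. -/

namespace Pool.Agent.P.MP_8a730c_lc

open Set

theorem group_comps {U : Type} [Finite U] (Γ : SimpleGraph U) (S P : Set U)
    (h : ∀ a, 2 * (comp Γ S a ∩ P).ncard ≤ P.ncard) :
    ∃ T : Set U, (∀ x y, Γ.Adj x y → x ∈ S → y ∈ S → x ∈ T → y ∈ T) ∧
      4 * (T ∩ P).ncard ≤ 3 * P.ncard ∧ 4 * ((S \ T) ∩ P).ncard ≤ 3 * P.ncard := by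
  obtain ⟨T, ⟨h1, h2⟩, h3⟩ := Set.exists_max_image
    {T : Set U | (∀ x y, Γ.Adj x y → x ∈ S → y ∈ S → x ∈ T → y ∈ T) ∧
      4 * (T ∩ P).ncard ≤ 3 * P.ncard} (fun T => (T ∩ P).ncard) (toFinite _) ⟨∅, by simp⟩
  refine ⟨T, h1, h2, ?_⟩
  by_contra hc
  have hd : Disjoint (T ∩ P) ((S \ T) ∩ P) := disjoint_left.2 fun x hx hx' => hx'.1.2 hx.1
  have e1 := ncard_union_eq hd
  have e2 : (T ∩ P ∪ (S \ T) ∩ P).ncard ≤ P.ncard :=
    ncard_le_ncard (union_subset inter_subset_right inter_subset_right)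
  obtain ⟨a, ⟨ha1, ha2⟩, ha3⟩ : ((S \ T) ∩ P).Nonempty := by
    rw [← ncard_pos]; omega
  have e3 : ((T ∪ comp Γ S a) ∩ P).ncard ≤ (T ∩ P).ncard + (comp Γ S a ∩ P).ncard := by
    rw [union_inter_distrib_right]; exact ncard_union_le _ _
  have e4 := h a
  have e5 := h3 (T ∪ comp Γ S a) ⟨by
    rintro x y hxy hx hy (h | h)
    · exact Or.inl (h1 x y hxy hx hy h)
    · exact Or.inr (comp_closed h hxy hy), by omega⟩
  have e6 : (T ∩ P).ncard < ((T ∪ comp Γ S a) ∩ P).ncard :=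
    ncard_lt_ncard ⟨inter_subset_inter_left _ subset_union_left,
      fun hh => ha2 (hh ⟨Or.inr ⟨ha1, Reach.refl _ _⟩, ha3⟩).1⟩
  omega

variable {V : Type} {G : SimpleGraph V}

theorem Drawing.exists_param (D : Drawing G) (e : G.edgeSet) : ∃ (u v : V) (g : ℝ → ℂ),
    e.1 = s(u, v) ∧ Continuous g ∧ InjOn g (Icc 0 1) ∧ g 0 = D.pt u ∧ g 1 = D.pt v ∧
      ∀ t, g t ∈ D.arc e := by
  obtain ⟨e, he⟩ := e
  induction e using Sym2.ind with
  | _ u v =>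
  obtain ⟨γ, h1, h2⟩ := D.simple u v he
  refine ⟨u, v, γ.extend, rfl, γ.continuous_extend, fun s hs t ht h => ?_, γ.extend_zero,
    γ.extend_one, fun t => ?_⟩
  · rw [γ.extend_apply hs, γ.extend_apply ht] at h
    exact congrArg Subtype.val (h1 h)
  · rw [← h2, ← γ.extend_range]; exact mem_range_self t

/-- The crossing points. -/
def Drawing.xpts (D : Drawing G) : Set ℂ :=
  {z | z ∉ range D.pt ∧ ∃ e f, e ≠ f ∧ z ∈ D.arc e ∧ z ∈ D.arc f}

theorem Drawing.xset_finite [Finite V] (D : Drawing G) : {x : ℂ × Sym2 G.edgeSet |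
    ¬ x.2.IsDiag ∧ (∀ e ∈ x.2, x.1 ∈ D.arc e) ∧ x.1 ∉ Set.range D.pt}.Finite := by
  have h1 : (⋃ p : {p : G.edgeSet × G.edgeSet // p.1 ≠ p.2},
      D.arc p.1.1 ∩ D.arc p.1.2).Finite := finite_iUnion fun p => D.finite_meet _ _ p.2
  refine (h1.prod (finite_univ (α := Sym2 G.edgeSet))).subset ?_
  rintro ⟨z, p⟩ ⟨a1, a2, -⟩
  induction p using Sym2.ind with
  | _ e f =>
  exact ⟨mem_iUnion.2 ⟨⟨(e, f), by simpa using a1⟩, a2 e (by simp), a2 f (by simp)⟩, trivial⟩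

theorem Drawing.xpts_eq (D : Drawing G) : D.xpts = Prod.fst '' {x : ℂ × Sym2 G.edgeSet |
    ¬ x.2.IsDiag ∧ (∀ e ∈ x.2, x.1 ∈ D.arc e) ∧ x.1 ∉ Set.range D.pt} := by
  ext z
  constructor
  · rintro ⟨h1, e, f, h2, h3, h4⟩
    refine ⟨(z, s(e, f)), ⟨by simpa using h2, fun g hg => ?_, h1⟩, rfl⟩
    rcases Sym2.mem_iff.1 hg with rfl | rfl <;> assumption
  · rintro ⟨⟨z, p⟩, ⟨a1, a2, a3⟩, rfl⟩
    induction p using Sym2.ind with
    | _ e f => exact ⟨a3, e, f, by simpa using a1, a2 e (by simp), a2 f (by simp)⟩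

theorem Drawing.xpts_finite [Finite V] (D : Drawing G) : D.xpts.Finite :=
  D.xpts_eq ▸ D.xset_finite.image _

theorem Drawing.xpts_le [Finite V] (D : Drawing G) : D.xpts.ncard ≤ D.crossings :=
  D.xpts_eq ▸ ncard_image_le D.xset_finite

theorem Drawing.separator [Finite V] (D : Drawing G) (P : Set V) (r : ℕ) (hr : 1 ≤ r)
    (hn : 3 * (Nat.card V + D.crossings) ≤ r * r) :
    ∃ (B : Set V) (side : V → Bool), B.ncard ≤ 8 * r ∧
      (∀ u v, G.Adj u v → u ∉ B → v ∉ B → side u = side v) ∧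
      ∀ b, 4 * {v | v ∈ P ∧ v ∉ B ∧ side v = b}.ncard ≤ 3 * P.ncard := by
  classical
  choose src tgt g he hc hi h0 h1 hm using D.exists_param
  set Sp : Set ℂ := range D.pt ∪ D.xpts with hSp
  have hfin : Sp.Finite := (finite_range _).union D.xpts_finite
  have : Finite Sp := hfin
  have hsame : ∀ z, z ∉ Sp → ∀ e f, z ∈ D.arc e → z ∈ D.arc f → e = f := by
    intro z hz e f a1 a2
    by_contra hne
    exact hz (Or.inr ⟨fun h => hz (Or.inl h), e, f, hne, a1, a2⟩)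
  let Seg : G.edgeSet → ℝ → ℝ → Prop := fun e s t => 0 ≤ s ∧ s < t ∧ t ≤ 1 ∧
    ∀ x, s < x → x < t → g e x ∉ Sp
  let Γ : SimpleGraph Sp := SimpleGraph.fromRel fun p q =>
    ∃ e s t, Seg e s t ∧ g e s = p.1 ∧ g e t = q.1
  let R : Set Sp → Set ℂ := fun B => Subtype.val '' B ∪
    {z | ∃ e s t x, Seg e s t ∧ g e s ∈ Subtype.val '' B ∧ g e t ∈ Subtype.val '' B ∧
      s ≤ x ∧ x ≤ t ∧ z = g e x}
  have hval : ∀ (B : Set Sp) z, z ∈ Subtype.val '' B → z ∈ Sp := by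
    rintro B z ⟨q, -, rfl⟩; exact q.2
  have hR1 : ∀ B z, z ∈ R B → z ∈ Sp → z ∈ Subtype.val '' B := by
    rintro B z (h | ⟨e, s, t, x, a1, a2, a3, a4, a5, rfl⟩) hz
    · exact h
    · rcases a4.eq_or_lt with rfl | a4
      · exact a2
      rcases a5.eq_or_lt with rfl | a5
      · exact a3
      exact absurd hz (a1.2.2.2 x a4 a5)
  have hR2 : ∀ B z, z ∈ R B → z ∉ Sp → ∃ e s t x, Seg e s t ∧ g e s ∈ Subtype.val '' B ∧
      s < x ∧ x < t ∧ z = g e x := by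
    rintro B z (h | ⟨e, s, t, x, a1, a2, a3, a4, a5, rfl⟩) hz
    · exact absurd (hval B z h) hz
    · refine ⟨e, s, t, x, a1, a2, lt_of_le_of_ne a4 ?_, lt_of_le_of_ne a5 ?_, rfl⟩
      · rintro rfl; exact hz (hval B _ a2)
      · rintro rfl; exact hz (hval B _ a3)
  have hvd : ∀ (B B' : Set Sp), Disjoint B B' → ∀ z, z ∈ Subtype.val '' B →
      z ∈ Subtype.val '' B' → False := by
    rintro B B' hd z ⟨q, hq, rfl⟩ ⟨q', hq', e⟩
    exact disjoint_left.1 hd hq (Subtype.ext e ▸ hq')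
  have hRd : ∀ B B', Disjoint B B' → Disjoint (R B) (R B') := by
    intro B B' hd
    refine disjoint_left.2 fun z hz hz' => ?_
    by_cases hs : z ∈ Sp
    · exact hvd B B' hd z (hR1 B z hz hs) (hR1 B' z hz' hs)
    obtain ⟨e, s, t, x, a1, a2, a3, a4, a5⟩ := hR2 B z hz hs
    obtain ⟨e', s', t', x', b1, b2, b3, b4, b5⟩ := hR2 B' z hz' hs
    obtain rfl : e = e' := hsame z hs e e' (a5 ▸ hm e x) (b5 ▸ hm e' x')
    obtain rfl : x = x' := hi e ⟨by linarith [a1.1], by linarith [a1.2.2.1]⟩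
      ⟨by linarith [b1.1], by linarith [b1.2.2.1]⟩ (a5.symm.trans b5)
    rcases lt_trichotomy s s' with h | rfl | h
    · exact a1.2.2.2 s' h (b3.trans a4) (hval B' _ b2)
    · exact hvd B B' hd _ a2 b2
    · exact b1.2.2.2 s h (a3.trans b4) (hval B _ a2)
  have hRj : ∀ (B : Set Sp) (p q : Sp), p ∈ B → Reach Γ B p q → JoinedIn (R B) p.1 q.1 := by
    have one : ∀ (B : Set Sp) (p q : Sp), p ∈ B → q ∈ B →
        (∃ e s t, Seg e s t ∧ g e s = p.1 ∧ g e t = q.1) → JoinedIn (R B) p.1 q.1 := by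
      rintro B p q hp hq ⟨e, s, t, a1, a2, a3⟩
      have hpc : IsPathConnected (g e '' Icc s t) :=
        ((convex_Icc s t).isPathConnected ⟨s, le_rfl, a1.2.1.le⟩).image (hc e)
      refine (hpc.joinedIn p.1 ⟨s, ⟨le_rfl, a1.2.1.le⟩, a2⟩ q.1 ⟨t, ⟨a1.2.1.le, le_rfl⟩, a3⟩).mono ?_
      rintro z ⟨x, hx, rfl⟩
      exact Or.inr ⟨e, s, t, x, a1, ⟨p, hp, a2.symm⟩, ⟨q, hq, a3.symm⟩, hx.1, hx.2, rfl⟩
    intro B p q hp h
    induction h with
    | refl => exact JoinedIn.refl (Or.inl ⟨p, hp, rfl⟩)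
    | tail _ h2 ih =>
      refine ih.trans ?_
      rcases ((SimpleGraph.fromRel_adj _ _ _).1 h2.1).2 with h | h
      · exact one B _ _ h2.2.1 h2.2.2 h
      · exact (one B _ _ h2.2.2 h2.2.1 h).symm
  have hK5 : NoK5 Γ := by
    intro 𝒟 d1 d2
    by_contra hc5
    obtain ⟨𝒟', s1, s2⟩ := Finset.exists_subset_card_eq (s := 𝒟) (n := 5) (by omega)
    let C : Fin 5 → Set Sp := fun i => (𝒟'.equivFinOfCardEq s2).symm i
    have hC : ∀ i, C i ∈ 𝒟 := fun i => s1 ((𝒟'.equivFinOfCardEq s2).symm i).2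
    have hCi : ∀ i j, i ≠ j → C i ≠ C j := fun i j h e =>
      h ((𝒟'.equivFinOfCardEq s2).symm.injective (Subtype.ext e))
    choose p hp using fun i => (d1 _ (hC i)).1
    refine no_K5 (fun i => (p i).1) (fun a b => R (C a ∪ C b)) (fun a b hab => ?_) ?_
    · exact hRj _ _ _ (Or.inl (hp a)) (((d1 _ (hC a)).2.union (d1 _ (hC b)).2
        (d2 _ (hC a) _ (hC b) (hCi a b hab)).2) _ (Or.inl (hp a)) _ (Or.inr (hp b)))
    · intro a b c d _ _ h3 h4 h5 h6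
      refine hRd _ _ ?_
      simp only [disjoint_union_left, disjoint_union_right]
      exact ⟨⟨(d2 _ (hC a) _ (hC c) (hCi _ _ h3)).1, (d2 _ (hC b) _ (hC c) (hCi _ _ h5)).1⟩,
        (d2 _ (hC a) _ (hC d) (hCi _ _ h4)).1, (d2 _ (hC b) _ (hC d) (hCi _ _ h6)).1⟩
  let ι : V → Sp := fun v => ⟨D.pt v, Or.inl (mem_range_self v)⟩
  have hι : Function.Injective ι := fun u v h => D.pt_inj (congrArg Subtype.val h)
  have hcard : Nat.card Sp ≤ Nat.card V + D.crossings := by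
    rw [Nat.card_coe_set_eq]
    refine (ncard_union_le _ _).trans (Nat.add_le_add ?_ D.xpts_le)
    rw [← image_univ, ← ncard_univ]; exact ncard_image_le
  obtain ⟨Z, hZ, hZc⟩ := Pool.Agent.P.MP_8a730c_lc.separator hK5 (ι '' P) r hr (by omega)
  obtain ⟨T, t1, t2, t3⟩ := group_comps Γ Zᶜ (ι '' P) hZc
  rw [ncard_image_of_injective _ hι] at t2 t3
  let Bz : Sp → Set V := fun z => {v | ι v = z} ∪
    {v | z.1 ∉ range D.pt ∧ ∃ e, z.1 ∈ D.arc e ∧ src e = v}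
  have hBz : ∀ z, (Bz z).ncard ≤ 2 := by
    intro z
    by_cases hz : z.1 ∈ range D.pt
    · obtain ⟨w, hw⟩ := hz
      have : Bz z ⊆ {w} := by
        rintro v (h | h)
        · exact D.pt_inj ((congrArg Subtype.val h).trans hw.symm)
        · exact absurd ⟨w, hw⟩ h.1
      exact (ncard_le_ncard this).trans (by simp)
    · have : Bz z ⊆ src '' {e | z.1 ∈ D.arc e} := by
        rintro v (h | h)
        · exact absurd ⟨v, congrArg Subtype.val h⟩ hz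
        · exact h.2
      refine (ncard_le_ncard this).trans ((ncard_image_le (toFinite _)).trans ?_)
      by_contra h3
      obtain ⟨a, b, c, ha, hb, hc', h1, h2, h3⟩ := (two_lt_ncard_iff (toFinite _)).1 (not_le.1 h3)
      exact hz (D.no_three a b c h1 h2 h3 _ ha hb hc')
  have hchain : ∀ e, (∀ z ∈ Z, z.1 ∉ D.arc e) → Reach Γ Zᶜ (ι (src e)) (ι (tgt e)) := by
    intro e hz
    have hτ : {t | t ∈ Icc (0 : ℝ) 1 ∧ g e t ∈ Sp}.Finite :=
      Finite.of_finite_image (hfin.subset (by rintro _ ⟨t, ht, rfl⟩; exact ht.2))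
        ((hi e).mono fun t ht => ht.1)
    have key : ∀ t ∈ Icc (0 : ℝ) 1, ∀ h : g e t ∈ Sp, Reach Γ Zᶜ (ι (src e)) ⟨g e t, h⟩ := by
      by_contra hcon
      push Not at hcon
      obtain ⟨t0, ⟨b1, b2, b3⟩, b4⟩ := Set.exists_min_image
        {t | t ∈ Icc (0 : ℝ) 1 ∧ ∃ h : g e t ∈ Sp, ¬ Reach Γ Zᶜ (ι (src e)) ⟨g e t, h⟩} id
        (hτ.subset fun t ht => ⟨ht.1, ht.2.1⟩) (by
          obtain ⟨t, a1, a2, a3⟩ := hcon; exact ⟨t, a1, a2, a3⟩)
      have h00 : g e 0 ∈ Sp := h0 e ▸ (ι (src e)).2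
      have ht0 : 0 < t0 := by
        refine lt_of_le_of_ne b1.1 ?_
        rintro rfl
        have : (⟨g e 0, b2⟩ : Sp) = ι (src e) := Subtype.ext (h0 e)
        exact b3 (this ▸ Reach.refl _ _)
      obtain ⟨s, ⟨c1, c2, c3⟩, c4⟩ := Set.exists_max_image
        {t | t ∈ Icc (0 : ℝ) 1 ∧ g e t ∈ Sp ∧ t < t0} id
        (hτ.subset fun t ht => ⟨ht.1, ht.2.1⟩) ⟨0, ⟨le_rfl, zero_le_one⟩, h00, ht0⟩
      have r1 : Reach Γ Zᶜ (ι (src e)) ⟨g e s, c2⟩ := by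
        by_contra h
        exact absurd (b4 s ⟨c1, c2, h⟩) (not_le.2 c3)
      refine b3 (r1.trans (Reach.single ?_ (fun h => hz _ h (hm e s)) fun h => hz _ h (hm e t0)))
      refine (SimpleGraph.fromRel_adj _ _ _).2 ⟨fun h => c3.ne (hi e c1 b1 ?_), Or.inl ?_⟩
      · exact congrArg Subtype.val h
      · refine ⟨e, s, t0, ⟨c1.1, c3, b1.2, fun x x1 x2 x3 => ?_⟩, rfl, rfl⟩
        exact absurd (c4 x ⟨⟨c1.1.trans x1.le, x2.le.trans b1.2⟩, x3, x2⟩) (not_le.2 x1)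
    have h11 : g e 1 ∈ Sp := h1 e ▸ (ι (tgt e)).2
    have : (⟨g e 1, h11⟩ : Sp) = ι (tgt e) := Subtype.ext (h1 e)
    exact this ▸ key 1 ⟨zero_le_one, le_rfl⟩ h11
  refine ⟨⋃ z : Z, Bz z, fun v => decide (ι v ∈ T), ?_, ?_, ?_⟩
  · refine (ncard_iUnion_le_of_finite _).trans ?_
    have := Fintype.ofFinite Z
    rw [finsum_eq_sum_of_fintype]
    refine (Finset.sum_le_sum (g := fun _ => 2) fun (z : Z) _ => hBz z.1).trans ?_
    simp only [Finset.sum_const, Finset.card_univ, smul_eq_mul]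
    rw [← Nat.card_eq_fintype_card, Nat.card_coe_set_eq]; omega
  · intro u v huv hu hv
    have hends : ∀ w ∈ s(u, v), w ∉ ⋃ z : Z, Bz z := by
      intro w hw
      rcases Sym2.mem_iff.1 hw with rfl | rfl <;> assumption
    have hr := hchain ⟨s(u, v), huv⟩ (fun z hz hza => by
      by_cases hp : z.1 ∈ range D.pt
      · obtain ⟨w, hw⟩ := hp
        exact hends w (D.avoid ⟨s(u, v), huv⟩ w (hw ▸ hza))
          (mem_iUnion.2 ⟨⟨z, hz⟩, Or.inl (Subtype.ext hw)⟩)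
      · refine hends (src ⟨s(u, v), huv⟩) ?_ (mem_iUnion.2 ⟨⟨z, hz⟩, Or.inr ⟨hp, _, hza, rfl⟩⟩)
        have hsrc : ∀ e : G.edgeSet, src e ∈ e.1 := fun e => by
          rw [he e]; exact Sym2.mem_mk_left _ _
        exact hsrc ⟨s(u, v), huv⟩)
    have hiff : ι (src ⟨s(u, v), huv⟩) ∈ T ↔ ι (tgt ⟨s(u, v), huv⟩) ∈ T :=
      ⟨fun h => hr.closed h t1, fun h => hr.symm.closed h t1⟩
    have := he ⟨s(u, v), huv⟩
    simp only [Sym2.eq_iff] at this
    rcases this with ⟨a1, a2⟩ | ⟨a1, a2⟩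
    · rw [← a1, ← a2] at hiff; simp [hiff]
    · rw [← a1, ← a2] at hiff; simp [hiff]
  · intro b
    cases b
    · refine le_trans (Nat.mul_le_mul_left _ ?_) t3
      rw [← ncard_image_of_injective _ hι]
      refine ncard_le_ncard ?_
      rintro _ ⟨v, ⟨a1, a2, a3⟩, rfl⟩
      exact ⟨⟨fun h => a2 (mem_iUnion.2 ⟨⟨_, h⟩, Or.inl rfl⟩), by simpa using a3⟩, v, a1, rfl⟩
    · refine le_trans (Nat.mul_le_mul_left _ ?_) t2
      rw [← ncard_image_of_injective _ hι]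
      refine ncard_le_ncard ?_
      rintro _ ⟨v, ⟨a1, -, a3⟩, rfl⟩
      exact ⟨by simpa using a3, v, a1, rfl⟩

/-- Every drawing of the complete graph on five vertices has a crossing. -/
theorem Drawing.K5_pos (D : Drawing (⊤ : SimpleGraph (Fin 5))) : 0 < D.crossings := by
  classical
  by_contra h
  have h0 : D.xpts = ∅ := by
    rw [← ncard_eq_zero D.xpts_finite]; have := D.xpts_le; omega
  refine no_K5 D.pt (fun a b => if h : a ≠ b then D.arc ⟨s(a, b), h⟩ else ∅) ?_ ?_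
  · intro a b hab
    obtain ⟨γ, -, h2⟩ := D.simple a b hab
    rw [dif_pos hab]
    exact ⟨γ, fun t => h2 ▸ mem_range_self t⟩
  · intro a b c d h1 h2 h3 h4 h5 h6
    rw [dif_pos h1, dif_pos h2]
    refine disjoint_left.2 fun z z1 z2 => ?_
    by_cases hp : z ∈ range D.pt
    · obtain ⟨w, rfl⟩ := hp
      have a1 := D.avoid _ w z1
      have a2 := D.avoid _ w z2
      simp only [Sym2.mem_iff] at a1 a2
      rcases a1 with rfl | rfl <;> rcases a2 with rfl | rfl <;> contradiction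
    · refine (h0 ▸ (⟨hp, _, _, fun e => ?_, z1, z2⟩ : z ∈ D.xpts) : z ∈ (∅ : Set ℂ))
      have := congrArg Subtype.val e
      simp only [Sym2.eq_iff] at this
      tauto

end Pool.Agent.P.MP_8a730c_lc
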