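import Pool.Agent.P.MP_8a730c_lc.VK

/-! Winding numbers and the two sides of a closed chain of curves. -/

namespace Pool.Agent.P.MP_8a730c_lc

open Complex Set

open Classical in
/-- The change of the logarithm of `γ t - z` for `t` from `0` to `1`. -/
noncomputable def ang (γ : ℝ → ℂ) (z : ℂ) : ℂ :=
  if h : ∃ L : ℝ → ℂ, Continuous L ∧ ∀ t, exp (L t) = γ t - z then h.choose 1 - h.choose 0 else 0

theorem ang_spec {γ : ℝ → ℂ} {z : ℂ} (hγ : Continuous γ) (h : ∀ t, γ t ≠ z) :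
    ∃ L : ℝ → ℂ, Continuous L ∧ (∀ t, exp (L t) = γ t - z) ∧ ang γ z = L 1 - L 0 := by
  have h1 := log_exists (fun t => γ t - z) (hγ.sub continuous_const) fun t => sub_ne_zero.2 (h t)
  exact ⟨_, h1.choose_spec.1, h1.choose_spec.2, dif_pos h1⟩

theorem exp_ang {γ : ℝ → ℂ} {z : ℂ} (hγ : Continuous γ) (h : ∀ t, γ t ≠ z) :
    exp (ang γ z) * (γ 0 - z) = γ 1 - z := by
  obtain ⟨L, -, h2, h3⟩ := ang_spec hγ h
  rw [h3, ← h2, ← h2, ← exp_add, sub_add_cancel]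

theorem ang_swap {γ δ : ℝ → ℂ} (hγ : Continuous γ) (hδ : Continuous δ) (h : ∀ s t, γ s ≠ δ t) :
    ang γ (δ 1) - ang γ (δ 0) = ang δ (γ 1) - ang δ (γ 0) := by
  obtain ⟨Θ, hΘc, hΘ⟩ := log_exists (fun q : ℝ × ℝ => γ q.1 - δ q.2)
    ((hγ.comp continuous_fst).sub (hδ.comp continuous_snd)) fun q => sub_ne_zero.2 (h _ _)
  obtain ⟨L1, c1, e1, n1⟩ := ang_spec hγ fun s => h s 0
  obtain ⟨L2, c2, e2, n2⟩ := ang_spec hγ fun s => h s 1
  obtain ⟨L3, c3, e3, n3⟩ := ang_spec hδ fun t => (h 0 t).symm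
  obtain ⟨L4, c4, e4, n4⟩ := ang_spec hδ fun t => (h 1 t).symm
  have u1 := log_unique (fun s => Θ (s, 0)) L1 (by fun_prop) c1 1 (by
    intro t; rw [hΘ, e1, one_mul])
  have u2 := log_unique (fun s => Θ (s, 1)) L2 (by fun_prop) c2 1 (by
    intro t; rw [hΘ, e2, one_mul])
  have u3 := log_unique (fun s => Θ (0, s)) L3 (by fun_prop) c3 (-1) (by
    intro t; rw [hΘ, e3]; ring)
  have u4 := log_unique (fun s => Θ (1, s)) L4 (by fun_prop) c4 (-1) (by
    intro t; rw [hΘ, e4]; ring)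
  linear_combination n2 - n1 - n4 + n3 + u1 - u2 - u3 + u4

/-- A curve from `a` to `b` inside `S`. -/
def Cv (γ : ℝ → ℂ) (S : Set ℂ) (a b : ℂ) : Prop :=
  Continuous γ ∧ γ 0 = a ∧ γ 1 = b ∧ ∀ t, γ t ∈ S

theorem exists_Cv {S : Set ℂ} {a b : ℂ} (h : JoinedIn S a b) : ∃ γ, Cv γ S a b := by
  obtain ⟨γ, hγ⟩ := h
  refine ⟨γ.extend, γ.continuous_extend, γ.extend_zero, γ.extend_one, fun t => ?_⟩
  have : γ.extend t ∈ range γ := by rw [← γ.extend_range]; exact mem_range_self t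
  obtain ⟨s, hs⟩ := this
  exact hs ▸ hγ s

theorem Cv.left {γ S a b} (h : Cv γ S a b) : a ∈ S := h.2.1 ▸ h.2.2.2 0

theorem Cv.right {γ S a b} (h : Cv γ S a b) : b ∈ S := h.2.2.1 ▸ h.2.2.2 1

/-- The properties of the total change of logarithm along a chain of curves. -/
def Ch (F : ℂ → ℂ) (S : Set ℂ) (a b : ℂ) : Prop :=
  (∀ z, z ∉ S → exp (F z) * (a - z) = b - z) ∧
    ∀ δ T c d, Cv δ T c d → Disjoint S T → F d - F c = ang δ b - ang δ a

theorem Cv.ch {γ S a b} (h : Cv γ S a b) : Ch (ang γ) S a b := by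
  obtain ⟨h1, rfl, rfl, h4⟩ := h
  refine ⟨fun z hz => exp_ang h1 fun t e => hz (e ▸ h4 t), ?_⟩
  rintro δ T _ _ ⟨g1, rfl, rfl, g4⟩ hd
  exact ang_swap h1 g1 fun s t e => disjoint_left.1 hd (h4 s) (e ▸ g4 t)

theorem Ch.add {F F' S S' a b c} (h : Ch F S a b) (h' : Ch F' S' b c) :
    Ch (fun z => F z + F' z) (S ∪ S') a c := by
  refine ⟨fun z hz => ?_, fun δ T x y hδ hd => ?_⟩
  · rw [exp_add, ← h'.1 z fun a => hz (Or.inr a), ← h.1 z fun a => hz (Or.inl a)]; ring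
  · rw [disjoint_union_left] at hd
    linear_combination h.2 δ T x y hδ hd.1 + h'.2 δ T x y hδ hd.2

theorem Ch.mono {F S S' a b} (h : Ch F S a b) (hs : S ⊆ S') : Ch F S' a b :=
  ⟨fun z hz => h.1 z fun a => hz (hs a), fun δ T x y hδ hd => h.2 δ T x y hδ (hd.mono_left hs)⟩

theorem ch_sum {γ : ℕ → ℝ → ℂ} {S : ℕ → Set ℂ} {p : ℕ → ℂ} {i j : ℕ} (hij : i ≤ j)
    (h : ∀ k, i ≤ k → k < j → Cv (γ k) (S k) (p k) (p (k + 1))) :
    Ch (fun z => ∑ k ∈ Finset.Ico i j, ang (γ k) z) (⋃ k ∈ Ico i j, S k) (p i) (p j) := by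
  induction j, hij using Nat.le_induction with
  | base => exact ⟨fun z _ => by simp, fun δ T x y _ _ => by simp⟩
  | succ j hij ih =>
    simp only [Finset.sum_Ico_succ_top hij]
    refine ((ih fun k a b => h k a (by omega)).add (h j hij (by omega)).ch).mono ?_
    exact union_subset (biUnion_subset_biUnion_left (Ico_subset_Ico_right (by omega)))
      (subset_biUnion_of_mem (u := S) (show j ∈ Ico i (j + 1) from ⟨hij, by omega⟩))

theorem opposite {p q r s x y : ℂ} {A B C α α' β β' : ℝ → ℂ} {D : ℂ → ℂ}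
    {SA SB SC SD Sα Sα' Sβ Sβ' : Set ℂ} (hA : Cv A SA p q) (hB : Cv B SB q r) (hC : Cv C SC r s)
    (hD : Ch D SD s p) (ha : Cv α Sα p x) (ha' : Cv α' Sα' x r) (hb : Cv β Sβ q y)
    (hb' : Cv β' Sβ' y s) (d1 : Disjoint SB Sα) (d2 : Disjoint SC Sα) (d3 : Disjoint SA Sα')
    (d4 : Disjoint SD Sα') (d5 : Disjoint SC Sβ) (d6 : Disjoint SD Sβ) (d7 : Disjoint SA Sβ')
    (d8 : Disjoint SB Sβ') (d9 : Disjoint Sα Sβ) (d10 : Disjoint Sα Sβ') (d11 : Disjoint Sα' Sβ)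
    (d12 : Disjoint Sα' Sβ') (d13 : Disjoint SA SC) (d14 : Disjoint SD SB) :
    exp ((ang A x + ang B x + ang C x + D x) / 2) =
      -exp ((ang A y + ang B y + ang C y + D y) / 2) := by
  have e : (ang A x + ang B x + ang C x + D x) / 2 = (ang A y + ang B y + ang C y + D y) / 2 +
      ((ang C p + D r + (ang β r + ang β' r)) - (ang C q + D q + (ang β p + ang β' p))) := by
    linear_combination (hB.ch.2 _ _ _ _ ha d1 + hC.ch.2 _ _ _ _ ha d2 - hA.ch.2 _ _ _ _ ha' d3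
      - hD.2 _ _ _ _ ha' d4 - hC.ch.2 _ _ _ _ hb d5 - hD.2 _ _ _ _ hb d6 + hA.ch.2 _ _ _ _ hb' d7
      + hB.ch.2 _ _ _ _ hb' d8 + ha.ch.2 _ _ _ _ hb d9 + ha.ch.2 _ _ _ _ hb' d10
      + ha'.ch.2 _ _ _ _ hb d11 + ha'.ch.2 _ _ _ _ hb' d12 - hA.ch.2 _ _ _ _ hC d13
      - hD.2 _ _ _ _ hB d14) / 2
  have f1 := hC.ch.1 p (disjoint_right.1 d2 ha.left)
  have f2 := hD.1 r (disjoint_right.1 d4 ha'.right)
  have f3 := (hb.ch.add hb'.ch).1 r (by
    rintro (h | h)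
    · exact disjoint_left.1 d11 ha'.right h
    · exact disjoint_left.1 d12 ha'.right h)
  have f4 := hC.ch.1 q (disjoint_right.1 d5 hb.left)
  have f5 := hD.1 q (disjoint_right.1 d6 hb.left)
  have f6 := (hb.ch.add hb'.ch).1 p (by
    rintro (h | h)
    · exact disjoint_left.1 d9 ha.left h
    · exact disjoint_left.1 d10 ha.left h)
  have n1 : r - p ≠ 0 := sub_ne_zero.2 fun h => disjoint_left.1 d2 hC.left (h ▸ ha.left)
  have n2 : s - r ≠ 0 := sub_ne_zero.2 fun h => disjoint_left.1 d12 ha'.right (h ▸ hb'.right)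
  have n3 : q - r ≠ 0 := sub_ne_zero.2 fun h => disjoint_left.1 d5 hC.left (h ▸ hb.left)
  have n4 : s - q ≠ 0 := sub_ne_zero.2 fun h => disjoint_left.1 d5 hC.right (h ▸ hb.left)
  have n5 : q - p ≠ 0 := sub_ne_zero.2 fun h => disjoint_left.1 d9 ha.left (h ▸ hb.left)
  have g : (exp (ang C p) * exp (D r) * exp (ang β r + ang β' r) +
      exp (ang C q) * exp (D q) * exp (ang β p + ang β' p)) *
      ((r - p) * (s - r) * (q - r) * (s - q) * (q - p)) = 0 := by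
    have k1 : exp (ang C p) * (r - p) * (exp (D r) * (s - r)) * (exp (ang β r + ang β' r) * (q - r))
        = (s - p) * (p - r) * (s - r) := by rw [f1, f2, f3]
    have k2 : exp (ang C q) * (r - q) * (exp (D q) * (s - q)) * (exp (ang β p + ang β' p) * (q - p))
        = (s - q) * (p - q) * (s - p) := by rw [f4, f5, f6]
    linear_combination (s - q) * (q - p) * k1 - (r - p) * (s - r) * k2
  have g' := (mul_eq_zero.1 g).resolve_right (by simp only [mul_eq_zero]; tauto)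
  rw [← exp_add, ← exp_add, ← exp_add, ← exp_add] at g'
  rw [e, exp_add, exp_sub, eq_neg_of_add_eq_zero_left g', neg_div, div_self (exp_ne_zero _)]
  ring

end Pool.Agent.P.MP_8a730c_lc
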