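import Pool.Agent.P.MP_8a730c_lc.Flip
import Pool.Agent.P.MP_8a730c_lc.Wind
import Pool.Agent.P.MP_8a730c_lc.Planar

/-! The lower bound for the crossing number of the graph of flip gadgets. -/

namespace Pool.Agent.P.MP_8a730c_lc

open Set Complex

section
variable {V : Type} {G : SimpleGraph V} (D : Drawing G)

def Drawing.St (t : V) : Set ℂ := {z | ∃ e : G.edgeSet, t ∈ e.1 ∧ z ∈ D.arc e}

def Drawing.Cr (t t' : V) : Prop := ∃ (e f : G.edgeSet) (z : ℂ), e ≠ f ∧ t ∈ e.1 ∧ t' ∈ f.1 ∧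
  z ∈ D.arc e ∧ z ∈ D.arc f ∧ z ∉ range D.pt

theorem Drawing.Cr.symm {D : Drawing G} {t t' : V} (h : D.Cr t t') : D.Cr t' t := by
  obtain ⟨e, f, z, h1, h2, h3, h4, h5, h6⟩ := h
  exact ⟨f, e, z, h1.symm, h3, h2, h5, h4, h6⟩

theorem adj_of_mem {t w : V} (e : G.edgeSet) (h : t ∈ e.1) (h' : w ∈ e.1) : w = t ∨ G.Adj t w := by
  by_cases c : w = t
  · exact Or.inl c
  · have := (Sym2.mem_and_mem_iff (Ne.symm c)).1 ⟨h, h'⟩
    exact Or.inr (show s(t, w) ∈ G.edgeSet from this ▸ e.2)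

theorem Drawing.St_pt {t w : V} (h : D.pt w ∈ D.St t) : w = t ∨ G.Adj t w := by
  obtain ⟨e, h1, h2⟩ := h
  exact adj_of_mem e h1 (D.avoid e w h2)

theorem Drawing.St_disj {t t' : V} (h : ∀ w, w = t ∨ G.Adj t w → w = t' ∨ G.Adj t' w → False)
    (hc : ¬ D.Cr t t') : Disjoint (D.St t) (D.St t') := by
  refine disjoint_left.2 fun z h1 h2 => ?_
  by_cases hz : z ∈ range D.pt
  · obtain ⟨w, rfl⟩ := hz
    exact h w (D.St_pt h1) (D.St_pt h2)
  obtain ⟨e, a1, a2⟩ := h1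
  obtain ⟨f, b1, b2⟩ := h2
  refine hc ⟨e, f, z, ?_, a1, b1, a2, b2, hz⟩
  rintro rfl
  exact h t' (adj_of_mem e a1 b1) (Or.inl rfl)

theorem Drawing.St_cv {t a b : V} (ha : G.Adj t a) (hb : G.Adj t b) :
    ∃ γ, Cv γ (D.St t) (D.pt a) (D.pt b) := by
  have key : ∀ a, G.Adj t a → JoinedIn (D.St t) (D.pt t) (D.pt a) := fun a ha => by
    obtain ⟨γ, -, h⟩ := D.simple t a ha
    exact ⟨γ, fun s => ⟨⟨_, ha⟩, Sym2.mem_mk_left _ _, h ▸ mem_range_self s⟩⟩
  exact exists_Cv ((key a ha).symm.trans (key b hb))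

end

variable {n W P : ℕ} {L : List (ℕ × ℕ)}

def vx (n : ℕ) (hP : 0 < P) (β i : ℕ) : Fin ((12 * n + 3) * P) :=
  ⟨(P * β + i) % ((12 * n + 3) * P), Nat.mod_lt _ (by positivity)⟩

theorem vx_val (hP : 0 < P) {β i : ℕ} (hβ : β < 12 * n + 3) (hi : i < P) :
    (vx n hP β i).val / P = β ∧ (vx n hP β i).val % P = i := by
  have : (vx n hP β i).val = P * β + i := Nat.mod_eq_of_lt (by nlinarith)
  rw [this, Nat.mul_add_div hP, Nat.mul_add_mod, Nat.div_eq_of_lt hi, Nat.mod_eq_of_lt hi]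
  exact ⟨rfl, rfl⟩

/-- A middle vertex with its block and the blocks of its two neighbours. -/
def MidV (W : ℕ) (L : List (ℕ × ℕ)) (hP : 0 < P) (t : Fin ((12 * n + 3) * P)) (β lo hi : ℕ) : Prop :=
  (∀ w, w = t ∨ (flipG n W P L).Adj t w → w.val / P = β ∨ w.val / P = lo ∨ w.val / P = hi) ∧
    (flipG n W P L).Adj t (vx n hP lo 0) ∧ (flipG n W P L).Adj t (vx n hP hi 0)

theorem midV (hL : ∀ p ∈ L, p.1 < 2 * n ∧ p.2 < 2 * n) (hP : 0 < P) {β i lo hi : ℕ}
    (hβ : β < 12 * n + 3) (hi' : i < P) (hm : isMid n W L β i = true) (h1 : eLo n L β i = lo)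
    (h2 : eHi n L β i = hi) (h3 : lo < 12 * n + 3) (h4 : hi < 12 * n + 3) :
    MidV W L hP (vx n hP β i) β lo hi := by
  have e := vx_val hP hβ hi'
  have adj : ∀ b < 12 * n + 3, b = lo ∨ b = hi → (flipG n W P L).Adj (vx n hP β i) (vx n hP b 0) := by
    intro b hb hb'
    have e' := vx_val hP hb hP
    have : arcB n W P L (vx n hP β i) (vx n hP b 0) = true := by
      simpa [arcB, e.1, e.2, e'.1, e'.2, hm, h1, h2] using hb'
    refine (SimpleGraph.fromRel_adj _ _ _).2 ⟨fun h => ?_, Or.inl this⟩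
    have k := arc_cases hL this
    rw [← h, k.1] at k
    exact absurd k.2.1 (by simp)
  refine ⟨?_, adj _ h3 (Or.inl rfl), adj _ h4 (Or.inr rfl)⟩
  rintro w (rfl | h)
  · exact Or.inl e.1
  rcases ((SimpleGraph.fromRel_adj _ _ _).1 h).2 with h | h
  · simp only [arcB, e.1, e.2, h1, h2, Bool.and_eq_true, Bool.or_eq_true, decide_eq_true_eq] at h
    exact Or.inr h.2
  · have k := (arc_cases hL h).2.1
    rw [e.1, e.2, hm] at k
    cases k

theorem mid_unique (hL : ∀ p ∈ L, p.1 < 2 * n ∧ p.2 < 2 * n) (hP : 0 < P) {β i β' i' : ℕ}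
    (hβ : β < 12 * n + 3) (hi : i < P) (hm : isMid n W L β i = true)
    (hβ' : β' < 12 * n + 3) (hi' : i' < P) (hm' : isMid n W L β' i' = true)
    (e : (flipG n W P L).edgeSet) (h : vx n hP β i ∈ e.1) (h' : vx n hP β' i' ∈ e.1) :
    β = β' ∧ i = i' := by
  have a := vx_val hP hβ hi
  have a' := vx_val hP hβ' hi'
  rcases adj_of_mem e h h' with k | k
  · rw [k] at a'; exact ⟨a.1.symm.trans a'.1, a.2.symm.trans a'.2⟩
  · rcases ((SimpleGraph.fromRel_adj _ _ _).1 k).2 with k | k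
    · have := (arc_cases hL k).2.1
      rw [a'.1, a'.2, hm'] at this; cases this
    · have := (arc_cases hL k).2.1
      rw [a.1, a.2, hm] at this; cases this

theorem exists_unc (hL : ∀ p ∈ L, p.1 < 2 * n ∧ p.2 < 2 * n) (hP : 0 < P)
    (D : Drawing (flipG n W P L)) (hD : 2 * D.crossings < P) {β : ℕ} (hβ : β < 12 * n)
    (hm : gMid (β % 12) = true) : ∃ i < P, ∀ t, ¬ D.Cr (vx n hP β i) t := by
  by_contra hc
  push Not at hc
  have := ncard_le_of_rel (A := Iio P) (D.xset_finite.prod (finite_univ (α := Bool)))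
    (fun i x => vx n hP β i ∈ (if x.2 then x.1.2.out.1 else x.1.2.out.2).1) (by
      intro i hi
      obtain ⟨t, e, f, z, h1, h2, -, h4, h5, h6⟩ := hc i hi
      have hx : (z, s(e, f)) ∈ {x : ℂ × Sym2 (flipG n W P L).edgeSet |
          ¬ x.2.IsDiag ∧ (∀ e ∈ x.2, x.1 ∈ D.arc e) ∧ x.1 ∉ Set.range D.pt} := by
        refine ⟨by simpa using h1, fun g hg => ?_, h6⟩
        rcases Sym2.mem_iff.1 hg with rfl | rfl <;> assumption
      have k : e ∈ s((s(e, f)).out.1, (s(e, f)).out.2) := by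
        rw [show s((s(e, f)).out.1, (s(e, f)).out.2) = s(e, f) from Quot.out_eq _]
        exact Sym2.mem_mk_left _ _
      rcases Sym2.mem_iff.1 k with k | k
      · exact ⟨((z, s(e, f)), true), ⟨hx, trivial⟩, by rw [if_pos rfl, ← k]; exact h2⟩
      · exact ⟨((z, s(e, f)), false), ⟨hx, trivial⟩, by rw [if_neg (by simp), ← k]; exact h2⟩)
    fun i hi i' hi' x h h' => (mid_unique hL hP (by omega) hi (by rw [isMid, if_pos hβ, hm])
      (by omega) hi' (by rw [isMid, if_pos hβ, hm]) _ h h').2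
  rw [ncard_prod, ncard_univ, ← Finset.coe_range, ncard_coe_finset, Finset.card_range] at this
  simp only [Nat.card_eq_fintype_card, Fintype.card_bool] at this
  rw [Drawing.crossings] at hD
  omega

theorem layer (hL : ∀ p ∈ L, p.1 < 2 * n ∧ p.2 < 2 * n) (hP : 0 < P) (hm : L.length ≤ P)
    (D : Drawing (flipG n W P L)) (hD : 2 * D.crossings < P) {i : ℕ} (hi : i < W) (hi' : i < P) :
    ∃ σ, ∀ j ∈ viol L σ, D.Cr (vx n hP (12 * n + 2) i) (vx n hP (12 * n + 1) j) := by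
  classical
  have h1 : ∀ g b, ∃ t γ, g < n → b < 12 → gMid b = true →
      MidV W L hP t (12 * g + b) (12 * g + gLo b) (12 * g + gHi b) ∧ (∀ t', ¬ D.Cr t t') ∧
      Cv γ (D.St t) (D.pt (vx n hP (12 * g + gLo b) 0)) (D.pt (vx n hP (12 * g + gHi b) 0)) := by
    intro g b
    by_cases h : g < n ∧ b < 12 ∧ gMid b = true
    · obtain ⟨h1, h2, h3⟩ := h
      have e1 : (12 * g + b) % 12 = b := by omega
      have e2 : (12 * g + b) / 12 = g := by omega
      have e3 : 12 * g + b < 12 * n := by omega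
      have t := tab1 b h2 h3
      obtain ⟨i, a1, a2⟩ := exists_unc hL hP D hD e3 (by rw [e1, h3])
      have m : MidV W L hP _ _ (12 * g + gLo b) (12 * g + gHi b) :=
        midV hL hP (β := 12 * g + b) (by omega) a1
        (by rw [isMid, if_pos e3, e1, h3]) (by rw [eLo, if_pos e3, e1, e2])
        (by rw [eHi, if_pos e3, e1, e2]) (by omega) (by omega)
      obtain ⟨γ, hγ⟩ := D.St_cv m.2.1 m.2.2
      exact ⟨_, γ, fun _ _ _ => ⟨m, a2, hγ⟩⟩
    · exact ⟨vx n hP 0 0, fun _ => 0, fun a b c => absurd ⟨a, b, c⟩ h⟩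
  choose t γ ht using h1
  have dj : ∀ {t t' β lo hi β' lo' hi'}, MidV W L hP t β lo hi → MidV W L hP t' β' lo' hi' →
      ¬ D.Cr t t' → (β ≠ β' ∧ β ≠ lo' ∧ β ≠ hi' ∧ lo ≠ β' ∧ lo ≠ lo' ∧ lo ≠ hi' ∧ hi ≠ β' ∧
        hi ≠ lo' ∧ hi ≠ hi') → Disjoint (D.St t) (D.St t') := fun h h' hc hb =>
    D.St_disj (fun w a a' => by have := h.1 w a; have := h'.1 w a'; omega) hc
  have ml : MidV W L hP _ _ (12 * n) 0 := midV hL hP (β := 12 * n + 2) (by omega) hi'
    (by simp [isMid, hi]) (by simp [eLo]) (by simp [eHi]) (by omega) (by omega)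
  obtain ⟨γl, hγl⟩ := D.St_cv ml.2.1 ml.2.2
  let mb : ℕ → ℕ := fun k => if k % 3 = 0 then 4 else if k % 3 = 1 then 9 else 11
  let tm : ℕ → Fin ((12 * n + 3) * P) := fun k =>
    if k < 3 * n then t (k / 3) (mb k) else vx n hP (12 * n + 2) i
  let Γ : ℕ → ℝ → ℂ := fun k => if k < 3 * n then γ (k / 3) (mb k) else γl
  let cy : ℕ → ℕ := fun k => if k ≤ 3 * n then 12 * (k / 3) + 5 * (k % 3) else 0
  have hk : ∀ k ≤ 3 * n, ∃ β, MidV W L hP (tm k) β (cy k) (cy (k + 1)) ∧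
      Cv (Γ k) (D.St (tm k)) (D.pt (vx n hP (cy k) 0)) (D.pt (vx n hP (cy (k + 1)) 0)) ∧
      ((k < 3 * n ∧ (∀ t', ¬ D.Cr (tm k) t') ∧ (β = 12 * (k / 3) + 4 ∨ β = 12 * (k / 3) + 9 ∨
        β = 12 * (k / 3) + 11)) ∨ (tm k = vx n hP (12 * n + 2) i ∧ β = 12 * n + 2)) := by
    intro k hk
    by_cases c : k < 3 * n
    · have e : (mb k < 12 ∧ gMid (mb k) = true) ∧ cy k = 12 * (k / 3) + gLo (mb k) ∧
          cy (k + 1) = 12 * (k / 3) + gHi (mb k) ∧ (mb k = 4 ∨ mb k = 9 ∨ mb k = 11) := by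
        simp only [cy, mb, if_pos hk, if_pos (show k + 1 ≤ 3 * n from c)]
        split_ifs <;> simp [gMid, gLo, gHi] <;> omega
      have := ht (k / 3) (mb k) (by omega) e.1.1 e.1.2
      simp only [tm, Γ, if_pos c, e.2.1, e.2.2.1]
      exact ⟨_, this.1, this.2.2, Or.inl ⟨c, this.2.1, by omega⟩⟩
    · have e1 : cy k = 12 * n := by simp only [cy, if_pos hk]; omega
      have e2 : cy (k + 1) = 0 := if_neg (by omega)
      simp only [tm, Γ, if_neg c, e1, e2]
      exact ⟨_, ml, hγl, Or.inr ⟨trivial, rfl⟩⟩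
  have hcy : ∀ k ≤ 3 * n, ∃ a, k / 3 = a ∧ ((k = 3 * a ∧ cy k = 12 * a ∧
      (cy (k + 1) = 12 * a + 5 ∨ cy (k + 1) = 0)) ∨ (k = 3 * a + 1 ∧ cy k = 12 * a + 5 ∧
      cy (k + 1) = 12 * a + 10) ∨ (k = 3 * a + 2 ∧ cy k = 12 * a + 10 ∧
      cy (k + 1) = 12 * a + 12)) := by
    intro k hk
    simp only [cy, if_pos hk]
    obtain ⟨a, rfl | rfl | rfl⟩ : ∃ a, k = 3 * a ∨ k = 3 * a + 1 ∨ k = 3 * a + 2 :=
      ⟨k / 3, by omega⟩
    · exact ⟨a, by omega, Or.inl ⟨rfl, by omega, by split_ifs <;> omega⟩⟩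
    · exact ⟨a, by omega, Or.inr (Or.inl ⟨rfl, by omega, by split_ifs <;> omega⟩)⟩
    · exact ⟨a, by omega, Or.inr (Or.inr ⟨rfl, by omega, by split_ifs <;> omega⟩)⟩
  have hch : ∀ {a b}, a ≤ b → b ≤ 3 * n + 1 → Ch (fun z => ∑ k ∈ Finset.Ico a b, ang (Γ k) z)
      (⋃ k ∈ Ico a b, D.St (tm k)) (D.pt (vx n hP (cy a) 0)) (D.pt (vx n hP (cy b) 0)) :=
    fun hab hb => ch_sum (p := fun k => D.pt (vx n hP (cy k) 0)) hab fun k _ h =>
      (hk k (by omega)).choose_spec.2.1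
  have c0 : cy (3 * n + 1) = cy 0 := by simp [cy]
  let Ω : ℂ → ℂ := fun z => ∑ k ∈ Finset.Ico 0 (3 * n + 1), ang (Γ k) z
  have hΩ := hch (Nat.zero_le _) le_rfl
  rw [c0] at hΩ
  have hone : ∀ l < 2 * n, exp (Ω (D.pt (vx n hP (lit l) 0)) / 2) = 1 ∨
      exp (Ω (D.pt (vx n hP (lit l) 0)) / 2) = -1 := by
    intro l hl
    have e := vx_val (n := n) hP (β := lit l) (by rw [lit]; omega) hP
    have e0 := vx_val (n := n) hP (β := cy 0) (by simp [cy]) hP
    have a := hΩ.1 (D.pt (vx n hP (lit l) 0)) (by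
      simp only [mem_iUnion, not_exists]
      intro k hk' h
      obtain ⟨β, b1, -, b3⟩ := hk k (by have := hk'.2; omega)
      have := b1.1 _ (D.St_pt h)
      obtain ⟨a, a1, a2⟩ := hcy k (by have := hk'.2; omega)
      rw [e.1, lit] at this
      rw [a1] at b3
      rcases Nat.mod_two_eq_zero_or_one l with h | h <;> rw [h] at this <;> omega)
    rw [mul_left_eq_self₀, sub_eq_zero] at a
    rcases a with a | a
    · rw [← mul_self_eq_one_iff, ← exp_add, add_halves]; exact a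
    · have := D.pt_inj a
      rw [this, e.1, lit] at e0
      simp [cy] at e0
  have hopp : ∀ g < n, exp (Ω (D.pt (vx n hP (12 * g + 2) 0)) / 2) =
      -exp (Ω (D.pt (vx n hP (12 * g + 7) 0)) / 2) := by
    intro g hg
    have e : ∀ z, Ω z = ang (γ g 4) z + ang (γ g 9) z + ang (γ g 11) z +
        (∑ k ∈ Finset.Ico (3 * g + 3) (3 * n + 1), ang (Γ k) z +
          ∑ k ∈ Finset.Ico 0 (3 * g), ang (Γ k) z) := by
      intro z
      simp only [Ω]
      rw [← Finset.sum_Ico_consecutive _ (Nat.zero_le (3 * g + 3)) (by omega),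
        Finset.sum_Ico_succ_top (Nat.zero_le _), Finset.sum_Ico_succ_top (Nat.zero_le _),
        Finset.sum_Ico_succ_top (Nat.zero_le _)]
      have a1 : Γ (3 * g) = γ g 4 := by
        simp only [Γ, mb, if_pos (show 3 * g < 3 * n by omega)]
        rw [if_pos (by omega), show 3 * g / 3 = g by omega]
      have a2 : Γ (3 * g + 1) = γ g 9 := by
        simp only [Γ, mb, if_pos (show 3 * g + 1 < 3 * n by omega)]
        rw [if_neg (by omega), if_pos (by omega), show (3 * g + 1) / 3 = g by omega]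
      have a3 : Γ (3 * g + 2) = γ g 11 := by
        simp only [Γ, mb, if_pos (show 3 * g + 2 < 3 * n by omega)]
        rw [if_neg (by omega), if_neg (by omega), show (3 * g + 2) / 3 = g by omega]
      rw [a1, a2, a3]; ring
    have d1 := hch (a := 3 * g + 3) (by omega) le_rfl
    have d2 := hch (b := 3 * g) (Nat.zero_le _) (by omega)
    rw [c0] at d1
    have d := d1.add d2
    rw [show cy (3 * g + 3) = 12 * g + 12 by simp only [cy]; rw [if_pos (by omega)]; omega,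
      show cy (3 * g) = 12 * g + 0 by simp only [cy]; rw [if_pos (by omega)]; omega] at d
    have dD : ∀ {t β lo hi}, MidV W L hP t β lo hi → (∀ t', ¬ D.Cr t t') →
        (12 * g < β ∧ β < 12 * g + 12 ∧ 12 * g < lo ∧ lo < 12 * g + 12 ∧ 12 * g < hi ∧
          hi < 12 * g + 12) → Disjoint ((⋃ k ∈ Ico (3 * g + 3) (3 * n + 1), D.St (tm k)) ∪
          ⋃ k ∈ Ico 0 (3 * g), D.St (tm k)) (D.St t) := by
      intro t β lo hi m hc hb
      simp only [disjoint_union_left, disjoint_iUnion_left]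
      refine ⟨fun k hk' => ?_, fun k hk' => ?_⟩ <;> obtain ⟨a1, a2⟩ := hk' <;>
        obtain ⟨β', b1, -, b3⟩ := hk k (by omega) <;> obtain ⟨a, a3, a4⟩ := hcy k (by omega) <;>
        rw [a3] at b3 <;> exact dj b1 m (fun h => hc _ h.symm) (by omega)
    obtain ⟨m1, u1, c1⟩ := ht g 1 hg (by omega) rfl
    obtain ⟨m3, u3, c3⟩ := ht g 3 hg (by omega) rfl
    obtain ⟨m4, u4, c4⟩ := ht g 4 hg (by omega) rfl
    obtain ⟨m6, u6, c6⟩ := ht g 6 hg (by omega) rfl
    obtain ⟨m8, u8, c8⟩ := ht g 8 hg (by omega) rfl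
    obtain ⟨m9, u9, c9⟩ := ht g 9 hg (by omega) rfl
    obtain ⟨m11, u11, c11⟩ := ht g 11 hg (by omega) rfl
    simp only [gLo, gHi, List.getD_cons_succ, List.getD_cons_zero] at *
    rw [e, e]
    exact opposite c4 c9 c11 d c1 c3 c6 c8 (dj m9 m1 (u9 _) (by omega))
      (dj m11 m1 (u11 _) (by omega)) (dj m4 m3 (u4 _) (by omega)) (dD m3 u3 (by omega))
      (dj m11 m6 (u11 _) (by omega)) (dD m6 u6 (by omega)) (dj m4 m8 (u4 _) (by omega))
      (dj m9 m8 (u9 _) (by omega)) (dj m1 m6 (u1 _) (by omega)) (dj m1 m8 (u1 _) (by omega))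
      (dj m3 m6 (u3 _) (by omega)) (dj m3 m8 (u3 _) (by omega)) (dj m4 m11 (u4 _) (by omega))
      (dD m9 u9 (by omega))
  let σ : ℕ → Bool := fun g => decide (exp (Ω (D.pt (vx n hP (12 * g + 2) 0)) / 2) = 1)
  have hs : ∀ l < 2 * n, side σ l = decide (exp (Ω (D.pt (vx n hP (lit l) 0)) / 2) = 1) := by
    intro l hl
    have a := hone l hl
    rw [side]
    rcases Nat.mod_two_eq_zero_or_one l with h | h <;> rw [lit, h] at a ⊢
    · simp [σ]
    · simp only [σ, hopp (l / 2) (by omega)]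
      rcases a with a | a <;> rw [a] <;> norm_num
  refine ⟨σ, fun j hj => ?_⟩
  simp only [viol, Finset.mem_filter, Finset.mem_range] at hj
  have hj' := getD_lt hL hj.1
  have mt : MidV W L hP _ _ (lit (L.getD j (0, 0)).1) (lit (L.getD j (0, 0)).2) :=
    midV hL hP (β := 12 * n + 1) (i := j) (by omega) (by omega) (by simp [isMid, hj.1])
      (by simp [eLo]) (by simp [eHi]) (by rw [lit]; omega) (by rw [lit]; omega)
  obtain ⟨δ, hδ⟩ := D.St_cv mt.2.1 mt.2.2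
  by_contra hc
  have := hΩ.2 δ _ _ _ hδ (by
    simp only [disjoint_iUnion_left]
    rintro k ⟨-, a2⟩
    obtain ⟨β', b1, -, b3⟩ := hk k (by omega)
    obtain ⟨a, a3, a4⟩ := hcy k (by omega)
    rw [a3] at b3
    refine dj b1 mt (fun h => ?_) (by
      simp only [lit]
      rcases Nat.mod_two_eq_zero_or_one (L.getD j (0, 0)).1 with h | h <;>
        rcases Nat.mod_two_eq_zero_or_one (L.getD j (0, 0)).2 with h' | h' <;> rw [h, h'] <;> omega)
    rcases b3 with b3 | b3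
    · exact b3.2.1 _ h
    · exact hc (b3.1 ▸ h))
  rw [sub_self, sub_eq_zero] at this
  refine hj.2 ?_
  rw [hs _ hj'.1, hs _ hj'.2]
  simp only [Ω, this]

theorem flip_lower (hL : ∀ p ∈ L, p.1 < 2 * n ∧ p.2 < 2 * n) (hm : L.length ≤ P) (hW : W ≤ P)
    {U : ℕ} (hU : ∀ σ, U ≤ (viol L σ).card) (h : 2 * cr (flipG n W P L) < P) :
    W * U ≤ cr (flipG n W P L) := by
  obtain ⟨D, hD⟩ := exists_optimal (flipG n W P L)
  have hP : 0 < P := by omega
  rw [← hD] at h ⊢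
  have h1 : ∀ i, ∃ σ, i < W →
      ∀ j ∈ viol L σ, D.Cr (vx n hP (12 * n + 2) i) (vx n hP (12 * n + 1) j) := by
    intro i
    by_cases hi : i < W
    · obtain ⟨σ, hσ⟩ := layer hL hP hm D h hi (by omega)
      exact ⟨σ, fun _ => hσ⟩
    · exact ⟨fun _ => true, fun a => absurd a hi⟩
  choose σ hσ using h1
  have := ncard_le_of_rel (A := ((Finset.range W).sigma fun i => viol L (σ i) : Finset _))
    D.xset_finite (fun (y : (_ : ℕ) × ℕ) x => ∃ e f, x.2 = s(e, f) ∧ vx n hP (12 * n + 2) y.1 ∈ e.1 ∧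
      vx n hP (12 * n + 1) y.2 ∈ f.1) (by
      rintro ⟨i, j⟩ hy
      simp only [Finset.mem_coe, Finset.mem_sigma, Finset.mem_range] at hy
      obtain ⟨e, f, z, h1, h2, h3, h4, h5, h6⟩ := hσ i hy.1 j hy.2
      refine ⟨(z, s(e, f)), ⟨by simpa using h1, fun g hg => ?_, h6⟩, e, f, rfl, h2, h3⟩
      rcases Sym2.mem_iff.1 hg with rfl | rfl <;> assumption) (by
      rintro ⟨i, j⟩ hy ⟨i', j'⟩ hy' x ⟨e, f, a1, a2, a3⟩ ⟨e', f', b1, b2, b3⟩
      simp only [Finset.mem_coe, Finset.mem_sigma, Finset.mem_range, viol,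
        Finset.mem_filter] at hy hy'
      dsimp only at a2 a3 b2 b3
      rcases Sym2.eq_iff.1 (a1.symm.trans b1) with ⟨rfl, rfl⟩ | ⟨rfl, rfl⟩
      · obtain ⟨-, rfl⟩ := mid_unique hL hP (by omega) (by omega) (by simp [isMid, hy.1])
          (by omega) (by omega) (by simp [isMid, hy'.1]) _ a2 b2
        obtain ⟨-, rfl⟩ := mid_unique hL hP (by omega) (by omega) (by simp [isMid, hy.2.1])
          (by omega) (by omega) (by simp [isMid, hy'.2.1]) _ a3 b3
        rfl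
      · have := mid_unique hL hP (by omega) (by omega) (by simp [isMid, hy.1])
          (by omega) (by omega) (by simp [isMid, hy'.2.1]) _ a2 b3
        omega)
  rw [ncard_coe_finset, Finset.card_sigma] at this
  refine le_trans ?_ this
  simpa using Finset.card_nsmul_le_sum (Finset.range W) _ U fun i _ => hU (σ i)

end Pool.Agent.P.MP_8a730c_lc
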