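import Pool.Agent.P.MP_8a730c_lc.Planar
import Pool.Agent.P.MP_8a730c_lc.Convex

/-! Replacing the vertices of a multigraph by square grids. -/

set_option linter.unusedSectionVars false

namespace Pool.Agent.P.MP_8a730c_lc

open Set

theorem ncard_fibre_le {α β : Type} [Finite α] [Finite β] (S : Set (α × β)) (A : Set α) (m : ℕ)
    (h1 : ∀ p ∈ S, p.1 ∈ A) (h2 : ∀ a ∈ A, {b | (a, b) ∈ S}.ncard ≤ m) :
    S.ncard ≤ A.ncard * m := by
  have e : S ⊆ ⋃ a : A, Prod.mk a.1 '' {b | (a.1, b) ∈ S} := fun p hp =>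
    mem_iUnion.2 ⟨⟨p.1, h1 p hp⟩, p.2, hp, rfl⟩
  refine (ncard_le_ncard e).trans ((ncard_iUnion_le_of_finite _).trans ?_)
  have := Fintype.ofFinite A
  rw [finsum_eq_sum_of_fintype]
  refine (Finset.sum_le_sum (g := fun _ => m) fun (a : A) _ =>
    (ncard_image_le (toFinite _)).trans (h2 a.1 a.2)).trans ?_
  simp only [Finset.sum_const, Finset.card_univ, smul_eq_mul]
  rw [← Nat.card_eq_fintype_card, Nat.card_coe_set_eq]

theorem fin_const {n : ℕ} [NeZero n] (g : Fin n → Bool)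
    (h : ∀ i j : Fin n, i.val + 1 = j.val → g i = g j) (i : Fin n) : g i = g 0 := by
  obtain ⟨k, hk⟩ := i
  induction k with
  | zero => rfl
  | succ k ih => exact (h ⟨k, by omega⟩ ⟨k + 1, hk⟩ rfl).symm.trans (ih _)

section transport
variable {V W : Type} [Finite V] (G : SimpleGraph V) (e : W ≃ V)

theorem cr_comap_le (pos : V → ℕ) (hpos : Function.Injective pos) :
    cr (G.comap e) ≤ (inter G pos).ncard := by
  have : Finite W := Finite.of_equiv V e.symm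
  refine (cr_le_inter _ (pos ∘ e) (hpos.comp e.injective)).trans ?_
  refine ncard_le_of_rel (toFinite _) (fun q q' => q' = (e q.1, e q.2.1, e q.2.2.1, e q.2.2.2))
    (fun q hq => ⟨_, hq, rfl⟩) ?_
  rintro ⟨a, b, c, d⟩ - ⟨a', b', c', d'⟩ - _ rfl h
  simpa using h

theorem sep_comap (P : Set V) (r : ℕ) (hr : 1 ≤ r)
    (hn : 3 * (Nat.card V + cr (G.comap e)) ≤ r * r) :
    ∃ (B : Set V) (side : V → Bool), B.ncard ≤ 8 * r ∧
      (∀ u v, G.Adj u v → u ∉ B → v ∉ B → side u = side v) ∧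
      ∀ b, 4 * {v | v ∈ P ∧ v ∉ B ∧ side v = b}.ncard ≤ 3 * P.ncard := by
  have : Finite W := Finite.of_equiv V e.symm
  obtain ⟨D, hD⟩ := exists_optimal (G.comap e)
  obtain ⟨B, side, h1, h2, h3⟩ := D.separator (e.symm '' P) r hr
    (by rw [hD, Nat.card_congr e]; exact hn)
  refine ⟨e '' B, side ∘ e.symm, by rwa [ncard_image_of_injective _ e.injective],
    fun u v huv hu hv => h2 _ _ (by simpa using huv) (fun h => hu ⟨_, h, by simp⟩)
      (fun h => hv ⟨_, h, by simp⟩), fun b => ?_⟩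
  have := h3 b
  rw [ncard_image_of_injective _ e.symm.injective] at this
  refine le_trans (Nat.mul_le_mul_left _ ?_) this
  rw [← ncard_image_of_injective _ e.symm.injective]
  refine ncard_le_ncard ?_
  rintro _ ⟨v, ⟨a1, a2, a3⟩, rfl⟩
  exact ⟨⟨v, a1, rfl⟩, fun h => a2 ⟨_, h, by simp⟩, a3⟩

theorem deg_comap (w : W) : ((G.comap e).neighborSet w).ncard = (G.neighborSet (e w)).ncard := by
  rw [← ncard_image_of_injective _ e.injective]
  congr 1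
  ext v
  constructor
  · rintro ⟨x, hx, rfl⟩; exact hx
  · intro h; exact ⟨e.symm v, by simpa using h, by simp⟩

end transport

variable {Z : Type} {n : ℕ} [NeZero n]

def port (p : Z × Fin n) : Z × Fin n × Fin n := (p.1, 0, p.2)

theorem port_inj : Function.Injective (port : Z × Fin n → _) := by
  rintro ⟨a, b⟩ ⟨c, d⟩ h
  simpa [port] using h

def Grid (a b : Z × Fin n × Fin n) : Prop := a.1 = b.1 ∧
  ((a.2.1 = b.2.1 ∧ (a.2.2.val + 1 = b.2.2.val ∨ b.2.2.val + 1 = a.2.2.val)) ∨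
    (a.2.2 = b.2.2 ∧ (a.2.1.val + 1 = b.2.1.val ∨ b.2.1.val + 1 = a.2.1.val)))

/-- A multigraph given by a rotation map on the valid ports. -/
structure Rot (Z : Type) (n : ℕ) where
  rot : Z × Fin n → Z × Fin n
  valid : Z × Fin n → Prop
  inv : ∀ p, rot (rot p) = p
  valid_rot : ∀ p, valid p → valid (rot p)

def Rot.Ext (R : Rot Z n) (a b : Z × Fin n × Fin n) : Prop :=
  ∃ p, R.valid p ∧ R.rot p ≠ p ∧ a = port p ∧ b = port (R.rot p)

theorem Rot.Ext.symm {R : Rot Z n} {a b : Z × Fin n × Fin n} (h : R.Ext a b) : R.Ext b a := by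
  obtain ⟨p, h1, h2, h3, h4⟩ := h
  exact ⟨R.rot p, R.valid_rot p h1, by rw [R.inv]; exact h2.symm, h4, by rw [R.inv]; exact h3⟩

def Rot.graph (R : Rot Z n) : SimpleGraph (Z × Fin n × Fin n) where
  Adj a b := Grid a b ∨ R.Ext a b
  symm := ⟨by
    rintro a b (⟨h1, h2⟩ | h)
    · exact Or.inl ⟨h1.symm, by tauto⟩
    · exact Or.inr h.symm⟩
  loopless := ⟨by
    rintro a (⟨-, h⟩ | ⟨p, -, h2, h3, h4⟩)
    · omega
    · exact h2 (port_inj (h4.symm.trans h3))⟩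

variable [Finite Z] (R : Rot Z n)

theorem Rot.deg_le (a : Z × Fin n × Fin n) : (R.graph.neighborSet a).ncard ≤ 4 := by
  refine le_trans (ncard_le_of_rel (B := (univ : Set (Fin 4))) (toFinite _) (fun b t =>
    (t = 0 ∧ a.1 = b.1 ∧ a.2.1 = b.2.1 ∧ a.2.2.val + 1 = b.2.2.val) ∨
    (t = 1 ∧ a.1 = b.1 ∧ a.2.1 = b.2.1 ∧ b.2.2.val + 1 = a.2.2.val) ∨
    (t = 2 ∧ a.1 = b.1 ∧ a.2.2 = b.2.2 ∧ a.2.1.val + 1 = b.2.1.val) ∨
    (t = 3 ∧ a.1 = b.1 ∧ a.2.2 = b.2.2 ∧ b.2.1.val + 1 = a.2.1.val) ∨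
    (t = 3 ∧ R.Ext a b)) ?_ ?_) (by simp)
  · rintro b (⟨h1, ⟨h2, h3 | h3⟩ | ⟨h2, h3 | h3⟩⟩ | h)
    · exact ⟨0, trivial, by tauto⟩
    · exact ⟨1, trivial, by tauto⟩
    · exact ⟨2, trivial, by tauto⟩
    · exact ⟨3, trivial, by tauto⟩
    · exact ⟨3, trivial, by tauto⟩
  · obtain ⟨a1, a2, a3⟩ := a
    rintro ⟨b1, b2, b3⟩ - ⟨c1, c2, c3⟩ - t h h'
    simp only at h h'
    rcases h with ⟨rfl, rfl, rfl, h⟩ | ⟨rfl, rfl, rfl, h⟩ | ⟨rfl, rfl, rfl, h⟩ | ⟨rfl, rfl, rfl, h⟩ |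
      ⟨rfl, p, -, -, h, h2⟩ <;>
    rcases h' with ⟨g, rfl, rfl, h'⟩ | ⟨g, rfl, rfl, h'⟩ | ⟨g, rfl, rfl, h'⟩ | ⟨g, rfl, rfl, h'⟩ |
      ⟨g, p', -, -, h', h2'⟩ <;>
    first
    | exact absurd g (by decide)
    | (rw [h2, h2', port_inj (h.symm.trans h')])
    | (have : a2.val = 0 := congrArg (fun x : Z × Fin n × Fin n => x.2.1.val) h'; omega)
    | (have : a2.val = 0 := congrArg (fun x : Z × Fin n × Fin n => x.2.1.val) h; omega)
    | (congr; omega)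

theorem Rot.inter_le (pos : Z × Fin n × Fin n → ℕ) (hpos : Function.Injective pos) (c : Z → ℕ)
    (hg : ∀ a b, Grid a b → pos b ≤ pos a + n) (hc : ∀ a b, pos a < pos b → c a.1 ≤ c b.1)
    (m : ℕ) (hm : ∀ t, {p | R.valid p ∧ c p.1 = t}.ncard ≤ m) :
    (inter R.graph pos).ncard ≤ 32 * (Nat.card Z * n ^ 3) + 2 * ({p | R.valid p}.ncard * m) +
      {p | R.valid p ∧ c p.1 ≠ c (R.rot p).1}.ncard ^ 2 := by
  let Y1 : Set ((Z × Fin n × Fin n) × (Z × Fin n × Fin n) × (Z × Fin n × Fin n) ×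
    (Z × Fin n × Fin n)) := {q | R.graph.Adj q.1 q.2.1 ∧ pos q.1 < pos q.2.2.1 ∧
      pos q.2.2.1 ≤ pos q.1 + n ∧ R.graph.Adj q.2.2.1 q.2.2.2}
  have y1 : Y1.ncard ≤ 16 * (Nat.card Z * n ^ 3) := by
    refine (ncard_fibre_le Y1 univ (4 * (n * 4)) (by simp) fun a _ => ?_).trans (le_of_eq ?_)
    · refine (ncard_fibre_le _ (R.graph.neighborSet a) (n * 4) (fun p hp => hp.1)
        fun b _ => ?_).trans (Nat.mul_le_mul_right _ (R.deg_le a))
      refine (ncard_fibre_le _ {u | pos a < pos u ∧ pos u ≤ pos a + n} 4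
        (fun p hp => ⟨hp.2.1, hp.2.2.1⟩) fun u _ => ?_).trans (Nat.mul_le_mul_right _ ?_)
      · exact (ncard_le_ncard fun v hv => hv.2.2.2).trans (R.deg_le u)
      · refine (ncard_le_ncard_of_injOn (t := Ioc (pos a) (pos a + n)) pos (fun u hu => hu)
          hpos.injOn (finite_Ioc _ _)).trans ?_
        simp
    · simp [ncard_univ]; ring
  let Y3 : Set ((Z × Fin n) × (Z × Fin n)) := {q | R.valid q.1 ∧ R.valid q.2 ∧ c q.2.1 = c q.1.1}
  have y3 : Y3.ncard ≤ {p | R.valid p}.ncard * m :=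
    ncard_fibre_le Y3 _ m (fun p hp => hp.1) fun p _ =>
      (ncard_le_ncard fun q hq => hq.2).trans (hm (c p.1))
  set I := inter R.graph pos with hI
  let C : Set (Z × Fin n) := {p | R.valid p ∧ c p.1 ≠ c (R.rot p).1}
  have hsub : I ⊆ ((I ∩ {q | Grid q.1 q.2.1}) ∪ (I ∩ {q | Grid q.2.2.1 q.2.2.2})) ∪
      ((I ∩ {q | R.Ext q.1 q.2.1 ∧ R.Ext q.2.2.1 q.2.2.2 ∧ c q.1.1 = c q.2.1.1}) ∪
      (I ∩ {q | R.Ext q.1 q.2.1 ∧ R.Ext q.2.2.1 q.2.2.2 ∧ c q.2.2.1.1 = c q.2.2.2.1})) ∪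
      {q | R.Ext q.1 q.2.1 ∧ R.Ext q.2.2.1 q.2.2.2 ∧ c q.1.1 ≠ c q.2.1.1 ∧
        c q.2.2.1.1 ≠ c q.2.2.2.1} := by
    intro q hq
    have h1 : Grid q.1 q.2.1 ∨ R.Ext q.1 q.2.1 := hq.1
    have h2 : Grid q.2.2.1 q.2.2.2 ∨ R.Ext q.2.2.1 q.2.2.2 := hq.2.1
    simp only [mem_union, mem_inter_iff, hq, true_and, mem_ofPred_eq]
    tauto
  have x1 : (I ∩ {q | Grid q.1 q.2.1}).ncard ≤ Y1.ncard := by
    refine ncard_le_ncard ?_
    rintro q ⟨⟨a1, a2, a3, a4, -⟩, h⟩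
    exact ⟨a1, a3, a4.le.trans (hg _ _ h), a2⟩
  have x2 : (I ∩ {q | Grid q.2.2.1 q.2.2.2}).ncard ≤ Y1.ncard := by
    refine ncard_le_of_rel (toFinite _) (fun q q' => q' = (q.2.2.1, q.2.2.2, q.2.1, q.1)) ?_ ?_
    · rintro q ⟨⟨a1, a2, -, a4, a5⟩, h⟩
      exact ⟨_, ⟨a2, a4, a5.le.trans (hg _ _ h), a1.symm⟩, rfl⟩
    · rintro ⟨a, b, c, d⟩ - ⟨a', b', c', d'⟩ - _ rfl h
      simp only [Prod.mk.injEq] at h ⊢
      tauto
  have x3 : (I ∩ {q | R.Ext q.1 q.2.1 ∧ R.Ext q.2.2.1 q.2.2.2 ∧ c q.1.1 = c q.2.1.1}).ncard ≤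
      Y3.ncard := by
    refine ncard_le_of_rel (toFinite _) (fun q p =>
      q = (port p.1, port (R.rot p.1), port p.2, port (R.rot p.2))) ?_ ?_
    · rintro ⟨a, b, c', d⟩ ⟨⟨-, -, a3, a4, -⟩, ⟨p, p1, -, rfl, rfl⟩, ⟨p', p2, -, rfl, rfl⟩, h⟩
      exact ⟨(p, p'), ⟨p1, p2, le_antisymm ((hc _ _ a4).trans h.ge) (hc _ _ a3)⟩, rfl⟩
    · rintro q - q' - p rfl rfl; rfl
  have x4 : (I ∩ {q | R.Ext q.1 q.2.1 ∧ R.Ext q.2.2.1 q.2.2.2 ∧
      c q.2.2.1.1 = c q.2.2.2.1}).ncard ≤ Y3.ncard := by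
    refine ncard_le_of_rel (toFinite _) (fun q p =>
      q = (port (R.rot p.1), port p.1, port p.2, port (R.rot p.2))) ?_ ?_
    · rintro ⟨a, b, c', d⟩ ⟨⟨-, -, -, a4, a5⟩, h1, ⟨p', p2, -, rfl, rfl⟩, h⟩
      obtain ⟨p, p1, -, rfl, rfl⟩ := h1.symm
      exact ⟨(p, p'), ⟨p1, p2, le_antisymm (hc _ _ a4) ((hc _ _ a5).trans h.ge)⟩, rfl⟩
    · rintro q - q' - p rfl rfl; rfl
  have x5 : {q : (Z × Fin n × Fin n) × (Z × Fin n × Fin n) × (Z × Fin n × Fin n) ×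
      (Z × Fin n × Fin n) | R.Ext q.1 q.2.1 ∧ R.Ext q.2.2.1 q.2.2.2 ∧ c q.1.1 ≠ c q.2.1.1 ∧
        c q.2.2.1.1 ≠ c q.2.2.2.1}.ncard ≤ (C ×ˢ C).ncard := by
    refine ncard_le_of_rel (toFinite _) (fun q p =>
      q = (port p.1, port (R.rot p.1), port p.2, port (R.rot p.2))) ?_ ?_
    · rintro ⟨a, b, c', d⟩ ⟨⟨p, p1, -, rfl, rfl⟩, ⟨p', p2, -, rfl, rfl⟩, h, h'⟩
      exact ⟨(p, p'), ⟨⟨p1, h⟩, p2, h'⟩, rfl⟩
    · rintro q - q' - p rfl rfl; rfl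
  rw [ncard_prod, ← sq] at x5
  refine (ncard_le_ncard hsub).trans ((ncard_union_le _ _).trans (Nat.add_le_add
    ((ncard_union_le _ _).trans (Nat.add_le_add ((ncard_union_le _ _).trans ?_)
      ((ncard_union_le _ _).trans ?_))) x5)) <;> omega

theorem exists_pos (c : Z → ℕ) : ∃ pos : Z × Fin n × Fin n → ℕ, Function.Injective pos ∧
    (∀ a b, Grid a b → pos b ≤ pos a + n) ∧ ∀ a b, pos a < pos b → c a.1 ≤ c b.1 := by
  obtain ⟨N, ⟨e⟩⟩ := Finite.exists_equiv_fin Z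
  have key : ∀ (M a b x y : ℕ), x < M → y < M → a * M + x ≤ b * M + y → a ≤ b := by
    intro M a b x y hx hy h
    by_contra hc
    have : (b + 1) * M ≤ a * M := Nat.mul_le_mul_right _ (by omega)
    rw [Nat.add_mul] at this; omega
  refine ⟨fun a => ((c a.1 * N + e a.1) * n + a.2.1) * n + a.2.2, ?_, ?_, ?_⟩
  · rintro ⟨a1, a2, a3⟩ ⟨b1, b2, b3⟩ h
    simp only at h
    have h1 := le_antisymm (key _ _ _ _ _ a3.2 b3.2 h.le) (key _ _ _ _ _ b3.2 a3.2 h.ge)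
    have h2 := le_antisymm (key _ _ _ _ _ a2.2 b2.2 h1.le) (key _ _ _ _ _ b2.2 a2.2 h1.ge)
    have h3 := le_antisymm (key _ _ _ _ _ (e a1).2 (e b1).2 h2.le)
      (key _ _ _ _ _ (e b1).2 (e a1).2 h2.ge)
    rw [h1] at h; rw [h2] at h1; rw [h3] at h2
    simp only [Prod.mk.injEq]
    exact ⟨e.injective (Fin.ext (by omega)), Fin.ext (by omega), Fin.ext (by omega)⟩
  · rintro ⟨a1, a2, a3⟩ ⟨b1, b2, b3⟩ ⟨h1, h⟩
    have := NeZero.pos n
    simp only at h1 h ⊢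
    subst h1
    rcases h with ⟨rfl, h | h⟩ | ⟨rfl, h | h⟩
    · omega
    · omega
    · rw [← h, ← Nat.add_assoc, Nat.add_mul _ 1]; omega
    · rw [← h, ← Nat.add_assoc, Nat.add_mul _ 1]; omega
  · rintro ⟨a1, a2, a3⟩ ⟨b1, b2, b3⟩ h
    exact key _ _ _ _ _ (e a1).2 (e b1).2 (key _ _ _ _ _ a2.2 b2.2 (key _ _ _ _ _ a3.2 b3.2 h.le))

theorem Rot.cr_le {W : Type} (e : W ≃ Z × Fin n × Fin n) (c : Z → ℕ) (m : ℕ)
    (hm : ∀ t, {p | R.valid p ∧ c p.1 = t}.ncard ≤ m) :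
    cr (R.graph.comap e) ≤ 32 * (Nat.card Z * n ^ 3) + 2 * ({p | R.valid p}.ncard * m) +
      {p | R.valid p ∧ c p.1 ≠ c (R.rot p).1}.ncard ^ 2 := by
  obtain ⟨pos, h1, h2, h3⟩ := exists_pos (n := n) c
  exact (cr_comap_le _ e pos h1).trans (R.inter_le pos h1 c h2 h3 m hm)

theorem grid_round (B : Set (Z × Fin n × Fin n)) (side : Z × Fin n × Fin n → Bool)
    (h : ∀ u v, Grid u v → u ∉ B → v ∉ B → side u = side v) :
    ∃ f : Z → Bool, {p | side (port p) ≠ f p.1}.ncard ≤ B.ncard := by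
  classical
  have key : ∀ z : Z, ∃ b : Bool, ∃ t : Bool, ∀ l, side (port (z, l)) ≠ b →
      ∃ v ∈ B, v.1 = z ∧ (bif t then v.2.2 else v.2.1) = l := by
    intro z
    by_cases hz : ∃ r, ∀ l, (z, r, l) ∉ B
    · obtain ⟨r, hr⟩ := hz
      refine ⟨side (z, r, 0), true, fun l hl => ?_⟩
      by_contra hc
      push Not at hc
      have hcol : ∀ r', (z, r', l) ∉ B := fun r' hb => hc _ hb rfl rfl
      have a1 := fin_const (fun r' => side (z, r', l))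
        (fun i j hij => h _ _ ⟨rfl, Or.inr ⟨rfl, Or.inl hij⟩⟩ (hcol i) (hcol j)) r
      have a2 := fin_const (fun l' => side (z, r, l'))
        (fun i j hij => h _ _ ⟨rfl, Or.inl ⟨rfl, Or.inl hij⟩⟩ (hr i) (hr j)) l
      exact hl (a1.symm.trans a2)
    · push Not at hz
      refine ⟨true, false, fun l _ => ?_⟩
      obtain ⟨l', hl'⟩ := hz l
      exact ⟨_, hl', rfl, rfl⟩
  choose f t hf using key
  refine ⟨f, ncard_le_of_rel (toFinite _)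
    (fun p v => v.1 = p.1 ∧ (bif t p.1 then v.2.2 else v.2.1) = p.2)
    (fun p hp => hf p.1 p.2 hp) ?_⟩
  rintro ⟨a, b⟩ - ⟨a', b'⟩ - v ⟨h1, h2⟩ ⟨h3, h4⟩
  simp only at h1 h2 h3 h4
  subst h1 h3 h2 h4
  rfl

theorem Rot.exists_cut {W : Type} (e : W ≃ Z × Fin n × Fin n) (r : ℕ) (hr : 1 ≤ r)
    (hn : 3 * (Nat.card Z * n ^ 2 + cr (R.graph.comap e)) ≤ r * r) :
    ∃ f : Z → Bool, {p | R.valid p ∧ f p.1 ≠ f (R.rot p).1}.ncard ≤ 32 * r ∧
      ∀ b, 4 * {p | R.valid p ∧ f p.1 = b}.ncard ≤ 3 * {p | R.valid p}.ncard + 64 * r := by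
  obtain ⟨B, side, h1, h2, h3⟩ := sep_comap R.graph e (port '' {p | R.valid p}) r hr
    (by simpa [sq] using hn)
  obtain ⟨f, hf⟩ := grid_round B side fun u v h => h2 u v (Or.inl h)
  rw [ncard_image_of_injective _ port_inj] at h3
  have hB : {p : Z × Fin n | port p ∈ B}.ncard ≤ B.ncard :=
    ncard_le_ncard_of_injOn port (fun p hp => hp) port_inj.injOn
  have hinj : Function.Injective R.rot := Function.LeftInverse.injective R.inv
  have hrot : ∀ S : Set (Z × Fin n), (R.rot ⁻¹' S).ncard ≤ S.ncard := fun S =>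
    ncard_le_ncard_of_injOn R.rot (fun p hp => hp) hinj.injOn
  refine ⟨f, ?_, fun b => ?_⟩
  · have hsub : {p | R.valid p ∧ f p.1 ≠ f (R.rot p).1} ⊆
        ({p | side (port p) ≠ f p.1} ∪ R.rot ⁻¹' {p | side (port p) ≠ f p.1}) ∪
        ({p | port p ∈ B} ∪ R.rot ⁻¹' {p | port p ∈ B}) := by
      rintro p ⟨a1, a2⟩
      by_contra hc
      simp only [mem_union, mem_ofPred_eq, mem_preimage, not_or, not_not] at hc
      obtain ⟨⟨b1, b2⟩, b3, b4⟩ := hc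
      refine a2 (b1.symm.trans ((h2 _ _ (Or.inr ⟨p, a1, fun h => a2 ?_, rfl, rfl⟩) b3 b4).trans b2))
      rw [h]
    have a1 := hrot {p | side (port p) ≠ f p.1}
    have a2 := hrot {p | port p ∈ B}
    refine (ncard_le_ncard hsub).trans ((ncard_union_le _ _).trans ?_)
    have a3 := ncard_union_le {p | side (port p) ≠ f p.1} (R.rot ⁻¹' {p | side (port p) ≠ f p.1})
    have a4 := ncard_union_le {p : Z × Fin n | port p ∈ B} (R.rot ⁻¹' {p | port p ∈ B})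
    omega
  · have hsub : {p | R.valid p ∧ f p.1 = b} ⊆
        port ⁻¹' {v | v ∈ port '' {p | R.valid p} ∧ v ∉ B ∧ side v = b} ∪
        ({p | side (port p) ≠ f p.1} ∪ {p | port p ∈ B}) := by
      rintro p ⟨a1, a2⟩
      by_contra hc
      simp only [mem_union, mem_ofPred_eq, mem_preimage, not_or, not_not, not_and] at hc
      exact hc.1 ⟨p, a1, rfl⟩ hc.2.2 (hc.2.1.trans a2)
    have a1 : (port ⁻¹' {v | v ∈ port '' {p | R.valid p} ∧ v ∉ B ∧ side v = b}).ncard ≤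
        {v | v ∈ port '' {p | R.valid p} ∧ v ∉ B ∧ side v = b}.ncard :=
      ncard_le_ncard_of_injOn port (fun p hp => hp) port_inj.injOn
    have a2 := h3 b
    have a3 := (ncard_le_ncard hsub).trans (ncard_union_le _ _)
    have a4 := ncard_union_le {p | side (port p) ≠ f p.1} {p : Z × Fin n | port p ∈ B}
    omega

end Pool.Agent.P.MP_8a730c_lc
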