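import Mathlib

/-! The Bonami lemma and a Kahn-Kalai-Linial type bound on the largest influence. -/

namespace Pool.Agent.P.MP_8a730c_lc

open Finset

abbrev Cube (n : ℕ) := Fin n → Bool

variable {n : ℕ}

noncomputable def Ex (f : Cube n → ℝ) : ℝ := (∑ x, f x) / 2 ^ n

noncomputable def ev (f : Cube (n + 1) → ℝ) (x : Cube n) : ℝ :=
  (f (Fin.cons true x) + f (Fin.cons false x)) / 2

noncomputable def od (f : Cube (n + 1) → ℝ) (x : Cube n) : ℝ :=
  (f (Fin.cons true x) - f (Fin.cons false x)) / 2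

theorem Ex_succ (f : Cube (n + 1) → ℝ) : Ex f = Ex (ev f) := by
  rw [Ex, Ex, ← (Fin.consEquiv fun _ => Bool).sum_comp, Fintype.sum_prod_type, Fintype.sum_bool]
  simp only [ev, ← sum_div, sum_add_distrib]
  rw [pow_succ]; field_simp; rfl

theorem Ex_zero (f : Cube 0 → ℝ) : Ex f = f default := by
  rw [Ex, Fintype.sum_unique, pow_zero, div_one]; exact congrArg f (Subsingleton.elim _ _)

theorem Ex_add (f g : Cube n → ℝ) : Ex (fun x => f x + g x) = Ex f + Ex g := by
  simp only [Ex, sum_add_distrib, add_div]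

theorem Ex_mul (c : ℝ) (f : Cube n → ℝ) : Ex (fun x => c * f x) = c * Ex f := by
  simp only [Ex, ← mul_sum, mul_div_assoc]

theorem Ex_nonneg {f : Cube n → ℝ} (h : ∀ x, 0 ≤ f x) : 0 ≤ Ex f :=
  div_nonneg (sum_nonneg fun x _ => h x) (by positivity)

theorem Ex_cs (f g : Cube n → ℝ) :
    Ex (fun x => f x * g x) ^ 2 ≤ Ex (fun x => f x ^ 2) * Ex (fun x => g x ^ 2) := by
  simp only [Ex, div_pow, div_mul_div_comm, ← sq]
  exact div_le_div_of_nonneg_right (sum_mul_sq_le_sq_mul_sq _ _ _) (by positivity)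

theorem Ex_dot (f g : Cube (n + 1) → ℝ) : Ex (fun x => f x * g x) =
    Ex (fun x => ev f x * ev g x) + Ex (fun x => od f x * od g x) := by
  rw [Ex_succ, ← Ex_add]; congr 1; funext x; simp only [ev, od]; ring

theorem Ex_sq (f : Cube (n + 1) → ℝ) : Ex (fun x => f x ^ 2) =
    Ex (fun x => ev f x ^ 2) + Ex (fun x => od f x ^ 2) := by
  simp only [sq, Ex_dot]

/-- The noise operator. -/
noncomputable def nz (ρ : ℝ) : (n : ℕ) → (Cube n → ℝ) → Cube n → ℝ
  | 0, f => f
  | n + 1, f => fun x =>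
      nz ρ n (ev f) (Fin.tail x) + (if x 0 then ρ else -ρ) * nz ρ n (od f) (Fin.tail x)

theorem ev_nz (ρ : ℝ) (f : Cube (n + 1) → ℝ) : ev (nz ρ (n + 1) f) = nz ρ n (ev f) := by
  funext x; simp [ev, nz]; ring

theorem od_nz (ρ : ℝ) (f : Cube (n + 1) → ℝ) :
    od (nz ρ (n + 1) f) = fun x => ρ * nz ρ n (od f) x := by
  funext x; simp [od, nz]

theorem nz_adj (ρ : ℝ) : ∀ (n : ℕ) (f g : Cube n → ℝ),
    Ex (fun x => nz ρ n f x * g x) = Ex (fun x => f x * nz ρ n g x)
  | 0, _, _ => rfl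
  | n + 1, f, g => by
    rw [Ex_dot, Ex_dot, ev_nz, ev_nz, od_nz, od_nz, nz_adj ρ n]
    simp only [mul_assoc, mul_left_comm _ ρ, Ex_mul, nz_adj ρ n]

theorem bonami {ρ : ℝ} (h : 3 * ρ ^ 2 = 1) : ∀ (n : ℕ) (f : Cube n → ℝ),
    Ex (fun x => nz ρ n f x ^ 4) ≤ Ex (fun x => f x ^ 2) ^ 2
  | 0, f => by simp only [Ex_zero, nz]; exact le_of_eq (by ring)
  | n + 1, f => by
    have e : Ex (fun x => nz ρ (n + 1) f x ^ 4) = Ex (fun x => nz ρ n (ev f) x ^ 4) +
        2 * Ex (fun x => nz ρ n (ev f) x ^ 2 * nz ρ n (od f) x ^ 2) +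
        (1 / 9) * Ex (fun x => nz ρ n (od f) x ^ 4) := by
      rw [Ex_succ, ← Ex_mul, ← Ex_mul, ← Ex_add, ← Ex_add]
      congr 1; funext x
      simp only [ev, nz, Fin.tail_cons, Fin.cons_zero, if_true, Bool.false_eq_true, if_false]
      generalize nz ρ n _ x = u
      generalize nz ρ n _ x = v
      linear_combination (2 * u ^ 2 * v ^ 2 + (ρ ^ 2 / 3 + 1 / 9) * v ^ 4) * h
    have h1 := bonami h n (ev f)
    have h2 := bonami h n (od f)
    have h3 := Ex_cs (fun x => nz ρ n (ev f) x ^ 2) fun x => nz ρ n (od f) x ^ 2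
    simp only [← pow_mul] at h3
    have a1 : 0 ≤ Ex (fun x => ev f x ^ 2) := Ex_nonneg fun x => sq_nonneg _
    have a2 : 0 ≤ Ex (fun x => od f x ^ 2) := Ex_nonneg fun x => sq_nonneg _
    have a3 : 0 ≤ Ex (fun x => nz ρ n (od f) x ^ 4) := Ex_nonneg fun x => by positivity
    have h4 := h3.trans (mul_le_mul h1 h2 a3 (sq_nonneg _))
    rw [← mul_pow] at h4
    have h5 := (abs_le_of_sq_le_sq' h4 (mul_nonneg a1 a2)).2
    rw [e, Ex_sq]; nlinarith

theorem hyper {ρ t : ℝ} (h : 3 * ρ ^ 2 = 1) (ht : 0 ≤ t) (g : Cube n → ℝ) (hg : ∀ x, g x ^ 3 = g x)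
    (hs : Ex (fun x => g x ^ 2) ≤ t ^ 2) :
    Ex (fun x => nz ρ n g x ^ 2) ≤ t * Ex (fun x => g x ^ 2) := by
  have e1 : Ex (fun x => nz ρ n g x ^ 2) =
      Ex (fun x => g x * (g x ^ 2 * nz ρ n (nz ρ n g) x)) := by
    simp only [sq, nz_adj]; congr 1; funext x
    linear_combination (-nz ρ n (nz ρ n g) x) * hg x
  have c1 := Ex_cs g fun x => g x ^ 2 * nz ρ n (nz ρ n g) x
  have c2 := Ex_cs g fun x => g x * nz ρ n (nz ρ n g) x ^ 2
  have c3 := bonami h n (nz ρ n g)
  have e2 : (fun x => (g x ^ 2 * nz ρ n (nz ρ n g) x) ^ 2) =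
      fun x => g x * (g x * nz ρ n (nz ρ n g) x ^ 2) := by
    funext x; linear_combination (g x * nz ρ n (nz ρ n g) x ^ 2) * hg x
  have c4 : Ex (fun x => (g x * nz ρ n (nz ρ n g) x ^ 2) ^ 2) ≤
      Ex (fun x => nz ρ n (nz ρ n g) x ^ 4) := by
    refine div_le_div_of_nonneg_right (sum_le_sum fun x _ => ?_) (by positivity)
    have : g x ^ 2 ≤ 1 := by
      by_contra hh
      have := hg x
      have h0 : g x * (g x ^ 2 - 1) = 0 := by linear_combination this
      rcases mul_eq_zero.1 h0 with h1 | h1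
      · rw [h1] at hh; norm_num at hh
      · exact hh (by linarith)
    have h4 : 0 ≤ nz ρ n (nz ρ n g) x ^ 4 := by positivity
    nlinarith
  rw [← e1, e2] at c1
  have s0 : 0 ≤ Ex (fun x => g x ^ 2) := Ex_nonneg fun x => sq_nonneg _
  have y0 : 0 ≤ Ex (fun x => nz ρ n g x ^ 2) := Ex_nonneg fun x => sq_nonneg _
  generalize Ex (fun x => g x ^ 2) = s at *
  generalize Ex (fun x => nz ρ n g x ^ 2) = y at *
  generalize Ex (fun x => g x * (g x * nz ρ n (nz ρ n g) x ^ 2)) = w at *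
  have d1 : w ^ 2 ≤ (t * y) ^ 2 := by
    have := c2.trans (mul_le_mul hs (c4.trans c3) (Ex_nonneg fun x => sq_nonneg _) (sq_nonneg _))
    rwa [← mul_pow] at this
  have d2 := (abs_le_of_sq_le_sq' d1 (mul_nonneg ht y0)).2
  rcases y0.eq_or_lt with rfl | y1
  · positivity
  · have := c1.trans (mul_le_mul_of_nonneg_left d2 s0)
    nlinarith

/-- The sum of `φ |S|` times the square of the Fourier coefficient at `S`. -/
noncomputable def lv : (n : ℕ) → (Cube n → ℝ) → (ℕ → ℝ) → ℝ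
  | 0, f, φ => φ 0 * f default ^ 2
  | n + 1, f, φ => lv n (ev f) φ + lv n (od f) fun k => φ (k + 1)

theorem lv_mono : ∀ (n : ℕ) (f : Cube n → ℝ) {φ ψ : ℕ → ℝ}, (∀ k, φ k ≤ ψ k) → lv n f φ ≤ lv n f ψ
  | 0, _, _, _, h => mul_le_mul_of_nonneg_right (h 0) (sq_nonneg _)
  | n + 1, _, _, _, h => add_le_add (lv_mono n _ h) (lv_mono n _ fun k => h (k + 1))

theorem lv_lin (a : ℝ) : ∀ (n : ℕ) (f : Cube n → ℝ) (φ ψ : ℕ → ℝ),
    lv n f (fun k => φ k + a * ψ k) = lv n f φ + a * lv n f ψ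
  | 0, _, _, _ => by simp only [lv]; ring
  | n + 1, _, _, _ => by simp only [lv, lv_lin a n]; ring

theorem lv_zero (n : ℕ) (f : Cube n → ℝ) : lv n f (fun _ => 0) = 0 := by
  have := lv_lin 1 n f (fun _ => 0) fun _ => 0
  simp only [mul_zero, add_zero, one_mul] at this
  linarith

theorem lv_zero' : ∀ (n : ℕ) (φ : ℕ → ℝ), lv n (fun _ => 0) φ = 0
  | 0, _ => by simp [lv]
  | n + 1, _ => by
    have e1 : ev (fun _ : Cube (n + 1) => 0) = fun _ => 0 := by funext x; simp [ev]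
    have e2 : od (fun _ : Cube (n + 1) => 0) = fun _ => 0 := by funext x; simp [od]
    simp only [lv, e1, e2, lv_zero' n, add_zero]

theorem lv_pow (ρ : ℝ) : ∀ (n : ℕ) (f : Cube n → ℝ) (c : ℝ),
    lv n f (fun k => c * (ρ ^ 2) ^ k) = c * Ex (fun x => nz ρ n f x ^ 2)
  | 0, _, _ => by simp [lv, Ex_zero, nz]
  | n + 1, f, c => by
    simp only [lv, Ex_sq, ev_nz, od_nz, pow_succ' (ρ ^ 2), ← mul_assoc, lv_pow ρ n, mul_pow, Ex_mul]
    ring

theorem lv_one : ∀ (n : ℕ) (f : Cube n → ℝ), lv n f (fun _ => 1) = Ex (fun x => f x ^ 2)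
  | 0, _ => by simp [lv, Ex_zero]
  | n + 1, f => by simp only [lv, Ex_sq, lv_one n]

theorem lv_ind : ∀ (n : ℕ) (f : Cube n → ℝ), lv n f (fun k => if k = 0 then 1 else 0) = Ex f ^ 2
  | 0, _ => by simp [lv, Ex_zero]
  | n + 1, f => by simp [lv, lv_ind n, lv_zero, Ex_succ f]

noncomputable def Df (i : Fin n) (f : Cube n → ℝ) (x : Cube n) : ℝ :=
  (f (Function.update x i true) - f (Function.update x i false)) / 2

theorem lv_Df : ∀ (n : ℕ) (f : Cube n → ℝ) (φ : ℕ → ℝ),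
    ∑ i, lv n (Df i f) φ = lv n f fun k => k * φ (k - 1)
  | 0, _, _ => by simp [lv]
  | n + 1, f, φ => by
    have e1 : ev (Df 0 f) = od f := by funext x; simp [ev, od, Df]
    have e2 : od (Df 0 f) = fun _ => 0 := by funext x; simp [od, Df]
    have e3 : ∀ j : Fin n, ev (Df j.succ f) = Df j (ev f) := by
      intro j; funext x; simp only [ev, Df, Fin.cons_update]; ring
    have e4 : ∀ j : Fin n, od (Df j.succ f) = Df j (od f) := by
      intro j; funext x; simp only [od, Df, Fin.cons_update]; ring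
    have e5 : (fun k : ℕ => ((k + 1 : ℕ) : ℝ) * φ (k + 1 - 1)) =
        fun k => φ k + 1 * ((k : ℝ) * φ (k - 1 + 1)) := by
      funext k; rcases k with _ | k <;> simp; ring
    rw [Fin.sum_univ_succ]
    simp only [lv, e1, e2, e3, e4, lv_zero', sum_add_distrib, lv_Df n, e5, lv_lin]
    ring

theorem kkl_real (F : Cube n → ℝ) (h1 : ∀ x, F x = 1 ∨ F x = -1) (h0 : Ex F = 0) (K : ℕ)
    (hK : 0 < K) {t : ℝ} (ht : 0 ≤ t) (hI : ∑ i, Ex (fun x => Df i F x ^ 2) ≤ K)
    (hi : ∀ i, Ex (fun x => Df i F x ^ 2) ≤ t ^ 2) : 1 ≤ 2 * 9 ^ K * K * t := by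
  have hρ : 3 * (√(1 / 3) : ℝ) ^ 2 = 1 := by rw [Real.sq_sqrt (by norm_num)]; norm_num
  have hK' : (0 : ℝ) < K := by exact_mod_cast hK
  have key := lv_mono n F (φ := fun _ => 1) (ψ := fun k => ((if k = 0 then 1 else 0) +
    (1 / (2 * K) : ℝ) * (k * 1)) + 9 ^ K * (k * (1 * (√(1 / 3) ^ 2) ^ (k - 1)))) (by
      intro k
      rw [Real.sq_sqrt (by norm_num)]
      rcases k with _ | k
      · simp
      rw [if_neg (by omega), Nat.add_sub_cancel]
      by_cases hk : 2 * K ≤ k + 1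
      · have : (2 * K : ℝ) ≤ (k + 1 : ℕ) := by exact_mod_cast hk
        have a1 : (1 : ℝ) ≤ 1 / (2 * K) * ((k + 1 : ℕ) * 1) := by
          rw [one_div_mul_eq_div, le_div_iff₀ (by positivity)]; linarith
        have a2 : (0 : ℝ) ≤ 9 ^ K * ((k + 1 : ℕ) * (1 * (1 / 3) ^ k)) := by positivity
        linarith
      · have a1 : (0 : ℝ) ≤ 1 / (2 * K) * ((k + 1 : ℕ) * 1) := by positivity
        have a2 : (3 : ℝ) ^ k ≤ 9 ^ K := by
          rw [show (9 : ℝ) = 3 ^ 2 by norm_num, ← pow_mul]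
          exact pow_le_pow_right₀ (by norm_num) (by omega)
        have a3 : (1 : ℝ) ≤ 9 ^ K * (1 / 3) ^ k := by
          rw [one_div, inv_pow, ← div_eq_mul_inv, le_div_iff₀ (by positivity)]; linarith
        have a4 : (1 : ℝ) ≤ (k + 1 : ℕ) := by exact_mod_cast (by omega : 1 ≤ k + 1)
        nlinarith)
  have e1 : Ex (fun x => F x ^ 2) = 1 := by
    have : (fun x => F x ^ 2) = fun _ => 1 := by
      funext x; rcases h1 x with h | h <;> rw [h] <;> norm_num
    simp [this, Ex]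
  rw [lv_lin, lv_lin, lv_one, lv_ind, ← lv_Df n F fun _ => 1,
    ← lv_Df n F fun k => 1 * (√(1 / 3) ^ 2) ^ k, e1, h0] at key
  simp only [lv_one, lv_pow] at key
  simp only [one_mul] at key
  have b1 : ∑ i, Ex (fun x => nz (√(1 / 3)) n (Df i F) x ^ 2) ≤ t * K := by
    refine (sum_le_sum fun i _ => hyper hρ ht _ (fun x => ?_) (hi i)).trans ?_
    · rw [Df]
      rcases h1 (Function.update x i true) with h | h <;>
        rcases h1 (Function.update x i false) with h' | h' <;> rw [h, h'] <;> norm_num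
    · rw [← mul_sum]; exact mul_le_mul_of_nonneg_left hI ht
  have b2 : 1 / (2 * K : ℝ) * ∑ i, Ex (fun x => Df i F x ^ 2) ≤ 1 / 2 := by
    rw [one_div_mul_eq_div, div_le_iff₀ (by positivity)]; linarith
  have b3 := mul_le_mul_of_nonneg_left b1 (show (0 : ℝ) ≤ 9 ^ K by positivity)
  nlinarith

def flip (i : Fin n) (x : Cube n) : Cube n := Function.update x i (!x i)

/-- The number of points where the coordinate `i` is pivotal. -/
def piv (f : Cube n → Bool) (i : Fin n) : ℕ := #{x | f x ≠ f (flip i x)}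

theorem kkl (f : Cube n → Bool) (hf : ∀ x, f (fun i => !x i) = !f x) (K : ℕ) (hK : 0 < K)
    (hI : ∑ i, piv f i ≤ K * 2 ^ n) : ∃ i, 2 ^ n ≤ (3 * 9 ^ K * K) ^ 2 * piv f i := by
  by_contra hc
  push Not at hc
  have e : ∀ i, Ex (fun x => Df i (fun x => if f x then 1 else -1) x ^ 2) = piv f i / 2 ^ n := by
    intro i
    rw [Ex, piv, card_filter]; push_cast
    congr 1
    refine sum_congr rfl fun x _ => ?_
    have e1 : Function.update x i (x i) = x := Function.update_eq_self i x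
    rw [Df, flip]
    cases hx : x i <;> rw [hx] at e1 <;> simp only [e1, Bool.not_false, Bool.not_true] <;>
      cases f x <;> cases f (Function.update x i _) <;> norm_num
  have hK' : (0 : ℝ) < K := by exact_mod_cast hK
  have := kkl_real (fun x => if f x then 1 else -1) (fun x => by cases f x <;> simp) ?_ K hK
    (t := 1 / (3 * 9 ^ K * K)) (by positivity) ?_ ?_
  · rw [mul_one_div, le_div_iff₀ (by positivity)] at this
    have : (0 : ℝ) < 9 ^ K * K := by positivity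
    nlinarith
  · rw [Ex, sum_involution (fun x _ => fun i => !x i), zero_div]
    · intro x _; rw [hf]; cases f x <;> simp
    · intro x _ _ h
      have := hf x
      rw [h] at this; simp at this
    · simp
    · intro x _; funext i; simp
  · simp only [e, ← sum_div]
    rw [div_le_iff₀ (by positivity)]
    exact_mod_cast hI
  · intro i
    rw [e, one_div, inv_pow, ← one_div, div_le_div_iff₀ (by positivity) (by positivity), mul_comm,
      one_mul]
    exact_mod_cast (hc i).le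

end Pool.Agent.P.MP_8a730c_lc
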