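import Pool.Agent.P.MP_8a730c_lc.Code
import Pool.Agent.Lib.NP.Sim

/-! The reduction from small-set expansion to the gap version of crossing number. -/

namespace Pool.Agent.P.MP_8a730c_lc

open Pool.Agent.Lib.NP N487b59b3 N68a2faeb

section
variable (a r n d : ℕ)

def pN : ℕ := (n * a ^ 7) ^ r
def pW : ℕ := r.factorial ^ 2 * (a ^ 4 * d * (n * a ^ 7)) ^ r
def pL : ℕ := a ^ 6 * (64 * pN a r n ^ 2 * pW a r n d)
def pD : ℕ := pN a r n * (pW a r n d * (2 * pL a r n d))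
def pZ : ℕ := 2 * a ^ 15 * (64 * pN a r n ^ 2 * pW a r n d) ^ 3 * pW a r n d * pN a r n
def pV : ℕ := pN a r n * (pL a r n d * pL a r n d) * (pD a r n d * pD a r n d)

theorem pZ_eq : 2 * pL a r n d ^ 3 * pW a r n d * pN a r n = a ^ 3 * pZ a r n d := by
  rw [pL, pZ]; ring

end

def outAdj (a r : ℕ) (A : List (List Bool)) (W L D u v : ℕ) : Bool :=
  adjB W L (wN (a ^ 7) (r / a ^ 4) (a ^ 4) r A (dz L D u).1.1 (dl W L (dz L D u).2.2).1)
    (dz L D u) (dz L D v)

def red (a r : ℕ) (A : List (List Bool)) : List Bool :=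
  delimit (enc ((List.range (pV a r A.length (deg0 A))).map fun u =>
    (List.range (pV a r A.length (deg0 A))).map fun v => outAdj a r A (pW a r A.length (deg0 A))
      (pL a r A.length (deg0 A)) (pD a r A.length (deg0 A)) u v)) ++
    Computability.encodeNat (1585 * pZ a r A.length (deg0 A) ^ 2)

theorem pt_red (a r : ℕ) : PT (red a r) := by
  have hN : PT fun A : List (List Bool) => pN a r A.length := by unfold pN; fun_prop
  have hW : PT fun A : List (List Bool) => pW a r A.length (deg0 A) := by unfold pW; fun_prop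
  have hL : PT fun A : List (List Bool) => pL a r A.length (deg0 A) :=
    (PT.const _).mul (((PT.const _).mul (hN.pow 2)).mul hW)
  have hD : PT fun A : List (List Bool) => pD a r A.length (deg0 A) :=
    hN.mul (hW.mul ((PT.const _).mul hL))
  have hZ : PT fun A : List (List Bool) => pZ a r A.length (deg0 A) :=
    (((PT.const _).mul ((((PT.const _).mul (hN.pow 2)).mul hW).pow 3)).mul hW).mul hN
  have hV : PT fun A : List (List Bool) => pV a r A.length (deg0 A) :=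
    (hN.mul (hL.mul hL)).mul (hD.mul hD)
  have h1 : PT fun p : (List (List Bool) × ℕ × ℕ × ℕ) × ℕ × ℕ =>
      outAdj a r p.1.1 p.1.2.1 p.1.2.2.1 p.1.2.2.2 p.2.1 p.2.2 := by
    unfold outAdj; fun_prop
  have h2 : PT fun p : (List (List Bool) × ℕ × ℕ × ℕ) × ℕ =>
      (List.range p.2).map fun u => (List.range p.2).map fun v =>
        outAdj a r p.1.1 p.1.2.1 p.1.2.2.1 p.1.2.2.2 u v := by
    refine PT.map (PT.map ?_ (by fun_prop)) (by fun_prop)
    have := h1.comp (g := fun p : (((List (List Bool) × ℕ × ℕ × ℕ) × ℕ) × ℕ) × ℕ =>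
      (p.1.1.1, p.1.2, p.2)) (by fun_prop)
    exact this
  have h3 := h2.comp ((PT.id'.mk (hW.mk (hL.mk hD))).mk hV)
  exact h3.enc'.delimit'.append ((PT.const _).mul (hZ.pow 2)).encodeNat

variable {a r n d : ℕ}

/-- The output graph. -/
noncomputable def outG (a r : ℕ) (G : SimpleGraph (Fin n)) (d : ℕ) [NeZero (pD a r n d)] :
    SimpleGraph (Fin (pV a r n d)) :=
  (rook (n := pD a r n d) (iw G d (r / a ^ 4) (a ^ 4)) iw_symm
    (labE (xE n (a ^ 7) r) (pW a r n d) (pL a r n d))).graph.comap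
    (verE (xE n (a ^ 7) r) (pL a r n d) (pD a r n d))

theorem red_eq (G : SimpleGraph (Fin n)) (hn : 0 < n) (hd : ∀ v, (G.neighborSet v).ncard = d)
    [NeZero (pD a r n d)] :
    red a r (adjMatrix G) = bitEncode (adjMatrix (outG a r G d), 1585 * pZ a r n d ^ 2) := by
  have : NeZero ((n * a ^ 7) ^ r * (pW a r n d * (2 * pL a r n d))) := ‹NeZero (pD a r n d)›
  rw [red, adjMatrix_length, deg0_eq G hn hd, adjMatrix_eq (outG a r G d)
    (outAdj a r (adjMatrix G) (pW a r n d) (pL a r n d) (pD a r n d))]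
  · rfl
  intro i j
  refine (adjB_iff (xE n (a ^ 7) r) iw_symm _ _).trans ?_
  have e1 := dz_eq (xE n (a ^ 7) r) (L := pL a r n d) (D := pD a r n d) i
  have e2 := dz_eq (xE n (a ^ 7) r) (L := pL a r n d) (D := pD a r n d) j
  have e3 := dl_eq (xE n (a ^ 7) r) (L := pL a r n d) (W := pW a r n d)
    (verE (xE n (a ^ 7) r) (pL a r n d) (pD a r n d) i).2.2
  rw [outAdj, e1, e2, e3]
  simp only [zN, lN]
  rw [wN_eq G hn hd, Equiv.apply_symm_apply, Equiv.apply_symm_apply]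

theorem pD_ne (ha : 0 < a) (hn : 0 < n) (hd : 0 < d) : NeZero (pD a r n d) :=
  ⟨by unfold pD pL pW pN; positivity⟩

theorem outG_deg (G : SimpleGraph (Fin n)) [NeZero (pD a r n d)] (v) :
    ((outG a r G d).neighborSet v).ncard ≤ 4 :=
  (deg_comap _ (verE (xE n (a ^ 7) r) (pL a r n d) (pD a r n d)) v).trans_le (Rot.deg_le _ _)

theorem expansion_le {G : SimpleGraph (Fin n)} {S : Finset (Fin n)} (hd : 0 < d) (hS : 0 < S.card)
    {η : ℚ} : expansion G d S ≤ η ↔ ee G S Sᶜ ≤ η * (d * S.card) := by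
  rw [expansion, div_le_iff₀ (by positivity), ← card_interedges]
  exact_mod_cast Iff.rfl

theorem le_expansion {G : SimpleGraph (Fin n)} {S : Finset (Fin n)} (hd : 0 < d) (hS : 0 < S.card)
    {η : ℚ} : 1 - η ≤ expansion G d S ↔ (1 - η) * (d * S.card) ≤ ee G S Sᶜ := by
  rw [expansion, le_div_iff₀ (by positivity), ← card_interedges]
  exact_mod_cast Iff.rfl

theorem K5_mem (c : ℝ) : bitEncode (adjMatrix (⊤ : SimpleGraph (Fin 5)), 0) ∈ CrNo 4 c := by
  refine ⟨5, ⊤, 0, rfl, fun v => ?_, ?_⟩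
  · rw [SimpleGraph.neighborSet_top, Set.ncard_compl]; simp
  · obtain ⟨D, hD⟩ := exists_optimal (⊤ : SimpleGraph (Fin 5))
    have := D.K5_pos
    rw [hD] at this
    simpa using this

theorem sse_reduces (c : ℝ) : ∃ η : ℚ, 0 < η ∧ η < 1 / 2 ∧ ∀ δ : ℚ, 0 < δ → δ ≤ 1 / 2 →
    Reduces (SSEyes η δ) (SSEno η δ) (CrYes 4) (CrNo 4 c) := by
  obtain ⟨C, hC⟩ : ∃ C : ℕ, C = 3 * (1 + 1585 * ⌈c⌉₊) := ⟨_, rfl⟩
  obtain ⟨a, ha⟩ : ∃ a : ℕ, a = 4000000 * (128 * C) ^ 3 := ⟨_, rfl⟩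
  obtain ⟨j, hj⟩ : ∃ j : ℕ, j = 3072 * a ^ 10 * (2048 * (16000000 * (128 * C * a)) * a ^ 4) :=
    ⟨_, rfl⟩
  obtain ⟨M, hM⟩ : ∃ M : ℕ, M = 64000000 * (128 * C * a) * a * j ^ 2 + a ^ 4 + 3 := ⟨_, rfl⟩
  have hC1 : 1 ≤ C := by omega
  have ha0 : 0 < a := by rw [ha]; positivity
  have hM3 : (3 : ℚ) ≤ M := by exact_mod_cast (by omega : 3 ≤ M)
  have hM0 : (0 : ℝ) < M := by exact_mod_cast (by omega : 0 < M)
  have hη : (((1 / M : ℚ)) : ℝ) = 1 / M := by push_cast; rfl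
  refine ⟨1 / M, by positivity, one_div_lt_one_div_of_lt two_pos (by linarith),
    fun δ hδ0 hδ1 => ?_⟩
  have hδ0' : (0 : ℝ) < δ := by exact_mod_cast hδ0
  have hδ1' : (δ : ℝ) ≤ 1 := by exact_mod_cast hδ1.trans (by norm_num)
  obtain ⟨r, hr1, hr2⟩ : ∃ r : ℕ, (a : ℝ) ≤ r * δ ∧ (r * δ : ℝ) ≤ 2 * a := by
    refine ⟨⌈(a : ℝ) / δ⌉₊, (div_le_iff₀ hδ0').1 (Nat.le_ceil _), ?_⟩
    have h1 := (Nat.ceil_lt_add_one (show (0 : ℝ) ≤ a / δ by positivity)).le
    have h2 := mul_le_mul_of_nonneg_right h1 hδ0'.le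
    have h3 : (1 : ℝ) ≤ a := by exact_mod_cast ha0
    rw [add_mul, div_mul_cancel₀ _ hδ0'.ne'] at h2
    linarith
  obtain ⟨dec, hdec, hdec'⟩ := HasDec.bool.list.list
  have hdec2 : ∀ {n : ℕ} (G : SimpleGraph (Fin n)), dec (bitEncode (adjMatrix G)) = adjMatrix G :=
    fun G => hdec' _
  have hpt := (pt_red a r).comp hdec
  have small : ∀ n k : ℕ, (k : ℝ) = δ * n → (n ≤ ⌊1 / (δ : ℝ)⌋₊ ↔ k ≤ 1) := by
    intro n k h
    rw [Nat.le_floor_iff (by positivity), le_div_iff₀ hδ0', mul_comm, ← h]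
    exact_mod_cast Iff.rfl
  refine ⟨fun x => if (dec x).length ≤ ⌊1 / (δ : ℝ)⌋₊ then
    bitEncode (adjMatrix (⊤ : SimpleGraph (Fin 5)), 0) else red a r (dec x),
    (PT.ite (by fun_prop) (PT.const _) hpt).isPolyTime_fun, ?_, ?_⟩
  · rintro x ⟨n, G, d, k, rfl, hd0, hd, hk0, hk, S, rfl, hS⟩
    have hk' : (S.card : ℝ) = δ * n := by exact_mod_cast hk
    rw [expansion_le hd0 hk0, hη] at hS
    have hn : 0 < n := by obtain ⟨v, -⟩ := Finset.card_pos.1 hk0; exact v.pos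
    have := pD_ne (r := r) ha0 hn hd0
    simp only [hdec2, adjMatrix_length]
    rw [if_neg, red_eq G hn hd]
    · refine ⟨_, _, _, rfl, outG_deg G, asm_yes _ _ hd hd0 hn ha0 hr1 hr2 rfl rfl rfl rfl
        (pZ_eq a r n d) hδ1' (by positivity) ?_ S hk' hS⟩
      refine one_div_le_one_div_of_le (by positivity) ?_
      exact_mod_cast (by omega : a ^ 4 ≤ M)
    · rw [small n _ hk']
      intro h
      obtain ⟨v, rfl⟩ := Finset.card_eq_one.1 (le_antisymm h hk0)
      have h1 := ee_add hd {v}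
      have h2 : ee G {v} {v} = 0 := by simp [ee]
      have h3 : (1 / M : ℝ) < 1 := by
        rw [div_lt_one hM0]; exact_mod_cast (by omega : 1 < M)
      have h4 : (0 : ℝ) < d * ({v} : Finset (Fin n)).card := by positivity
      nlinarith
  · rintro x ⟨n, G, d, k, rfl, hd0, hd, hk0, hk, hS⟩
    have hk' : (k : ℝ) = δ * n := by exact_mod_cast hk
    have hkn : k ≤ n := by
      have : (k : ℝ) ≤ n := by rw [hk']; exact mul_le_of_le_one_left (by positivity) hδ1'
      exact_mod_cast this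
    have hn : 0 < n := by omega
    have := pD_ne (r := r) ha0 hn hd0
    simp only [hdec2, adjMatrix_length]
    by_cases h : n ≤ ⌊1 / (δ : ℝ)⌋₊
    · rw [if_pos h]; exact K5_mem c
    rw [if_neg h, red_eq G hn hd]
    rw [small n k hk'] at h
    refine ⟨_, _, _, rfl, outG_deg G, ?_⟩
    have main := asm_no (D := pD a r n d) (labE (xE n (a ^ 7) r) (pW a r n d) (pL a r n d))
      (verE (xE n (a ^ 7) r) (pL a r n d) (pD a r n d)) hd hd0 hn ha0 hr1 hr2 rfl rfl rfl rfl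
      (pZ_eq a r n d) hC1 ha.ge hj.ge (η := 1 / M) (by positivity) (by
        rw [mul_one_div, div_le_one hM0]
        exact_mod_cast (by omega : 64000000 * (128 * C * a) * a * j ^ 2 ≤ M)) (by omega) hkn hk'
      fun S hS' => by
        have := (le_expansion hd0 (hS' ▸ hk0)).1 (hS S hS')
        rwa [hη, hS'] at this
    have b1 : ⌈c⌉₊ * (1585 * pZ a r n d ^ 2) < cr (outG a r G d) := by
      have b2 := Nat.mul_le_mul_right (pZ a r n d ^ 2) (Nat.le_self_pow two_ne_zero C)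
      have b3 := b2.trans_lt main
      rw [hC] at b3
      change _ < 3 * (_ + cr (outG a r G d)) at b3
      nlinarith
    refine lt_of_le_of_lt (mul_le_mul_of_nonneg_right (Nat.le_ceil c) (by positivity)) ?_
    exact_mod_cast b1

theorem NPHard.trans {Y N Y' N' : Set (List Bool)} (h : NPHard Y N) (h' : Reduces Y N Y' N') :
    NPHard Y' N' := by
  intro L hL
  obtain ⟨f, hf, f1, f2⟩ := h L hL
  obtain ⟨g, hg, g1, g2⟩ := h'
  exact ⟨fun x => g (f x), ((PT.of_isPolyTime hg).comp (PT.of_isPolyTime hf)).isPolyTime_fun,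
    fun x hx => g1 _ (f1 x hx), fun x hx => g2 _ (f2 x hx)⟩

end Pool.Agent.P.MP_8a730c_lc
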