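import Pool.Agent.P.MP_8a730c_lc.Bessel

/-! The soundness theorem: balanced functions with small fibre variances are noise sensitive. -/

set_option linter.unusedSectionVars false

namespace Pool.Agent.P.MP_8a730c_lc

open Matrix Finset

noncomputable def phi (x : ℝ) : ℝ := max 0 (min 1 (2 * x - 1 / 2))

theorem phi_cases (x : ℝ) : (x ≤ 1 / 4 ∧ phi x = 0) ∨ (3 / 4 ≤ x ∧ phi x = 1) ∨
    (1 / 4 ≤ x ∧ x ≤ 3 / 4 ∧ phi x = 2 * x - 1 / 2) := by
  unfold phi
  rcases le_total x (1 / 4) with h | h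
  · left; exact ⟨h, max_eq_left ((min_le_right _ _).trans (by linarith))⟩
  rcases le_total (3 / 4) x with h' | h'
  · right; left; exact ⟨h', by rw [min_eq_left (by linarith)]; simp⟩
  · right; right; exact ⟨h, h', by rw [min_eq_right (by linarith), max_eq_right (by linarith)]⟩

theorem phi_lip (x y : ℝ) : |phi x - phi y| ≤ 2 * |x - y| := by
  have h1 := le_abs_self (x - y)
  have h2 := neg_abs_le (x - y)
  rw [abs_le]
  rcases phi_cases x with a | a | a <;> rcases phi_cases y with b | b | b <;>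
    constructor <;> linarith [a.1, a.2, b.1, b.2, abs_nonneg (x - y)]

theorem phi_off {x y : ℝ} (hx : ¬ (1 / 8 ≤ x ∧ x ≤ 7 / 8)) (h : |x - y| ≤ 1 / 8) :
    phi x = phi y := by
  rw [abs_le] at h
  rw [not_and_or, not_le, not_le] at hx
  rcases hx with hx | hx <;> rcases phi_cases x with a | a | a <;>
    rcases phi_cases y with b | b | b <;> linarith [a.1, a.2, b.1, b.2, h.1, h.2]

theorem phi_abs (x : ℝ) : |phi x| ≤ 1 := by
  rw [abs_le]
  rcases phi_cases x with a | a | a <;> constructor <;> linarith [a.1, a.2]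

theorem phi_near {x f : ℝ} (x0 : 0 ≤ x) (x1 : x ≤ 1) (f0 : 0 ≤ f) (f1 : f ≤ 1) :
    |phi x - x| ≤ f * (1 - x) + (1 - f) * x ∧
      phi x - phi x ^ 2 ≤ f * (1 - x) + (1 - f) * x ∧
      (1 / 8 ≤ x ∧ x ≤ 7 / 8 → 1 ≤ 8 * (f * (1 - x) + (1 - f) * x)) := by
  have h1 : min x (1 - x) ≤ f * (1 - x) + (1 - f) * x := by
    have a := min_le_left x (1 - x)
    have b := min_le_right x (1 - x)
    nlinarith
  generalize f * (1 - x) + (1 - f) * x = c at h1
  rw [abs_le]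
  rcases min_le_iff.1 (le_refl (min x (1 - x))) with - | -
  all_goals
    rcases le_total x (1 - x) with h | h
    · rw [min_eq_left h] at h1
      rcases phi_cases x with a | a | ⟨a1, a2, a3⟩
      · rw [a.2]; exact ⟨⟨by linarith, by linarith⟩, by linarith, fun h => by linarith [h.1]⟩
      · linarith [a.1]
      · exact ⟨⟨by linarith, by linarith⟩, by nlinarith [sq_nonneg (phi x - 1 / 2)],
          fun h => by linarith⟩
    · rw [min_eq_right h] at h1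
      rcases phi_cases x with a | a | ⟨a1, a2, a3⟩
      · linarith [a.1]
      · rw [a.2]; exact ⟨⟨by linarith, by linarith⟩, by linarith, fun h => by linarith [h.2]⟩
      · exact ⟨⟨by linarith, by linarith⟩, by nlinarith [sq_nonneg (phi x - 1 / 2)],
          fun h => by linarith⟩

theorem geom_bound {ρ : ℝ} (h0 : 0 ≤ ρ) (h1 : ρ ≤ 1) (n : ℕ) :
    (1 - ρ) * (n * ρ ^ n) ≤ 1 - ρ ^ n := by
  induction n with
  | zero => simp
  | succ n ih =>
    have a1 : ρ ^ (n + 1) ≤ 1 := pow_le_one₀ h0 h1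
    have a2 := mul_le_mul_of_nonneg_left ih h0
    have a3 := mul_le_mul_of_nonneg_left a1 (sub_nonneg.2 h1)
    rw [pow_succ] at *
    push_cast
    nlinarith

variable {ι Ξ : Type} [Fintype ι] [DecidableEq ι] [Fintype Ξ] [DecidableEq Ξ] [Nonempty Ξ]

/-- The noisy version of a kernel. -/
noncomputable def noisy (ε : ℝ) (P : Matrix Ξ Ξ ℝ) : Matrix Ξ Ξ ℝ :=
  (1 - ε) • P + (1 - (1 - ε)) • JJ Ξ

theorem ten_noisy {P : Matrix Ξ Ξ ℝ} (hP : DS P) (ε : ℝ) :
    ten (fun _ : ι => noisy ε P) = TT (1 - ε) * ten fun _ => P := by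
  rw [TT, dg, ten_mul]
  congr 1; funext i
  simp only [noisy, LL, Matrix.add_mul, Matrix.smul_mul, Matrix.sub_mul, hP.JJ_mul, Matrix.one_mul]
  module

theorem LT_comm {K : ι → Matrix Ξ Ξ ℝ} (h : ∀ i, DS (K i)) (i : ι) :
    LT 1 i * ten K = ten K * LT 1 i := by
  rw [LT_one, ten_mul, ten_mul]
  congr 1; funext k
  split_ifs
  · exact (h k).LL_comm
  · simp

theorem influence_le {P : Matrix Ξ Ξ ℝ} (hP : DS P) {ε : ℝ} (h0 : 0 ≤ ε) (h1 : ε ≤ 1)
    (f : (ι → Ξ) → ℝ) :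
    ε * ∑ i, ∑ u, (LT 1 i *ᵥ (ten (fun _ : ι => noisy ε P) *ᵥ f)) u ^ 2 ≤
      ∑ u, f u ^ 2 - f ⬝ᵥ ten (fun _ : ι => noisy ε P) *ᵥ f := by
  have r0 : 0 ≤ 1 - ε := by linarith
  have r1 : 1 - ε ≤ 1 := by linarith
  have e1 : ∀ i : ι, ∑ u, (LT 1 i *ᵥ (ten (fun _ : ι => noisy ε P) *ᵥ f)) u ^ 2 =
      (ten (fun _ : ι => P) *ᵥ f) ⬝ᵥ LT ((1 - ε) * (1 - ε)) i *ᵥ (ten (fun _ : ι => P) *ᵥ f) := by
    intro i
    rw [ten_noisy hP, ← mulVec_mulVec, mulVec_mulVec _ (LT 1 i), LT_TT, one_mul, sum_sq_mulVec,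
      LT_transpose, LT_mul]
  have e2 : f ⬝ᵥ ten (fun _ : ι => noisy ε P) *ᵥ f ≤
      ∑ S : Finset ι, (1 - ε) ^ S.card * wt S f := by
    rw [ten_noisy hP, TT, dg_eq, Matrix.sum_mul, sum_mulVec, dotProduct_sum]
    refine Finset.sum_le_sum fun S _ => ?_
    rw [coef_T, Matrix.smul_mul, smul_mulVec, dotProduct_smul, smul_eq_mul]
    exact mul_le_mul_of_nonneg_left (dot_pr_ten_le (fun _ => hP) S f) (by positivity)
  simp only [e1]
  rw [sum_dot_LT, ← sum_wt, Finset.mul_sum]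
  refine le_trans ?_ (sub_le_sub_left e2 _)
  rw [← Finset.sum_sub_distrib]
  refine Finset.sum_le_sum fun S _ => ?_
  have a1 := wt_ten_le (fun _ : ι => hP) S f
  have a2 := wt_nonneg S (ten (fun _ : ι => P) *ᵥ f)
  have a3 := geom_bound r0 r1 S.card
  have a4 : ((1 - ε) * (1 - ε)) ^ S.card ≤ (1 - ε) ^ S.card :=
    pow_le_pow_left₀ (by positivity) (by nlinarith) _
  have a5 : ε * (S.card * ((1 - ε) * (1 - ε)) ^ S.card) ≤ 1 - (1 - ε) ^ S.card := by
    refine le_trans ?_ a3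
    rw [sub_sub_cancel]; gcongr
  calc _ = ε * (S.card * ((1 - ε) * (1 - ε)) ^ S.card) * wt S (ten (fun _ : ι => P) *ᵥ f) := by ring
    _ ≤ (1 - (1 - ε) ^ S.card) * wt S f :=
        mul_le_mul a5 a1 a2 (sub_nonneg.2 (pow_le_one₀ r0 r1))
    _ = _ := by ring

theorem sum_sq_LT (F : (ι → Ξ) → ℝ) :
    ∑ i, ∑ u, (LT 1 i *ᵥ F) u ^ 2 = ∑ S : Finset ι, S.card * wt S F := by
  simp only [sum_sq_mulVec, LT_transpose, LT_mul, sum_dot_LT, one_pow, mul_one]

theorem poincare {k : ℝ} (hk : 1 ≤ k) (F : (ι → Ξ) → ℝ) :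
    ∑ u, F u ^ 2 - (∑ u, F u) ^ 2 / Fintype.card (ι → Ξ) ≤
      (∑ i, ∑ u, (LT 1 i *ᵥ F) u ^ 2) / k +
        ∑ u, ∑ i, (LT 1 i *ᵥ F) u * (LT (1 - 1 / k) i *ᵥ F) u := by
  have e : ∀ i : ι, ∑ u, (LT 1 i *ᵥ F) u * (LT (1 - 1 / k) i *ᵥ F) u =
      F ⬝ᵥ LT (1 - 1 / k) i *ᵥ F := by
    intro i
    have : LT (Ξ := Ξ) (1 - 1 / k) i = (LT 1 i)ᵀ * LT (1 - 1 / k) i := by
      rw [LT_transpose, LT_mul, one_mul]
    conv_rhs => rw [this, ← mulVec_mulVec, dotProduct_mulVec, vecMul_transpose]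
    rfl
  rw [Finset.sum_comm (f := fun u i => (LT 1 i *ᵥ F) u * (LT (1 - 1 / k) i *ᵥ F) u)]
  simp only [e]
  rw [sum_dot_LT, sum_sq_LT, ← sum_wt, ← wt_empty, Finset.sum_div, ← Finset.sum_add_distrib]
  have e2 : wt ∅ F = ∑ S : Finset ι, if S = ∅ then wt S F else 0 := by simp
  rw [e2, ← Finset.sum_sub_distrib]
  refine Finset.sum_le_sum fun S _ => ?_
  have a1 := wt_nonneg S F
  have hk0 : 0 < k := by linarith
  have a0 : 1 / k ≤ 1 := (div_le_one hk0).2 hk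
  split_ifs with h
  · simp [h]
  · have a2 : (1 : ℝ) ≤ S.card := by
      exact_mod_cast Finset.card_pos.2 (Finset.nonempty_iff_ne_empty.2 h)
    have a3 := one_add_mul_le_pow (a := -(1 / k)) (by linarith) S.card
    have a4 : 0 ≤ (1 - 1 / k) ^ S.card := pow_nonneg (by linarith) _
    rw [← sub_eq_add_neg] at a3
    have a5 : 1 ≤ S.card / k + S.card * (1 - 1 / k) ^ S.card := by
      have : (S.card : ℝ) / k = S.card * (1 / k) := by ring
      nlinarith
    calc wt S F - 0 = 1 * wt S F := by ring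
      _ ≤ (S.card / k + S.card * (1 - 1 / k) ^ S.card) * wt S F := by gcongr
      _ = _ := by ring

theorem big_small {P : Matrix Ξ Ξ ℝ} (hP : DS P) {ε s β γ θ : ℝ} (h0 : 0 ≤ ε) (h1 : ε ≤ 1)
    (hS : SmallSet P s β) (hθ0 : 0 < θ) (hθ1 : θ ≤ 1) (hs : 1024 * γ ≤ s * θ) (i : ι)
    (a : (ι → Ξ) → ℝ) (ha : ∀ u, |a u| ≤ 1)
    (hγ : ∀ u, ∑ ξ, a (Function.update u i ξ) ^ 2 ≤ γ * Fintype.card Ξ) :
    ∑ u, (ten (fun _ : ι => noisy ε P) *ᵥ fun v => big (a v)) u ^ 2 ≤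
      (1024 * θ * γ + β) * Fintype.card (ι → Ξ) := by
  have hn : (0 : ℝ) < Fintype.card Ξ := by exact_mod_cast Fintype.card_pos
  have e : ten (fun _ : ι => noisy ε P) =
      ten (fun k => if k = i then noisy ε 1 else noisy ε P) *
        ten fun k => if k = i then P else 1 := by
    rw [ten_mul]
    congr 1; funext k
    split_ifs
    · simp only [noisy, Matrix.add_mul, Matrix.smul_mul, hP.JJ_mul, Matrix.one_mul]
    · simp
  have hM : DS (ten fun k : ι => if k = i then noisy ε (1 : Matrix Ξ Ξ ℝ) else noisy ε P) :=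
    ds_ten fun k => by
      split_ifs
      · exact ds_one.convex ds_JJ (by linarith) (by linarith)
      · exact hP.convex ds_JJ (by linarith) (by linarith)
  rw [e, ← mulVec_mulVec]
  refine (hM.sum_sq_le _).trans (le_of_mul_le_mul_left ?_ hn)
  rw [← sum_update i]
  calc _ ≤ ∑ _u : ι → Ξ, (1024 * θ * γ + β) * Fintype.card Ξ := by
        refine Finset.sum_le_sum fun u _ => ?_
        simp only [ten_single, Function.update_self, Function.update_idem]
        exact fibre_small hP hS hθ0 hθ1 hs (fun ξ => a (Function.update u i ξ)) (fun _ => ha _)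
          (hγ u)
    _ = _ := by simp; ring

theorem sound {P : Matrix Ξ Ξ ℝ} (hP : DS P) {K ε s β γ θ : ℝ} (hK : 1 ≤ K) (hε : 0 < ε)
    (hε2 : 4000000 * K ^ 3 * ε ≤ 1) (hS : SmallSet P s β) (hθ0 : 0 < θ) (hθ1 : θ ≤ 1)
    (hs : 1024 * γ ≤ s * θ) (hκ : 16000000 * K * (Fintype.card ι * (1024 * θ * γ + β)) ≤ 1)
    (f : (ι → Ξ) → ℝ) (f0 : ∀ u, 0 ≤ f u) (f1 : ∀ u, f u ≤ 1)
    (hγ : ∀ i u, ∑ ξ, (LT 1 i *ᵥ f) (Function.update u i ξ) ^ 2 ≤ γ * Fintype.card Ξ)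
    (m0 : (Fintype.card (ι → Ξ) : ℝ) ≤ 5 * ∑ u, f u)
    (m1 : 5 * ∑ u, f u ≤ 4 * Fintype.card (ι → Ξ)) :
    K * ε * Fintype.card (ι → Ξ) < 2 * (∑ u, f u - f ⬝ᵥ ten (fun _ : ι => noisy ε P) *ᵥ f) := by
  classical
  by_contra hD
  rw [not_lt] at hD
  have hN : (0 : ℝ) < Fintype.card (ι → Ξ) := by exact_mod_cast Fintype.card_pos
  have hn : (0 : ℝ) < Fintype.card Ξ := by exact_mod_cast Fintype.card_pos
  set N : ℝ := (Fintype.card (ι → Ξ) : ℝ) with hNdef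
  have hK3 : K ≤ K ^ 3 := le_self_pow₀ hK (by norm_num)
  have hKε : 4000000 * (K * ε) ≤ 1 := by nlinarith
  have hε1 : ε ≤ 1 := by nlinarith
  have hnP : DS (noisy ε P) := hP.convex ds_JJ (by linarith) (by linarith)
  have hM : DS (ten fun _ : ι => noisy ε P) := ds_ten fun _ => hnP
  set M := ten fun _ : ι => noisy ε P with hMdef
  set h := M *ᵥ f with hh
  have h0 : ∀ u, 0 ≤ h u := hM.ge_of_ge f0
  have h1 : ∀ u, h u ≤ 1 := hM.le_of_le f1
  have hsum : ∑ u, h u = ∑ u, f u := hM.sum_mulVec f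
  have hcut : ∑ u, (f u * (1 - h u) + (1 - f u) * h u) ≤ K * ε * N := by
    refine le_trans (le_of_eq ?_) hD
    have : ∑ u, (f u * (1 - h u) + (1 - f u) * h u) = ∑ u, f u + ∑ u, h u - 2 * (f ⬝ᵥ h) := by
      rw [dotProduct, Finset.mul_sum, ← Finset.sum_add_distrib, ← Finset.sum_sub_distrib]
      exact Finset.sum_congr rfl fun u _ => by ring
    rw [this, hsum]; ring
  have hI : ∑ i, ∑ u, (LT 1 i *ᵥ h) u ^ 2 ≤ K * N / 2 := by
    have a1 := influence_le (ι := ι) hP hε.le hε1 f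
    have a2 : ∑ u, f u ^ 2 ≤ ∑ u, f u := Finset.sum_le_sum fun u _ => by nlinarith [f0 u, f1 u]
    refine le_of_mul_le_mul_left ?_ hε
    linarith
  set F : (ι → Ξ) → ℝ := fun u => phi (h u) with hF
  have hdiff : ∀ i u ξ, h u - h (Function.update u i ξ) =
      (LT 1 i *ᵥ h) u - (LT 1 i *ᵥ h) (Function.update u i ξ) := by
    intro i u ξ
    simp only [LT_one_apply, Function.update_idem]; ring
  have hIF : ∑ i, ∑ u, (LT 1 i *ᵥ F) u ^ 2 ≤ 8 * K * N := by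
    refine (Finset.sum_le_sum fun i _ => lip_sum i F (LT 1 i *ᵥ h) 2 Finset.univ
      fun u _ ξ => ?_).trans ?_
    · rw [← hdiff]; exact phi_lip _ _
    · rw [← Finset.mul_sum]; linarith
  set mid := Finset.univ.filter fun u => 1 / 8 ≤ h u ∧ h u ≤ 7 / 8 with hmid
  have hmidc : (mid.card : ℝ) ≤ 8 * (K * ε * N) := by
    refine le_trans ?_ (mul_le_mul_of_nonneg_left hcut (by norm_num))
    rw [Finset.mul_sum, Finset.card_eq_sum_ones, Nat.cast_sum, Nat.cast_one]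
    refine (Finset.sum_le_sum fun u hu => (phi_near (h0 u) (h1 u) (f0 u) (f1 u)).2.2
      (Finset.mem_filter.1 hu).2).trans
      (Finset.sum_le_sum_of_subset_of_nonneg (Finset.subset_univ _) fun u _ _ => ?_)
    have := mul_nonneg (f0 u) (sub_nonneg.2 (h1 u))
    have := mul_nonneg (sub_nonneg.2 (f1 u)) (h0 u)
    linarith
  have hLf : ∀ i u, |(LT 1 i *ᵥ f) u| ≤ 1 := by
    intro i u
    rw [LT_one_apply, abs_le]
    have a1 : 0 ≤ (∑ ξ, f (Function.update u i ξ)) / Fintype.card Ξ :=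
      div_nonneg (Finset.sum_nonneg fun _ _ => f0 _) hn.le
    have a2 : (∑ ξ, f (Function.update u i ξ)) / Fintype.card Ξ ≤ 1 := by
      rw [div_le_one hn]
      simpa using Finset.sum_le_sum (s := Finset.univ) fun ξ _ => f1 (Function.update u i ξ)
    constructor <;> linarith [f0 u, f1 u]
  have hoff : ∑ i, ∑ u ∈ midᶜ, (LT 1 i *ᵥ F) u ^ 2 ≤
      64 * (Fintype.card ι * (1024 * θ * γ + β)) * N := by
    have key : ∀ i, ∑ u ∈ midᶜ, (LT 1 i *ᵥ F) u ^ 2 ≤ 64 * ((1024 * θ * γ + β) * N) := by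
      intro i
      have hsm : ∀ u, |(LT 1 i *ᵥ h) u - (M *ᵥ fun v => big ((LT 1 i *ᵥ f) v)) u| ≤ 1 / 32 := by
        intro u
        have : LT 1 i *ᵥ h = M *ᵥ (LT 1 i *ᵥ f) := by
          rw [hh, mulVec_mulVec, mulVec_mulVec, hMdef, LT_comm fun _ => hnP]
        rw [this, ← Pi.sub_apply, ← mulVec_sub]
        exact hM.abs_le (fun v => abs_sub_big _) u
      refine (lip_sum i F (M *ᵥ fun v => big ((LT 1 i *ᵥ f) v)) 4 midᶜ fun u hu ξ => ?_).trans ?_
      · have hu' : ¬ (1 / 8 ≤ h u ∧ h u ≤ 7 / 8) := by simpa [hmid] using hu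
        by_cases hc : |h u - h (Function.update u i ξ)| ≤ 1 / 8
        · simp only [hF, phi_off hu' hc, sub_self, abs_zero]; positivity
        · refine (phi_lip _ _).trans ?_
          rw [hdiff i] at hc ⊢
          have a1 := hsm u
          have a2 := hsm (Function.update u i ξ)
          generalize (LT 1 i *ᵥ h) u = x1 at *
          generalize (LT 1 i *ᵥ h) (Function.update u i ξ) = x2 at *
          generalize (M *ᵥ fun v => big ((LT 1 i *ᵥ f) v)) u = y1 at *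
          generalize (M *ᵥ fun v => big ((LT 1 i *ᵥ f) v)) (Function.update u i ξ) = y2 at *
          have a3 : |x1 - x2| ≤ |y1 - y2| + 1 / 16 := by
            rw [abs_le] at a1 a2 ⊢
            constructor <;> linarith [le_abs_self (y1 - y2), neg_abs_le (y1 - y2)]
          linarith
      · have := big_small hP hε.le hε1 hS hθ0 hθ1 hs i _ (hLf i) (hγ i)
        linarith
    refine (Finset.sum_le_sum fun i _ => key i).trans (le_of_eq ?_)
    simp; ring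
  have hvar : 14 / 100 * N ≤ ∑ u, F u ^ 2 - (∑ u, F u) ^ 2 / N := by
    have a1 : ∑ u, F u - ∑ u, F u ^ 2 ≤ K * ε * N := by
      rw [← Finset.sum_sub_distrib]
      exact (Finset.sum_le_sum fun u _ => (phi_near (h0 u) (h1 u) (f0 u) (f1 u)).2.1).trans hcut
    have a2 : |∑ u, F u - ∑ u, f u| ≤ K * ε * N := by
      rw [← hsum, ← Finset.sum_sub_distrib]
      exact (Finset.abs_sum_le_sum_abs _ _).trans
        ((Finset.sum_le_sum fun u _ => (phi_near (h0 u) (h1 u) (f0 u) (f1 u)).1).trans hcut)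
    rw [abs_le] at a2
    have a3 : K * ε * N ≤ N / 100 := by nlinarith
    have a4 : (∑ u, F u) ^ 2 / N ≤ ∑ u, F u - 15 / 100 * N := by
      rw [div_le_iff₀ hN]
      nlinarith [mul_nonneg (show 0 ≤ ∑ u, F u - 19 / 100 * N by linarith)
        (show 0 ≤ 81 / 100 * N - ∑ u, F u by linarith)]
    linarith
  have hk : (1 : ℝ) ≤ 200 * K := by linarith
  have hp := poincare hk F
  have hk0 : (0 : ℝ) < 200 * K := by linarith
  have hb : ∀ θ' : ℝ, 0 < θ' → ∀ u, ∑ i, (LT 1 i *ᵥ F) u * (LT (1 - 1 / (200 * K)) i *ᵥ F) u ≤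
      (200 * K * (∑ i, (LT 1 i *ᵥ F) u ^ 2) / θ' + θ') / 2 := fun θ' hθ' u =>
    bessel (sub_nonneg.2 ((div_le_one hk0).2 hk)) (by have := one_div_pos.2 hk0; linarith)
      (by rw [sub_sub_cancel, div_le_iff₀ (one_div_pos.2 hk0)]
          have := one_div_pos.2 hk0
          have e : 200 * K * (1 / (200 * K)) = 1 := by field_simp
          linarith) hθ' F (fun u => phi_abs _) _ u
  have hsplit : ∀ (T : Finset (ι → Ξ)) (θ' : ℝ), 0 < θ' →
      ∑ u ∈ T, ∑ i, (LT 1 i *ᵥ F) u * (LT (1 - 1 / (200 * K)) i *ᵥ F) u ≤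
      (200 * K * (∑ i, ∑ u ∈ T, (LT 1 i *ᵥ F) u ^ 2) / θ' + θ' * T.card) / 2 := by
    intro T θ' hθ'
    refine (Finset.sum_le_sum fun u _ => hb θ' hθ' u).trans (le_of_eq ?_)
    rw [← Finset.sum_div, Finset.sum_add_distrib, ← Finset.sum_div, ← Finset.mul_sum,
      Finset.sum_comm]
    simp [mul_comm]
  have s1 := hsplit mid (20000 * K ^ 2) (by positivity)
  have s2 := hsplit midᶜ (4 / 100) (by norm_num)
  rw [← Finset.sum_add_sum_compl mid
    fun u => ∑ i, (LT 1 i *ᵥ F) u * (LT (1 - 1 / (200 * K)) i *ᵥ F) u] at hp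
  have t1 : ∑ i, ∑ u ∈ mid, (LT 1 i *ᵥ F) u ^ 2 ≤ 8 * K * N :=
    (Finset.sum_le_sum fun i _ => Finset.sum_le_sum_of_subset_of_nonneg (Finset.subset_univ _)
      fun _ _ _ => sq_nonneg _).trans hIF
  have t2 : (∑ i, ∑ u, (LT 1 i *ᵥ F) u ^ 2) / (200 * K) ≤ 4 / 100 * N := by
    rw [div_le_iff₀ hk0]; linarith
  have t3 : 200 * K * (∑ i, ∑ u ∈ mid, (LT 1 i *ᵥ F) u ^ 2) / (20000 * K ^ 2) ≤ 8 / 100 * N := by
    rw [div_le_iff₀ (by positivity)]
    nlinarith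
  have t4 : 20000 * K ^ 2 * (mid.card : ℝ) ≤ 4 / 100 * N := by
    have a1 := mul_le_mul_of_nonneg_left hmidc (show 0 ≤ 20000 * K ^ 2 by positivity)
    have a2 := mul_le_mul_of_nonneg_right hε2 hN.le
    nlinarith
  have t5 : 200 * K * (∑ i, ∑ u ∈ midᶜ, (LT 1 i *ᵥ F) u ^ 2) / (4 / 100) ≤ 2 / 100 * N := by
    rw [div_le_iff₀ (by norm_num)]
    have a1 := mul_le_mul_of_nonneg_left hoff hk0.le
    have a2 := mul_le_mul_of_nonneg_right hκ hN.le
    nlinarith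
  have t6 : ((midᶜ).card : ℝ) ≤ N := by
    rw [hNdef]; exact_mod_cast Finset.card_le_univ _
  linarith

end Pool.Agent.P.MP_8a730c_lc
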