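import Pool.Agent.P.MP_8a730c_lc.Defs

/-! Unique games and the gap version of crossing number on all graphs. -/

namespace Pool.Agent.P.MP_8a730c_lc

/-- A unique game with alphabet size `q`: a list of edges `(u, v, π)`; the left vertices `u` and
the right vertices `v` are named by bit strings. -/
abbrev Game (q : ℕ) := List (List Bool × List Bool × Equiv.Perm (Fin q))

/-- The input encoding of a game; a permutation is written as its permutation matrix. -/
def Game.code {q : ℕ} (E : Game q) : List Bool :=
  N487b59b3.bitEncode (E.map fun e =>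
    (e.1, e.2.1, List.ofFn fun a => List.ofFn fun b => decide (e.2.2 a = b)))

/-- The number of edges satisfied by the labelings `f` of the left and `g` of the right vertices. -/
def Game.sat {q : ℕ} (E : Game q) (f g : List Bool → Fin q) : ℕ :=
  E.countP fun e => decide (e.2.2 (f e.1) = g e.2.1)

/-- Games of value at least `1 - ε`. -/
def UGyes (q : ℕ) (ε : ℚ) : Set (List Bool) :=
  {x | ∃ E : Game q, x = E.code ∧ E ≠ [] ∧ ∃ f g, (1 - ε) * E.length ≤ E.sat f g}

/-- Games of value at most `δ`. -/
def UGno (q : ℕ) (δ : ℚ) : Set (List Bool) :=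
  {x | ∃ E : Game q, x = E.code ∧ E ≠ [] ∧ ∀ f g, (E.sat f g : ℚ) ≤ δ * E.length}

/-- The unique games conjecture of Khot. -/
def UGC : Prop :=
  ∀ ε δ : ℚ, 0 < ε → 0 < δ → ε + δ < 1 → ∃ q : ℕ, 0 < q ∧ NPHard (UGyes q ε) (UGno q δ)

/-- Pairs (graph, number `k`) with crossing number at most `k`. -/
def CrLe : Set (List Bool) :=
  {x | ∃ (n : ℕ) (G : SimpleGraph (Fin n)) (k : ℕ), x = N487b59b3.bitEncode (adjMatrix G, k) ∧
    cr G ≤ k}

/-- Pairs (graph, number `k`) with crossing number above `c k`. -/
def CrGt (c : ℝ) : Set (List Bool) :=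
  {x | ∃ (n : ℕ) (G : SimpleGraph (Fin n)) (k : ℕ), x = N487b59b3.bitEncode (adjMatrix G, k) ∧
    c * k < cr G}

end Pool.Agent.P.MP_8a730c_lc
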