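import Pool.Agent.P.MP_8a730c_lc.UGTest
import Pool.Agent.P.MP_8a730c_lc.FlipLow
import Pool.Agent.P.MP_8a730c_lc.Reduce

/-! The reduction from unique games to the gap version of crossing number. -/

namespace Pool.Agent.P.MP_8a730c_lc

open Pool.Agent.Lib.NP N487b59b3 N68a2faeb Finset

def ix (l : List (List Bool)) (u : List Bool) : ℕ :=
  ((List.range l.length).filter fun k => l.getD k [] == u).headD 0

theorem ix_spec {l : List (List Bool)} {u : List Bool} (h : u ∈ l) :
    ix l u < l.length ∧ l.getD (ix l u) [] = u := by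
  obtain ⟨k, k1, k2⟩ := List.getElem_of_mem h
  have m : k ∈ (List.range l.length).filter fun k => l.getD k [] == u := by simp [k1, k2]
  have : ix l u ∈ (List.range l.length).filter fun k => l.getD k [] == u := by
    rw [ix]
    generalize (List.range l.length).filter _ = r at m
    cases r with
    | nil => cases m
    | cons a r => simp
  simpa using this

theorem viol_card (L : List (ℕ × ℕ)) (σ : ℕ → Bool) :
    (viol L σ).card = L.countP fun p => side σ p.1 != side σ p.2 := by
  have e : L = (List.range L.length).map fun j => L.getD j (0, 0) :=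
    List.ext_getElem (by simp) fun i h1 h2 => by simp [h1]
  conv_rhs => rw [e, List.countP_map, List.countP_eq_length_filter]
  rw [viol, ← List.toFinset_card_of_nodup (List.nodup_range.filter _)]
  congr 1; ext j; simp

variable {q : ℕ} [NeZero q]

noncomputable def cE (q : ℕ) : Cube q ≃ Fin (2 ^ q) := Fintype.equivFinOfCardEq (by simp)

noncomputable def off (x : Cube q) : ℕ := 2 * cE q (fun i => xor (x i) (x 0)) + (x 0).toNat

def pm (π : Equiv.Perm (Fin q)) : List (List Bool) :=
  List.ofFn fun a => List.ofFn fun b => decide (π a = b)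

omit [NeZero q] in
theorem pm_inj : Function.Injective (pm : Equiv.Perm (Fin q) → _) := by
  intro π π' h
  ext a
  have := congrFun (List.ofFn_injective (congrFun (List.ofFn_injective h) a)) (π a)
  simp only [decide_true, true_eq_decide_iff] at this
  rw [this]

noncomputable def offP (A : List (List Bool)) (x : Cube q) : ℕ :=
  ∑ π : Equiv.Perm (Fin q), if A = pm π then off (x ∘ π) else 0

theorem offP_eq (π : Equiv.Perm (Fin q)) (x : Cube q) : offP (pm π) x = off (x ∘ π) := by
  simp [offP, pm_inj.eq_iff]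

theorem off_lt (x : Cube q) : off x < 2 * 2 ^ q := by
  have := (cE q (fun i => xor (x i) (x 0))).2
  have := Bool.toNat_le (x 0)
  rw [off]; omega

/-- The function written by an assignment in a slot. -/
noncomputable def fn (σ : ℕ → Bool) (g : ℕ) (x : Cube q) : Bool := side σ (2 * (2 ^ q * g) + off x)

theorem fn_eq (σ : ℕ → Bool) (g : ℕ) (x : Cube q) :
    fn σ g x = xor (σ (2 ^ q * g + cE q fun i => xor (x i) (x 0))) (x 0) := by
  rw [fn, side, off]
  congr 1
  · congr 1; have := Bool.toNat_le (x 0); omega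
  · cases x 0 <;> simp

theorem fn_odd (σ : ℕ → Bool) (g : ℕ) (x : Cube q) : fn σ g (fun i => !x i) = !fn σ g x := by
  simp [fn_eq]

theorem exists_fn (lab : ℕ → Fin q) : ∃ σ, ∀ g, fn σ g = fun x => x (lab g) := by
  refine ⟨fun u => (cE q).symm ⟨u % 2 ^ q, Nat.mod_lt _ (by positivity)⟩ (lab (u / 2 ^ q)),
    fun g => funext fun x => ?_⟩
  have := (cE q (fun i => xor (x i) (x 0))).2
  simp [fn_eq, Nat.mul_add_div, Nat.div_eq_of_lt this, Nat.mod_eq_of_lt this]

abbrev Inst := List (List Bool × List Bool × List (List Bool))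

def su (A : Inst) (u : List Bool) : ℕ := ix (A.map fun e => e.1) u

def sv (A : Inst) (v : List Bool) : ℕ := A.length + ix (A.map fun e => e.2.1) v

noncomputable def con {lam : ℕ} (A : Inst) (e : List Bool × List Bool × List (List Bool)) :
    Cube q × (Fin q ⊕ Fin lam) → ℕ × ℕ
  | (x, .inl i) => (2 * (2 ^ q * su A e.1) + off x, 2 * (2 ^ q * su A e.1) + off (flip i x))
  | (x, .inr _) => (2 * (2 ^ q * su A e.1) + offP e.2.2 x, 2 * (2 ^ q * sv A e.2.1) + off x)

noncomputable def cons (q lam : ℕ) [NeZero q] (A : Inst) : List (ℕ × ℕ) :=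
  A.flatMap fun e => (univ : Finset (Cube q × (Fin q ⊕ Fin lam))).toList.map (con A e)

def inst (E : Game q) : Inst := E.map fun e => (e.1, e.2.1, pm e.2.2)

theorem cons_viol (lam : ℕ) (E : Game q) (σ : ℕ → Bool) : (viol (cons q lam (inst E)) σ).card =
    (E.map fun e => cost lam (fn σ (su (inst E) e.1)) (fn σ (sv (inst E) e.2.1)) e.2.2).sum := by
  rw [viol_card, cons, List.countP_flatMap]
  conv_lhs => enter [1, 2]; rw [inst]
  rw [List.map_map]
  congr 2; funext e
  simp only [Function.comp, List.countP_map]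
  rw [List.countP_eq_length_filter, ← List.toFinset_card_of_nodup ((nodup_toList _).filter _),
    List.toFinset_filter, toList_toFinset, card_filter, Fintype.sum_prod_type_right,
    Fintype.sum_sum_type, cost]
  simp only [piv, card_filter, con, offP_eq, fn, Function.comp, bne_iff_ne, sum_const, card_univ,
    Fintype.card_fin, smul_eq_mul]

theorem cons_lt (lam : ℕ) (E : Game q) : ∀ p ∈ cons q lam (inst E),
    p.1 < 2 * (2 ^ q * (2 * E.length)) ∧ p.2 < 2 * (2 ^ q * (2 * E.length)) := by
  intro p hp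
  simp only [cons, List.mem_flatMap, List.mem_map] at hp
  obtain ⟨e, he, ⟨x, t⟩, -, rfl⟩ := hp
  have a1 := (ix_spec (List.mem_map_of_mem (f := fun e => e.1) he)).1
  have a2 := (ix_spec (List.mem_map_of_mem (f := fun e => e.2.1) he)).1
  have a3 : (inst E).length = E.length := by simp [inst]
  obtain ⟨e, -, rfl⟩ := List.mem_map.1 he
  have key : ∀ g < 2 * E.length, ∀ y : Cube q,
      2 * (2 ^ q * g) + off y < 2 * (2 ^ q * (2 * E.length)) := fun g hg y => by
    have := off_lt y
    have := Nat.mul_le_mul_left (2 ^ q) (Nat.succ_le_of_lt hg)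
    rw [Nat.mul_succ] at this; omega
  simp only [List.length_map] at a1 a2
  rcases t with i | i <;> simp only [con, offP_eq, su, sv] <;>
    exact ⟨key _ (by omega) _, key _ (by omega) _⟩

theorem cons_pos (lam : ℕ) {E : Game q} (hE : E ≠ []) : 0 < (cons q lam (inst E)).length := by
  obtain ⟨e, he⟩ := List.exists_mem_of_ne_nil E hE
  exact List.length_pos_of_mem (List.mem_flatMap.2 ⟨_, List.mem_map_of_mem he,
    List.mem_map_of_mem (mem_toList.2 (mem_univ (fun _ => true, .inl 0)))⟩)

theorem pt_map_const {α β ι : Type} [Enc α] [Enc β] (l : List ι) {f : α → ι → β}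
    (h : ∀ i, PT fun a => f a i) : PT fun a => l.map (f a) := by
  induction l with
  | nil => exact PT.const _
  | cons i l ih => exact (h i).cons ih

theorem pt_ix : PT fun p : List (List Bool) × List Bool => ix p.1 p.2 := by unfold ix; fun_prop

theorem pt_cons (q lam : ℕ) [NeZero q] : PT (cons q lam) := by
  have h1 : PT fun p : Inst × List Bool × List Bool × List (List Bool) => su p.1 p.2.1 := by
    have := pt_ix.comp (g := fun p : Inst × List Bool × List Bool × List (List Bool) =>
      (p.1.map fun e => e.1, p.2.1)) (by fun_prop)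
    exact this
  have h2 : PT fun p : Inst × List Bool × List Bool × List (List Bool) => sv p.1 p.2.2.1 := by
    have := pt_ix.comp (g := fun p : Inst × List Bool × List Bool × List (List Bool) =>
      (p.1.map fun e => e.2.1, p.2.2.1)) (by fun_prop)
    exact PT.add (by fun_prop) this
  refine PT.flatMap (pt_map_const _ ?_) PT.id'
  rintro ⟨x, i | i⟩
  · exact (((PT.const _).mul ((PT.const _).mul h1)).add (PT.const _)).mk
      (((PT.const _).mul ((PT.const _).mul h1)).add (PT.const _))
  · exact (((PT.const _).mul ((PT.const _).mul h1)).add (pt_sum _ fun π => by fun_prop)).mk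
      (((PT.const _).mul ((PT.const _).mul h2)).add (PT.const _))

def adjF (n W P : ℕ) (L : List (ℕ × ℕ)) (u v : ℕ) : Bool :=
  decide (u ≠ v) && (arcB n W P L u v || arcB n W P L v u)

def outF (n W P k : ℕ) (L : List (ℕ × ℕ)) : List Bool :=
  delimit (enc ((List.range ((12 * n + 3) * P)).map fun u =>
    (List.range ((12 * n + 3) * P)).map fun v => adjF n W P L u v)) ++ Computability.encodeNat k

theorem outF_eq (n W P k : ℕ) (L : List (ℕ × ℕ)) :
    outF n W P k L = bitEncode (adjMatrix (flipG n W P L), k) := by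
  rw [outF, adjMatrix_eq (flipG n W P L) (adjF n W P L)]
  · rfl
  · intro i j; simp [flipG, adjF, Fin.val_inj]

theorem pt_arcB : PT fun p : (ℕ × ℕ × ℕ × List (ℕ × ℕ)) × ℕ × ℕ =>
    arcB p.1.1 p.1.2.1 p.1.2.2.1 p.1.2.2.2 p.2.1 p.2.2 := by
  unfold arcB isMid eLo eHi gMid gLo gHi lit; fun_prop

theorem pt_outF : PT fun p : (ℕ × ℕ × ℕ × List (ℕ × ℕ)) × ℕ =>
    outF p.1.1 p.1.2.1 p.1.2.2.1 p.2 p.1.2.2.2 := by
  have h1 : PT fun p : (ℕ × ℕ × ℕ × List (ℕ × ℕ)) × ℕ × ℕ =>
      adjF p.1.1 p.1.2.1 p.1.2.2.1 p.1.2.2.2 p.2.1 p.2.2 := by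
    have := pt_arcB.comp (g := fun p : (ℕ × ℕ × ℕ × List (ℕ × ℕ)) × ℕ × ℕ => (p.1, p.2.2, p.2.1))
      (by fun_prop)
    exact PT.and (by fun_prop) (pt_arcB.or this)
  have h2 : PT fun p : (ℕ × ℕ × ℕ × List (ℕ × ℕ)) × ℕ =>
      (List.range p.2).map fun u => (List.range p.2).map fun v =>
        adjF p.1.1 p.1.2.1 p.1.2.2.1 p.1.2.2.2 u v := by
    refine PT.map (PT.map ?_ (by fun_prop)) (by fun_prop)
    have := h1.comp (g := fun p : (((ℕ × ℕ × ℕ × List (ℕ × ℕ)) × ℕ) × ℕ) × ℕ =>
      (p.1.1.1, p.1.2, p.2)) (by fun_prop)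
    exact this
  have h3 := h2.comp (g := fun p : (ℕ × ℕ × ℕ × List (ℕ × ℕ)) × ℕ =>
    (p.1, (12 * p.1.1 + 3) * p.1.2.2.1)) (by fun_prop)
  exact h3.enc'.delimit'.append (PT.id'.snd.encodeNat)

def redF (q c m : ℕ) (L : List (ℕ × ℕ)) : List Bool :=
  outF (2 ^ q * (2 * m)) ((2 * L.length) ^ 2)
    (2 * (c * ((2 * L.length) ^ 2 * (2 * 2 ^ q * m + 1))) + 1 + (2 * L.length) ^ 2 + L.length)
    ((2 * L.length) ^ 2 * (2 * 2 ^ q * m + 1)) L

theorem pt_redF (q c : ℕ) : PT fun p : ℕ × List (ℕ × ℕ) => redF q c p.1 p.2 := by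
  have := pt_outF.comp (g := fun p : ℕ × List (ℕ × ℕ) => ((2 ^ q * (2 * p.1), (2 * p.2.length) ^ 2,
    2 * (c * ((2 * p.2.length) ^ 2 * (2 * 2 ^ q * p.1 + 1))) + 1 + (2 * p.2.length) ^ 2 +
      p.2.length, p.2), (2 * p.2.length) ^ 2 * (2 * 2 ^ q * p.1 + 1))) (by fun_prop)
  exact this

theorem ug_reduces (c : ℝ) : ∃ η : ℚ, 0 < η ∧ η < 1 / 2 ∧ ∀ q : ℕ, 0 < q →
    Reduces (UGyes q η) (UGno q η) CrLe (CrGt c) := by
  obtain ⟨C, hC⟩ : ∃ C : ℕ, C = 3 * ⌈c⌉₊ + 1 := ⟨_, rfl⟩
  obtain ⟨lam, hl⟩ : ∃ lam : ℕ, lam = 8 * (3 * 9 ^ (2 * C) * (2 * C)) ^ 2 * (2 * C) + 1 := ⟨_, rfl⟩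
  have hC0 : 0 < C := by omega
  have hl3 : (3 : ℚ) ≤ lam := by
    have : 0 < (3 * 9 ^ (2 * C) * (2 * C)) ^ 2 * (2 * C) := by positivity
    exact_mod_cast (by rw [hl, mul_assoc]; omega : 3 ≤ lam)
  have hl0 : (0 : ℚ) < lam := by linarith
  refine ⟨1 / lam, by positivity, one_div_lt_one_div_of_lt two_pos (by linarith), fun q hq => ?_⟩
  have : NeZero q := ⟨hq.ne'⟩
  obtain ⟨dec, hdec, hdec'⟩ := (HasDec.bool.list.prod (HasDec.bool.list.prod
    HasDec.bool.list.list)).list
  have hdec2 : ∀ E : Game q, dec E.code = inst E := fun E => hdec' _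
  have hlen : ∀ E : Game q, (inst E).length = E.length := fun E => by simp [inst]
  have hpt := (pt_redF q ⌈c⌉₊).comp (hdec.length.mk ((pt_cons q lam).comp hdec))
  refine ⟨_, hpt.isPolyTime_fun, ?_, ?_⟩
  · rintro x ⟨E, rfl, hE, f, g, h⟩
    have h0 : 0 < E.length := List.length_pos_iff.2 hE
    simp only [hdec2, hlen, redF, outF_eq]
    obtain ⟨σ, hσ⟩ := exists_fn fun s => if s < E.length then
      f (((inst E).map fun e => e.1).getD s []) else
      g (((inst E).map fun e => e.2.1).getD (s - E.length) [])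
    refine ⟨_, _, _, rfl, (flip_upper (cons_lt lam E) (by positivity) σ).trans ?_⟩
    rw [mul_add, mul_one]
    refine Nat.add_le_add_right (Nat.mul_le_mul_left _ ?_) _
    have t := test_yes lam E f g
    rw [cons_viol, List.map_congr_left
      (g := fun e => cost lam (fun x => x (f e.1)) (fun x => x (g e.2.1)) e.2.2)]
    · have h1 : lam * E.length ≤ lam * E.sat f g + E.length := by
        have := mul_le_mul_of_nonneg_left h hl0.le
        rw [← mul_assoc, mul_sub, mul_one_div_cancel hl0.ne'] at this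
        exact_mod_cast (by linarith : (lam * E.length : ℚ) ≤ lam * E.sat f g + E.length)
      have := Nat.mul_le_mul_left (2 ^ q) h1
      nlinarith
    · intro e he
      have m : (e.1, e.2.1, pm e.2.2) ∈ inst E := List.mem_map_of_mem he
      have a1 := ix_spec (List.mem_map_of_mem (f := fun e => e.1) m)
      have a2 := ix_spec (List.mem_map_of_mem (f := fun e => e.2.1) m)
      simp only [List.length_map, hlen] at a1 a2
      rw [hσ, hσ, su, sv, hlen, if_pos a1.1, if_neg (by omega), Nat.add_sub_cancel_left, a1.2, a2.2]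
  · rintro x ⟨E, rfl, hE, h⟩
    have h0 : 0 < E.length := List.length_pos_iff.2 hE
    simp only [hdec2, hlen, redF, outF_eq]
    refine ⟨_, _, _, rfl, lt_of_le_of_lt
      (mul_le_mul_of_nonneg_right (Nat.le_ceil c) (by positivity)) ?_⟩
    rw [← Nat.cast_mul, Nat.cast_lt]
    by_contra hc
    have hm := cons_pos lam hE
    have := flip_lower (U := C * 2 ^ q * E.length + 1) (cons_lt lam E) (by omega) (by omega)
      (fun σ => by
        rw [cons_viol]
        refine test_no hq hC0 E (fun u => fn σ (su (inst E) u)) (fun v => fn σ (sv (inst E) v))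
          (fun u => fn_odd σ _) hl hE fun f g => ?_
        have := mul_le_mul_of_nonneg_left (h f g) hl0.le
        rw [← mul_assoc, mul_one_div_cancel hl0.ne', one_mul] at this
        exact_mod_cast this) (lt_of_le_of_lt (Nat.mul_le_mul_left 2 (not_lt.1 hc)) (by omega))
    have k := this.trans (not_lt.1 hc)
    rw [mul_left_comm] at k
    have k1 := Nat.le_of_mul_le_mul_left k (by positivity)
    have k2 : 0 < 2 ^ q * E.length := by positivity
    rw [hC] at k1
    nlinarith

end Pool.Agent.P.MP_8a730c_lc
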