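import Pool.Agent.P.MP_8a730c_lc.UGDefs
import Pool.Agent.P.MP_8a730c_lc.KKL

/-! The long code test for unique games. -/

namespace Pool.Agent.P.MP_8a730c_lc

open Finset

variable {q : ℕ}

theorem piv_comp (f : Cube q → Bool) (π : Equiv.Perm (Fin q)) (a : Fin q) :
    piv (fun x => f (x ∘ π)) (π a) = piv f a := by
  refine card_equiv (π.symm.arrowCongr (Equiv.refl _)) fun x => ?_
  have : flip (π a) x ∘ π = flip a (x ∘ π) := by
    rw [flip, Function.update_comp_eq_of_injective _ π.injective]; rfl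
  simp only [mem_filter, mem_univ, true_and, this]
  rfl

theorem piv_le (f g : Cube q → Bool) (i : Fin q) : piv f i ≤ piv g i + 2 * #{x | f x ≠ g x} := by
  have e : #{x | f (flip i x) ≠ g (flip i x)} = #{x | f x ≠ g x} := by
    refine card_bij' (fun x _ => flip i x) (fun x _ => flip i x) ?_ ?_ ?_ ?_ <;> simp [flip]
  rw [two_mul]
  nth_rw 1 [← e]
  refine le_trans (card_le_card fun x => ?_)
    ((card_union_le _ _).trans (Nat.add_le_add_left (card_union_le _ _) _))
  simp only [mem_filter, mem_univ, true_and, mem_union]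
  cases f x <;> cases g x <;> cases f (flip i x) <;> cases g (flip i x) <;> simp

/-- The number of tests violated at an edge. -/
def cost (lam : ℕ) (f g : Cube q → Bool) (π : Equiv.Perm (Fin q)) : ℕ :=
  ∑ i, piv f i + lam * #{x | f (x ∘ π) ≠ g x}

theorem cost_dict (lam : ℕ) (a b : Fin q) (π : Equiv.Perm (Fin q)) :
    cost lam (fun x => x a) (fun x => x b) π ≤ 2 ^ q + lam * (if π a = b then 0 else 2 ^ q) := by
  refine add_le_add ?_ (Nat.mul_le_mul_left _ ?_)
  · rw [sum_eq_single a]
    · exact (card_le_univ _).trans (by simp)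
    · intro b _ hb
      simp [piv, flip, Function.update_of_ne hb.symm]
    · simp
  · split_ifs with h
    · simp [h]
    · exact (card_le_univ _).trans (by simp)

theorem test_yes (lam : ℕ) (E : Game q) (f g : List Bool → Fin q) :
    (E.map fun e => cost lam (fun x => x (f e.1)) (fun x => x (g e.2.1)) e.2.2).sum +
      lam * 2 ^ q * E.sat f g ≤ (1 + lam) * 2 ^ q * E.length := by
  induction E with
  | nil => simp [Game.sat]
  | cons e E ih =>
    have := cost_dict lam (f e.1) (g e.2.1) e.2.2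
    simp only [Game.sat, List.map_cons, List.sum_cons, List.countP_cons, List.length_cons,
      decide_eq_true_eq] at ih ⊢
    split_ifs at this ⊢ <;> nlinarith

theorem decode (hq : 0 < q) {K : ℕ} (hK : 0 < K) : ∃ (a : (Cube q → Bool) → Fin q)
    (b : ℕ → (Cube q → Bool) → Fin q), ∀ f g π, (∀ x, f (fun i => !x i) = !f x) →
      cost (8 * (3 * 9 ^ K * K) ^ 2 * K + 1) f g π ≤ K * 2 ^ q →
      ∃ t < 4 * (3 * 9 ^ K * K) ^ 2 * K, π (a f) = b t g := by
  classical
  obtain ⟨M, hM⟩ : ∃ M, M = (3 * 9 ^ K * K) ^ 2 := ⟨_, rfl⟩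
  let S : (Cube q → Bool) → Finset (Fin q) := fun g => {i | 2 ^ q ≤ 2 * M * piv g i}
  refine ⟨fun f => if h : ∃ i, 2 ^ q ≤ M * piv f i then h.choose else ⟨0, hq⟩,
    fun t g => (S g).toList.getD t ⟨0, hq⟩, fun f g π hf hc => ?_⟩
  rw [cost, ← hM] at hc
  have h := kkl f hf K hK (by omega)
  rw [← hM] at h ⊢
  simp only [dif_pos h]
  have h1 := h.choose_spec
  generalize h.choose = a at h1
  obtain ⟨d, hd⟩ : ∃ d, d = #{x | f (x ∘ π) ≠ g x} := ⟨_, rfl⟩
  have p1 : ∀ i, piv f i ≤ piv g (π i) + 2 * d := fun i => by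
    rw [← piv_comp f π, hd]; exact piv_le _ _ _
  have p2 : ∀ i, piv g (π i) ≤ piv f i + 2 * d := fun i => by
    rw [← piv_comp f π, hd]; simp only [ne_comm (a := f _)]; exact piv_le _ _ _
  rw [← hd] at hc
  have d1 : 8 * M * d ≤ 2 ^ q := Nat.le_of_mul_le_mul_left
    (by nlinarith [Nat.zero_le (∑ i, piv f i), Nat.zero_le d]) hK
  have m1 : π a ∈ (S g).toList := by
    simp only [S, mem_toList, mem_filter, mem_univ, true_and]
    nlinarith [p1 a]
  have m2 : (S g).card ≤ 4 * M * K := by
    refine Nat.le_of_mul_le_mul_right ?_ (Nat.two_pow_pos q)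
    have := card_nsmul_le_sum (S g) (fun i => 4 * M * piv f (π.symm i)) (2 ^ q) fun i hi => by
      simp only [S, mem_filter, mem_univ, true_and] at hi
      have := p2 (π.symm i)
      rw [π.apply_symm_apply] at this
      nlinarith
    refine this.trans ((sum_le_sum_of_subset (subset_univ _)).trans ?_)
    rw [← mul_sum, π.symm.sum_comp (piv f), mul_assoc _ K]
    exact Nat.mul_le_mul_left _ (by omega)
  obtain ⟨t, t1, t2⟩ := List.getElem_of_mem m1
  refine ⟨t, t1.trans_le (by rw [length_toList]; exact m2), ?_⟩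
  rw [List.getD_eq_getElem _ _ t1, t2]

theorem test_no (hq : 0 < q) {C : ℕ} (hC : 0 < C) (E : Game q) (F G : List Bool → Cube q → Bool)
    (hF : ∀ u x, F u (fun i => !x i) = !F u x) {lam : ℕ}
    (hl : lam = 8 * (3 * 9 ^ (2 * C) * (2 * C)) ^ 2 * (2 * C) + 1) (hE : E ≠ [])
    (h : ∀ f g, lam * E.sat f g ≤ E.length) :
    C * 2 ^ q * E.length < (E.map fun e => cost lam (F e.1) (G e.2.1) e.2.2).sum := by
  obtain ⟨a, b, hab⟩ := decode hq (K := 2 * C) (by omega)
  rw [← hl] at hab
  obtain ⟨s, hs⟩ : ∃ s, s = 4 * (3 * 9 ^ (2 * C) * (2 * C)) ^ 2 * (2 * C) := ⟨_, rfl⟩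
  rw [← hs] at hab
  have key : ∀ E : Game q, 2 * C * 2 ^ q * E.length ≤
      (E.map fun e => cost lam (F e.1) (G e.2.1) e.2.2).sum + 2 * C * 2 ^ q *
        ∑ t ∈ range s, E.sat (fun u => a (F u)) fun v => b t (G v) := by
    intro E
    induction E with
    | nil => simp
    | cons e E ih =>
      simp only [Game.sat, List.map_cons, List.sum_cons, List.countP_cons, List.length_cons,
        decide_eq_true_eq, sum_add_distrib] at ih ⊢
      by_cases c : cost lam (F e.1) (G e.2.1) e.2.2 ≤ 2 * C * 2 ^ q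
      · obtain ⟨t, t1, t2⟩ := hab _ _ _ (hF e.1) c
        have := single_le_sum (f := fun t => if e.2.2 (a (F e.1)) = b t (G e.2.1) then 1 else 0)
          (fun _ _ => Nat.zero_le _) (mem_range.2 t1)
        simp only [if_pos t2] at this
        have := Nat.mul_le_mul_left (2 * C * 2 ^ q) this
        nlinarith
      · nlinarith [Nat.zero_le (2 * C * 2 ^ q *
          ∑ t ∈ range s, if e.2.2 (a (F e.1)) = b t (G e.2.1) then 1 else 0)]
  have k1 := key E
  have k2 : lam * ∑ t ∈ range s, E.sat (fun u => a (F u)) (fun v => b t (G v)) ≤ s * E.length := by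
    rw [mul_sum]
    simpa using sum_le_card_nsmul (range s) _ _ fun t _ => h (fun u => a (F u)) fun v => b t (G v)
  have k3 : lam = 2 * s + 1 := by rw [hl, hs]; ring
  have k4 : 0 < E.length := List.length_pos_iff.2 hE
  generalize ∑ t ∈ range s, E.sat (fun u => a (F u)) (fun v => b t (G v)) = y at *
  have k5 : 2 * y < E.length := by
    by_contra hc
    have := Nat.mul_le_mul_left s (not_lt.1 hc)
    nlinarith
  have k6 := Nat.mul_lt_mul_of_pos_left k5 (show 0 < C * 2 ^ q by positivity)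
  nlinarith

end Pool.Agent.P.MP_8a730c_lc
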